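import Mathlib
import Pool.Agent.Run7.h424.DC.Sl

/-!
# The factorizations `n = b c` and the two linear systems
-/

set_option autoImplicit false

attribute [-instance] DivisionRing.toRatAlgebra

namespace Pool.Agent.Run7.h289.D18

open Finset
open Run7.h843.Sha Run7.h843.Desc
open Run7.h424.DC
open Pool.Agent.Y703.CQ (nr)
open Pool.Agent.N969.P15 (Qc)

variable {n : ℕ}

/-- the positive classes -/
theorem fin2 (hn : Squarefree n) (hQ : Qc n) {X : ℤ} (hX0 : 0 < X)
    (hXn : X.natAbs ∣ n)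
    (hloc : ∀ p : ℕ, ∀ hp : p ∈ n.primeFactors, @SqP p ⟨Nat.prime_of_mem_primeFactors hp⟩ (X : ℚ) ∨
      @SqP p ⟨Nat.prime_of_mem_primeFactors hp⟩ ((1 * n * X : ℤ) : ℚ)) : X = 1 ∨ X = n := by
  obtain ⟨c, hc⟩ := hXn
  have hXN : ((X.natAbs : ℕ) : ℤ) = X := by omega
  have hXc : (n : ℤ) = X * (c : ℤ) := by
    rw [← hXN]
    exact_mod_cast hc
  have hat : ∀ p ∈ n.primeFactors, (¬ (p : ℤ) ∣ X ∧ (p : ℤ) ∣ c ∧ IsSquare (X : ZMod p)) ∨
      ((p : ℤ) ∣ X ∧ ¬ (p : ℤ) ∣ 1 * c ∧ IsSquare ((1 * c : ℤ) : ZMod p)) := by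
    intro p hp
    have : Fact p.Prime := ⟨Nat.prime_of_mem_primeFactors hp⟩
    exact at_p hn hp (Or.inl rfl) hXc (hloc p hp)
  have hfin := hQ X.natAbs c hc.symm (by
    intro p hp
    have hpp := Nat.prime_of_mem_primeFactors hp
    have : Fact p.Prime := ⟨hpp⟩
    have hpn : p ∈ n.primeFactors := Nat.mem_primeFactors.2 ⟨hpp,
      (Nat.dvd_of_mem_primeFactors hp).trans ⟨X.natAbs, by rw [hc, mul_comm]⟩, hn.ne_zero⟩
    have hpc : (p : ℤ) ∣ c := by exact_mod_cast Nat.dvd_of_mem_primeFactors hp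
    rcases hat p hpn with ⟨h1, -, h2⟩ | ⟨-, h1, -⟩
    · rw [jac_iff, hXN]
      · exact h2
      · intro h3
        exact h1 (Int.natCast_dvd.2 h3)
    · exact absurd (by rw [one_mul]; exact hpc) h1) (by
    intro p hp
    have hpp := Nat.prime_of_mem_primeFactors hp
    have : Fact p.Prime := ⟨hpp⟩
    have hpn : p ∈ n.primeFactors := Nat.mem_primeFactors.2 ⟨hpp,
      (Nat.dvd_of_mem_primeFactors hp).trans ⟨c, hc⟩, hn.ne_zero⟩
    have hpX : (p : ℤ) ∣ X := Int.natCast_dvd.2 (Nat.dvd_of_mem_primeFactors hp)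
    rcases hat p hpn with ⟨h1, -, -⟩ | ⟨-, h1, h2⟩
    · exact absurd hpX h1
    · rw [one_mul] at h1 h2
      rw [jac_iff]
      · exact h2
      · exact_mod_cast h1)
  rcases hfin with h1 | h1
  · left
    omega
  · right
    rw [hXc, h1]
    push_cast
    ring

/-- the classes `1` modulo `4` -/
theorem fin1 (hn : Squarefree n) (hn4 : n % 4 = 3) (hQ : Qc n) {X : ℤ} (hXs : Squarefree X.natAbs)
    (hX4 : X % 4 = 1) (hXn : X.natAbs ∣ n)
    (hloc : ∀ p : ℕ, ∀ hp : p ∈ n.primeFactors, @SqP p ⟨Nat.prime_of_mem_primeFactors hp⟩ (X : ℚ) ∨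
      @SqP p ⟨Nat.prime_of_mem_primeFactors hp⟩ ((-1 * n * X : ℤ) : ℚ)) : X = 1 ∨ X = -n := by
  classical
  obtain ⟨c, hXc⟩ := Int.natAbs_dvd_natAbs.1 (by rwa [Int.natAbs_natCast] : X.natAbs ∣ (n : ℤ).natAbs)
  have hnc : n = X.natAbs * c.natAbs := by
    have := congrArg Int.natAbs hXc
    rwa [Int.natAbs_natCast, Int.natAbs_mul] at this
  have hsq2 : Squarefree (X.natAbs * c.natAbs) := hnc ▸ hn
  have hcs : Squarefree (-c).natAbs := by
    rw [Int.natAbs_neg]
    exact hsq2.of_mul_right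
  have hc4 : (-c) % 4 = 1 := by
    have h1 : (n : ℤ) % 4 = 3 := by omega
    rw [hXc, Int.mul_emod, hX4] at h1
    omega
  have hco : Nat.Coprime X.natAbs c.natAbs := (Nat.squarefree_mul_iff.1 hsq2).1
  have hpf : n.primeFactors = X.natAbs.primeFactors ∪ (-c).natAbs.primeFactors := by
    rw [Int.natAbs_neg]
    conv_lhs => rw [hnc]
    exact Nat.primeFactors_mul hXs.ne_zero hsq2.of_mul_right.ne_zero
  have hdisj : Disjoint X.natAbs.primeFactors (-c).natAbs.primeFactors := by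
    rw [Int.natAbs_neg]
    exact hco.disjoint_primeFactors
  have hat : ∀ p ∈ n.primeFactors, (¬ (p : ℤ) ∣ X ∧ (p : ℤ) ∣ c ∧ IsSquare (X : ZMod p)) ∨
      ((p : ℤ) ∣ X ∧ ¬ (p : ℤ) ∣ -1 * c ∧ IsSquare ((-1 * c : ℤ) : ZMod p)) := by
    intro p hp
    have : Fact p.Prime := ⟨Nat.prime_of_mem_primeFactors hp⟩
    exact at_p hn hp (Or.inr rfl) hXc (hloc p hp)
  set x : ℕ → ZMod 2 := fun q => if (q : ℤ) ∣ X then 1 else 0 with hx
  have hxX : ∀ q ∈ X.natAbs.primeFactors, x q = 1 := fun q hq => by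
    rw [hx]
    simp only
    rw [if_pos (Int.natCast_dvd.2 (Nat.dvd_of_mem_primeFactors hq))]
  have hxc : ∀ q ∈ (-c).natAbs.primeFactors, x q = 0 := fun q hq => by
    rw [hx]
    simp only
    rw [if_neg]
    intro h
    have h3 : q ∈ X.natAbs.primeFactors := Nat.mem_primeFactors.2
      ⟨Nat.prime_of_mem_primeFactors hq, Int.natCast_dvd.1 h, hXs.ne_zero⟩
    exact Finset.disjoint_left.1 hdisj h3 hq
  have h11 : (1 : ZMod 2) + 1 = 0 := by decide
  have hK := K_tr hn (by omega) hQ x (by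
    intro p hp
    obtain ⟨hpp, hp2, -⟩ := odd_pf (n := n) (by omega) hp
    have : Fact p.Prime := ⟨hpp⟩
    rw [hpf, sum_union hdisj]
    rcases hat p hp with ⟨h1, h1', h2⟩ | ⟨h1', h1, h2⟩
    · have hpc : p ∈ (-c).natAbs.primeFactors := Nat.mem_primeFactors.2
        ⟨hpp, by rw [Int.natAbs_neg]; exact Int.natCast_dvd.1 h1', hcs.ne_zero⟩
      have e1 : ∑ q ∈ X.natAbs.primeFactors, nr q p * (x q + x p) =
          ∑ q ∈ X.natAbs.primeFactors, nr q p := by
        refine sum_congr rfl fun q hq => ?_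
        rw [hxX q hq, hxc p hpc, add_zero, mul_one]
      have e2 : ∑ q ∈ (-c).natAbs.primeFactors, nr q p * (x q + x p) = 0 := by
        refine sum_eq_zero fun q hq => ?_
        rw [hxc q hq, hxc p hpc, add_zero, mul_zero]
      rw [e1, e2, add_zero]
      exact cls hXs hX4 hp2 h1 h2
    · have hpX : p ∈ X.natAbs.primeFactors := Nat.mem_primeFactors.2
        ⟨hpp, Int.natCast_dvd.1 h1', hXs.ne_zero⟩
      have e1 : ∑ q ∈ X.natAbs.primeFactors, nr q p * (x q + x p) = 0 := by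
        refine sum_eq_zero fun q hq => ?_
        rw [hxX q hq, hxX p hpX, h11, mul_zero]
      have e2 : ∑ q ∈ (-c).natAbs.primeFactors, nr q p * (x q + x p) =
          ∑ q ∈ (-c).natAbs.primeFactors, nr q p := by
        refine sum_congr rfl fun q hq => ?_
        rw [hxc q hq, hxX p hpX, zero_add, mul_one]
      rw [e1, e2, zero_add]
      rw [neg_one_mul] at h1 h2
      exact cls hcs hc4 hp2 h1 h2)
  by_cases hne : X.natAbs.primeFactors = ∅
  · left
    have h1 : X.natAbs = 1 := by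
      rcases Nat.primeFactors_eq_empty.1 hne with h | h
      · exact absurd h hXs.ne_zero
      · exact h
    omega
  · right
    obtain ⟨p0, hp0⟩ := Finset.nonempty_iff_ne_empty.2 hne
    have h1 : (-c).natAbs.primeFactors = ∅ := by
      rw [Finset.eq_empty_iff_forall_notMem]
      intro q hq
      have h3 := hK p0 (by rw [hpf]; exact mem_union_left _ hp0) q
        (by rw [hpf]; exact mem_union_right _ hq)
      rw [hxX p0 hp0, hxc q hq] at h3
      exact one_ne_zero h3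
    have h2 : (-c).natAbs = 1 := by
      rcases Nat.primeFactors_eq_empty.1 h1 with h | h
      · exact absurd h hcs.ne_zero
      · exact h
    have hc1 : c = -1 := by omega
    rw [hc1] at hXc
    omega

/-- the system has the trivial solutions only: then `Qc` -/
theorem Qc_of_K (hn : Squarefree n) (hn2 : n % 2 = 1)
    (hK : ∀ x : ℕ → ZMod 2, (∀ p ∈ n.primeFactors, ∑ q ∈ n.primeFactors, nr p q * (x q + x p) = 0) →
      ∀ p ∈ n.primeFactors, ∀ q ∈ n.primeFactors, x p = x q) : Qc n := by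
  classical
  intro b c hbc hb hc
  have hsq : Squarefree (b * c) := hbc ▸ hn
  have hbs : Squarefree b := hsq.of_mul_left
  have hcs : Squarefree c := hsq.of_mul_right
  have hco : Nat.Coprime b c := (Nat.squarefree_mul_iff.1 hsq).1
  have hpf : n.primeFactors = b.primeFactors ∪ c.primeFactors := by
    rw [← hbc]
    exact Nat.primeFactors_mul hbs.ne_zero hcs.ne_zero
  have hdisj : Disjoint b.primeFactors c.primeFactors := hco.disjoint_primeFactors
  set x : ℕ → ZMod 2 := fun q => if q ∣ b then 1 else 0 with hx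
  have hxb : ∀ q ∈ b.primeFactors, x q = 1 := fun q hq => by
    rw [hx]
    simp only
    rw [if_pos (Nat.dvd_of_mem_primeFactors hq)]
  have hxc : ∀ q ∈ c.primeFactors, x q = 0 := fun q hq => by
    rw [hx]
    simp only
    rw [if_neg]
    intro h
    have h3 : q ∈ b.primeFactors := Nat.mem_primeFactors.2
      ⟨Nat.prime_of_mem_primeFactors hq, h, hbs.ne_zero⟩
    exact Finset.disjoint_left.1 hdisj h3 hq
  have h11 : (1 : ZMod 2) + 1 = 0 := by decide
  have hk := hK x (by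
    intro p hp
    obtain ⟨hpp, hp2, -⟩ := odd_pf (n := n) hn2 hp
    have : Fact p.Prime := ⟨hpp⟩
    rw [hpf, sum_union hdisj]
    rw [hpf, mem_union] at hp
    rcases hp with hp | hp
    · have hpc : ¬ p ∣ c := fun h => Finset.disjoint_left.1 hdisj hp
        (Nat.mem_primeFactors.2 ⟨hpp, h, hcs.ne_zero⟩)
      have h1 := hc p hp
      rw [jac_iff hpc, ← ch_zero_iff, ch_sqf hp2 hcs hpc] at h1
      have e1 : ∑ q ∈ b.primeFactors, nr p q * (x q + x p) = 0 := by
        refine sum_eq_zero fun q hq => ?_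
        rw [hxb q hq, hxb p hp, h11, mul_zero]
      have e2 : ∑ q ∈ c.primeFactors, nr p q * (x q + x p) = ∑ q ∈ c.primeFactors, nr p q := by
        refine sum_congr rfl fun q hq => ?_
        rw [hxc q hq, hxb p hp, zero_add, mul_one]
      rw [e1, e2, zero_add, h1]
    · have hpb : ¬ p ∣ b := fun h => Finset.disjoint_left.1 hdisj
        (Nat.mem_primeFactors.2 ⟨hpp, h, hbs.ne_zero⟩) hp
      have h1 := hb p hp
      rw [jac_iff hpb, ← ch_zero_iff, ch_sqf hp2 hbs hpb] at h1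
      have e1 : ∑ q ∈ b.primeFactors, nr p q * (x q + x p) = ∑ q ∈ b.primeFactors, nr p q := by
        refine sum_congr rfl fun q hq => ?_
        rw [hxb q hq, hxc p hp, add_zero, mul_one]
      have e2 : ∑ q ∈ c.primeFactors, nr p q * (x q + x p) = 0 := by
        refine sum_eq_zero fun q hq => ?_
        rw [hxc q hq, hxc p hp, add_zero, mul_zero]
      rw [e1, e2, add_zero, h1])
  by_cases hne : b.primeFactors = ∅
  · left
    rcases Nat.primeFactors_eq_empty.1 hne with h | h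
    · exact absurd h hbs.ne_zero
    · exact h
  · right
    obtain ⟨p0, hp0⟩ := Finset.nonempty_iff_ne_empty.2 hne
    have h1 : c.primeFactors = ∅ := by
      rw [Finset.eq_empty_iff_forall_notMem]
      intro q hq
      have h3 := hk p0 (by rw [hpf]; exact mem_union_left _ hp0) q
        (by rw [hpf]; exact mem_union_right _ hq)
      rw [hxb p0 hp0, hxc q hq] at h3
      exact one_ne_zero h3
    rcases Nat.primeFactors_eq_empty.1 h1 with h | h
    · exact absurd h hcs.ne_zero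
    · exact h

/-- the transposed system has the trivial solutions only: then `Qc` -/
theorem Qc_of_tr (hn : Squarefree n) (hn4 : n % 4 = 3)
    (hK : ∀ x : ℕ → ZMod 2, (∀ p ∈ n.primeFactors, ∑ q ∈ n.primeFactors, nr q p * (x q + x p) = 0) →
      ∀ p ∈ n.primeFactors, ∀ q ∈ n.primeFactors, x p = x q) : Qc n :=
  Qc_of_K hn (by omega) fun x hx => dual (fun p q => nr q p)
    (fun p hp => (rowcol hn hn4 p hp).symm) hK x hx

/-- a nontrivial solution of the transposed system gives a divisor `1` modulo `4` -/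
theorem div_of_tr (hn : Squarefree n) (hn4 : n % 4 = 3) {x : ℕ → ZMod 2}
    (hx : ∀ p ∈ n.primeFactors, ∑ q ∈ n.primeFactors, nr q p * (x q + x p) = 0)
    {p0 q0 : ℕ} (hp0 : p0 ∈ n.primeFactors) (hq0 : q0 ∈ n.primeFactors) (h0 : x p0 ≠ x q0) :
    ∃ d e : ℤ, d * e = -n ∧ d % 4 = 1 ∧ e % 4 = 1 ∧ d.natAbs ≠ 1 ∧ e.natAbs ≠ 1 ∧
      (∀ p : ℕ, p.Prime → (p : ℤ) ∣ d → ¬ (p : ℤ) ∣ e ∧ IsSquare (e : ZMod p)) ∧
      (∀ p : ℕ, p.Prime → (p : ℤ) ∣ e → ¬ (p : ℤ) ∣ d ∧ IsSquare (d : ZMod p)) := by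
  classical
  have hodd := fun q (hq : q ∈ n.primeFactors) => odd_pf (n := n) (by omega) hq
  set T := n.primeFactors.filter fun p => x p ≠ 0 with hT
  set T' := n.primeFactors.filter fun p => ¬ x p ≠ 0 with hT'
  set b := ∏ p ∈ T, p with hb
  set c := ∏ p ∈ T', p with hc
  have hTp : ∀ p ∈ T, p.Prime := fun p hp => Nat.prime_of_mem_primeFactors (mem_filter.1 hp).1
  have hTp' : ∀ p ∈ T', p.Prime := fun p hp => Nat.prime_of_mem_primeFactors (mem_filter.1 hp).1
  have hbc : b * c = n := by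
    rw [hb, hc, hT, hT', prod_filter_mul_prod_filter_not]
    exact Nat.prod_primeFactors_of_squarefree hn
  have hsq : Squarefree (b * c) := hbc.symm ▸ hn
  have hbs : Squarefree b := hsq.of_mul_left
  have hcs : Squarefree c := hsq.of_mul_right
  have hbp : b.primeFactors = T := Nat.primeFactors_prod hTp
  have hcp : c.primeFactors = T' := Nat.primeFactors_prod hTp'
  have hdisj : Disjoint T T' := disjoint_filter_filter_not _ _ _
  have hun : n.primeFactors = T ∪ T' := (filter_union_filter_not_eq _ _).symm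
  have hxT : ∀ p ∈ T, x p = 1 := by
    intro p hp
    rcases zmod2_cases (x p) with h | h
    · exact absurd h (mem_filter.1 hp).2
    · exact h
  have hxT' : ∀ p ∈ T', x p = 0 := by
    intro p hp
    exact not_not.1 (mem_filter.1 hp).2
  have h11 : (1 : ZMod 2) + 1 = 0 := by decide
  -- both are nonempty
  have hTne : b ≠ 1 := by
    intro h1
    have h2 : ∀ r ∈ n.primeFactors, x r = 0 := by
      intro r hr
      by_contra hne
      have hrT : r ∈ T := mem_filter.2 ⟨hr, hne⟩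
      have : r ∣ b := dvd_prod_of_mem _ hrT
      rw [h1] at this
      exact (Nat.prime_of_mem_primeFactors hr).one_lt.ne' (Nat.dvd_one.1 this)
    exact h0 (by rw [h2 p0 hp0, h2 q0 hq0])
  have hTne' : c ≠ 1 := by
    intro h1
    have h2 : ∀ r ∈ n.primeFactors, x r = 1 := by
      intro r hr
      rcases zmod2_cases (x r) with h | h
      · exfalso
        have hrT : r ∈ T' := mem_filter.2 ⟨hr, not_not.2 h⟩
        have : r ∣ c := dvd_prod_of_mem _ hrT
        rw [h1] at this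
        exact (Nat.prime_of_mem_primeFactors hr).one_lt.ne' (Nat.dvd_one.1 this)
      · exact h
    exact h0 (by rw [h2 p0 hp0, h2 q0 hq0])
  -- the two equations
  have eT' : ∀ p ∈ T', ∑ q ∈ T, nr q p = 0 := by
    intro p hp
    have hpn : p ∈ n.primeFactors := by rw [hun]; exact mem_union_right _ hp
    have h3 := hx p hpn
    rw [hun, sum_union hdisj] at h3
    have e1 : ∑ q ∈ T, nr q p * (x q + x p) = ∑ q ∈ T, nr q p := by
      refine sum_congr rfl fun q hq => ?_
      rw [hxT q hq, hxT' p hp, add_zero, mul_one]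
    have e2 : ∑ q ∈ T', nr q p * (x q + x p) = 0 := by
      refine sum_eq_zero fun q hq => ?_
      rw [hxT' q hq, hxT' p hp, add_zero, mul_zero]
    rw [e1, e2, add_zero] at h3
    exact h3
  have eT : ∀ p ∈ T, ∑ q ∈ T', nr q p = 0 := by
    intro p hp
    have hpn : p ∈ n.primeFactors := by rw [hun]; exact mem_union_left _ hp
    have h3 := hx p hpn
    rw [hun, sum_union hdisj] at h3
    have e1 : ∑ q ∈ T, nr q p * (x q + x p) = 0 := by
      refine sum_eq_zero fun q hq => ?_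
      rw [hxT q hq, hxT p hp, h11, mul_zero]
    have e2 : ∑ q ∈ T', nr q p * (x q + x p) = ∑ q ∈ T', nr q p := by
      refine sum_congr rfl fun q hq => ?_
      rw [hxT' q hq, hxT p hp, zero_add, mul_one]
    rw [e1, e2, zero_add] at h3
    exact h3
  -- from the sums to the squares
  have key : ∀ (S : Finset ℕ) (a : ℕ) (f : ℤ), (∀ r ∈ S, r ∈ n.primeFactors) → a = ∏ r ∈ S, r →
      ((a % 4 = 1 ∧ f = a) ∨ (a % 4 = 3 ∧ f = -a)) → ∀ p ∈ n.primeFactors, p ∉ S →
      ∑ q ∈ S, nr q p = 0 → ¬ (p : ℤ) ∣ f → IsSquare (f : ZMod p) := by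
    intro S a f hS ha hf p hp hpS h1 hpf
    obtain ⟨hpp, hp2, -⟩ := hodd p hp
    have : Fact p.Prime := ⟨hpp⟩
    have hSp : ∀ r ∈ S, r.Prime := fun r hr => (hodd r (hS r hr)).1
    have haf : a.primeFactors = S := by rw [ha]; exact Nat.primeFactors_prod hSp
    have has : Squarefree a := by
      refine hn.squarefree_of_dvd ?_
      rw [ha, ← Nat.prod_primeFactors_of_squarefree hn]
      exact prod_dvd_prod_of_subset _ _ _ hS
    have h2 := sum_rec (T := S) hpp hp2 (fun q hq => ⟨hSp q hq, (hodd q (hS q hq)).2.1⟩) hpS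
    rw [← ch_zero_iff, Run7.h843.R.ch_unit hp2 hpf]
    have h3 := mod4 (T := S) fun q hq => (hodd q (hS q hq)).2.2
    rw [← ha] at h3
    have h4 : lam p f = ∑ q ∈ S, nr p q := by
      have h5 : lam p (a : ℤ) = ∑ q ∈ S, nr p q := by
        rw [Run7.h843.R.lam_m has, haf]
      rcases hf with ⟨-, hf⟩ | ⟨-, hf⟩
      · rw [hf, h5]
      · rw [hf, lam_neg, h5]
    have ha0 : (0 : ℤ) < a := by exact_mod_cast Nat.pos_of_ne_zero has.ne_zero
    have h5 : Run7.h843.R.sg f = ∑ q ∈ S, Run7.h843.R.e3 q := by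
      rcases hf with ⟨h6, hf⟩ | ⟨h6, hf⟩
      · rw [hf, Run7.h843.R.sg_pos ha0]
        rcases h3 with ⟨h7, h8⟩ | ⟨h7, h8⟩
        · exact h8.symm
        · omega
      · rw [hf, Run7.h843.R.sg_neg (by omega)]
        rcases h3 with ⟨h7, h8⟩ | ⟨h7, h8⟩
        · omega
        · exact h8.symm
    rw [h4, h5, ← h2]
    exact h1
  have hbz : (b : ℤ) ≠ 0 := by exact_mod_cast hbs.ne_zero
  have hcz : (c : ℤ) ≠ 0 := by exact_mod_cast hcs.ne_zero
  have hb4 : b % 4 = 1 ∨ b % 4 = 3 := by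
    rcases mod4 (T := T) fun q hq => (hodd q (mem_filter.1 hq).1).2.2 with h | h
    · exact Or.inl h.1
    · exact Or.inr h.1
  have hc4 : c % 4 = 1 ∨ c % 4 = 3 := by
    rcases mod4 (T := T') fun q hq => (hodd q (mem_filter.1 hq).1).2.2 with h | h
    · exact Or.inl h.1
    · exact Or.inr h.1
  have hn4' : (b % 4) * (c % 4) % 4 = 3 := by rw [← Nat.mul_mod, hbc]; exact hn4
  obtain ⟨d, e, hde, hd, he⟩ : ∃ d e : ℤ, d * e = -n ∧
      ((b % 4 = 1 ∧ d = b) ∨ (b % 4 = 3 ∧ d = -b)) ∧ ((c % 4 = 1 ∧ e = c) ∨ (c % 4 = 3 ∧ e = -c)) := by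
    have hbc' : (b : ℤ) * c = n := by exact_mod_cast hbc
    rcases hb4 with h1 | h1 <;> rcases hc4 with h2 | h2
    · rw [h1, h2] at hn4'; omega
    · exact ⟨b, -c, by rw [← hbc']; ring, Or.inl ⟨h1, rfl⟩, Or.inr ⟨h2, rfl⟩⟩
    · exact ⟨-b, c, by rw [← hbc']; ring, Or.inr ⟨h1, rfl⟩, Or.inl ⟨h2, rfl⟩⟩
    · rw [h1, h2] at hn4'; omega
  have hdb : d.natAbs = b := by
    rcases hd with ⟨-, h⟩ | ⟨-, h⟩ <;> rw [h]
    · exact Int.natAbs_natCast b
    · rw [Int.natAbs_neg]; exact Int.natAbs_natCast b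
  have hec : e.natAbs = c := by
    rcases he with ⟨-, h⟩ | ⟨-, h⟩ <;> rw [h]
    · exact Int.natAbs_natCast c
    · rw [Int.natAbs_neg]; exact Int.natAbs_natCast c
  have hco : Nat.Coprime b c := (Nat.squarefree_mul_iff.1 hsq).1
  refine ⟨d, e, hde, ?_, ?_, by rw [hdb]; exact hTne, by rw [hec]; exact hTne', ?_, ?_⟩
  · rcases hd with ⟨h1, h⟩ | ⟨h1, h⟩ <;> rw [h] <;> omega
  · rcases he with ⟨h1, h⟩ | ⟨h1, h⟩ <;> rw [h] <;> omega
  · intro p hp hpd
    have hpb : p ∣ b := by rw [← hdb]; exact Int.natCast_dvd.1 hpd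
    have hpT : p ∈ T := by rw [← hbp]; exact Nat.mem_primeFactors.2 ⟨hp, hpb, hbs.ne_zero⟩
    have hpe : ¬ (p : ℤ) ∣ e := by
      intro h
      have hpc : p ∣ c := by rw [← hec]; exact Int.natCast_dvd.1 h
      exact hp.one_lt.ne' (Nat.eq_one_of_dvd_coprimes hco hpb hpc)
    refine ⟨hpe, key T' c e (fun r hr => (mem_filter.1 hr).1) hc he p (mem_filter.1 hpT).1
      (Finset.disjoint_left.1 hdisj hpT) (eT p hpT) hpe⟩
  · intro p hp hpe
    have hpc : p ∣ c := by rw [← hec]; exact Int.natCast_dvd.1 hpe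
    have hpT : p ∈ T' := by rw [← hcp]; exact Nat.mem_primeFactors.2 ⟨hp, hpc, hcs.ne_zero⟩
    have hpd : ¬ (p : ℤ) ∣ d := by
      intro h
      have hpb : p ∣ b := by rw [← hdb]; exact Int.natCast_dvd.1 h
      exact hp.one_lt.ne' (Nat.eq_one_of_dvd_coprimes hco hpb hpc)
    refine ⟨hpd, key T b d (fun r hr => (mem_filter.1 hr).1) hb hd p (mem_filter.1 hpT).1
      (fun h => Finset.disjoint_left.1 hdisj h hpT) (eT' p hpT) hpd⟩

end Pool.Agent.Run7.h289.D18
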