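import Mathlib
import Pool.Agent.Run7.h289.D16.Q2
import Pool.Agent.Run7.h424.DC.Tw

/-!
# The place `2`: `y² = x (x + μ) (x + ν)`
-/

set_option autoImplicit false
set_option linter.unusedSectionVars false

attribute [-instance] DivisionRing.toRatAlgebra

namespace Pool.Agent.Run7.h289.D18

open Pool.Agent.Y682 (S1 S2)
open Run7.h843.Sha Run7.h843.Desc
open Pool.Agent.Run7.h289.D16 (end14 rep4 ne14)
open Run7.h424.DC (Q16 T16 mem_Q16)

/-- the points which are not integral -/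
theorem neg2 {a b : ℤ} {x y : ℚ_[2]} (hx : x ≠ 0)
    (hy : y ^ 2 = x * (x ^ 2 + (a : ℚ_[2]) * x + (b : ℚ_[2]))) :
    (∃ X : ℤ_[2], (X : ℚ_[2]) = x) ∨
      ∃ (c : ℚ_[2]) (t : ℤ_[2]), c ≠ 0 ∧ x = c ^ 2 * (1 + 4 * (t : ℚ_[2])) := by
  rcases rep2 x with h | ⟨n, Z, Z', hZZ, hZ⟩
  · exact Or.inl h
  · right
    have hZZ' : (Z : ℚ_[2]) * Z' = 1 := by
      rw [← PadicInt.coe_mul, hZZ, PadicInt.coe_one]
    rcases n with _ | n
    · exfalso
      have hx2 : x * 2 = Z := by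
        rw [← hZ]
        ring
      have hx' : x * (2 * Z') = 1 := by
        rw [← hZZ', ← hx2]
        ring
      have hY1 : (2 * y / x) ^ 2 = ((2 * Z * (1 + 2 * (a : ℤ_[2]) * Z' +
          4 * (b : ℤ_[2]) * Z' ^ 2) : ℤ_[2]) : ℚ_[2]) := by
        rw [div_pow, mul_pow, hy, div_eq_iff (pow_ne_zero 2 hx)]
        push_cast
        simp only [cc2, cc4]
        rw [← hx2]
        linear_combination (-(4 * (a : ℚ_[2]) * x ^ 2) - 4 * b * x * (1 + x * (2 * Z'))) * hx'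
      obtain ⟨Y, hY⟩ := int_of_sq hY1
      have hYX : Y ^ 2 = 2 * Z * (1 + 2 * (a : ℤ_[2]) * Z' + 4 * (b : ℤ_[2]) * Z' ^ 2) := by
        apply Subtype.ext
        rw [PadicInt.coe_pow, hY, hY1]
      have h3 := congrArg (PadicInt.toZModPow 2) hYX
      simp only [map_pow, map_mul, map_add, map_ofNat, map_intCast, map_one] at h3
      have h6 := congrArg (PadicInt.toZModPow 2) hZZ
      rw [map_mul, map_one] at h6
      have h4 : (4 : ZMod (2 ^ 2)) = 0 := by decide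
      rw [h4, zero_mul, zero_mul, add_zero] at h3
      have h5 : ∀ Y Z Z' a : ZMod (2 ^ 2), Z * Z' = 1 → Y ^ 2 ≠ 2 * Z * (1 + 2 * a * Z') := by
        decide
      exact h5 _ _ _ _ h6 h3
    · have hx' : x * (4 * (2 ^ n * Z')) = 1 := by
        rw [← hZZ', ← hZ]
        ring
      refine end14 x (y / x) ((a : ℤ_[2]) * (2 ^ n * Z') +
        4 * (b : ℤ_[2]) * (2 ^ n * Z') ^ 2) hx ?_
      rw [div_pow, hy, div_eq_iff (pow_ne_zero 2 hx)]
      push_cast
      simp only [cc2, cc4]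
      set w : ℚ_[2] := 2 ^ n * Z' with hw
      linear_combination (-((a : ℚ_[2]) * x ^ 2) - b * x * (1 + x * (4 * w))) * hx'

theorem z4 {n r : ℤ} (h : n % 4 = r) : ∃ k : ℤ, n = r + 4 * k := ⟨n / 4, by omega⟩

/-- the residues modulo `4` as elements of `ZMod 16` -/
theorem mT {i : ZMod (2 ^ 4)} : 3 + 4 * i ∈ T16 := by
  revert i
  decide

def U16 : Finset (ZMod (2 ^ 4)) := {2, 6, 10, 14}

theorem mU {i : ZMod (2 ^ 4)} : 2 + 4 * i ∈ U16 := by
  revert i
  decide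

def V16 : Finset (ZMod (2 ^ 4)) := {0, 8}

theorem mV {i : ZMod (2 ^ 4)} : 8 * i ∈ V16 := by
  revert i
  decide

theorem decA : ∀ X ∈ T16, ∀ μ ∈ T16, ∀ δ ∈ V16, ∀ s ∈ Q16,
    s ≠ X * (X ^ 2 + (μ + (μ + δ)) * X + μ * (μ + δ)) := by decide

theorem decB : ∀ X ∈ U16, ∀ ν ∈ T16, ∀ s ∈ Q16,
    s ≠ X * (X ^ 2 + (12 + ν) * X + 12 * ν) := by decide

/-- the place `2`, both roots odd -/
theorem im2a {μ ν : ℤ} (hμ : μ % 4 = 3) (hν : (ν - μ) % 8 = 0) {x : ℚ_[2]}
    (h : S1 ((μ + ν : ℤ) : ℚ_[2]) ((μ * ν : ℤ) : ℚ_[2]) x) :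
    ∃ (c : ℚ_[2]) (t : ℤ_[2]), c ≠ 0 ∧ x = c ^ 2 * (1 + 4 * (t : ℚ_[2])) := by
  obtain ⟨i, hi⟩ := z4 hμ
  obtain ⟨w, hw⟩ : ∃ w : ℤ, ν = μ + 8 * w := ⟨(ν - μ) / 8, by omega⟩
  obtain ⟨k, hk⟩ : ∃ k : ℤ, μ * ν = 1 + 4 * k :=
    ⟨2 + 6 * i + 4 * i ^ 2 + 2 * w * (3 + 4 * i), by rw [hw, hi]; ring⟩
  rcases h with h | h | ⟨hx, y, hy⟩
  · exact ⟨1, 0, one_ne_zero, by rw [h]; simp⟩
  · refine ⟨1, (k : ℤ_[2]), one_ne_zero, ?_⟩
    rw [h, hk]
    push_cast
    ring
  · rcases neg2 hx hy with ⟨X, rfl⟩ | h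
    · have hY1 : y ^ 2 = ((X * (X ^ 2 + ((μ + ν : ℤ) : ℤ_[2]) * X + ((μ * ν : ℤ) : ℤ_[2])) :
          ℤ_[2]) : ℚ_[2]) := by
        rw [hy]
        push_cast
        rfl
      obtain ⟨Y, hY⟩ := int_of_sq hY1
      have hYX : Y ^ 2 = X * (X ^ 2 + ((μ + ν : ℤ) : ℤ_[2]) * X + ((μ * ν : ℤ) : ℤ_[2])) := by
        apply Subtype.ext
        rw [PadicInt.coe_pow, hY, hY1]
      obtain ⟨R, T, hr, hX⟩ := rep4 X
      rcases hr with hR | hR | hR | hR <;> rw [hR] at hX
      · rw [zero_add] at hX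
        refine end14 X y (4 * T ^ 2 + ((μ + ν : ℤ) : ℤ_[2]) * T + (k : ℤ_[2])) hx ?_
        rw [hy]
        have e : X ^ 2 + ((μ + ν : ℤ) : ℤ_[2]) * X + ((μ * ν : ℤ) : ℤ_[2]) =
            1 + 4 * (4 * T ^ 2 + ((μ + ν : ℤ) : ℤ_[2]) * T + (k : ℤ_[2])) := by
          rw [hX, hk]
          push_cast
          ring
        have e' := congrArg (fun z : ℤ_[2] => (z : ℚ_[2])) e
        push_cast at e' ⊢
        simp only [cc4] at e' ⊢
        rw [e']
      · refine ⟨1, T, one_ne_zero, ?_⟩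
        rw [hX]
        push_cast
        rw [cc4]
        ring
      · exfalso
        have h3 := congrArg (PadicInt.toZModPow 2) hYX
        rw [hX] at h3
        simp only [map_pow, map_mul, map_add, map_ofNat, map_intCast] at h3
        have h4 : (4 : ZMod (2 ^ 2)) = 0 := by decide
        have hb' : ((μ * ν : ℤ) : ZMod (2 ^ 2)) = 1 := by
          rw [hk]
          push_cast
          rw [h4]
          ring
        rw [hb', h4, zero_mul, add_zero] at h3
        have h5 : ∀ Y a : ZMod (2 ^ 2), Y ^ 2 ≠ 2 * (2 ^ 2 + a * 2 + 1) := by decide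
        exact h5 _ _ h3
      · exfalso
        have h3 := congrArg (PadicInt.toZModPow 4) hYX
        rw [hX] at h3
        simp only [map_pow, map_mul, map_add, map_ofNat, map_intCast] at h3
        rw [hw, hi] at h3
        push_cast at h3
        exact decA _ (mT (i := PadicInt.toZModPow 4 T)) _ (mT (i := (i : ZMod (2 ^ 4)))) _
          (mV (i := (w : ZMod (2 ^ 4)))) _ (mem_Q16 (PadicInt.toZModPow 4 Y)) h3
    · exact h

/-- the place `2`, one root divisible by `4` exactly -/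
theorem im2b {μ ν : ℤ} (hμ : μ % 4 = 3) (hν : ν % 4 = 3) {x : ℚ_[2]}
    (h : S1 ((4 * μ + ν : ℤ) : ℚ_[2]) ((4 * μ * ν : ℤ) : ℚ_[2]) x) :
    ∃ (c : ℚ_[2]) (t : ℤ_[2]), c ≠ 0 ∧ x = c ^ 2 * (1 + 4 * (t : ℚ_[2])) := by
  obtain ⟨i, hi⟩ := z4 hμ
  obtain ⟨j, hj⟩ := z4 hν
  obtain ⟨k, hk⟩ : ∃ k : ℤ, μ * ν = 1 + 4 * k := ⟨2 + 3 * i + 3 * j + 4 * i * j, by rw [hi, hj]; ring⟩
  have hkq : (μ : ℚ_[2]) * ν = 1 + 4 * k := by exact_mod_cast congrArg (fun z : ℤ => (z : ℚ_[2])) hk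
  rcases h with h | h | ⟨hx, y, hy⟩
  · exact ⟨1, 0, one_ne_zero, by rw [h]; simp⟩
  · refine ⟨2, (k : ℤ_[2]), two_ne_zero, ?_⟩
    rw [h]
    push_cast
    linear_combination 4 * hkq
  · rcases neg2 hx hy with ⟨X, rfl⟩ | h
    · have hY1 : y ^ 2 = ((X * (X ^ 2 + ((4 * μ + ν : ℤ) : ℤ_[2]) * X + ((4 * μ * ν : ℤ) : ℤ_[2])) :
          ℤ_[2]) : ℚ_[2]) := by
        rw [hy]
        push_cast
        rfl
      obtain ⟨Y, hY⟩ := int_of_sq hY1
      have hYX : Y ^ 2 = X * (X ^ 2 + ((4 * μ + ν : ℤ) : ℤ_[2]) * X + ((4 * μ * ν : ℤ) : ℤ_[2])) := by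
        apply Subtype.ext
        rw [PadicInt.coe_pow, hY, hY1]
      have hν4 : (ν : ZMod (2 ^ 2)) = 3 := by
        rw [hj]
        push_cast
        have h4 : (4 : ZMod (2 ^ 2)) = 0 := by decide
        rw [h4]
        ring
      have hμ4 : (μ : ZMod (2 ^ 2)) = 3 := by
        rw [hi]
        push_cast
        have h4 : (4 : ZMod (2 ^ 2)) = 0 := by decide
        rw [h4]
        ring
      have h4 : (4 : ZMod (2 ^ 2)) = 0 := by decide
      obtain ⟨R, T, hr, hX⟩ := rep4 X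
      rcases hr with hR | hR | hR | hR <;> rw [hR] at hX
      · -- `X = 4 T`
        rw [zero_add] at hX
        have hY1 : (y / 4) ^ 2 = ((T * ((T + (μ : ℤ_[2])) * (4 * T + (ν : ℤ_[2]))) : ℤ_[2]) : ℚ_[2]) := by
          rw [div_pow, hy, hX]
          push_cast
          simp only [cc4]
          ring
        obtain ⟨Y', hY'⟩ := int_of_sq hY1
        have hYX' : Y' ^ 2 = T * ((T + (μ : ℤ_[2])) * (4 * T + (ν : ℤ_[2]))) := by
          apply Subtype.ext
          rw [PadicInt.coe_pow, hY', hY1]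
        obtain ⟨R', T', hr', hT⟩ := rep4 T
        have h3 := congrArg (PadicInt.toZModPow 2) hYX'
        rw [hT] at h3
        rcases hr' with hR' | hR' | hR' | hR' <;> rw [hR'] at hT h3
        · -- `X = 16 T'`
          rw [zero_add] at hT
          refine end14 X (y / 2) (16 * T' ^ 2 + T' * (ν : ℤ_[2]) + 4 * (μ : ℤ_[2]) * T' +
            (k : ℤ_[2])) hx ?_
          have c16 : ((16 : ℤ_[2]) : ℚ_[2]) = 16 := by exact_mod_cast PadicInt.coe_natCast 16
          rw [div_pow, hy, hX, hT]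
          push_cast
          simp only [cc4, c16]
          linear_combination (16 * (T' : ℚ_[2])) * hkq
        · refine ⟨2, T', two_ne_zero, ?_⟩
          rw [hX, hT]
          push_cast
          rw [cc4]
          ring
        · exfalso
          simp only [map_pow, map_mul, map_add, map_ofNat, map_intCast, h4, zero_mul, add_zero,
            hμ4, hν4] at h3
          have h5 : ∀ Y : ZMod (2 ^ 2), Y ^ 2 ≠ 2 * ((2 + 3) * (0 + 3)) := by decide
          exact h5 _ h3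
        · exfalso
          simp only [map_pow, map_mul, map_add, map_ofNat, map_intCast, h4, zero_mul, add_zero,
            hμ4, hν4] at h3
          have h5 : ∀ Y : ZMod (2 ^ 2), Y ^ 2 ≠ 3 * ((3 + 3) * (0 + 3)) := by decide
          exact h5 _ h3
      · refine ⟨1, T, one_ne_zero, ?_⟩
        rw [hX]
        push_cast
        rw [cc4]
        ring
      · exfalso
        have h3 := congrArg (PadicInt.toZModPow 4) hYX
        rw [hX] at h3
        simp only [map_pow, map_mul, map_add, map_ofNat, map_intCast] at h3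
        rw [hi, hj] at h3
        push_cast at h3
        have e12 : (4 : ZMod (2 ^ 4)) * (3 + 4 * (i : ZMod (2 ^ 4))) = 12 := by
          have : ∀ i : ZMod (2 ^ 4), 4 * (3 + 4 * i) = 12 := by decide
          exact this _
        rw [e12] at h3
        exact decB _ (mU (i := PadicInt.toZModPow 4 T)) _ (mT (i := (j : ZMod (2 ^ 4)))) _
          (mem_Q16 (PadicInt.toZModPow 4 Y)) h3
      · exfalso
        have h3 := congrArg (PadicInt.toZModPow 2) hYX
        rw [hX] at h3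
        simp only [map_pow, map_mul, map_add, map_ofNat, map_intCast] at h3
        push_cast at h3
        rw [h4, hν4, hμ4] at h3
        have h5 : ∀ Y T : ZMod (2 ^ 2), Y ^ 2 ≠ (3 + 0 * T) * ((3 + 0 * T) ^ 2 +
          (0 * 3 + 3) * (3 + 0 * T) + 0 * 3 * 3) := by decide
        exact h5 _ _ h3
    · exact h

/-- a `2`-adic integer of odd valuation -/
theorem odd_cases {X : ℤ_[2]} (h1 : wv 2 (X : ℚ_[2]) < 1)
    (hodd : ∀ g, g ^ 2 ≠ wv 2 (X : ℚ_[2])) : ∃ S : ℤ_[2], X = 2 * (1 + 2 * S) ∨ X = 8 * S := by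
  have hunit : ∀ S : ℤ_[2], wv 2 ((1 + 2 * S : ℤ_[2]) : ℚ_[2]) = 1 := by
    intro S
    have h2 : wv 2 (2 * (S : ℚ_[2])) < 1 := by
      have e : (2 : ℚ_[2]) = ((2 : ℕ) : ℚ_[2]) := by norm_num
      rw [e, map_mul, w_self]
      have hs : wv 2 (S : ℚ_[2]) ≤ 1 := w_le_iff.2 S.2
      calc WithZero.exp (-1 : ℤ) * wv 2 (S : ℚ_[2]) ≤ WithZero.exp (-1 : ℤ) * 1 :=
          mul_le_mul_right hs _
        _ = WithZero.exp (-1 : ℤ) := mul_one _
        _ < 1 := by
          rw [← WithZero.exp_zero, WithZero.exp_lt_exp]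
          norm_num
    push_cast
    rw [cc2]
    exact Valuation.map_one_add_of_lt _ h2
  obtain ⟨R, T, hr, hX⟩ := rep4 X
  rcases hr with hR | hR | hR | hR <;> rw [hR] at hX
  · rw [zero_add] at hX
    obtain ⟨R', T', hr', hT⟩ := rep4 T
    have c2 : ((2 : ℕ) : ℚ_[2]) = 2 := by norm_num
    rcases hr' with hR' | hR' | hR' | hR' <;> rw [hR'] at hT
    · exact ⟨2 * T', Or.inr (by rw [hX, hT]; ring)⟩
    · exfalso
      apply hodd (wv 2 ((2 : ℕ) : ℚ_[2]))
      have e : T = 1 + 2 * (2 * T') := by rw [hT]; ring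
      rw [hX, e, PadicInt.coe_mul, cc4, map_mul, hunit, mul_one, ← map_pow, c2]
      norm_num
    · exact ⟨1 + 2 * T', Or.inr (by rw [hX, hT]; ring)⟩
    · exfalso
      apply hodd (wv 2 ((2 : ℕ) : ℚ_[2]))
      have e : T = 1 + 2 * (1 + 2 * T') := by rw [hT]; ring
      rw [hX, e, PadicInt.coe_mul, cc4, map_mul, hunit, mul_one, ← map_pow, c2]
      norm_num
  · exfalso
    have e : X = 1 + 2 * (2 * T) := by rw [hX]; ring
    rw [e, hunit] at h1
    exact lt_irrefl _ h1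
  · exact ⟨T, Or.inl (by rw [hX]; ring)⟩
  · exfalso
    have e : X = 1 + 2 * (1 + 2 * T) := by rw [hX]; ring
    rw [e, hunit] at h1
    exact lt_irrefl _ h1

/-- the place `2`, second curve, one root odd and the other even -/
theorem im2c {A B m : ℤ} (hA : A % 2 = 1) (hB : B % 2 = 0) (hB0 : B ≠ 0) (hm : m % 4 = 3)
    (hc : m % 8 = 3 ∨ B % 8 = 4) {x y : ℚ_[2]} (hx : x ≠ 0)
    (hodd : ∀ g, g ^ 2 ≠ wv 2 x)
    (h : y ^ 2 = x * ((x - ((A ^ 2 * m : ℤ) : ℚ_[2])) * (x - ((B ^ 2 * m : ℤ) : ℚ_[2])))) : False := by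
  have hm1 : wv 2 ((m : ℤ) : ℚ_[2]) = 1 := w_one (by
    intro h0
    have h1 : (2 : ℤ) ∣ m := by exact_mod_cast h0
    omega)
  have hA1 : wv 2 ((A : ℤ) : ℚ_[2]) = 1 := w_one (by
    intro h0
    have h1 : (2 : ℤ) ∣ A := by exact_mod_cast h0
    omega)
  have hBle : wv 2 ((B : ℤ) : ℚ_[2]) ≤ 1 := by
    have e : ((B : ℤ) : ℚ_[2]) = ((B : ℤ_[2]) : ℚ_[2]) := by push_cast; rfl
    rw [e]
    exact w_le_iff.2 (B : ℤ_[2]).2
  have hwx : wv 2 x ≠ 0 := (Valuation.ne_zero_iff _).2 hx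
  have hAm : wv 2 ((A ^ 2 * m : ℤ) : ℚ_[2]) = 1 := by
    push_cast
    rw [map_mul, map_pow, hA1, hm1, one_pow, one_mul]
  have hBm : wv 2 ((B ^ 2 * m : ℤ) : ℚ_[2]) = (wv 2 ((B : ℤ) : ℚ_[2])) ^ 2 := by
    push_cast
    rw [map_mul, map_pow, hm1, mul_one]
  have hB0' : ((B : ℤ) : ℚ_[2]) ≠ 0 := by exact_mod_cast hB0
  have hwB : wv 2 ((B : ℤ) : ℚ_[2]) ≠ 0 := (Valuation.ne_zero_iff _).2 hB0'
  have hy := congrArg (wv 2) h
  rw [map_pow, map_mul, map_mul] at hy
  rcases lt_trichotomy (wv 2 x) 1 with h1 | h1 | h1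
  · have hxA : wv 2 (x - ((A ^ 2 * m : ℤ) : ℚ_[2])) = 1 := by
      rw [Valuation.map_sub_swap, Valuation.map_sub_eq_of_lt_left, hAm]
      rw [hAm]
      exact h1
    rcases lt_trichotomy (wv 2 x) (wv 2 ((B ^ 2 * m : ℤ) : ℚ_[2])) with h3 | h3 | h3
    · have hxB : wv 2 (x - ((B ^ 2 * m : ℤ) : ℚ_[2])) = (wv 2 ((B : ℤ) : ℚ_[2])) ^ 2 := by
        rw [Valuation.map_sub_swap, Valuation.map_sub_eq_of_lt_left _ h3, hBm]
      rw [hxA, hxB, one_mul] at hy
      apply hodd (wv 2 y / wv 2 ((B : ℤ) : ℚ_[2]))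
      rw [div_pow, hy]
      field_simp
    · exact hodd _ (hBm.symm.trans h3.symm)
    · -- the main case
      set w0 : ℚ_[2] := ((B ^ 2 * m : ℤ) : ℚ_[2]) / x with hw0
      have hww : wv 2 w0 < 1 := by
        rw [hw0, map_div₀, div_lt_iff₀ (zero_lt_iff.2 hwx), one_mul]
        exact h3
      have hwodd : ∀ g, g ^ 2 ≠ wv 2 w0 := by
        intro g hg
        rw [hw0, map_div₀, hBm] at hg
        have hg0 : g ≠ 0 := by
          rintro rfl
          rw [zero_pow two_ne_zero] at hg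
          exact div_ne_zero (pow_ne_zero 2 hwB) hwx hg.symm
        apply hodd (wv 2 ((B : ℤ) : ℚ_[2]) / g)
        rw [div_pow, hg]
        field_simp
      obtain ⟨X, hX⟩ : ∃ X : ℤ_[2], (X : ℚ_[2]) = x := ⟨⟨x, w_le_iff.1 h1.le⟩, rfl⟩
      obtain ⟨W, hW⟩ : ∃ W : ℤ_[2], (W : ℚ_[2]) = w0 := ⟨⟨w0, w_le_iff.1 hww.le⟩, rfl⟩
      have hXW : X * W = ((B ^ 2 * m : ℤ) : ℤ_[2]) := by
        apply Subtype.ext
        rw [PadicInt.coe_mul, hX, hW, hw0, PadicInt.coe_intCast]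
        field_simp
      have hY1 : (y / x) ^ 2 = (((1 - W) * (X - ((A ^ 2 * m : ℤ) : ℤ_[2])) : ℤ_[2]) : ℚ_[2]) := by
        have e1 : ((B ^ 2 * m : ℤ) : ℚ_[2]) = x * w0 := by rw [hw0]; field_simp
        rw [e1] at h
        rw [div_pow, h, div_eq_iff (pow_ne_zero 2 hx), PadicInt.coe_mul, PadicInt.coe_sub,
          PadicInt.coe_sub, hX, hW, PadicInt.coe_intCast, PadicInt.coe_one]
        ring
      obtain ⟨Y, hY⟩ := int_of_sq hY1
      have hYX : Y ^ 2 = (1 - W) * (X - ((A ^ 2 * m : ℤ) : ℤ_[2])) := by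
        apply Subtype.ext
        rw [PadicInt.coe_pow, hY, hY1]
      obtain ⟨S, hS⟩ := odd_cases (X := X) (by rw [hX]; exact h1) (by rw [hX]; exact hodd)
      obtain ⟨T, hT⟩ := odd_cases (X := W) (by rw [hW]; exact hww) (by rw [hW]; exact hwodd)
      obtain ⟨A', hA'⟩ : ∃ A' : ℤ, A = 1 + 2 * A' := ⟨A / 2, by omega⟩
      have hA8 : A ^ 2 % 8 = 1 := by
        have h1 : A % 8 = 1 ∨ A % 8 = 3 ∨ A % 8 = 5 ∨ A % 8 = 7 := by omega
        rw [sq, Int.mul_emod]
        rcases h1 with h1 | h1 | h1 | h1 <;> rw [h1] <;> rfl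
      obtain ⟨a8, ha8⟩ : ∃ a8 : ℤ, A ^ 2 = 1 + 8 * a8 := ⟨A ^ 2 / 8, by omega⟩
      have h8 : (8 : ZMod (2 ^ 3)) = 0 := by decide
      have hAz : ((A ^ 2 * m : ℤ) : ZMod (2 ^ 3)) = (m : ZMod (2 ^ 3)) := by
        rw [ha8]
        push_cast
        rw [h8]
        ring
      have h3' := congrArg (PadicInt.toZModPow 3) hYX
      rw [map_pow, map_mul, map_sub, map_sub, map_one, map_intCast, hAz] at h3'
      obtain ⟨m', hm'⟩ := z4 hm
      have hmz : (m : ZMod (2 ^ 3)) = 3 + 4 * (m' : ZMod (2 ^ 3)) := by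
        rw [hm']
        push_cast
        ring
      rcases hS with hS | hS <;> rcases hT with hT | hT
      · -- both are `2` modulo `4`
        have hXW' := hXW
        rw [hS, hT] at hXW'
        obtain ⟨B', hB'⟩ : ∃ B' : ℤ, B = 2 * B' := ⟨B / 2, by omega⟩
        have hST : (1 + 2 * S) * (1 + 2 * T) = ((B' ^ 2 * m : ℤ) : ℤ_[2]) := by
          have h4 : (4 : ℤ_[2]) ≠ 0 := by norm_num
          apply mul_left_cancel₀ h4
          rw [hB'] at hXW'
          push_cast at hXW' ⊢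
          linear_combination hXW'
        have h5 := congrArg (PadicInt.toZModPow 3) hST
        rw [map_mul, map_add, map_add, map_mul, map_mul, map_one, map_ofNat, map_intCast] at h5
        rcases hc with hc | hc
        · obtain ⟨m'', hm''⟩ : ∃ m'' : ℤ, m = 3 + 8 * m'' := ⟨m / 8, by omega⟩
          have hmz : (m : ZMod (2 ^ 3)) = 3 := by
            rw [hm'']
            push_cast
            rw [h8]
            ring
          rw [Int.cast_mul, Int.cast_pow, hmz] at h5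
          rw [hmz, hS, hT, map_mul, map_mul, map_add, map_add, map_mul, map_mul, map_one,
            map_ofNat] at h3'
          have h6 : ∀ Y S T : ZMod (2 ^ 3), Y ^ 2 = (1 - 2 * (1 + 2 * T)) * (2 * (1 + 2 * S) - 3) →
              ∀ B : ZMod (2 ^ 3), (1 + 2 * S) * (1 + 2 * T) ≠ B ^ 2 * 3 := by decide
          exact h6 _ _ _ h3' _ h5
        · obtain ⟨k, hk⟩ : ∃ k : ℤ, B' = 2 * k := ⟨B' / 2, by omega⟩
          rw [hk] at h5
          push_cast at h5
          have h6 : ∀ S T k m : ZMod (2 ^ 3), (1 + 2 * S) * (1 + 2 * T) ≠ (2 * k) ^ 2 * m := by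
            decide
          exact h6 _ _ _ _ h5
      · have h4 := congrArg (PadicInt.toZModPow 2) hYX
        have h4z : (4 : ZMod (2 ^ 2)) = 0 := by decide
        have h8z : (8 : ZMod (2 ^ 2)) = 0 := by decide
        rw [hS, hT, map_pow, map_mul, map_sub, map_sub, map_one, map_intCast, ha8, hm', map_mul,
          map_mul, map_add, map_mul, map_one, map_ofNat, map_ofNat] at h4
        push_cast at h4
        rw [h8z, h4z] at h4
        have h6 : ∀ Y S T a b : ZMod (2 ^ 2), Y ^ 2 ≠ (1 - 0 * T) * (2 * (1 + 2 * S) -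
            (1 + 0 * a) * (3 + 0 * b)) := by decide
        exact h6 _ _ _ _ _ h4
      · have h4 := congrArg (PadicInt.toZModPow 2) hYX
        have h4z : (4 : ZMod (2 ^ 2)) = 0 := by decide
        have h8z : (8 : ZMod (2 ^ 2)) = 0 := by decide
        rw [hS, hT, map_pow, map_mul, map_sub, map_sub, map_one, map_intCast, ha8, hm', map_mul,
          map_mul, map_add, map_mul, map_one, map_ofNat, map_ofNat] at h4
        push_cast at h4
        rw [h8z, h4z] at h4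
        have h6 : ∀ Y S T a b : ZMod (2 ^ 2), Y ^ 2 ≠ (1 - 2 * (1 + 2 * T)) * (0 * S -
            (1 + 0 * a) * (3 + 0 * b)) := by decide
        exact h6 _ _ _ _ _ h4
      · rcases hc with hc | hc
        · obtain ⟨m'', hm''⟩ : ∃ m'' : ℤ, m = 3 + 8 * m'' := ⟨m / 8, by omega⟩
          have hmz : (m : ZMod (2 ^ 3)) = 3 := by
            rw [hm'']
            push_cast
            rw [h8]
            ring
          rw [hmz, hS, hT, map_mul, map_mul, map_ofNat, h8] at h3'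
          have h6 : ∀ Y S T : ZMod (2 ^ 3), Y ^ 2 ≠ (1 - 0 * T) * (0 * S - 3) := by decide
          exact h6 _ _ _ h3'
        · -- `64` does not divide `B² m`
          obtain ⟨B', hB'⟩ : ∃ B' : ℤ, B = 4 * (1 + 2 * B') := ⟨B / 8, by omega⟩
          rw [hS, hT, hB', hm'] at hXW
          have h5 : 4 * (S * T) = ((((1 + 2 * B') ^ 2 * (3 + 4 * m') : ℤ)) : ℤ_[2]) := by
            have h16 : (16 : ℤ_[2]) ≠ 0 := by norm_num
            apply mul_left_cancel₀ h16
            push_cast at hXW ⊢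
            linear_combination hXW
          have h6 := congrArg (PadicInt.toZModPow 1) h5
          rw [map_mul, map_ofNat, map_intCast] at h6
          push_cast at h6
          have h7 : ∀ S a b : ZMod (2 ^ 1), 4 * S ≠ (1 + 2 * a) ^ 2 * (3 + 4 * b) := by decide
          exact h7 _ _ _ h6
  · exact hodd 1 (by rw [h1, one_pow])
  · have h2 : wv 2 (x - ((A ^ 2 * m : ℤ) : ℚ_[2])) = wv 2 x := by
      apply Valuation.map_sub_eq_of_lt_left
      rw [hAm]
      exact h1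
    have h3 : wv 2 (x - ((B ^ 2 * m : ℤ) : ℚ_[2])) = wv 2 x := by
      apply Valuation.map_sub_eq_of_lt_left
      rw [hBm]
      exact lt_of_le_of_lt (pow_le_one' hBle 2) h1
    rw [h2, h3] at hy
    apply hodd (wv 2 y / wv 2 x)
    rw [div_pow, hy]
    field_simp

end Pool.Agent.Run7.h289.D18
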