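import Mathlib
import Pool.Agent.Run7.h289.D16.Q4
import Pool.Agent.Run7.h289.D18.Al
import Pool.Agent.Run7.h289.D18.Tw

/-!
# The Selmer groups of `y² = x (x + u² m) (x + v² m)`
-/

set_option autoImplicit false
set_option linter.unusedSectionVars false

attribute [-instance] DivisionRing.toRatAlgebra

namespace Pool.Agent.Run7.h289.D18

open Finset
open Pool.Agent.Y682 (S1 S2 LL1 LL2 Sq quot_eq IsT Zc Zc_card Zc_lower MP)
open Run7.h843.Sha Run7.h843.Desc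
open Run7.h843.R (C2_iff good_even)
open Run7.h424.DC
open Pool.Agent.Run7.h289.D16 (w14 mod4_of odd_sq8)
open Pool.Agent.N969.P15 (Qc)

section

variable {p : ℕ} [hp : Fact p.Prime]

/-- an odd prime dividing one of the two roots -/
theorem out_rs (h2 : p ≠ 2) {r s M : ℤ} (hs : ¬ (p : ℤ) ∣ s)
    (hM : ¬ (p : ℤ) ∣ M) (hns : ¬ IsSquare (M : ZMod p)) {X : ℤ} (hX : X ≠ 0)
    (hC : C1 ℚ_[p] (((r ^ 2 + s ^ 2) * M : ℤ) : ℚ) ((r ^ 2 * s ^ 2 * M ^ 2 : ℤ) : ℚ) (X : ℚ)) :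
    vv p X = 0 := by
  have hpi : Prime (p : ℤ) := Nat.prime_iff_prime_int.1 hp.out
  obtain ⟨z, x, hz, hzm, hx⟩ := hC
  rw [Rat.cast_intCast, Rat.cast_intCast] at hx
  rw [Rat.cast_intCast] at hzm
  have hwz : wv p z ≠ 0 := (Valuation.ne_zero_iff _).2 hz
  have hwM : wv p ((M : ℤ) : ℚ_[p]) = 1 := w_one hM
  have hws : wv p ((s : ℤ) : ℚ_[p]) = 1 := w_one hs
  have hwa : wv p ((r ^ 2 * M : ℤ) : ℚ_[p]) = (wv p ((r : ℤ) : ℚ_[p])) ^ 2 := by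
    rw [Int.cast_mul, Int.cast_pow, map_mul, map_pow, hwM, mul_one]
  have hsM : ¬ (p : ℤ) ∣ s ^ 2 * M := by
    intro h
    rcases hpi.dvd_or_dvd h with h | h
    · exact hs (hpi.dvd_of_dvd_pow h)
    · exact hM h
  have hwb : wv p ((s ^ 2 * M : ℤ) : ℚ_[p]) = 1 := w_one hsM
  have fin : (∃ g, wv p x = g ^ 2) → vv p X = 0 := by
    rintro ⟨g, hg⟩
    refine vv_of_even (p := p) hX (g := g / wv p z) ?_
    rw [div_pow, ← hg, ← hzm, map_mul, map_pow]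
    field_simp
  rcases hx with hx | hx | ⟨hx0, y, hy⟩
  · exact fin ⟨1, by rw [hx, map_one, one_pow]⟩
  · refine fin ⟨wv p ((r : ℤ) : ℚ_[p]), ?_⟩
    have e : ((r ^ 2 * s ^ 2 * M ^ 2 : ℤ) : ℚ_[p]) = ((r ^ 2 * M : ℤ) : ℚ_[p]) *
        ((s ^ 2 * M : ℤ) : ℚ_[p]) := by
      push_cast
      ring
    rw [hx, e, map_mul, hwa, hwb, mul_one]
  · by_cases hodd : ∃ g, wv p x = g ^ 2
    · exact fin hodd
    · exfalso
      push Not at hodd
      obtain ⟨c, hc⟩ := beta_sq (wv p) (hens h2) (m := x) (y := y) hwa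
        (Run7.h843.R.w_int_le _) hwb (fun g hg => hodd g hg.symm) (by
          rw [hy]
          push_cast
          ring)
      have h3 : IsSquare ((s ^ 2 * M : ℤ) : ZMod p) :=
        SqP.isSquare hsM ⟨c, by rw [Rat.cast_intCast]; exact hc⟩
      apply hns
      obtain ⟨t, ht⟩ := h3
      have hsz : (s : ZMod p) ≠ 0 := cast_ne.2 hs
      refine ⟨t / s, ?_⟩
      push_cast at ht
      field_simp
      linear_combination ht

/-- the odd primes which do not divide `M` -/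
theorem out_odd (h2 : p ≠ 2) {r s M : ℤ} (hrs : ¬ ((p : ℤ) ∣ r ∧ (p : ℤ) ∣ s))
    (hM : ¬ (p : ℤ) ∣ M) (hns : (p : ℤ) ∣ r * s → ¬ IsSquare (M : ZMod p)) {X : ℤ} (hX : X ≠ 0)
    (hC : C1 ℚ_[p] (((r ^ 2 + s ^ 2) * M : ℤ) : ℚ) ((r ^ 2 * s ^ 2 * M ^ 2 : ℤ) : ℚ) (X : ℚ)) :
    vv p X = 0 := by
  have hpi : Prime (p : ℤ) := Nat.prime_iff_prime_int.1 hp.out
  by_cases h : (p : ℤ) ∣ r * s
  · rcases hpi.dvd_or_dvd h with h3 | h3
    · exact out_rs h2 (fun h4 => hrs ⟨h3, h4⟩) hM (hns h) hX hC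
    · refine out_rs h2 (r := s) (s := r) (fun h4 => hrs ⟨h4, h3⟩) hM (hns h) hX ?_
      have e1 : (s ^ 2 + r ^ 2) * M = (r ^ 2 + s ^ 2) * M := by ring
      have e2 : s ^ 2 * r ^ 2 * M ^ 2 = r ^ 2 * s ^ 2 * M ^ 2 := by ring
      rw [e1, e2]
      exact hC
  · refine good_even (p := p) ?_ hX hC
    intro h3
    have e : r ^ 2 * s ^ 2 * M ^ 2 = (r * s) ^ 2 * M ^ 2 := by ring
    rw [e] at h3
    rcases hpi.dvd_or_dvd h3 with h4 | h4
    · exact h (hpi.dvd_of_dvd_pow h4)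
    · exact hM (hpi.dvd_of_dvd_pow h4)

end

/-- the conditions on the curve and on the twist -/
structure Dt (u v : ℤ) (m : ℕ) : Prop where
  sqf : Squarefree m
  m4 : m % 4 = 3
  cop : IsCoprime u v
  u0 : u ≠ 0
  v0 : v ≠ 0
  ne : u ^ 2 ≠ v ^ 2
  nb : ∀ l : ℕ, l.Prime → l ≠ 2 → (l : ℤ) ∣ u * v → ¬ IsSquare ((m : ℤ) : ZMod l)
  ng : ∀ l : ℕ, l.Prime → l ≠ 2 → (l : ℤ) ∣ u ^ 2 - v ^ 2 → ¬ IsSquare ((-m : ℤ) : ZMod l)
  two : (u % 2 = 1 ∧ v % 2 = 1 ∧ (m % 8 = 3 ∨ (u ^ 2 - v ^ 2) % 32 = 16)) ∨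
    (u % 4 = 2 ∧ v % 2 = 1) ∨ (u % 2 = 1 ∧ v % 4 = 2)

section

variable {u v : ℤ} {m : ℕ}

theorem Dt.symm (h : Dt u v m) : Dt v u m := by
  refine ⟨h.sqf, h.m4, h.cop.symm, h.v0, h.u0, fun h1 => h.ne h1.symm, fun l hl hl2 hd => ?_,
    fun l hl hl2 hd => ?_, ?_⟩
  · exact h.nb l hl hl2 (by rwa [mul_comm] at hd)
  · refine h.ng l hl hl2 ?_
    have e : u ^ 2 - v ^ 2 = -(v ^ 2 - u ^ 2) := by ring
    rw [e, dvd_neg]
    exact hd
  · rcases h.two with ⟨h1, h2, h3⟩ | ⟨h1, h2⟩ | ⟨h1, h2⟩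
    · exact Or.inl ⟨h2, h1, h3.imp id fun h4 => by omega⟩
    · exact Or.inr (Or.inr ⟨h2, h1⟩)
    · exact Or.inr (Or.inl ⟨h2, h1⟩)

theorem Dt.m0 (h : Dt u v m) : (m : ℤ) ≠ 0 := by exact_mod_cast h.sqf.ne_zero

theorem Dt.mp (h : Dt u v m) : (0 : ℤ) < m := by
  have := Nat.pos_of_ne_zero h.sqf.ne_zero
  exact_mod_cast this

theorem Dt.p2 (h : Dt u v m) {p : ℕ} (hp : p ∣ m) : p ≠ 2 := by
  rintro rfl
  have := h.m4
  omega

theorem Dt.puv (h : Dt u v m) {p : ℕ} (hpp : p.Prime) (hp : p ∣ m) : ¬ (p : ℤ) ∣ u * v := by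
  intro hd
  apply h.nb p hpp (h.p2 hp) hd
  have h1 : ((m : ℤ) : ZMod p) = 0 :=
    (ZMod.intCast_zmod_eq_zero_iff_dvd _ p).2 (by exact_mod_cast hp)
  rw [h1]
  exact IsSquare.zero

theorem Dt.pd (h : Dt u v m) {p : ℕ} (hpp : p.Prime) (hp : p ∣ m) :
    ¬ (p : ℤ) ∣ u ^ 2 - v ^ 2 := by
  intro hd
  apply h.ng p hpp (h.p2 hp) hd
  have h1 : ((-m : ℤ) : ZMod p) = 0 :=
    (ZMod.intCast_zmod_eq_zero_iff_dvd _ p).2 (by
      rw [dvd_neg]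
      exact_mod_cast hp)
  rw [h1]
  exact IsSquare.zero

theorem mu4 {a m : ℤ} (ha : a % 2 = 1) (hm : m % 4 = 3) : (a ^ 2 * m) % 4 = 3 := by
  have h := odd_sq8 ha
  obtain ⟨k, hk⟩ : ∃ k : ℤ, a ^ 2 = 1 + 8 * k := ⟨a ^ 2 / 8, by omega⟩
  rw [hk]
  have e : (1 + 8 * k) * m = m + 4 * (2 * k * m) := by ring
  rw [e]
  omega

/-- the class at `2`, first curve -/
theorem cls2 (h : Dt u v m) {x : ℚ_[2]}
    (hx : S1 (((u ^ 2 + v ^ 2) * m : ℤ) : ℚ_[2]) ((u ^ 2 * v ^ 2 * m ^ 2 : ℤ) : ℚ_[2]) x) :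
    ∃ (c : ℚ_[2]) (t : ℤ_[2]), c ≠ 0 ∧ x = c ^ 2 * (1 + 4 * (t : ℚ_[2])) := by
  have hm : (m : ℤ) % 4 = 3 := by
    have := h.m4
    omega
  have key : ∀ {u v : ℤ}, u % 4 = 2 → v % 2 = 1 →
      S1 (((u ^ 2 + v ^ 2) * m : ℤ) : ℚ_[2]) ((u ^ 2 * v ^ 2 * m ^ 2 : ℤ) : ℚ_[2]) x →
      ∃ (c : ℚ_[2]) (t : ℤ_[2]), c ≠ 0 ∧ x = c ^ 2 * (1 + 4 * (t : ℚ_[2])) := by
    intro u v hu hv hx
    obtain ⟨u', hu'⟩ : ∃ u' : ℤ, u = 2 * u' := ⟨u / 2, by omega⟩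
    have hu2 : u' % 2 = 1 := by omega
    refine im2b (μ := u' ^ 2 * m) (ν := v ^ 2 * m) (mu4 hu2 hm) (mu4 hv hm) ?_
    have e1 : 4 * (u' ^ 2 * (m : ℤ)) + v ^ 2 * m = (u ^ 2 + v ^ 2) * m := by rw [hu']; ring
    have e2 : 4 * (u' ^ 2 * (m : ℤ)) * (v ^ 2 * m) = u ^ 2 * v ^ 2 * m ^ 2 := by rw [hu']; ring
    rw [e1, e2]
    exact hx
  rcases h.two with ⟨h1, h2, -⟩ | ⟨h1, h2⟩ | ⟨h1, h2⟩
  · refine im2a (μ := u ^ 2 * m) (ν := v ^ 2 * m) (mu4 h1 hm) ?_ ?_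
    · have hu := odd_sq8 h1
      have hv := odd_sq8 h2
      obtain ⟨k, hk⟩ : ∃ k : ℤ, v ^ 2 = u ^ 2 + 8 * k := ⟨(v ^ 2 - u ^ 2) / 8, by omega⟩
      rw [hk]
      have e : (u ^ 2 + 8 * k) * (m : ℤ) - u ^ 2 * m = 8 * (k * m) := by ring
      rw [e]
      exact Int.mul_emod_right 8 _
    · have e1 : u ^ 2 * (m : ℤ) + v ^ 2 * m = (u ^ 2 + v ^ 2) * m := by ring
      have e2 : u ^ 2 * (m : ℤ) * (v ^ 2 * m) = u ^ 2 * v ^ 2 * m ^ 2 := by ring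
      rw [e1, e2]
      exact hx
  · exact key h1 h2 hx
  · refine key h2 h1 ?_
    have e1 : (v ^ 2 + u ^ 2) * (m : ℤ) = (u ^ 2 + v ^ 2) * m := by ring
    have e2 : v ^ 2 * u ^ 2 * (m : ℤ) ^ 2 = u ^ 2 * v ^ 2 * m ^ 2 := by ring
    rw [e1, e2]
    exact hx

/-- the exponent at `2`, second curve -/
theorem even2 (h : Dt u v m) {X : ℤ} (hX : X ≠ 0)
    (hC : C1 ℚ_[2] ((-2 * (u ^ 2 + v ^ 2) * m : ℤ) : ℚ) (((u ^ 2 - v ^ 2) ^ 2 * m ^ 2 : ℤ) : ℚ)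
      (X : ℚ)) : vv 2 X = 0 := by
  have hm : (m : ℤ) % 4 = 3 := by
    have := h.m4
    omega
  have hodd : (u % 2 = 1 ∧ v % 2 = 0) ∨ (u % 2 = 0 ∧ v % 2 = 1) → vv 2 X = 0 := by
    intro h1
    refine good_even (p := 2) ?_ hX hC
    intro h2
    have h3 : (2 : ℤ) ∣ (u ^ 2 - v ^ 2) ^ 2 * m ^ 2 := by exact_mod_cast h2
    rcases Int.prime_two.dvd_or_dvd h3 with h4 | h4
    · have h5 := Int.prime_two.dvd_of_dvd_pow h4
      have e : u ^ 2 - v ^ 2 = (u - v) * (u + v) := by ring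
      rw [e] at h5
      rcases Int.prime_two.dvd_or_dvd h5 with h6 | h6 <;> omega
    · have h5 := Int.prime_two.dvd_of_dvd_pow h4
      omega
  rcases h.two with ⟨h1, h2, h3⟩ | ⟨h1, h2⟩ | ⟨h1, h2⟩
  · obtain ⟨z, x, hz, hzm, hx⟩ := hC
    rw [Rat.cast_intCast, Rat.cast_intCast] at hx
    rw [Rat.cast_intCast] at hzm
    have hwz : wv 2 z ≠ 0 := (Valuation.ne_zero_iff _).2 hz
    have fin : (∃ g, wv 2 x = g ^ 2) → vv 2 X = 0 := by
      rintro ⟨g, hg⟩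
      refine vv_of_even (p := 2) hX (g := g / wv 2 z) ?_
      rw [div_pow, ← hg, ← hzm, map_mul, map_pow]
      field_simp
    rcases hx with hx | hx | ⟨hx0, y, hy⟩
    · exact fin ⟨1, by rw [hx, map_one, one_pow]⟩
    · refine fin ⟨wv 2 (((u ^ 2 - v ^ 2) * m : ℤ) : ℚ_[2]), ?_⟩
      rw [hx, ← map_pow]
      congr 1
      push_cast
      ring
    · by_contra hne
      have hod : ∀ g, g ^ 2 ≠ wv 2 x := fun g hg => hne (fin ⟨g, hg.symm⟩)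
      have hod' : ∀ g, g ^ 2 ≠ wv 2 (x / 4) := by
        intro g hg
        have e4 : (4 : ℚ_[2]) = 2 ^ 2 := by norm_num
        apply hod (g * wv 2 (2 : ℚ_[2]))
        rw [map_div₀, e4, map_pow] at hg
        have h2 : wv 2 (2 : ℚ_[2]) ≠ 0 := (Valuation.ne_zero_iff _).2 two_ne_zero
        rw [mul_pow, hg]
        field_simp
      obtain ⟨P, hP⟩ : ∃ P : ℤ, u - v = 2 * P := ⟨(u - v) / 2, by omega⟩
      obtain ⟨R, hR⟩ : ∃ R : ℤ, u + v = 2 * R := ⟨(u + v) / 2, by omega⟩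
      have hu : u = R + P := by linarith
      have hv : v = R - P := by linarith
      have hP0 : P ≠ 0 := by
        rintro rfl
        apply h.ne
        have : u = v := by linarith
        rw [this]
      have hR0 : R ≠ 0 := by
        rintro rfl
        apply h.ne
        have : u = -v := by linarith
        rw [this]
        ring
      have hPR : u ^ 2 - v ^ 2 = 4 * (P * R) := by rw [hu, hv]; ring
      have hyq : (y / 8) ^ 2 = x / 4 * ((x / 4 - ((P ^ 2 * m : ℤ) : ℚ_[2])) *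
          (x / 4 - ((R ^ 2 * m : ℤ) : ℚ_[2]))) := by
        rw [div_pow, hy, hu, hv]
        push_cast
        ring
      have hpar : (P % 2 = 1 ∧ R % 2 = 0) ∨ (P % 2 = 0 ∧ R % 2 = 1) := by omega
      rcases hpar with ⟨a1, a2⟩ | ⟨a1, a2⟩
      · refine im2c a1 a2 hR0 hm ?_ (div_ne_zero hx0 (by norm_num)) hod' hyq
        rcases h3 with h3 | h3
        · left; omega
        · right
          have h4 : (P * R) % 8 = 4 := by omega
          have h5 : P % 8 = 1 ∨ P % 8 = 3 ∨ P % 8 = 5 ∨ P % 8 = 7 := by omega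
          have h6 : R % 8 = 0 ∨ R % 8 = 2 ∨ R % 8 = 4 ∨ R % 8 = 6 := by omega
          rw [Int.mul_emod] at h4
          rcases h5 with h5 | h5 | h5 | h5 <;> rcases h6 with h6 | h6 | h6 | h6 <;>
            rw [h5, h6] at h4 <;> omega
      · refine im2c (A := R) (B := P) a2 a1 hP0 hm ?_ (div_ne_zero hx0 (by norm_num)) hod' (by
          rw [hyq]; ring)
        rcases h3 with h3 | h3
        · left; omega
        · right
          have h4 : (P * R) % 8 = 4 := by omega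
          have h5 : R % 8 = 1 ∨ R % 8 = 3 ∨ R % 8 = 5 ∨ R % 8 = 7 := by omega
          have h6 : P % 8 = 0 ∨ P % 8 = 2 ∨ P % 8 = 4 ∨ P % 8 = 6 := by omega
          rw [Int.mul_emod] at h4
          rcases h5 with h5 | h5 | h5 | h5 <;> rcases h6 with h6 | h6 | h6 | h6 <;>
            rw [h5, h6] at h4 <;> omega
  · exact hodd (Or.inr ⟨by omega, h2⟩)
  · exact hodd (Or.inl ⟨h1, by omega⟩)

theorem real_pos {X : ℚ} (h : Dt u v m)
    (hC : C1 ℝ ((-2 * (u ^ 2 + v ^ 2) * m : ℤ) : ℚ) (((u ^ 2 - v ^ 2) ^ 2 * m ^ 2 : ℤ) : ℚ) X) :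
    0 < X := by
  obtain ⟨z, m', hz, hzm, hm'⟩ := hC
  have hmr : (0 : ℝ) < m := by exact_mod_cast h.mp
  have hur : (u : ℝ) ≠ 0 := by exact_mod_cast h.u0
  have hne : (u : ℝ) ^ 2 - v ^ 2 ≠ 0 := by
    have := sub_ne_zero.2 h.ne
    exact_mod_cast this
  push_cast at hm'
  have hB : (0 : ℝ) < ((u : ℝ) ^ 2 - v ^ 2) ^ 2 * (m : ℝ) ^ 2 := by positivity
  have hm1 : 0 < m' := by
    rcases hm' with hm' | hm' | ⟨h0, y, hy⟩
    · rw [hm']; exact one_pos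
    · rw [hm']; exact hB
    · by_contra h1
      have h2 : m' < 0 := lt_of_le_of_ne (not_lt.1 h1) h0
      have h3 : 0 < m' ^ 2 + -2 * ((u : ℝ) ^ 2 + v ^ 2) * m * m' +
          ((u : ℝ) ^ 2 - v ^ 2) ^ 2 * (m : ℝ) ^ 2 := by
        have h4 : 0 < ((u : ℝ) ^ 2 + v ^ 2) * m * -m' := mul_pos (mul_pos (by positivity) hmr)
          (by linarith)
        nlinarith [sq_nonneg m']
      nlinarith [sq_nonneg y, mul_neg_of_neg_of_pos h2 h3]
  have h5 : 0 < (X : ℝ) := by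
    by_contra h6
    have h7 : (X : ℝ) * z ^ 2 ≤ 0 := mul_nonpos_of_nonpos_of_nonneg (not_lt.1 h6) (sq_nonneg z)
    linarith
  exact_mod_cast h5

/-- **the first Selmer group** -/
theorem sel1c (h : Dt u v m) (hQ : Qc m) {b : ℚ} (hb : b ≠ 0)
    (hL : ∀ (l : ℕ) [Fact l.Prime], C1 ℚ_[l] (((u ^ 2 + v ^ 2) * m : ℤ) : ℚ)
      ((u ^ 2 * v ^ 2 * m ^ 2 : ℤ) : ℚ) b) :
    ∃ c : ℚ, b = c ^ 2 ∨ b = -m * c ^ 2 := by
  have hn := h.sqf
  obtain ⟨X, d, hXs, hd, hXb⟩ := exists_sf hb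
  have hall : ∀ q : ℕ, ∀ hq : q.Prime, @C1 (@Padic q ⟨hq⟩) _ (((u ^ 2 + v ^ 2) * m : ℤ) : ℚ)
      ((u ^ 2 * v ^ 2 * m ^ 2 : ℤ) : ℚ) (X : ℚ) := by
    intro q hq
    have : Fact q.Prime := ⟨hq⟩
    rw [hXb]
    exact C1_mul hd (hL q)
  have hX0 : X ≠ 0 := by
    rintro rfl
    exact hXs.ne_zero rfl
  obtain ⟨c, t, hcX⟩ : ∃ (c : ℚ_[2]) (t : ℤ_[2]), (X : ℚ_[2]) = c ^ 2 * (1 + 4 * (t : ℚ_[2])) := by
    obtain ⟨z, x, hz, hzm, hx⟩ := hall 2 Nat.prime_two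
    rw [Rat.cast_intCast, Rat.cast_intCast] at hx
    rw [Rat.cast_intCast] at hzm
    obtain ⟨c, t, hc0, hc⟩ := cls2 h hx
    refine ⟨c / z, t, ?_⟩
    rw [hc] at hzm
    rw [div_pow]
    field_simp
    linear_combination hzm
  have hX2 : X % 2 = 1 := by
    have h1 := vv_dvd hXs Nat.prime_two (vv_of_even (p := 2) hX0 (g := wv 2 c) (by
      rw [hcX, map_mul, w14, mul_one, map_pow]))
    have h2 : ¬ (2 : ℤ) ∣ X := by exact_mod_cast h1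
    omega
  have hX4 : X % 4 = 1 := mod4_of hX2 hcX
  have hXn : X.natAbs ∣ m := sf_dvd hXs hn fun q hq hqX => by
    by_contra hqn
    have : Fact q.Prime := ⟨hq⟩
    have hqX' : (q : ℤ) ∣ X := Int.natCast_dvd.2 hqX
    have hq2 : q ≠ 2 := by
      rintro rfl
      have : (2 : ℤ) ∣ X := by exact_mod_cast hqX'
      omega
    refine vv_dvd hXs hq ?_ hqX'
    refine out_odd hq2 (r := u) (s := v) (M := m) ?_ (by exact_mod_cast hqn)
      (h.nb q hq hq2) hX0 (hall q hq)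
    rintro ⟨h1, h2⟩
    exact (Nat.prime_iff_prime_int.1 hq).not_isUnit (h.cop.isUnit_of_dvd' h1 h2)
  have hfin := fin1 hn h.m4 hQ hXs hX4 hXn (by
    intro p hp
    have hpp := Nat.prime_of_mem_primeFactors hp
    have hpd := Nat.dvd_of_mem_primeFactors hp
    have : Fact p.Prime := ⟨hpp⟩
    have hpi : Prime (p : ℤ) := Nat.prime_iff_prime_int.1 hpp
    have h1 := h.puv hpp hpd
    refine inG (r := u) (r' := v) (h.p2 hpd) hn hp (Or.inr rfl)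
      (fun h3 => h1 (h3.mul_right v)) (fun h3 => h1 (h3.mul_left u)) ?_
    have e1 : (-(-1) * (u ^ 2 + v ^ 2) * m : ℤ) = (u ^ 2 + v ^ 2) * m := by ring
    rw [e1]
    exact hall p hpp)
  have hbX : b = X / d ^ 2 := by rw [hXb]; field_simp
  rcases hfin with h1 | h1
  · refine ⟨1 / d, Or.inl ?_⟩
    rw [hbX, h1]
    push_cast
    ring
  · refine ⟨1 / d, Or.inr ?_⟩
    rw [hbX, h1]
    push_cast
    ring

/-- **the second Selmer group** -/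
theorem sel2c (h : Dt u v m) (hQ : Qc m) {b : ℚ} (hb : b ≠ 0)
    (hL : ∀ (l : ℕ) [Fact l.Prime], C1 ℚ_[l] ((-2 * (u ^ 2 + v ^ 2) * m : ℤ) : ℚ)
      (((u ^ 2 - v ^ 2) ^ 2 * m ^ 2 : ℤ) : ℚ) b)
    (hR : C1 ℝ ((-2 * (u ^ 2 + v ^ 2) * m : ℤ) : ℚ) (((u ^ 2 - v ^ 2) ^ 2 * m ^ 2 : ℤ) : ℚ) b) :
    ∃ c : ℚ, b = c ^ 2 ∨ b = m * c ^ 2 := by
  have hn := h.sqf
  obtain ⟨X, d, hXs, hd, hXb⟩ := exists_sf hb
  have hall : ∀ q : ℕ, ∀ hq : q.Prime, @C1 (@Padic q ⟨hq⟩) _ ((-2 * (u ^ 2 + v ^ 2) * m : ℤ) : ℚ)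
      (((u ^ 2 - v ^ 2) ^ 2 * m ^ 2 : ℤ) : ℚ) (X : ℚ) := by
    intro q hq
    have : Fact q.Prime := ⟨hq⟩
    rw [hXb]
    exact C1_mul hd (hL q)
  have hX0 : 0 < X := by
    have : (0 : ℚ) < X := by
      refine real_pos h ?_
      rw [hXb]
      exact C1_mul hd hR
    exact_mod_cast this
  have hXn : X.natAbs ∣ m := sf_dvd hXs hn fun q hq hqX => by
    by_contra hqn
    have : Fact q.Prime := ⟨hq⟩
    have hqX' : (q : ℤ) ∣ X := Int.natCast_dvd.2 hqX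
    refine vv_dvd hXs hq ?_ hqX'
    by_cases hq2 : q = 2
    · subst hq2
      exact even2 h hX0.ne' (hall 2 hq)
    · have hpi : Prime (q : ℤ) := Nat.prime_iff_prime_int.1 hq
      have hq2d : ¬ (q : ℤ) ∣ 2 := by
        intro h3
        have h4 : q ∣ 2 := by exact_mod_cast h3
        exact hq2 ((Nat.prime_dvd_prime_iff_eq hq Nat.prime_two).1 h4)
      refine out_odd hq2 (r := u - v) (s := u + v) (M := -m) ?_ (by
        rw [dvd_neg]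
        exact_mod_cast hqn) (fun h3 => h.ng q hq hq2 (by
          have e : u ^ 2 - v ^ 2 = (u - v) * (u + v) := by ring
          rw [e]
          exact h3)) hX0.ne' ?_
      · rintro ⟨h1, h2⟩
        have h3 : (q : ℤ) ∣ 2 * u := by
          have := dvd_add h1 h2
          have e : u - v + (u + v) = 2 * u := by ring
          rwa [e] at this
        have h4 : (q : ℤ) ∣ 2 * v := by
          have := dvd_sub h2 h1
          have e : u + v - (u - v) = 2 * v := by ring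
          rwa [e] at this
        exact hpi.not_isUnit (h.cop.isUnit_of_dvd' ((hpi.dvd_or_dvd h3).resolve_left hq2d)
          ((hpi.dvd_or_dvd h4).resolve_left hq2d))
      · have e1 : ((u - v) ^ 2 + (u + v) ^ 2) * (-(m : ℤ)) = -2 * (u ^ 2 + v ^ 2) * m := by ring
        have e2 : (u - v) ^ 2 * (u + v) ^ 2 * (-(m : ℤ)) ^ 2 = (u ^ 2 - v ^ 2) ^ 2 * m ^ 2 := by ring
        rw [e1, e2]
        exact hall q hq
  have hfin := fin2 hn hQ hX0 hXn (by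
    intro p hp
    have hpp := Nat.prime_of_mem_primeFactors hp
    have hpd := Nat.dvd_of_mem_primeFactors hp
    have : Fact p.Prime := ⟨hpp⟩
    have hpi : Prime (p : ℤ) := Nat.prime_iff_prime_int.1 hpp
    have h1 := h.pd hpp hpd
    have e0 : u ^ 2 - v ^ 2 = (u - v) * (u + v) := by ring
    rw [e0] at h1
    refine inG (r := u - v) (r' := u + v) (h.p2 hpd) hn hp (Or.inl rfl)
      (fun h3 => h1 (h3.mul_right _)) (fun h3 => h1 (h3.mul_left _)) ?_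
    have e1 : (-1 * ((u - v) ^ 2 + (u + v) ^ 2) * m : ℤ) = -2 * (u ^ 2 + v ^ 2) * m := by ring
    have e2 : (u - v) ^ 2 * (u + v) ^ 2 * (m : ℤ) ^ 2 = (u ^ 2 - v ^ 2) ^ 2 * m ^ 2 := by ring
    rw [e1, e2]
    exact hall p hpp)
  have hbX : b = X / d ^ 2 := by rw [hXb]; field_simp
  rcases hfin with h1 | h1
  · refine ⟨1 / d, Or.inl ?_⟩
    rw [hbX, h1]
    push_cast
    ring
  · refine ⟨1 / d, Or.inr ?_⟩
    rw [hbX, h1]
    push_cast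
    ring

end

end Pool.Agent.Run7.h289.D18
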