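import Pool.Agent.Run7.h424.DC.To

/-!
# The classes of the rational points of `y² = x (x - r² M) (x - s² M)`
-/

set_option autoImplicit false

open NumberField IsDedekindDomain WeierstrassCurve

namespace Pool.Agent.Run7.h289.D18

open Pool.Agent.Y698.SG.Cv (LocI WF)
open Pool.Agent.Y668
open Pool.Agent.Y542.SGT (ns_of fin_iso)
open Run7.h424.DC (grp dbl0)

theorem ns_mul {M t : ℚ} (hM : ¬ IsSquare M) (ht : t ≠ 0) (s : ℚ) : t ^ 2 * M ≠ s * s := by
  intro h
  apply hM
  refine ⟨s / t, ?_⟩
  field_simp
  linear_combination h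

/-- **the classes of the rational points**, if there are finitely many -/
theorem torG {M r s : ℚ} (hM : ¬ IsSquare M) (hM' : ¬ IsSquare (-M)) (hr : r ≠ 0) (hs : s ≠ 0)
    (hrs : r ^ 2 ≠ s ^ 2)
    (hf0 : Finite (Wt (-(r ^ 2 + s ^ 2) * M) ((r * s * M) ^ 2)).toAffine.Point) {X Y : ℚ}
    (hX : X ≠ 0)
    (hY : Y ^ 2 = X ^ 3 + (-(r ^ 2 + s ^ 2) * M) * X ^ 2 + ((r * s * M) ^ 2) * X) :
    IsSquare X ∨ IsSquare (X * M) := by
  classical
  have hM0 : M ≠ 0 := by
    rintro rfl
    exact hM IsSquare.zero
  set A : ℚ := -(r ^ 2 + s ^ 2) * M with hAdef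
  set C : ℚ := (r * s * M) ^ 2 with hCdef
  have hC : C ≠ 0 := pow_ne_zero 2 (mul_ne_zero (mul_ne_zero hr hs) hM0)
  have hD : A ^ 2 - 4 * C ≠ 0 := by
    have : A ^ 2 - 4 * C = ((r ^ 2 - s ^ 2) * M) ^ 2 := by
      rw [hAdef, hCdef]
      ring
    rw [this]
    exact pow_ne_zero 2 (mul_ne_zero (sub_ne_zero.2 hrs) hM0)
  have hns := ns_of hC hD hY
  have hal : al A C (Affine.Point.some X Y hns) = X := by
    rw [al_some]
    simp [hX]
  -- the points of order two
  have htors : ∀ T : (Wt A C).toAffine.Point, T + T = 0 →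
      T = 0 ∨ T = Affine.Point.some 0 0 (ns_of (x := 0) (y := 0) hC hD (by ring)) ∨
        al A C T = r ^ 2 * M ∨ al A C T = s ^ 2 * M := by
    intro T hT
    cases T with
    | zero => exact Or.inl rfl
    | some x y hxy =>
      right
      have h1 : (Affine.Point.some x y hxy : (Wt A C).toAffine.Point) =
          -Affine.Point.some x y hxy := eq_neg_of_add_eq_zero_left hT
      rw [Affine.Point.neg_some] at h1
      have h2 : y = (Wt A C).toAffine.negY x y := by
        simpa using h1
      have h3 : y = 0 := by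
        simp only [Affine.negY, Wt] at h2
        have h2' : (2 : ℚ) * y = 0 := by linear_combination h2
        exact (mul_eq_zero.1 h2').resolve_left two_ne_zero
      subst h3
      have h4 := Wt_eqn.mp hxy.1
      have h5 : x * ((x - r ^ 2 * M) * (x - s ^ 2 * M)) = 0 := by
        rw [hAdef, hCdef] at h4
        linear_combination -h4
      rcases mul_eq_zero.1 h5 with h6 | h6
      · subst h6
        left
        rfl
      · right
        rw [al_some]
        rcases mul_eq_zero.1 h6 with h7 | h7
        · left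
          have h8 : x = r ^ 2 * M := by linear_combination h7
          have h9 : x ≠ 0 := by
            rw [h8]
            exact mul_ne_zero (pow_ne_zero 2 hr) hM0
          rw [if_neg h9, h8]
        · right
          have h8 : x = s ^ 2 * M := by linear_combination h7
          have h9 : x ≠ 0 := by
            rw [h8]
            exact mul_ne_zero (pow_ne_zero 2 hs) hM0
          rw [if_neg h9, h8]
  have hsq2 : ∀ R : (Wt A C).toAffine.Point, ∃ s : ℚ, s ≠ 0 ∧ al A C (R + R) = s * s := by
    intro R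
    obtain ⟨s, hs⟩ := al_add (two_ne_zero (α := ℚ)) R R
    have hα : al A C R ≠ 0 := al_ne hC R
    refine ⟨s / al A C R, ?_, ?_⟩
    · apply div_ne_zero _ hα
      rintro rfl
      rw [zero_mul] at hs
      exact mul_ne_zero (al_ne hC (R + R)) (mul_ne_zero hα hα) hs
    · field_simp
      linear_combination hs
  have h4 : ∀ R : (Wt A C).toAffine.Point, (R + R) + (R + R) = 0 → R + R = 0 := by
    intro R hR
    obtain ⟨t, -, ht⟩ := hsq2 R
    rcases htors (R + R) hR with h | h | h | h
    · exact h
    · exfalso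
      obtain ⟨x, y, hxy, hx2⟩ := dbl0 hC hD R h
      have h3 : (x - r * s * M) * (x + r * s * M) = 0 := by
        rw [hCdef] at hx2
        linear_combination hx2
      have hne1 : r - s ≠ 0 := by
        intro h0
        apply hrs
        rw [sub_eq_zero.1 h0]
      have hne2 : r + s ≠ 0 := by
        intro h0
        apply hrs
        rw [eq_neg_of_add_eq_zero_left h0, neg_sq]
      have hrsM : r * s * M ≠ 0 := mul_ne_zero (mul_ne_zero hr hs) hM0
      rcases mul_eq_zero.1 h3 with h4 | h4
      · have hx : x = r * s * M := by linear_combination h4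
        rw [hx, hCdef, hAdef] at hxy
        apply hM'
        refine ⟨y / (r * s * M * (r - s)), ?_⟩
        have e : -M * ((r * s * M) * (r - s)) ^ 2 = y ^ 2 := by
          rw [hxy]
          ring
        rw [div_mul_div_comm, eq_div_iff (mul_ne_zero (mul_ne_zero hrsM hne1)
          (mul_ne_zero hrsM hne1))]
        linear_combination e
      · have hx : x = -(r * s * M) := by linear_combination h4
        rw [hx, hCdef, hAdef] at hxy
        apply hM'
        refine ⟨y / (r * s * M * (r + s)), ?_⟩
        have e : -M * ((r * s * M) * (r + s)) ^ 2 = y ^ 2 := by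
          rw [hxy]
          ring
        rw [div_mul_div_comm, eq_div_iff (mul_ne_zero (mul_ne_zero hrsM hne2)
          (mul_ne_zero hrsM hne2))]
        linear_combination e
    · exact absurd (h.symm.trans ht) (ns_mul hM hr t)
    · exact absurd (h.symm.trans ht) (ns_mul hM hs t)
  obtain ⟨T, Q, hT, hP⟩ := grp h4 (Affine.Point.some X Y hns)
  obtain ⟨t0, ht0, ht⟩ := hsq2 Q
  have h3 := al_add (two_ne_zero (α := ℚ)) T (Q + Q)
  rw [← hP, hal, ht] at h3
  obtain ⟨t, ht'⟩ := h3
  -- `X * al T` is a square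
  have key : ∀ a : ℚ, al A C T = a → IsSquare (X * a) := by
    rintro a rfl
    refine ⟨t / t0, ?_⟩
    field_simp
    linear_combination ht'
  have e : ∀ w v : ℚ, v ≠ 0 → IsSquare (X * (v ^ 2 * w)) → IsSquare (X * w) := by
    rintro w v hv ⟨s, hs⟩
    refine ⟨s / v, ?_⟩
    field_simp
    linear_combination hs
  rcases htors T hT with h | h | h | h
  · left
    have h5 := key 1 (by rw [h]; exact al_zero A C)
    simpa using h5
  · left
    have h5 := key C (by rw [h, al_some]; simp)
    have h6 := e 1 (r * s * M) (mul_ne_zero (mul_ne_zero hr hs) hM0) (by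
      rw [mul_one]
      exact h5)
    simpa using h6
  · right
    exact e M r hr (key _ h)
  · right
    exact e M s hs (key _ h)

/-- the form for the local conditions -/
theorem torL {a b d : ℤ} {M r s : ℚ} (hM : ¬ IsSquare M) (hM' : ¬ IsSquare (-M)) (hr : r ≠ 0)
    (hs : s ≠ 0) (hrs : r ^ 2 ≠ s ^ 2) (e1 : -2 * (a : ℚ) = -(r ^ 2 + s ^ 2) * M)
    (e2 : (a : ℚ) ^ 2 - 4 * b = (r * s * M) ^ 2) (hb : (b : ℚ) ≠ 0)
    (hfin : Finite (WF ℚ a b).toAffine.Point) (hloc : LocI ℚ a b d) :
    IsSquare (d : ℚ) ∨ IsSquare ((d : ℚ) * M) := by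
  have hM0 : M ≠ 0 := by
    rintro rfl
    exact hM IsSquare.zero
  obtain ⟨X, Y, t, hX, hY, hXd⟩ := hloc
  have hC : (r * s * M) ^ 2 ≠ 0 := pow_ne_zero 2 (mul_ne_zero (mul_ne_zero hr hs) hM0)
  have hf0 := fin_iso hb (by rw [e2]; exact hC) hfin
  rw [e1, e2] at hf0
  have ht : t ≠ 0 := by
    rintro rfl
    apply hX
    rw [hXd]; ring
  rcases torG hM hM' hr hs hrs hf0 hX (Y := Y) (by
    rw [hY, ← e1, ← e2]
    ring) with h | h
  · left
    obtain ⟨w, hw⟩ := h
    refine ⟨w / t, ?_⟩
    rw [hXd] at hw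
    field_simp
    linear_combination hw
  · right
    obtain ⟨w, hw⟩ := h
    refine ⟨w / t, ?_⟩
    rw [hXd] at hw
    field_simp
    linear_combination hw

end Pool.Agent.Run7.h289.D18
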