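import Mathlib
import Pool.Agent.Run7.h289.D18.Tor
import Pool.Agent.Run7.h289.D18.Od

/-!
# Local points of `y² = x (x - r² M) (x - s² M)`
-/

set_option autoImplicit false
set_option linter.unusedSectionVars false

open NumberField IsDedekindDomain

namespace Pool.Agent.Run7.h289.D18

open Pool.Agent.Y698.SG.Cv (LocI WF)
open Pool.Agent.TH841.NF.D (Sha)
open Run7.h843.Desc Run7.h843.Sha
open Run7.h424.DC (good_p)
open Pool.Agent.Run7.h289.D16 (odd_sq8)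

section

variable {p : ℕ} [hp : Fact p.Prime]

/-- a nonzero square minus a nonsquare -/
theorem exists_ns' {κ : ZMod p} (hκ : ¬ IsSquare κ) :
    ∃ t : ZMod p, t ≠ 0 ∧ ¬ IsSquare (t ^ 2 - κ) := by
  by_contra hcon
  push Not at hcon
  have hκ0 : κ ≠ 0 := by
    rintro rfl
    exact hκ IsSquare.zero
  have h : ∀ n : ℕ, ∃ t : ZMod p, t ≠ 0 ∧ 1 - (n : ZMod p) * κ = t ^ 2 := by
    intro n
    induction n with
    | zero => exact ⟨1, one_ne_zero, by rw [Nat.cast_zero, zero_mul]; ring⟩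
    | succ n ih =>
      obtain ⟨t, ht0, ht⟩ := ih
      obtain ⟨s, hs⟩ := hcon t ht0
      refine ⟨s, ?_, ?_⟩
      · rintro rfl
        apply hκ
        exact ⟨t, by linear_combination -hs⟩
      · push_cast
        linear_combination ht + hs
  obtain ⟨t, ht0, ht⟩ := h (1 / κ).val
  rw [ZMod.natCast_zmod_val, div_mul_cancel₀ _ hκ0, sub_self] at ht
  exact pow_ne_zero 2 ht0 ht.symm

theorem ns_mul_ns {a b : ZMod p} (ha : ¬ IsSquare a) (hb : ¬ IsSquare b) : IsSquare (a * b) := by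
  have h1 : a ≠ 0 := by
    rintro rfl
    exact ha IsSquare.zero
  have h2 : b ≠ 0 := by
    rintro rfl
    exact hb IsSquare.zero
  rw [← quadraticChar_one_iff_isSquare (mul_ne_zero h1 h2), map_mul,
    quadraticChar_neg_one_iff_not_isSquare.2 ha, quadraticChar_neg_one_iff_not_isSquare.2 hb]
  norm_num

/-- a node with tangents which are not rational -/
theorem loc_g (h2 : p ≠ 2) {a b N : ℤ} (hab : (p : ℤ) ∣ a ^ 2 - 4 * b)
    (hA : ¬ IsSquare ((-2 * a : ℤ) : ZMod p)) (hN : ¬ (p : ℤ) ∣ N)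
    (hNn : ¬ IsSquare (N : ZMod p)) : LocI ℚ_[p] a b N := by
  obtain ⟨t0, ht0, ht⟩ := exists_ns' hA
  obtain ⟨t, rfl⟩ := ZMod.intCast_surjective t0
  set X : ℤ := t ^ 2 + 2 * a with hX
  have hXc : (X : ZMod p) = (t : ZMod p) ^ 2 - ((-2 * a : ℤ) : ZMod p) := by
    rw [hX]
    push_cast
    ring
  have hXn : ¬ IsSquare (X : ZMod p) := by
    rw [hXc]
    exact ht
  have hX0 : (X : ZMod p) ≠ 0 := by
    intro h
    rw [h] at hXn
    exact hXn IsSquare.zero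
  have hXd : ¬ (p : ℤ) ∣ X := fun h => hX0 ((ZMod.intCast_zmod_eq_zero_iff_dvd X p).2 h)
  have hX1 : (X : ℚ_[p]) ≠ 0 := by
    intro h
    have : X = 0 := by exact_mod_cast h
    rw [this] at hXd
    exact hXd (dvd_zero _)
  have hd1 : (N : ℚ_[p]) ≠ 0 := by
    intro h
    have : N = 0 := by exact_mod_cast h
    rw [this] at hN
    exact hN (dvd_zero _)
  have habz : ((a ^ 2 - 4 * b : ℤ) : ZMod p) = 0 := (ZMod.intCast_zmod_eq_zero_iff_dvd _ p).2 hab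
  have e : ((X ^ 3 - 2 * a * X ^ 2 + (a ^ 2 - 4 * b) * X : ℤ) : ZMod p) =
      ((X : ZMod p) * t) ^ 2 := by
    have e1 : ((X ^ 3 - 2 * a * X ^ 2 + (a ^ 2 - 4 * b) * X : ℤ) : ZMod p) =
        (X : ZMod p) ^ 2 * ((X : ZMod p) - 2 * a) + ((a ^ 2 - 4 * b : ℤ) : ZMod p) * X := by
      push_cast
      ring
    rw [e1, habz, hXc]
    push_cast
    ring
  have sq1 : IsSquare ((X ^ 3 - 2 * a * X ^ 2 + (a ^ 2 - 4 * b) * X : ℤ) : ZMod p) :=
    ⟨(X : ZMod p) * t, by rw [e, sq]⟩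
  have hnz : ((X ^ 3 - 2 * a * X ^ 2 + (a ^ 2 - 4 * b) * X : ℤ) : ZMod p) ≠ 0 := by
    rw [e]
    exact pow_ne_zero 2 (mul_ne_zero hX0 ht0)
  have sq2 : IsSquare ((X * N : ℤ) : ZMod p) := by
    have := ns_mul_ns hXn hNn
    rw [Int.cast_mul]
    exact this
  have hpi : Prime (p : ℤ) := Nat.prime_iff_prime_int.1 hp.out
  obtain ⟨e, he⟩ := Pool.Agent.Y971.SG.Lq.t_SQ p _ h2
    (fun h => hnz ((ZMod.intCast_zmod_eq_zero_iff_dvd _ p).2 h)) sq1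
  obtain ⟨f, hf⟩ := Pool.Agent.Y971.SG.Lq.t_SQ p _ h2 (fun h => (hpi.dvd_or_dvd h).elim hXd hN) sq2
  refine ⟨X, e, f / N, hX1, ?_, ?_⟩
  · push_cast at he
    rw [sq, ← he]
  · push_cast at hf
    rw [div_pow]
    field_simp
    linear_combination hf

end

/-- the point of order two -/
theorem loc_tor {L : Type} [Field L] [CharZero L] {a b M r s d : ℤ} (hM : M ≠ 0) (hr : r ≠ 0)
    (hd : d ≠ 0) (e1 : 2 * a = (r ^ 2 + s ^ 2) * M) (e2 : a ^ 2 - 4 * b = (r * s * M) ^ 2) {w : L}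
    (hw : w ^ 2 = (M : L) * d) : LocI L a b d := by
  have hML : (M : L) ≠ 0 := by exact_mod_cast hM
  have hrL : (r : L) ≠ 0 := by exact_mod_cast hr
  have hdL : (d : L) ≠ 0 := by exact_mod_cast hd
  have e1' : 2 * (a : L) = ((r : L) ^ 2 + s ^ 2) * M := by
    exact_mod_cast congrArg (fun z : ℤ => (z : L)) e1
  have e2' : (a : L) ^ 2 - 4 * b = ((r : L) * s * M) ^ 2 := by
    exact_mod_cast congrArg (fun z : ℤ => (z : L)) e2
  refine ⟨r ^ 2 * M, 0, r * w / d, mul_ne_zero (pow_ne_zero 2 hrL) hML, ?_, ?_⟩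
  · linear_combination ((r : L) ^ 2 * M) ^ 2 * e1' - ((r : L) ^ 2 * M) * e2'
  · rw [div_pow, mul_pow, hw]
    field_simp

/-- the odd primes which do not divide `M` and `d` -/
theorem loc_odd {p : ℕ} [hp : Fact p.Prime] (h2 : p ≠ 2) {a b M r s d : ℤ}
    (hM : ¬ (p : ℤ) ∣ M) (hr : r ≠ 0) (hs : s ≠ 0) (hrs : r ^ 2 ≠ s ^ 2)
    (hpr : ¬ ((p : ℤ) ∣ r ∧ (p : ℤ) ∣ s))
    (hd : ¬ (p : ℤ) ∣ d) (e1 : 2 * a = (r ^ 2 + s ^ 2) * M) (e2 : a ^ 2 - 4 * b = (r * s * M) ^ 2)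
    (h1 : (p : ℤ) ∣ r ^ 2 - s ^ 2 → ¬ IsSquare (M : ZMod p))
    (h3 : (p : ℤ) ∣ r * s → ¬ IsSquare ((-M : ℤ) : ZMod p)) : LocI ℚ_[p] a b d := by
  have hpi : Prime (p : ℤ) := Nat.prime_iff_prime_int.1 hp.out
  have hM0 : M ≠ 0 := by
    rintro rfl
    exact hM (dvd_zero _)
  have hd0 : d ≠ 0 := by
    rintro rfl
    exact hd (dvd_zero _)
  have e3 : 16 * b = (r ^ 2 - s ^ 2) ^ 2 * M ^ 2 := by
    linear_combination (2 * a + (r ^ 2 + s ^ 2) * M) * e1 - 4 * e2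
  have hb0 : b ≠ 0 := by
    rintro rfl
    rw [mul_zero] at e3
    exact mul_ne_zero (pow_ne_zero 2 (sub_ne_zero.2 hrs)) (pow_ne_zero 2 hM0) e3.symm
  have hab : a ^ 2 - 4 * b ≠ 0 := by
    rw [e2]
    exact pow_ne_zero 2 (mul_ne_zero (mul_ne_zero hr hs) hM0)
  obtain ⟨lq1, -⟩ := Pool.Agent.Y971.SG.Lq.t_LQ a b d hb0 hab hd0
  by_cases hsq : IsSquare (d : ZMod p)
  · exact lq1 p (Or.inl (Pool.Agent.Y971.SG.Lq.t_SQ p d h2 hd hsq))
  · by_cases hp1 : (p : ℤ) ∣ r ^ 2 - s ^ 2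
    · have h5 : IsSquare ((M * d : ℤ) : ZMod p) := by
        rw [Int.cast_mul]
        exact ns_mul_ns (h1 hp1) hsq
      have hMd : ¬ (p : ℤ) ∣ M * d := fun h => (hpi.dvd_or_dvd h).elim hM hd
      obtain ⟨w, hw⟩ := Pool.Agent.Y971.SG.Lq.t_SQ p _ h2 hMd h5
      refine loc_tor (L := ℚ_[p]) hM0 hr hd0 e1 e2 (w := w) ?_
      rw [sq, ← hw]
      push_cast
      rfl
    · by_cases hp2 : (p : ℤ) ∣ r * s
      · refine loc_g h2 ?_ ?_ hd hsq
        · rw [e2]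
          exact dvd_pow (hp2.mul_right M) two_ne_zero
        · have key : ∀ r s : ℤ, 2 * a = (r ^ 2 + s ^ 2) * M → (p : ℤ) ∣ r → ¬ (p : ℤ) ∣ s →
              ¬ IsSquare ((-M : ℤ) : ZMod p) → ¬ IsSquare ((-2 * a : ℤ) : ZMod p) := by
            rintro r s e1 hr hs hns ⟨c, hc⟩
            apply hns
            have hrz : (r : ZMod p) = 0 := (ZMod.intCast_zmod_eq_zero_iff_dvd r p).2 hr
            have hsz : (s : ZMod p) ≠ 0 := cast_ne.2 hs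
            have e4 : ((-2 * a : ℤ) : ZMod p) = -((s : ZMod p) ^ 2 * M) := by
              have h6 : -2 * a = -((r ^ 2 + s ^ 2) * M) := by linear_combination -e1
              rw [h6]
              push_cast
              rw [hrz]
              ring
            refine ⟨c / s, ?_⟩
            rw [e4] at hc
            push_cast
            field_simp
            linear_combination hc
          rcases hpi.dvd_or_dvd hp2 with h6 | h6
          · exact key r s e1 h6 (fun h7 => hpr ⟨h6, h7⟩) (h3 hp2)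
          · exact key s r (by rw [e1]; ring) h6 (fun h7 => hpr ⟨h7, h6⟩) (h3 hp2)
      · refine good_p hb0 hab hd0 p h2 ?_ ?_ hd
        · intro h6
          have h7 : (p : ℤ) ∣ (r ^ 2 - s ^ 2) ^ 2 * M ^ 2 := by
            rw [← e3]
            exact h6.mul_left 16
          rcases hpi.dvd_or_dvd h7 with h8 | h8
          · exact hp1 (hpi.dvd_of_dvd_pow h8)
          · exact hM (hpi.dvd_of_dvd_pow h8)
        · rw [e2]
          intro h6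
          rcases hpi.dvd_or_dvd (hpi.dvd_of_dvd_pow h6) with h7 | h7
          · exact hp2 h7
          · exact hM h7

/-! ### The place `2` -/

/-- a point and its translate by a point of order two -/
theorem two_gen {a b M r s d c : ℤ} (hM : M ≠ 0) (hr : r ≠ 0) (hs : s ≠ 0) (hrs : r ^ 2 ≠ s ^ 2)
    (hd : d % 2 = 1) (e1 : 2 * a = (r ^ 2 + s ^ 2) * M) (e2 : a ^ 2 - 4 * b = (r * s * M) ^ 2)
    (hM4 : M % 4 = 3) (hc : c % 8 = 5 ∨ (M * c) % 8 = 5) {X Y t : ℚ_[2]} (hX : X ≠ 0)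
    (hXr : X ≠ (r : ℚ_[2]) ^ 2 * M) (hXs : X ≠ (s : ℚ_[2]) ^ 2 * M)
    (hY : Y ^ 2 = X * ((X - (r : ℚ_[2]) ^ 2 * M) * (X - (s : ℚ_[2]) ^ 2 * M)))
    (hXc : X = c * t ^ 2) : LocI ℚ_[2] a b d := by
  have hd0 : d ≠ 0 := by omega
  have hc0 : c ≠ 0 := by
    rintro rfl
    apply hX
    rw [hXc]
    simp
  have e3 : 16 * b = (r ^ 2 - s ^ 2) ^ 2 * M ^ 2 := by
    linear_combination (2 * a + (r ^ 2 + s ^ 2) * M) * e1 - 4 * e2
  have hb0 : b ≠ 0 := by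
    rintro rfl
    rw [mul_zero] at e3
    exact mul_ne_zero (pow_ne_zero 2 (sub_ne_zero.2 hrs)) (pow_ne_zero 2 hM) e3.symm
  have hab : a ^ 2 - 4 * b ≠ 0 := by
    rw [e2]
    exact pow_ne_zero 2 (mul_ne_zero (mul_ne_zero hr hs) hM)
  obtain ⟨lq1, -⟩ := Pool.Agent.Y971.SG.Lq.t_LQ a b d hb0 hab hd0
  have hML : (M : ℚ_[2]) ≠ 0 := by exact_mod_cast hM
  have hrL : (r : ℚ_[2]) ≠ 0 := by exact_mod_cast hr
  have hdL : (d : ℚ_[2]) ≠ 0 := by exact_mod_cast hd0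
  have hcL : (c : ℚ_[2]) ≠ 0 := by exact_mod_cast hc0
  have ht0 : t ≠ 0 := by
    rintro rfl
    apply hX
    rw [hXc]; ring
  have e1' : 2 * (a : ℚ_[2]) = ((r : ℚ_[2]) ^ 2 + s ^ 2) * M := by
    exact_mod_cast congrArg (fun z : ℤ => (z : ℚ_[2])) e1
  have e2' : (a : ℚ_[2]) ^ 2 - 4 * b = ((r : ℚ_[2]) * s * M) ^ 2 := by
    exact_mod_cast congrArg (fun z : ℤ => (z : ℚ_[2])) e2
  have hcub : ∀ x : ℚ_[2], x ^ 3 - 2 * a * x ^ 2 + ((a : ℚ_[2]) ^ 2 - 4 * b) * x =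
      x * ((x - (r : ℚ_[2]) ^ 2 * M) * (x - (s : ℚ_[2]) ^ 2 * M)) := by
    intro x
    linear_combination (-x ^ 2) * e1' + x * e2'
  have h8 : d % 8 = 1 ∨ (M * d) % 8 = 1 ∨ (c * d) % 8 = 1 ∨ (M * c * d) % 8 = 1 := by
    have a1 : M % 8 = 3 ∨ M % 8 = 7 := by omega
    have a2 : d % 8 = 1 ∨ d % 8 = 3 ∨ d % 8 = 5 ∨ d % 8 = 7 := by omega
    have e1 : (M * d) % 8 = ((M % 8) * (d % 8)) % 8 := Int.mul_emod M d 8
    have e2 : (c * d) % 8 = ((c % 8) * (d % 8)) % 8 := Int.mul_emod c d 8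
    have e3 : (M * c * d) % 8 = (((M * c) % 8) * (d % 8)) % 8 := Int.mul_emod (M * c) d 8
    have e4 : (M * c) % 8 = ((M % 8) * (c % 8)) % 8 := Int.mul_emod M c 8
    have a3 : c % 8 = 0 ∨ c % 8 = 1 ∨ c % 8 = 2 ∨ c % 8 = 3 ∨ c % 8 = 4 ∨ c % 8 = 5 ∨ c % 8 = 6 ∨
      c % 8 = 7 := by omega
    rw [e4] at e3 hc
    rw [e1, e2, e3]
    rcases a1 with a1 | a1 <;> rcases a2 with a2 | a2 | a2 | a2 <;>
      rcases a3 with a3 | a3 | a3 | a3 | a3 | a3 | a3 | a3 <;> rw [a1, a3] at hc <;>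
      rw [a1, a2, a3] <;> omega
  rcases h8 with h8 | h8 | h8 | h8
  · exact lq1 2 (Or.inl (Pool.Agent.Y971.SG.Lq.padic_sq2 h8))
  · obtain ⟨w, hw⟩ := Pool.Agent.Y971.SG.Lq.padic_sq2 h8
    refine loc_tor (L := ℚ_[2]) hM hr hd0 e1 e2 (w := w) ?_
    rw [sq, ← hw]
    push_cast
    rfl
  · obtain ⟨w, hw⟩ := Pool.Agent.Y971.SG.Lq.padic_sq2 h8
    refine ⟨X, Y, t * w / d, hX, ?_, ?_⟩
    · rw [hcub]
      exact hY
    · push_cast at hw
      rw [hXc, div_pow, mul_pow]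
      field_simp
      linear_combination hw
  · obtain ⟨w, hw⟩ := Pool.Agent.Y971.SG.Lq.padic_sq2 h8
    have hx1 : X - (r : ℚ_[2]) ^ 2 * M ≠ 0 := sub_ne_zero.2 hXr
    have hx2 : X - (s : ℚ_[2]) ^ 2 * M ≠ 0 := sub_ne_zero.2 hXs
    have hY0 : Y ≠ 0 := by
      rintro rfl
      rw [zero_pow two_ne_zero] at hY
      exact mul_ne_zero hX (mul_ne_zero hx1 hx2) hY.symm
    refine ⟨(r : ℚ_[2]) ^ 2 * M * (X - (s : ℚ_[2]) ^ 2 * M) / (X - (r : ℚ_[2]) ^ 2 * M),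
      (r : ℚ_[2]) ^ 2 * M * ((r : ℚ_[2]) ^ 2 * M - (s : ℚ_[2]) ^ 2 * M) * Y /
        (X - (r : ℚ_[2]) ^ 2 * M) ^ 2,
      r * w * Y / (c * t * (X - (r : ℚ_[2]) ^ 2 * M) * d), ?_, ?_, ?_⟩
    · exact div_ne_zero (mul_ne_zero (mul_ne_zero (pow_ne_zero 2 hrL) hML) hx2) hx1
    · rw [hcub, div_pow, mul_pow, hY]
      generalize hE : (r : ℚ_[2]) ^ 2 * M = E at hx1 ⊢
      generalize hF : (s : ℚ_[2]) ^ 2 * M = F at hx2 ⊢
      field_simp
      ring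
    · push_cast at hw
      have hX' : X = c * t ^ 2 := hXc
      rw [div_pow, mul_pow, mul_pow, hY, mul_pow, mul_pow, mul_pow, sq w, ← hw]
      generalize hE : (r : ℚ_[2]) ^ 2 * M = E at hx1 ⊢
      generalize hF : (s : ℚ_[2]) ^ 2 * M = F at hx2 ⊢
      rw [← hE]
      rw [hX'] at hx1 hx2 ⊢
      field_simp

end Pool.Agent.Run7.h289.D18
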