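import Mathlib
import Pool.Agent.Run7.h289.D18.Od

/-!
# Rank zero and no `2`-power torsion in Sha
-/

set_option autoImplicit false

attribute [-instance] DivisionRing.toRatAlgebra

namespace Pool.Agent.Run7.h289.D18

open Pool.Agent.Y682 (S1 S2 LL1 LL2 Sq quot_eq IsT Zc Zc_card Zc_lower MP)
open Run7.h843.Sha Run7.h843.Desc
open Run7.h843.R (C2_iff)
open Pool.Agent.N969.P15 (Qc)

/-- scaling of the local condition -/
theorem C1_four {F : Type} [Field F] [CharZero F] {A B b : ℚ} (h : C1 F (4 * A) (16 * B) b) :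
    C1 F A B b := by
  have h4 : (4 : F) ≠ 0 := by norm_num
  obtain ⟨z, x, hz, hzx, hx⟩ := h
  push_cast at hx
  rcases hx with hx | hx | ⟨hx0, y, hy⟩
  · exact ⟨z, x, hz, hzx, Or.inl hx⟩
  · refine ⟨z / 4, (B : F), div_ne_zero hz h4, ?_, Or.inr (Or.inl rfl)⟩
    rw [div_pow, ← mul_div_assoc, hzx, hx]
    field_simp
    norm_num
    ring
  · refine ⟨z / 2, x / 4, div_ne_zero hz two_ne_zero, ?_,
      Or.inr (Or.inr ⟨div_ne_zero hx0 h4, y / 8, ?_⟩)⟩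
    · rw [div_pow, ← mul_div_assoc, hzx]
      norm_num
    · rw [div_pow, hy]
      field_simp
      ring

variable {u v : ℤ} {m : ℕ}

theorem card2 {a b : ℚˣ ⧸ Sq ℚ} : Finite ({a, b} : Set (ℚˣ ⧸ Sq ℚ)) ∧
    Nat.card ({a, b} : Set (ℚˣ ⧸ Sq ℚ)) ≤ 2 := by
  refine ⟨(Set.toFinite _).to_subtype, ?_⟩
  have h1 : ({a, b} : Set (ℚˣ ⧸ Sq ℚ)).ncard ≤ 2 := by
    refine (Set.ncard_insert_le _ _).trans ?_
    rw [Set.ncard_singleton]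
  exact h1

theorem eqs (u v : ℤ) (m : ℕ) :
    (-2 : ℚ) * (((u ^ 2 + v ^ 2) * m : ℤ) : ℚ) = ((-2 * (u ^ 2 + v ^ 2) * m : ℤ) : ℚ) ∧
    ((((u ^ 2 + v ^ 2) * m : ℤ) : ℚ)) ^ 2 - 4 * ((u ^ 2 * v ^ 2 * m ^ 2 : ℤ) : ℚ) =
      (((u ^ 2 - v ^ 2) ^ 2 * m ^ 2 : ℤ) : ℚ) ∧
    (-2 : ℚ) * ((-2 * (u ^ 2 + v ^ 2) * m : ℤ) : ℚ) = 4 * (((u ^ 2 + v ^ 2) * m : ℤ) : ℚ) ∧
    ((-2 * (u ^ 2 + v ^ 2) * m : ℤ) : ℚ) ^ 2 - 4 * (((u ^ 2 - v ^ 2) ^ 2 * m ^ 2 : ℤ) : ℚ) =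
      16 * ((u ^ 2 * v ^ 2 * m ^ 2 : ℤ) : ℚ) := by
  refine ⟨?_, ?_, ?_, ?_⟩ <;> (push_cast; ring)

/-- **the first curve** -/
theorem shaE (h : Dt u v m) (hQ : Qc m) {W : WeierstrassCurve ℚ}
    (hT : IsT W (((u ^ 2 + v ^ 2) * m : ℤ) : ℚ) ((u ^ 2 * v ^ 2 * m ^ 2 : ℤ) : ℚ)) :
    Module.finrank ℤ (MP W) = 0 ∧
      ∀ (k : ℕ) (x : Pool.Agent.TH841.NF.D.Sha W), 2 ^ k • x = 0 → x = 0 := by
  have hm0 : (m : ℚ) ≠ 0 := by exact_mod_cast h.sqf.ne_zero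
  have r4 : -(m : ℚ) ≠ 0 := neg_ne_zero.2 hm0
  obtain ⟨e1, e2, -, -⟩ := eqs u v m
  obtain ⟨hfin, hU2⟩ := card2 (a := cl 1 one_ne_zero) (b := cl (-(m : ℚ)) r4)
  obtain ⟨hfin', hV2⟩ := card2 (a := cl 1 one_ne_zero) (b := cl (m : ℚ) hm0)
  obtain ⟨hf, hc⟩ := Zc_card hT (U := {cl 1 one_ne_zero, cl (-(m : ℚ)) r4})
    (V := {cl 1 one_ne_zero, cl (m : ℚ) hm0}) (Or.inl one_cl)
    (fun b hb => by
      obtain ⟨c, hc⟩ := sel1c h hQ b.ne_zero fun l _ => LL1_pad hb l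
      rcases hc with hc | hc
      · exact Or.inl (cl_of _ (by rw [one_mul]; exact hc))
      · exact Or.inr (cl_of _ hc))
    (fun b hb => by
      obtain ⟨c, hc⟩ := sel2c h hQ b.ne_zero (fun l _ => by
        rw [← e1, ← e2]
        exact C2_iff.1 (LL2_pad hb l)) (by
        rw [← e1, ← e2]
        exact C2_iff.1 (LL2_real hb))
      rcases hc with hc | hc
      · exact Or.inl (cl_of _ (by rw [one_mul]; exact hc))
      · exact Or.inr (cl_of _ hc))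
  exact end_of hT hf (hc.trans (by nlinarith))

/-- **the isogenous curve** -/
theorem shaE' (h : Dt u v m) (hQ : Qc m) {W : WeierstrassCurve ℚ}
    (hT : IsT W ((-2 * (u ^ 2 + v ^ 2) * m : ℤ) : ℚ) (((u ^ 2 - v ^ 2) ^ 2 * m ^ 2 : ℤ) : ℚ)) :
    Module.finrank ℤ (MP W) = 0 ∧
      ∀ (k : ℕ) (x : Pool.Agent.TH841.NF.D.Sha W), 2 ^ k • x = 0 → x = 0 := by
  have hm0 : (m : ℚ) ≠ 0 := by exact_mod_cast h.sqf.ne_zero
  have r4 : -(m : ℚ) ≠ 0 := neg_ne_zero.2 hm0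
  obtain ⟨-, -, e3, e4⟩ := eqs u v m
  obtain ⟨hfin, hU2⟩ := card2 (a := cl 1 one_ne_zero) (b := cl (-(m : ℚ)) r4)
  obtain ⟨hfin', hV2⟩ := card2 (a := cl 1 one_ne_zero) (b := cl (m : ℚ) hm0)
  obtain ⟨hf, hc⟩ := Zc_card hT (U := {cl 1 one_ne_zero, cl (m : ℚ) hm0})
    (V := {cl 1 one_ne_zero, cl (-(m : ℚ)) r4}) (Or.inl one_cl)
    (fun b hb => by
      obtain ⟨c, hc⟩ := sel2c h hQ b.ne_zero (fun l _ => LL1_pad hb l) (LL1_real hb)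
      rcases hc with hc | hc
      · exact Or.inl (cl_of _ (by rw [one_mul]; exact hc))
      · exact Or.inr (cl_of _ hc))
    (fun b hb => by
      obtain ⟨c, hc⟩ := sel1c h hQ b.ne_zero fun l _ => by
        have h2 := C2_iff.1 (LL2_pad hb l)
        rw [e3, e4] at h2
        exact C1_four h2
      rcases hc with hc | hc
      · exact Or.inl (cl_of _ (by rw [one_mul]; exact hc))
      · exact Or.inr (cl_of _ hc))
  exact end_of hT hf (hc.trans (by nlinarith))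

end Pool.Agent.Run7.h289.D18
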