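import Mathlib
import Pool.Agent.Run7.h289.D18.Lp
import Pool.Agent.Run7.h289.D18.Sh
import Pool.Agent.Run7.h424.DC.Fin

/-!
# The converse for `y² = x (x + u² m) (x + v² m)` and for the isogenous curve
-/

set_option autoImplicit false
set_option linter.unusedSectionVars false

attribute [-instance] DivisionRing.toRatAlgebra

open NumberField IsDedekindDomain

namespace Pool.Agent.Run7.h289.D18

open Pool.Agent.Y698.SG.Cv (LocI WF)
open Pool.Agent.TH841.NF.D (Sha)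
open Run7.h843.Desc Run7.h843.Sha
open Run7.h424.DC (good_p exists_two' jac_iff odd_pf fin_of_rank)
open Pool.Agent.Run7.h289.D16 (odd_sq8)
open Pool.Agent.N969.P15 (Qc)

section

variable {u v : ℤ} {m : ℕ}

theorem Dt.mz4 (h : Dt u v m) : (m : ℤ) % 4 = 3 := by
  have := h.m4
  omega

theorem Dt.e1 (u v : ℤ) (m : ℕ) :
    2 * ((u ^ 2 + v ^ 2) * (m : ℤ)) = ((u - v) ^ 2 + (u + v) ^ 2) * m := by ring

theorem Dt.e2 (u v : ℤ) (m : ℕ) : ((u ^ 2 + v ^ 2) * (m : ℤ)) ^ 2 - 4 * (u ^ 2 * v ^ 2 * m ^ 2) =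
    ((u - v) * (u + v) * m) ^ 2 := by ring

theorem Dt.e3 (u v : ℤ) (m : ℕ) :
    2 * (-2 * (u ^ 2 + v ^ 2) * (m : ℤ)) = ((2 * u) ^ 2 + (2 * v) ^ 2) * (-m) := by ring

theorem Dt.e4 (u v : ℤ) (m : ℕ) : (-2 * (u ^ 2 + v ^ 2) * (m : ℤ)) ^ 2 -
    4 * ((u ^ 2 - v ^ 2) ^ 2 * m ^ 2) = ((2 * u) * (2 * v) * (-m)) ^ 2 := by ring

theorem Dt.mi (h : Dt u v m) : u - v ≠ 0 := fun h0 => h.ne (by rw [sub_eq_zero.1 h0])

theorem Dt.pl (h : Dt u v m) : u + v ≠ 0 := fun h0 => h.ne (by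
  rw [eq_neg_of_add_eq_zero_left h0]; ring)

theorem Dt.rs (h : Dt u v m) : (u - v) ^ 2 ≠ (u + v) ^ 2 := by
  intro h0
  have : u * v = 0 := by linarith
  exact mul_ne_zero h.u0 h.v0 this

/-- the product of two numbers modulo `8` -/
theorem mul8 {a b r s t : ℤ} (ha : a % 8 = r) (hb : b % 8 = s) (h : (r * s) % 8 = t) :
    (a * b) % 8 = t := by
  rw [Int.mul_emod, ha, hb]
  exact h

/-- the classes at `2`, first curve -/
theorem two1 (h : Dt u v m) {d : ℤ} (hd : d % 2 = 1) :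
    LocI ℚ_[2] ((u ^ 2 + v ^ 2) * m) (u ^ 2 * v ^ 2 * m ^ 2) d := by
  have hm4 := h.mz4
  have hm8 : (m : ℤ) % 8 = 3 ∨ (m : ℤ) % 8 = 7 := by omega
  have hmL : ((m : ℤ) : ℚ_[2]) ≠ 0 := by exact_mod_cast h.m0
  -- the case of one even number
  have key : ∀ {u v : ℤ}, Dt u v m → u % 4 = 2 → v % 2 = 1 →
      LocI ℚ_[2] ((u ^ 2 + v ^ 2) * m) (u ^ 2 * v ^ 2 * m ^ 2) d := by
    intro u v h hu hv
    have h8v := odd_sq8 hv
    obtain ⟨u', hu'⟩ : ∃ u' : ℤ, u = 2 * u' := ⟨u / 2, by omega⟩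
    have hu2 : u' % 2 = 1 := by omega
    have h8u := odd_sq8 hu2
    have hr2 : (u - v) % 2 = 1 := by omega
    have hs2 : (u + v) % 2 = 1 := by omega
    have h8r := odd_sq8 hr2
    have h8s := odd_sq8 hs2
    -- `5 - r² m = 2 a`, `5 - s² m = 2 b`, `b - a = -2 u v m = 4 mod 8`
    have r1 : ((u - v) ^ 2 * (m : ℤ)) % 8 = (m : ℤ) % 8 := by
      rw [Int.mul_emod, h8r, one_mul, Int.emod_emod]
    have r2 : ((u + v) ^ 2 * (m : ℤ)) % 8 = (m : ℤ) % 8 := by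
      rw [Int.mul_emod, h8s, one_mul, Int.emod_emod]
    obtain ⟨a, ha⟩ : ∃ a : ℤ, 5 - (u - v) ^ 2 * (m : ℤ) = 2 * a :=
      ⟨(5 - (u - v) ^ 2 * (m : ℤ)) / 2, by omega⟩
    obtain ⟨b, hb⟩ : ∃ b : ℤ, 5 - (u + v) ^ 2 * (m : ℤ) = 2 * b :=
      ⟨(5 - (u + v) ^ 2 * (m : ℤ)) / 2, by omega⟩
    have hab : b = a - 4 * (u' * v * m) := by
      have e : 2 * b = 2 * a - 4 * u * v * m := by
        linear_combination hb.symm.trans (by ring : (5 - (u + v) ^ 2 * (m : ℤ)) =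
          5 - (u - v) ^ 2 * (m : ℤ) - 4 * u * v * m) |>.trans (by rw [ha])
      rw [hu'] at e
      linarith
    have hodd : (u' * v * (m : ℤ)) % 2 = 1 := by
      have hm2 : (m : ℤ) % 2 = 1 := by omega
      exact Pool.Agent.Run7.h289.D16.odd_mul (Pool.Agent.Run7.h289.D16.odd_mul hu2 hv) hm2
    have ha2 : a % 2 = 1 := by omega
    obtain ⟨k, hk⟩ : ∃ k : ℤ, u' * v * (m : ℤ) = 1 + 2 * k := ⟨(u' * v * (m : ℤ)) / 2, by omega⟩
    have hprod : (5 * (a * b)) % 8 = 1 := by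
      rw [hab, hk]
      obtain ⟨a', ha'⟩ : ∃ a' : ℤ, a ^ 2 = 1 + 8 * a' := ⟨a ^ 2 / 8, by
        have := odd_sq8 ha2
        omega⟩
      obtain ⟨a'', ha''⟩ : ∃ a'' : ℤ, a = 1 + 2 * a'' := ⟨a / 2, by omega⟩
      have e : 5 * (a * (a - 4 * (1 + 2 * k))) = 5 * a ^ 2 - 20 * a - 40 * k * a := by ring
      rw [e, ha', ha'']
      have e' : 5 * (1 + 8 * a') - 20 * (1 + 2 * a'') - 40 * k * (1 + 2 * a'') =
        1 + 8 * (5 * a' - 2 - 5 * a'' - 5 * k * (1 + 2 * a'')) := by ring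
      rw [e']
      omega
    obtain ⟨w, hw⟩ := Pool.Agent.Y971.SG.Lq.padic_sq2 hprod
    push_cast at hw
    have haL : (5 : ℚ_[2]) - ((u : ℚ_[2]) - v) ^ 2 * ((m : ℤ) : ℚ_[2]) = 2 * a := by
      exact_mod_cast congrArg (fun z : ℤ => (z : ℚ_[2])) ha
    have hbL : (5 : ℚ_[2]) - ((u : ℚ_[2]) + v) ^ 2 * ((m : ℤ) : ℚ_[2]) = 2 * b := by
      exact_mod_cast congrArg (fun z : ℤ => (z : ℚ_[2])) hb
    rw [Int.cast_natCast] at haL hbL
    have ha0 : a ≠ 0 := by omega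
    have hb0 : b ≠ 0 := by omega
    have ha0L : (a : ℚ_[2]) ≠ 0 := by exact_mod_cast ha0
    have hb0L : (b : ℚ_[2]) ≠ 0 := by exact_mod_cast hb0
    refine two_gen (c := 5) (X := 5) (Y := 2 * w) (t := 1) h.m0 h.mi h.pl h.rs hd
      (Dt.e1 u v m) (Dt.e2 u v m) hm4 (Or.inl rfl) (by norm_num) ?_ ?_ ?_ (by push_cast; ring)
    · intro h0
      push_cast at h0
      apply ha0L
      linear_combination (-1 / 2 : ℚ_[2]) * haL + (1 / 2 : ℚ_[2]) * h0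
    · intro h0
      push_cast at h0
      apply hb0L
      linear_combination (-1 / 2 : ℚ_[2]) * hbL + (1 / 2 : ℚ_[2]) * h0
    · have c1 : (5 : ℚ_[2]) - ((u - v : ℤ) : ℚ_[2]) ^ 2 * ((m : ℤ) : ℚ_[2]) = 2 * a := by
        rw [← haL]; push_cast; ring
      have c2 : (5 : ℚ_[2]) - ((u + v : ℤ) : ℚ_[2]) ^ 2 * ((m : ℤ) : ℚ_[2]) = 2 * b := by
        rw [← hbL]; push_cast; ring
      rw [c1, c2]
      linear_combination -4 * hw
  rcases h.two with ⟨h1, h2, h3⟩ | ⟨h1, h2⟩ | ⟨h1, h2⟩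
  · -- both are odd: `A` odd and `B` even
    obtain ⟨A, B, hA, hB, hAB⟩ : ∃ A B : ℤ, A % 2 = 1 ∧ B % 2 = 0 ∧
        ((u - v = 2 * A ∧ u + v = 2 * B) ∨ (u + v = 2 * A ∧ u - v = 2 * B)) := by
      obtain ⟨P, hP⟩ : ∃ P : ℤ, u - v = 2 * P := ⟨(u - v) / 2, by omega⟩
      obtain ⟨R, hR⟩ : ∃ R : ℤ, u + v = 2 * R := ⟨(u + v) / 2, by omega⟩
      have hpar : (P % 2 = 1 ∧ R % 2 = 0) ∨ (P % 2 = 0 ∧ R % 2 = 1) := by omega
      rcases hpar with ⟨a1, a2⟩ | ⟨a1, a2⟩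
      · exact ⟨P, R, a1, a2, Or.inl ⟨hP, hR⟩⟩
      · exact ⟨R, P, a2, a1, Or.inr ⟨hR, hP⟩⟩
    have hd4 : u ^ 2 - v ^ 2 = 4 * (A * B) := by
      have e : u ^ 2 - v ^ 2 = (u - v) * (u + v) := by ring
      rw [e]
      rcases hAB with ⟨a1, a2⟩ | ⟨a1, a2⟩ <;> rw [a1, a2] <;> ring
    have hA8 := odd_sq8 hA
    have hAm : (A ^ 2 * (m : ℤ)) % 8 = (m : ℤ) % 8 := by
      rw [Int.mul_emod, hA8, one_mul, Int.emod_emod]
    -- the number `δ`
    obtain ⟨δ, hδ, hsq⟩ : ∃ δ : ℤ, (δ = 1 ∨ δ = 5) ∧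
        (δ * ((A ^ 2 * m + 4 * δ) * (A ^ 2 * m + 4 * δ - B ^ 2 * m))) % 8 = 1 := by
      have hB4 : B % 4 = 0 ∨ (B % 4 = 2 ∧ (m : ℤ) % 8 = 3) := by
        have h5 : B % 4 = 0 ∨ B % 4 = 2 := by omega
        rcases h5 with h5 | h5
        · exact Or.inl h5
        · rcases h3 with h3 | h3
          · exact Or.inr ⟨h5, by omega⟩
          · exfalso
            have h6 : (A * B) % 8 = 4 := by omega
            have h7 : A % 8 = 1 ∨ A % 8 = 3 ∨ A % 8 = 5 ∨ A % 8 = 7 := by omega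
            have h9 : B % 8 = 2 ∨ B % 8 = 6 := by omega
            rw [Int.mul_emod] at h6
            rcases h7 with h7 | h7 | h7 | h7 <;> rcases h9 with h9 | h9 <;>
              rw [h7, h9] at h6 <;> omega
      rcases hB4 with hB4 | ⟨hB4, hm3⟩
      · refine ⟨1, Or.inl rfl, ?_⟩
        obtain ⟨B', hB'⟩ : ∃ B' : ℤ, B = 4 * B' := ⟨B / 4, by omega⟩
        have e1 : (A ^ 2 * (m : ℤ) + 4 * 1) % 8 = (m : ℤ) % 8 + 4 ∨
            (A ^ 2 * (m : ℤ) + 4 * 1) % 8 = (m : ℤ) % 8 - 4 := by omega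
        have e2 : A ^ 2 * (m : ℤ) + 4 * 1 - B ^ 2 * m = A ^ 2 * (m : ℤ) + 4 * 1 -
            8 * (2 * B' ^ 2 * m) := by rw [hB']; ring
        rw [e2, one_mul]
        have e3 : (A ^ 2 * (m : ℤ) + 4 * 1 - 8 * (2 * B' ^ 2 * m)) % 8 =
            (A ^ 2 * (m : ℤ) + 4 * 1) % 8 := by omega
        rw [Int.mul_emod, e3]
        rcases hm8 with h9 | h9
        · have e4 : (A ^ 2 * (m : ℤ) + 4 * 1) % 8 = 7 := by omega
          rw [e4]; rfl
        · have e4 : (A ^ 2 * (m : ℤ) + 4 * 1) % 8 = 3 := by omega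
          rw [e4]; rfl
      · refine ⟨5, Or.inr rfl, ?_⟩
        obtain ⟨B', hB'⟩ : ∃ B' : ℤ, B = 2 * B' := ⟨B / 2, by omega⟩
        have hB2 : B' % 2 = 1 := by omega
        have hB8 := odd_sq8 hB2
        obtain ⟨k, hk⟩ : ∃ k : ℤ, B' ^ 2 = 1 + 8 * k := ⟨B' ^ 2 / 8, by omega⟩
        have e1 : (A ^ 2 * (m : ℤ) + 4 * 5) % 8 = 7 := by omega
        have e2 : A ^ 2 * (m : ℤ) + 4 * 5 - B ^ 2 * m = A ^ 2 * (m : ℤ) + 4 * 5 - 4 * m -
            8 * (4 * k * m) := by rw [hB', mul_pow, hk]; ring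
        have e3 : (A ^ 2 * (m : ℤ) + 4 * 5 - B ^ 2 * m) % 8 = 3 := by rw [e2]; omega
        have e4 : ((A ^ 2 * (m : ℤ) + 4 * 5) * (A ^ 2 * (m : ℤ) + 4 * 5 - B ^ 2 * m)) % 8 = 5 :=
          mul8 e1 e3 rfl
        exact mul8 (by rfl : (5 : ℤ) % 8 = 5) e4 rfl
    obtain ⟨w, hw⟩ := Pool.Agent.Y971.SG.Lq.padic_sq2 hsq
    push_cast at hw
    have hc5 : (A ^ 2 * (m : ℤ) + 4 * δ) % 8 = 7 ∧ (m : ℤ) % 8 = 3 ∨
        (A ^ 2 * (m : ℤ) + 4 * δ) % 8 = 3 ∧ (m : ℤ) % 8 = 7 := by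
      rcases hδ with hδ | hδ <;> rw [hδ] <;> omega
    have hmc : ((m : ℤ) * (A ^ 2 * (m : ℤ) + 4 * δ)) % 8 = 5 := by
      rcases hc5 with ⟨a1, a2⟩ | ⟨a1, a2⟩
      · exact mul8 a2 a1 rfl
      · exact mul8 a2 a1 rfl
    have hδ0 : δ ≠ 0 := by rcases hδ with h9 | h9 <;> rw [h9] <;> norm_num
    have hδL : (δ : ℚ_[2]) ≠ 0 := by exact_mod_cast hδ0
    have hx0 : A ^ 2 * (m : ℤ) + 4 * δ ≠ 0 := by
      rcases hc5 with ⟨a1, a2⟩ | ⟨a1, a2⟩ <;> omega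
    have hx0L : (A : ℚ_[2]) ^ 2 * ((m : ℤ) : ℚ_[2]) + 4 * δ ≠ 0 := by exact_mod_cast hx0
    have hx1 : A ^ 2 * (m : ℤ) + 4 * δ - B ^ 2 * m ≠ 0 := by
      intro h0
      rw [h0, mul_zero, mul_zero] at hsq
      norm_num at hsq
    have hx1L : (A : ℚ_[2]) ^ 2 * ((m : ℤ) : ℚ_[2]) + 4 * δ - (B : ℚ_[2]) ^ 2 * ((m : ℤ) : ℚ_[2]) ≠ 0 := by
      exact_mod_cast hx1
    have hwL : (δ : ℚ_[2]) * (((A : ℚ_[2]) ^ 2 * ((m : ℤ) : ℚ_[2]) + 4 * δ) *
        ((A : ℚ_[2]) ^ 2 * ((m : ℤ) : ℚ_[2]) + 4 * δ - (B : ℚ_[2]) ^ 2 * ((m : ℤ) : ℚ_[2]))) = w * w := by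
      rw [← hw]
      push_cast
      ring
    -- the general statement for the roots `2 A`, `2 B`
    have fin : ∀ r s : ℤ, r = 2 * A → s = 2 * B → r ≠ 0 → s ≠ 0 → r ^ 2 ≠ s ^ 2 →
        2 * ((u ^ 2 + v ^ 2) * (m : ℤ)) = (r ^ 2 + s ^ 2) * m →
        ((u ^ 2 + v ^ 2) * (m : ℤ)) ^ 2 - 4 * (u ^ 2 * v ^ 2 * m ^ 2) = (r * s * m) ^ 2 →
        LocI ℚ_[2] ((u ^ 2 + v ^ 2) * m) (u ^ 2 * v ^ 2 * m ^ 2) d := by
      intro r s hr hs hr0 hs0 hrs g1 g2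
      have hrL : (r : ℚ_[2]) = 2 * A := by rw [hr]; push_cast; ring
      have hsL : (s : ℚ_[2]) = 2 * B := by rw [hs]; push_cast; ring
      refine two_gen (c := A ^ 2 * m + 4 * δ)
        (X := 4 * ((A : ℚ_[2]) ^ 2 * ((m : ℤ) : ℚ_[2]) + 4 * δ)) (Y := 16 * w) (t := 2) h.m0 hr0 hs0
        hrs hd g1 g2 hm4 (Or.inr hmc) ?_ ?_ ?_ ?_ (by push_cast; ring)
      · exact mul_ne_zero (by norm_num) hx0L
      · rw [hrL]
        intro h0
        apply hδL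
        linear_combination (1 / 16 : ℚ_[2]) * h0
      · rw [hsL]
        intro h0
        apply hx1L
        linear_combination (1 / 4 : ℚ_[2]) * h0
      · rw [hrL, hsL]
        linear_combination (-256 : ℚ_[2]) * hwL
    rcases hAB with ⟨a1, a2⟩ | ⟨a1, a2⟩
    · exact fin (u - v) (u + v) a1 a2 h.mi h.pl h.rs (Dt.e1 u v m) (Dt.e2 u v m)
    · refine fin (u + v) (u - v) a1 a2 h.pl h.mi h.rs.symm ?_ ?_
      · ring
      · ring
  · exact key h h1 h2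
  · have h4 := key h.symm h2 h1
    have e1 : (v ^ 2 + u ^ 2) * (m : ℤ) = (u ^ 2 + v ^ 2) * m := by ring
    have e2 : v ^ 2 * u ^ 2 * (m : ℤ) ^ 2 = u ^ 2 * v ^ 2 * m ^ 2 := by ring
    rw [e1, e2] at h4
    exact h4

/-- the classes at `2`, second curve -/
theorem two2 (h : Dt u v m) {d : ℤ} (hd : d % 4 = 1) :
    LocI ℚ_[2] (-2 * (u ^ 2 + v ^ 2) * m) ((u ^ 2 - v ^ 2) ^ 2 * m ^ 2) d := by
  have hm4 := h.mz4
  have hm8 : (m : ℤ) % 8 = 3 ∨ (m : ℤ) % 8 = 7 := by omega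
  have hd0 : d ≠ 0 := by omega
  have hdL : (d : ℚ_[2]) ≠ 0 := by exact_mod_cast hd0
  have hb : ((u ^ 2 - v ^ 2) ^ 2 * (m : ℤ) ^ 2) ≠ 0 :=
    mul_ne_zero (pow_ne_zero 2 (sub_ne_zero.2 h.ne)) (pow_ne_zero 2 h.m0)
  have hab : (-2 * (u ^ 2 + v ^ 2) * (m : ℤ)) ^ 2 - 4 * ((u ^ 2 - v ^ 2) ^ 2 * m ^ 2) ≠ 0 := by
    rw [Dt.e4 u v m]
    exact pow_ne_zero 2 (mul_ne_zero (mul_ne_zero (mul_ne_zero two_ne_zero h.u0)
      (mul_ne_zero two_ne_zero h.v0)) (neg_ne_zero.2 h.m0))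
  obtain ⟨lq1, -⟩ := Pool.Agent.Y971.SG.Lq.t_LQ (-2 * (u ^ 2 + v ^ 2) * m)
    ((u ^ 2 - v ^ 2) ^ 2 * m ^ 2) d hb hab hd0
  have h8 : d % 8 = 1 ∨ d % 8 = 5 := by omega
  rcases h8 with h8 | h8
  · exact lq1 2 (Or.inl (Pool.Agent.Y971.SG.Lq.padic_sq2 h8))
  · -- a point `x = d t²`, `y` on `y² = x (x + u² m) (x + v² m)`
    have fin : ∀ x y t : ℚ_[2], x ≠ 0 → x = d * t ^ 2 →
        y ^ 2 = x * ((x + (u : ℚ_[2]) ^ 2 * m) * (x + (v : ℚ_[2]) ^ 2 * m)) →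
        LocI ℚ_[2] (-2 * (u ^ 2 + v ^ 2) * m) ((u ^ 2 - v ^ 2) ^ 2 * m ^ 2) d := by
      intro x y t hx hxt hy
      refine ⟨4 * x, 8 * y, 2 * t, mul_ne_zero (by norm_num) hx, ?_, ?_⟩
      · rw [mul_pow, hy]
        push_cast
        ring
      · rw [hxt]; ring
    have key : ∀ {u v : ℤ}, u % 4 = 2 → v % 2 = 1 → ∃ x y t : ℚ_[2], x ≠ 0 ∧ x = d * t ^ 2 ∧
        y ^ 2 = x * ((x + (u : ℚ_[2]) ^ 2 * m) * (x + (v : ℚ_[2]) ^ 2 * m)) := by
      intro u v hu hv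
      have h8v := odd_sq8 hv
      obtain ⟨u', hu'⟩ : ∃ u' : ℤ, u = 2 * u' := ⟨u / 2, by omega⟩
      have hu2 : u' % 2 = 1 := by omega
      have h8u := odd_sq8 hu2
      have r1 : (u' ^ 2 * (m : ℤ)) % 8 = (m : ℤ) % 8 := by
        rw [Int.mul_emod, h8u, one_mul, Int.emod_emod]
      have r2 : (v ^ 2 * (m : ℤ)) % 8 = (m : ℤ) % 8 := by
        rw [Int.mul_emod, h8v, one_mul, Int.emod_emod]
      have hprod : (d * ((4 * d + u' ^ 2 * m) * (16 * d + v ^ 2 * m))) % 8 = 1 := by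
        rcases hm8 with h9 | h9
        · have g1 : (4 * d + u' ^ 2 * (m : ℤ)) % 8 = 7 := by omega
          have g2 : (16 * d + v ^ 2 * (m : ℤ)) % 8 = 3 := by omega
          exact mul8 h8 (mul8 g1 g2 rfl) rfl
        · have g1 : (4 * d + u' ^ 2 * (m : ℤ)) % 8 = 3 := by omega
          have g2 : (16 * d + v ^ 2 * (m : ℤ)) % 8 = 7 := by omega
          exact mul8 h8 (mul8 g1 g2 rfl) rfl
      obtain ⟨w, hw⟩ := Pool.Agent.Y971.SG.Lq.padic_sq2 hprod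
      push_cast at hw
      refine ⟨16 * d, 8 * w, 4, mul_ne_zero (by norm_num) hdL, by ring, ?_⟩
      rw [hu']
      push_cast
      linear_combination (-64 : ℚ_[2]) * hw
    rcases h.two with ⟨h1, h2, h3⟩ | ⟨h1, h2⟩ | ⟨h1, h2⟩
    · have h8u := odd_sq8 h1
      have h8v := odd_sq8 h2
      have r1 : (u ^ 2 * (m : ℤ)) % 8 = (m : ℤ) % 8 := by
        rw [Int.mul_emod, h8u, one_mul, Int.emod_emod]
      have r2 : (v ^ 2 * (m : ℤ)) % 8 = (m : ℤ) % 8 := by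
        rw [Int.mul_emod, h8v, one_mul, Int.emod_emod]
      rcases hm8 with h9 | h9
      · -- `x = - m (20 u² - v²) / 19`
        obtain ⟨k, hk⟩ : ∃ k : ℤ, u ^ 2 = 1 + 8 * k := ⟨u ^ 2 / 8, by omega⟩
        obtain ⟨l, hl⟩ : ∃ l : ℤ, v ^ 2 = 1 + 8 * l := ⟨v ^ 2 / 8, by omega⟩
        have g1 : (-((m : ℤ) * (20 * u ^ 2 - v ^ 2))) % 8 = 7 := by
          rw [hk, hl]
          have e : -((m : ℤ) * (20 * (1 + 8 * k) - (1 + 8 * l))) = -(3 * m) -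
            8 * ((m : ℤ) * (2 + 20 * k - l)) := by ring
          rw [e]
          omega
        have g2 : (19 * (d * -((m : ℤ) * (20 * u ^ 2 - v ^ 2)))) % 8 = 1 :=
          mul8 (by rfl : (19 : ℤ) % 8 = 3) (mul8 h8 g1 rfl) rfl
        have g3 : (5 * d) % 8 = 1 := by omega
        obtain ⟨w, hw⟩ := Pool.Agent.Y971.SG.Lq.padic_sq2 g2
        obtain ⟨z, hz⟩ := Pool.Agent.Y971.SG.Lq.padic_sq2 g3
        push_cast at hw hz
        have hw0 : w ≠ 0 := by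
          rintro rfl
          rw [mul_zero] at hw
          have hw' : ((19 * (d * -((m : ℤ) * (20 * u ^ 2 - v ^ 2))) : ℤ) : ℚ_[2]) = 0 := by
            push_cast
            exact hw
          have : (19 * (d * -((m : ℤ) * (20 * u ^ 2 - v ^ 2))) : ℤ) = 0 := by exact_mod_cast hw'
          omega
        have h19 : (19 : ℚ_[2]) ≠ 0 := by norm_num
        have hx : -((m : ℚ_[2]) * (20 * (u : ℚ_[2]) ^ 2 - (v : ℚ_[2]) ^ 2)) / 19 =
            d * (w / (19 * d)) ^ 2 := by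
          rw [div_pow]
          field_simp
          linear_combination hw
        have h5 : (5 : ℚ_[2]) ≠ 0 := by norm_num
        refine fin _ (2 * z * (w / 19) * ((m : ℚ_[2]) * ((v : ℚ_[2]) ^ 2 - (u : ℚ_[2]) ^ 2) / 19) / d)
          (w / (19 * d)) ?_ hx ?_
        · rw [hx]
          exact mul_ne_zero hdL (pow_ne_zero 2 (div_ne_zero hw0 (mul_ne_zero h19 hdL)))
        · have f1 : -((m : ℚ_[2]) * (20 * (u : ℚ_[2]) ^ 2 - (v : ℚ_[2]) ^ 2)) / 19 +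
              (u : ℚ_[2]) ^ 2 * m = (m : ℚ_[2]) * ((v : ℚ_[2]) ^ 2 - (u : ℚ_[2]) ^ 2) / 19 := by
            field_simp
            ring
          have f2 : -((m : ℚ_[2]) * (20 * (u : ℚ_[2]) ^ 2 - (v : ℚ_[2]) ^ 2)) / 19 +
              (v : ℚ_[2]) ^ 2 * m = 20 * ((m : ℚ_[2]) * ((v : ℚ_[2]) ^ 2 - (u : ℚ_[2]) ^ 2) / 19) := by
            field_simp
            ring
          rw [f1, f2, hx]
          generalize (m : ℚ_[2]) * ((v : ℚ_[2]) ^ 2 - (u : ℚ_[2]) ^ 2) / 19 = g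
          field_simp
          linear_combination (-4 * g ^ 2 : ℚ_[2]) * hz
      · -- `x = d`
        have h3' : (u ^ 2 - v ^ 2) % 32 = 16 := by
          rcases h3 with h3 | h3
          · omega
          · exact h3
        obtain ⟨a, ha⟩ : ∃ a : ℤ, d + u ^ 2 * (m : ℤ) = 4 * a := ⟨(d + u ^ 2 * (m : ℤ)) / 4, by omega⟩
        obtain ⟨b, hb⟩ : ∃ b : ℤ, d + v ^ 2 * (m : ℤ) = 4 * b := ⟨(d + v ^ 2 * (m : ℤ)) / 4, by omega⟩
        obtain ⟨k, hk⟩ : ∃ k : ℤ, u ^ 2 - v ^ 2 = 16 * (1 + 2 * k) := ⟨(u ^ 2 - v ^ 2) / 32, by omega⟩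
        have ha2 : a % 2 = 1 := by omega
        have hba : b = a - 4 * ((1 + 2 * k) * m) := by
          have e : 4 * a - 4 * b = (u ^ 2 - v ^ 2) * m := by rw [← ha, ← hb]; ring
          rw [hk] at e
          linarith
        have hprod : (d * (a * b)) % 8 = 1 := by
          have g1 : (a * b) % 8 = 5 := by
            rw [hba]
            obtain ⟨a', ha'⟩ : ∃ a' : ℤ, a ^ 2 = 1 + 8 * a' := ⟨a ^ 2 / 8, by
              have := odd_sq8 ha2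
              omega⟩
            obtain ⟨a'', ha''⟩ : ∃ a'' : ℤ, a = 1 + 2 * a'' := ⟨a / 2, by omega⟩
            obtain ⟨m', hm'⟩ : ∃ m' : ℤ, (m : ℤ) = 7 + 8 * m' := ⟨(m : ℤ) / 8, by omega⟩
            have e : a * (a - 4 * ((1 + 2 * k) * m)) = a ^ 2 - 4 * a * ((1 + 2 * k) * m) := by ring
            rw [e, ha', ha'', hm']
            have e' : 1 + 8 * a' - 4 * (1 + 2 * a'') * ((1 + 2 * k) * (7 + 8 * m')) =
              5 + 8 * (a' - 4 - 7 * a'' - 4 * m' - 8 * a'' * m' -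
                k * (1 + 2 * a'') * (7 + 8 * m')) := by ring
            rw [e']
            omega
          exact mul8 h8 g1 rfl
        obtain ⟨w, hw⟩ := Pool.Agent.Y971.SG.Lq.padic_sq2 hprod
        push_cast at hw
        have haL : (d : ℚ_[2]) + (u : ℚ_[2]) ^ 2 * m = 4 * a := by
          exact_mod_cast congrArg (fun z : ℤ => (z : ℚ_[2])) ha
        have hbL : (d : ℚ_[2]) + (v : ℚ_[2]) ^ 2 * m = 4 * b := by
          exact_mod_cast congrArg (fun z : ℤ => (z : ℚ_[2])) hb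
        refine fin d (4 * w) 1 hdL (by ring) ?_
        rw [haL, hbL]
        linear_combination (-16 : ℚ_[2]) * hw
    · obtain ⟨x, y, t, hx, hxt, hy⟩ := key h1 h2
      exact fin x y t hx hxt hy
    · obtain ⟨x, y, t, hx, hxt, hy⟩ := key h2 h1
      exact fin x y t hx hxt (by rw [hy]; ring)

theorem nsq_int {d : ℤ} (hs : Squarefree d.natAbs) (h1 : d.natAbs ≠ 1) : ¬ IsSquare (d : ℚ) := by
  intro h
  rw [Rat.isSquare_intCast_iff] at h
  obtain ⟨r, hr⟩ := h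
  have h6 : d.natAbs = r.natAbs * r.natAbs := by
    rw [hr, Int.natAbs_mul]
  have h7 := Nat.isUnit_iff.1 (hs r.natAbs ⟨1, by rw [mul_one]; exact h6⟩)
  rw [h7] at h6
  exact h1 h6

/-- **the converse for the first curve** -/
theorem convE (h : Dt u v m)
    (hf : Finite (WF ℚ ((u ^ 2 + v ^ 2) * m) (u ^ 2 * v ^ 2 * m ^ 2)).toAffine.Point)
    (hs : ∀ x : Sha (WF ℚ ((u ^ 2 + v ^ 2) * m) (u ^ 2 * v ^ 2 * m ^ 2)), x + x = 0 → x = 0) :
    Qc m := by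
  intro b c hbc hb hc
  by_contra hcon
  push Not at hcon
  obtain ⟨hb1, hc1⟩ := hcon
  have hn := h.sqf
  have hn0 : m ≠ 0 := hn.ne_zero
  have hnz := h.m0
  have hsq : Squarefree (b * c) := hbc ▸ hn
  have hbs : Squarefree b := hsq.of_mul_left
  have hcs : Squarefree c := hsq.of_mul_right
  have hco : Nat.Coprime b c := (Nat.squarefree_mul_iff.1 hsq).1
  have hbz : (b : ℤ) ≠ 0 := by exact_mod_cast hbs.ne_zero
  have hb0 : (u ^ 2 * v ^ 2 * (m : ℤ) ^ 2) ≠ 0 := mul_ne_zero (mul_ne_zero (pow_ne_zero 2 h.u0)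
    (pow_ne_zero 2 h.v0)) (pow_ne_zero 2 hnz)
  have hab : ((u ^ 2 + v ^ 2) * (m : ℤ)) ^ 2 - 4 * (u ^ 2 * v ^ 2 * m ^ 2) ≠ 0 := by
    rw [Dt.e2 u v m]
    exact pow_ne_zero 2 (mul_ne_zero (mul_ne_zero h.mi h.pl) hnz)
  obtain ⟨lq1, lq2⟩ := Pool.Agent.Y971.SG.Lq.t_LQ ((u ^ 2 + v ^ 2) * m) (u ^ 2 * v ^ 2 * m ^ 2) b
    hb0 hab hbz
  have hb2 : b % 2 = 1 := by
    rcases Nat.mod_two_eq_zero_or_one b with h5 | h5
    · exfalso
      have h6 : m % 2 = 0 := by rw [← hbc, Nat.mul_mod, h5, zero_mul]; rfl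
      have := h.m4
      omega
    · exact h5
  have hloc : ∀ (p : ℕ) [Fact p.Prime],
      LocI ℚ_[p] ((u ^ 2 + v ^ 2) * m) (u ^ 2 * v ^ 2 * m ^ 2) b := by
    intro p hp
    have hpp : p.Prime := hp.out
    by_cases hpn : p ∣ m
    · have hp2 := h.p2 hpn
      by_cases hpb : p ∣ b
      · have hpc : ¬ p ∣ c := fun h => (Nat.Prime.one_lt hpp).ne'
          (Nat.eq_one_of_dvd_coprimes hco hpb h)
        have h1 := hc p (Nat.mem_primeFactors.2 ⟨hpp, hpb, hbs.ne_zero⟩)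
        rw [jac_iff hpc] at h1
        obtain ⟨s, hs⟩ := Pool.Agent.Y971.SG.Lq.t_SQ p (c : ℤ) hp2 (by exact_mod_cast hpc) h1
        refine loc_tor (L := ℚ_[p]) h.m0 h.mi hbz (Dt.e1 u v m) (Dt.e2 u v m) (w := b * s) ?_
        have e : (m : ℚ_[p]) = b * c := by
          rw [← hbc]
          push_cast
          rfl
        push_cast at hs ⊢
        rw [e]
        linear_combination (-(b : ℚ_[p]) ^ 2) * hs
      · have hpc : p ∣ c := by
          rw [← hbc] at hpn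
          exact (hpp.dvd_mul.1 hpn).resolve_left hpb
        have h1 := hb p (Nat.mem_primeFactors.2 ⟨hpp, hpc, hcs.ne_zero⟩)
        rw [jac_iff hpb] at h1
        exact lq1 p (Or.inl (Pool.Agent.Y971.SG.Lq.t_SQ p (b : ℤ) hp2 (by exact_mod_cast hpb) h1))
    · have hpb : ¬ (p : ℤ) ∣ b := by
        intro h
        have h' : p ∣ b := by exact_mod_cast h
        exact hpn (hbc ▸ h'.mul_right c)
      by_cases hp2 : p = 2
      · subst hp2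
        exact two1 h (by omega)
      · have hpi : Prime (p : ℤ) := Nat.prime_iff_prime_int.1 hpp
        have hq2d : ¬ (p : ℤ) ∣ 2 := by
          intro h3
          have h4 : p ∣ 2 := by exact_mod_cast h3
          exact hp2 ((Nat.prime_dvd_prime_iff_eq hpp Nat.prime_two).1 h4)
        refine loc_odd hp2 (M := m) (r := u - v) (s := u + v) (by exact_mod_cast hpn) h.mi h.pl h.rs
          ?_ hpb (Dt.e1 u v m) (Dt.e2 u v m) ?_ ?_
        · rintro ⟨h1, h2⟩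
          have h3 : (p : ℤ) ∣ 2 * u := by
            have := dvd_add h1 h2
            have e : u - v + (u + v) = 2 * u := by ring
            rwa [e] at this
          have h4 : (p : ℤ) ∣ 2 * v := by
            have := dvd_sub h2 h1
            have e : u + v - (u - v) = 2 * v := by ring
            rwa [e] at this
          exact hpi.not_isUnit (h.cop.isUnit_of_dvd' ((hpi.dvd_or_dvd h3).resolve_left hq2d)
            ((hpi.dvd_or_dvd h4).resolve_left hq2d))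
        · intro h3
          refine h.nb p hpp hp2 ?_
          have e : (u - v) ^ 2 - (u + v) ^ 2 = -(2 * (2 * (u * v))) := by ring
          rw [e, dvd_neg] at h3
          exact (hpi.dvd_or_dvd ((hpi.dvd_or_dvd h3).resolve_left hq2d)).resolve_left hq2d
        · intro h3
          refine h.ng p hpp hp2 ?_
          have e : u ^ 2 - v ^ 2 = (u - v) * (u + v) := by ring
          rw [e]
          exact h3
  have hreal : LocI ℝ ((u ^ 2 + v ^ 2) * m) (u ^ 2 * v ^ 2 * m ^ 2) b :=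
    lq2 (by exact_mod_cast Nat.pos_of_ne_zero hbs.ne_zero)
  have hm1 : m ≠ 1 := by
    rintro rfl
    have := h.m4
    omega
  have hmp : (0 : ℚ) < m := by exact_mod_cast Nat.pos_of_ne_zero hn0
  have n1 : ¬ IsSquare ((b : ℤ) : ℚ) := nsq_int (by rwa [Int.natAbs_natCast]) (by
    rwa [Int.natAbs_natCast])
  have nm : ¬ IsSquare (m : ℚ) := by
    have := nsq_int (d := (m : ℤ)) (by rwa [Int.natAbs_natCast]) (by rwa [Int.natAbs_natCast])
    rwa [Int.cast_natCast] at this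
  have nm' : ¬ IsSquare (-(m : ℚ)) := by
    rintro ⟨s, hs⟩
    nlinarith [mul_self_nonneg s]
  have n2 : ¬ IsSquare (((b : ℤ) : ℚ) * ((((u ^ 2 + v ^ 2) * m : ℤ) : ℚ) ^ 2 -
      4 * ((u ^ 2 * v ^ 2 * m ^ 2 : ℤ) : ℚ))) := by
    rintro ⟨s, hs⟩
    apply n1
    have e : ((((u ^ 2 + v ^ 2) * m : ℤ) : ℚ) ^ 2 - 4 * ((u ^ 2 * v ^ 2 * m ^ 2 : ℤ) : ℚ)) =
        ((((u - v) * (u + v) * m : ℤ)) : ℚ) ^ 2 := by
      exact_mod_cast congrArg (fun z : ℤ => (z : ℚ)) (Dt.e2 u v m)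
    have hne : ((((u - v) * (u + v) * m : ℤ)) : ℚ) ≠ 0 := by
      have := mul_ne_zero (mul_ne_zero h.mi h.pl) hnz
      exact_mod_cast this
    rw [e] at hs
    refine ⟨s / (((u - v) * (u + v) * m : ℤ) : ℚ), ?_⟩
    field_simp
    linear_combination hs
  have n3 : ¬ LocI ℚ ((u ^ 2 + v ^ 2) * m) (u ^ 2 * v ^ 2 * m ^ 2) b := by
    intro hl
    have r1 : ((u - v : ℤ) : ℚ) ≠ 0 := by exact_mod_cast h.mi
    have r2 : ((u + v : ℤ) : ℚ) ≠ 0 := by exact_mod_cast h.pl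
    have r3 : ((u - v : ℤ) : ℚ) ^ 2 ≠ ((u + v : ℤ) : ℚ) ^ 2 := by exact_mod_cast h.rs
    have r4 : ((u ^ 2 * v ^ 2 * (m : ℤ) ^ 2 : ℤ) : ℚ) ≠ 0 := by exact_mod_cast hb0
    rcases torL (M := (m : ℚ)) (r := ((u - v : ℤ) : ℚ)) (s := ((u + v : ℤ) : ℚ)) nm nm' r1 r2 r3
      (by push_cast; ring) (by push_cast; ring) r4 hf hl with h5 | h5
    · exact n1 h5
    · obtain ⟨s, hs⟩ := h5
      have hcq : ¬ IsSquare ((c : ℤ) : ℚ) := nsq_int (by rwa [Int.natAbs_natCast]) (by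
        rwa [Int.natAbs_natCast])
      apply hcq
      have hbq : (b : ℚ) ≠ 0 := by exact_mod_cast hbs.ne_zero
      have e : (m : ℚ) = b * c := by
        rw [← hbc]
        push_cast
        rfl
      refine ⟨s / b, ?_⟩
      rw [e] at hs
      push_cast at hs ⊢
      field_simp
      linear_combination hs
  obtain ⟨y, hy0, hy2⟩ := exists_two' hb0 hab hbz hloc hreal n1 n2 n3
  exact hy0 (hs y hy2)

/-- **the converse for the isogenous curve** -/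
theorem convE' (h : Dt u v m)
    (hf : Finite (WF ℚ (-2 * (u ^ 2 + v ^ 2) * m) ((u ^ 2 - v ^ 2) ^ 2 * m ^ 2)).toAffine.Point)
    (hs : ∀ x : Sha (WF ℚ (-2 * (u ^ 2 + v ^ 2) * m) ((u ^ 2 - v ^ 2) ^ 2 * m ^ 2)),
      x + x = 0 → x = 0) : Qc m := by
  refine Qc_of_tr h.sqf h.m4 fun x hx p0 hp0 q0 hq0 => ?_
  by_contra hcon
  obtain ⟨d, e, hde, hd4, he4, hd1, he1, hpd, hpe⟩ := div_of_tr h.sqf h.m4 hx hp0 hq0 hcon
  have hn := h.sqf
  have hn0 : m ≠ 0 := hn.ne_zero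
  have hnz := h.m0
  have hmz : (-(m : ℤ)) ≠ 0 := neg_ne_zero.2 hnz
  have hd0 : d ≠ 0 := by omega
  have hnat : d.natAbs * e.natAbs = m := by
    have := congrArg Int.natAbs hde
    rwa [Int.natAbs_mul, Int.natAbs_neg, Int.natAbs_natCast] at this
  have hsq : Squarefree (d.natAbs * e.natAbs) := hnat.symm ▸ hn
  have hds : Squarefree d.natAbs := hsq.of_mul_left
  have hes : Squarefree e.natAbs := hsq.of_mul_right
  have hb0 : ((u ^ 2 - v ^ 2) ^ 2 * (m : ℤ) ^ 2) ≠ 0 :=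
    mul_ne_zero (pow_ne_zero 2 (sub_ne_zero.2 h.ne)) (pow_ne_zero 2 hnz)
  have h2u : 2 * u ≠ 0 := mul_ne_zero two_ne_zero h.u0
  have h2v : 2 * v ≠ 0 := mul_ne_zero two_ne_zero h.v0
  have hrs : (2 * u) ^ 2 ≠ (2 * v) ^ 2 := by
    intro h0
    apply h.ne
    linarith
  have hab : (-2 * (u ^ 2 + v ^ 2) * (m : ℤ)) ^ 2 - 4 * ((u ^ 2 - v ^ 2) ^ 2 * m ^ 2) ≠ 0 := by
    rw [Dt.e4 u v m]
    exact pow_ne_zero 2 (mul_ne_zero (mul_ne_zero h2u h2v) hmz)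
  obtain ⟨lq1, lq2⟩ := Pool.Agent.Y971.SG.Lq.t_LQ (-2 * (u ^ 2 + v ^ 2) * m)
    ((u ^ 2 - v ^ 2) ^ 2 * m ^ 2) d hb0 hab hd0
  have hloc : ∀ (p : ℕ) [Fact p.Prime],
      LocI ℚ_[p] (-2 * (u ^ 2 + v ^ 2) * m) ((u ^ 2 - v ^ 2) ^ 2 * m ^ 2) d := by
    intro p hp
    have hpp : p.Prime := hp.out
    have hpi : Prime (p : ℤ) := Nat.prime_iff_prime_int.1 hpp
    by_cases hpn : p ∣ m
    · have hp2 := h.p2 hpn
      by_cases hpb : (p : ℤ) ∣ d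
      · obtain ⟨hpc, h1⟩ := hpd p hpp hpb
        obtain ⟨s, hs⟩ := Pool.Agent.Y971.SG.Lq.t_SQ p e hp2 hpc h1
        refine loc_tor (L := ℚ_[p]) hmz h2u hd0 (Dt.e3 u v m) (Dt.e4 u v m) (w := d * s) ?_
        rw [← hde]
        push_cast
        linear_combination (-(d : ℚ_[p]) ^ 2) * hs
      · have hpc : (p : ℤ) ∣ e := by
          have h3 : (p : ℤ) ∣ d * e := by
            rw [hde, dvd_neg]
            exact_mod_cast hpn
          exact (hpi.dvd_or_dvd h3).resolve_left hpb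
        obtain ⟨-, h1⟩ := hpe p hpp hpc
        exact lq1 p (Or.inl (Pool.Agent.Y971.SG.Lq.t_SQ p d hp2 hpb h1))
    · have hpb : ¬ (p : ℤ) ∣ d := by
        intro h3
        have h4 : (p : ℤ) ∣ d * e := h3.mul_right e
        rw [hde, dvd_neg] at h4
        exact hpn (by exact_mod_cast h4)
      by_cases hp2 : p = 2
      · subst hp2
        exact two2 h hd4
      · have hq2d : ¬ (p : ℤ) ∣ 2 := by
          intro h3
          have h4 : p ∣ 2 := by exact_mod_cast h3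
          exact hp2 ((Nat.prime_dvd_prime_iff_eq hpp Nat.prime_two).1 h4)
        refine loc_odd hp2 (M := -m) (r := 2 * u) (s := 2 * v) (by
          rw [dvd_neg]
          exact_mod_cast hpn) h2u h2v hrs ?_ hpb (Dt.e3 u v m) (Dt.e4 u v m) ?_ ?_
        · rintro ⟨h1, h2⟩
          exact hpi.not_isUnit (h.cop.isUnit_of_dvd' ((hpi.dvd_or_dvd h1).resolve_left hq2d)
            ((hpi.dvd_or_dvd h2).resolve_left hq2d))
        · intro h3
          refine h.ng p hpp hp2 ?_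
          have e : (2 * u) ^ 2 - (2 * v) ^ 2 = 2 * (2 * (u ^ 2 - v ^ 2)) := by ring
          rw [e] at h3
          exact (hpi.dvd_or_dvd ((hpi.dvd_or_dvd h3).resolve_left hq2d)).resolve_left hq2d
        · intro h3
          rw [neg_neg]
          refine h.nb p hpp hp2 ?_
          have e : (2 * u) * (2 * v) = 2 * (2 * (u * v)) := by ring
          rw [e] at h3
          exact (hpi.dvd_or_dvd ((hpi.dvd_or_dvd h3).resolve_left hq2d)).resolve_left hq2d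
  have hmr : (0 : ℝ) < m := by exact_mod_cast Nat.pos_of_ne_zero hn0
  have hur : (u : ℝ) ≠ 0 := by exact_mod_cast h.u0
  have hreal : LocI ℝ (-2 * (u ^ 2 + v ^ 2) * m) ((u ^ 2 - v ^ 2) ^ 2 * m ^ 2) d := by
    rcases lt_or_gt_of_ne hd0 with h9 | h9
    · have hdr : (d : ℝ) < 0 := by exact_mod_cast h9
      have h4d : (0 : ℝ) ≤ -(4 * u ^ 2 * m) / d := by
        apply div_nonneg_of_nonpos
        · have : (0 : ℝ) < 4 * (u : ℝ) ^ 2 * m := by positivity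
          linarith
        · exact hdr.le
      refine ⟨-(4 * u ^ 2 * m), 0, Real.sqrt (-(4 * u ^ 2 * m) / d), ?_, ?_, ?_⟩
      · have : (0 : ℝ) < 4 * (u : ℝ) ^ 2 * m := by positivity
        exact neg_ne_zero.2 this.ne'
      · push_cast
        ring
      · rw [Real.sq_sqrt h4d]
        have := hdr.ne
        field_simp
    · exact lq2 h9
  have hmp : (0 : ℚ) < m := by exact_mod_cast Nat.pos_of_ne_zero hn0
  have hm1 : m ≠ 1 := by
    rintro rfl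
    have := h.m4
    omega
  have n1 : ¬ IsSquare ((d : ℤ) : ℚ) := nsq_int hds hd1
  have nm : ¬ IsSquare (m : ℚ) := by
    have := nsq_int (d := (m : ℤ)) (by rwa [Int.natAbs_natCast]) (by rwa [Int.natAbs_natCast])
    rwa [Int.cast_natCast] at this
  have nm' : ¬ IsSquare (-(m : ℚ)) := by
    rintro ⟨s, hs⟩
    nlinarith [mul_self_nonneg s]
  have n2 : ¬ IsSquare (((d : ℤ) : ℚ) * (((-2 * (u ^ 2 + v ^ 2) * m : ℤ) : ℚ) ^ 2 -
      4 * (((u ^ 2 - v ^ 2) ^ 2 * m ^ 2 : ℤ) : ℚ))) := by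
    rintro ⟨s, hs⟩
    apply n1
    have e : (((-2 * (u ^ 2 + v ^ 2) * m : ℤ) : ℚ) ^ 2 -
        4 * (((u ^ 2 - v ^ 2) ^ 2 * m ^ 2 : ℤ) : ℚ)) = ((((2 * u) * (2 * v) * (-m) : ℤ)) : ℚ) ^ 2 := by
      exact_mod_cast congrArg (fun z : ℤ => (z : ℚ)) (Dt.e4 u v m)
    have hne : ((((2 * u) * (2 * v) * (-m) : ℤ)) : ℚ) ≠ 0 := by
      have := mul_ne_zero (mul_ne_zero h2u h2v) hmz
      exact_mod_cast this
    rw [e] at hs
    refine ⟨s / ((((2 * u) * (2 * v) * (-m) : ℤ)) : ℚ), ?_⟩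
    field_simp
    linear_combination hs
  have n3 : ¬ LocI ℚ (-2 * (u ^ 2 + v ^ 2) * m) ((u ^ 2 - v ^ 2) ^ 2 * m ^ 2) d := by
    intro hl
    have r1 : ((2 * u : ℤ) : ℚ) ≠ 0 := by exact_mod_cast h2u
    have r2 : ((2 * v : ℤ) : ℚ) ≠ 0 := by exact_mod_cast h2v
    have r3 : ((2 * u : ℤ) : ℚ) ^ 2 ≠ ((2 * v : ℤ) : ℚ) ^ 2 := by exact_mod_cast hrs
    have r4 : (((u ^ 2 - v ^ 2) ^ 2 * (m : ℤ) ^ 2 : ℤ) : ℚ) ≠ 0 := by exact_mod_cast hb0
    rcases torL (M := -(m : ℚ)) (r := ((2 * u : ℤ) : ℚ)) (s := ((2 * v : ℤ) : ℚ)) nm'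
      (by rwa [neg_neg]) r1 r2 r3 (by push_cast; ring) (by push_cast; ring) r4 hf hl with h5 | h5
    · exact n1 h5
    · obtain ⟨s, hs⟩ := h5
      apply nsq_int hes he1
      have hdq : (d : ℚ) ≠ 0 := by exact_mod_cast hd0
      have e' : -(m : ℚ) = d * e := by exact_mod_cast congrArg (fun z : ℤ => (z : ℚ)) hde.symm
      refine ⟨s / d, ?_⟩
      rw [e'] at hs
      field_simp
      linear_combination hs
  obtain ⟨y, hy0, hy2⟩ := exists_two' hb0 hab hd0 hloc hreal n1 n2 n3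
  exact hy0 (hs y hy2)

/-! ### The two criteria -/

/-- **the first curve** -/
theorem iffE (h : Dt u v m) {W : WeierstrassCurve ℚ} (hW : W = ⟨0, (((u ^ 2 + v ^ 2) * m : ℤ) : ℚ),
      0, ((u ^ 2 * v ^ 2 * m ^ 2 : ℤ) : ℚ), 0⟩) :
    (Finite W.toAffine.Point ∧ ∀ (k : ℕ) (x : Sha W), 2 ^ k • x = 0 → x = 0) ↔ Qc m := by
  have hW2 : W = WF ℚ ((u ^ 2 + v ^ 2) * m) (u ^ 2 * v ^ 2 * m ^ 2) := by
    rw [hW]
    unfold WF Pool.Agent.Y668.Wt
    simp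
  constructor
  · rintro ⟨hf, hs⟩
    rw [hW2] at hf hs
    refine convE h hf fun x hx => hs 1 x ?_
    rw [pow_one, two_smul, hx]
  · intro hQ
    have hT : Pool.Agent.Y682.IsT W (((u ^ 2 + v ^ 2) * m : ℤ) : ℚ)
        ((u ^ 2 * v ^ 2 * m ^ 2 : ℤ) : ℚ) := by
      rw [hW]
      refine ⟨rfl, rfl, rfl, rfl, rfl, ?_, ?_⟩
      · have : (u ^ 2 * v ^ 2 * (m : ℤ) ^ 2) ≠ 0 := mul_ne_zero (mul_ne_zero (pow_ne_zero 2 h.u0)
          (pow_ne_zero 2 h.v0)) (pow_ne_zero 2 h.m0)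
        exact_mod_cast this
      · rw [(eqs u v m).2.1]
        have : ((u ^ 2 - v ^ 2) ^ 2 * (m : ℤ) ^ 2) ≠ 0 :=
          mul_ne_zero (pow_ne_zero 2 (sub_ne_zero.2 h.ne)) (pow_ne_zero 2 h.m0)
        exact_mod_cast this
    obtain ⟨h1, h2⟩ := shaE h hQ hT
    exact ⟨fin_of_rank hT h1, h2⟩

/-- **the isogenous curve** -/
theorem iffE' (h : Dt u v m) {W : WeierstrassCurve ℚ}
    (hW : W = ⟨0, ((-2 * (u ^ 2 + v ^ 2) * m : ℤ) : ℚ), 0,
      (((u ^ 2 - v ^ 2) ^ 2 * m ^ 2 : ℤ) : ℚ), 0⟩) :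
    (Finite W.toAffine.Point ∧ ∀ (k : ℕ) (x : Sha W), 2 ^ k • x = 0 → x = 0) ↔ Qc m := by
  have hW2 : W = WF ℚ (-2 * (u ^ 2 + v ^ 2) * m) ((u ^ 2 - v ^ 2) ^ 2 * m ^ 2) := by
    rw [hW]
    unfold WF Pool.Agent.Y668.Wt
    simp
  constructor
  · rintro ⟨hf, hs⟩
    rw [hW2] at hf hs
    refine convE' h hf fun x hx => hs 1 x ?_
    rw [pow_one, two_smul, hx]
  · intro hQ
    have hT : Pool.Agent.Y682.IsT W ((-2 * (u ^ 2 + v ^ 2) * m : ℤ) : ℚ)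
        (((u ^ 2 - v ^ 2) ^ 2 * m ^ 2 : ℤ) : ℚ) := by
      rw [hW]
      refine ⟨rfl, rfl, rfl, rfl, rfl, ?_, ?_⟩
      · have : ((u ^ 2 - v ^ 2) ^ 2 * (m : ℤ) ^ 2) ≠ 0 :=
          mul_ne_zero (pow_ne_zero 2 (sub_ne_zero.2 h.ne)) (pow_ne_zero 2 h.m0)
        exact_mod_cast this
      · rw [(eqs u v m).2.2.2]
        have : (u ^ 2 * v ^ 2 * (m : ℤ) ^ 2) ≠ 0 := mul_ne_zero (mul_ne_zero (pow_ne_zero 2 h.u0)
          (pow_ne_zero 2 h.v0)) (pow_ne_zero 2 h.m0)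
        exact mul_ne_zero (by norm_num) (by exact_mod_cast this)
    obtain ⟨h1, h2⟩ := shaE' h hQ hT
    exact ⟨fin_of_rank hT h1, h2⟩

end

end Pool.Agent.Run7.h289.D18
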