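import Mathlib
import Pool.Agent.Run7.h289.D18.Cv

/-!
# The curves `y² = x (x - P² m) (x - R² m)` with `P + R` odd
-/

set_option autoImplicit false
set_option linter.unusedSectionVars false

attribute [-instance] DivisionRing.toRatAlgebra

open NumberField IsDedekindDomain

namespace Pool.Agent.Run7.h289.D18

open Pool.Agent.Y682 (S1 S2 LL1 LL2 Sq quot_eq IsT Zc Zc_card Zc_lower MP)
open Pool.Agent.Y698.SG.Cv (LocI WF)
open Pool.Agent.TH841.NF.D (Sha)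
open Run7.h843.Desc Run7.h843.Sha
open Run7.h843.R (C2_iff)
open Run7.h424.DC (good_p exists_two' jac_iff odd_pf fin_of_rank)
open Pool.Agent.N969.P15 (Qc)

/-- scaling of the local condition -/
theorem C1_four' {F : Type} [Field F] [CharZero F] {A B b : ℚ} (h : C1 F A B b) :
    C1 F (4 * A) (16 * B) b := by
  have h4 : (4 : F) ≠ 0 := by norm_num
  obtain ⟨z, x, hz, hzx, hx⟩ := h
  rcases hx with hx | hx | ⟨hx0, y, hy⟩
  · exact ⟨z, x, hz, hzx, Or.inl hx⟩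
  · refine ⟨4 * z, 16 * (B : F), mul_ne_zero h4 hz, ?_, Or.inr (Or.inl (by push_cast; ring))⟩
    rw [mul_pow, ← hx, ← hzx]
    ring
  · refine ⟨2 * z, 4 * x, mul_ne_zero two_ne_zero hz, ?_,
      Or.inr (Or.inr ⟨mul_ne_zero h4 hx0, 8 * y, ?_⟩)⟩
    · rw [← hzx]
      ring
    · rw [mul_pow, hy]
      push_cast
      ring

/-- scaling of the local points -/
theorem LocI_four {L : Type} [Field L] [CharZero L] {a b a' b' d : ℤ} (ha : a = 4 * a')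
    (hb : b = 16 * b') (h : LocI L a b d) : LocI L a' b' d := by
  have h4 : (4 : L) ≠ 0 := by norm_num
  obtain ⟨X, Y, r, hX, hY, hr⟩ := h
  refine ⟨X / 4, Y / 8, r / 2, div_ne_zero hX h4, ?_, ?_⟩
  · rw [div_pow, hY, ha, hb]
    push_cast
    field_simp
    ring
  · rw [hr, div_pow]
    field_simp
    ring

section

variable {u v : ℤ} {m : ℕ}

/-- **rank zero and no `2`-power torsion in Sha** -/
theorem shaS {P R : ℤ} (h : Dt (P + R) (R - P) m) (hQ : Qc m) {W : WeierstrassCurve ℚ}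
    (hT : IsT W ((-(P ^ 2 + R ^ 2) * m : ℤ) : ℚ) ((P ^ 2 * R ^ 2 * m ^ 2 : ℤ) : ℚ)) :
    Module.finrank ℤ (MP W) = 0 ∧
      ∀ (k : ℕ) (x : Pool.Agent.TH841.NF.D.Sha W), 2 ^ k • x = 0 → x = 0 := by
  have hm0 : (m : ℚ) ≠ 0 := by exact_mod_cast h.sqf.ne_zero
  have r4 : -(m : ℚ) ≠ 0 := neg_ne_zero.2 hm0
  have g1 : (4 : ℚ) * ((-(P ^ 2 + R ^ 2) * m : ℤ) : ℚ) =
      ((-2 * ((P + R) ^ 2 + (R - P) ^ 2) * m : ℤ) : ℚ) := by push_cast; ring
  have g2 : (16 : ℚ) * ((P ^ 2 * R ^ 2 * m ^ 2 : ℤ) : ℚ) =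
      ((((P + R) ^ 2 - (R - P) ^ 2) ^ 2 * m ^ 2 : ℤ) : ℚ) := by push_cast; ring
  have g3 : (-2 : ℚ) * ((-(P ^ 2 + R ^ 2) * m : ℤ) : ℚ) =
      ((((P + R) ^ 2 + (R - P) ^ 2) * m : ℤ) : ℚ) := by push_cast; ring
  have g4 : ((-(P ^ 2 + R ^ 2) * m : ℤ) : ℚ) ^ 2 - 4 * ((P ^ 2 * R ^ 2 * m ^ 2 : ℤ) : ℚ) =
      (((P + R) ^ 2 * (R - P) ^ 2 * m ^ 2 : ℤ) : ℚ) := by push_cast; ring
  obtain ⟨hfin, hU2⟩ := card2 (a := cl 1 one_ne_zero) (b := cl (-(m : ℚ)) r4)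
  obtain ⟨hfin', hV2⟩ := card2 (a := cl 1 one_ne_zero) (b := cl (m : ℚ) hm0)
  obtain ⟨hf, hc⟩ := Zc_card hT (U := {cl 1 one_ne_zero, cl (m : ℚ) hm0})
    (V := {cl 1 one_ne_zero, cl (-(m : ℚ)) r4}) (Or.inl one_cl)
    (fun b hb => by
      obtain ⟨c, hc⟩ := sel2c h hQ b.ne_zero (fun l _ => by
        rw [← g1, ← g2]
        exact C1_four' (LL1_pad hb l)) (by
        rw [← g1, ← g2]
        exact C1_four' (LL1_real hb))
      rcases hc with hc | hc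
      · exact Or.inl (cl_of _ (by rw [one_mul]; exact hc))
      · exact Or.inr (cl_of _ hc))
    (fun b hb => by
      obtain ⟨c, hc⟩ := sel1c h hQ b.ne_zero fun l _ => by
        rw [← g3, ← g4]
        exact C2_iff.1 (LL2_pad hb l)
      rcases hc with hc | hc
      · exact Or.inl (cl_of _ (by rw [one_mul]; exact hc))
      · exact Or.inr (cl_of _ hc))
  exact end_of hT hf (hc.trans (by nlinarith))

/-- **the converse** -/
theorem convS {P R : ℤ} (h : Dt (P + R) (R - P) m)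
    (hf : Finite (WF ℚ (-(P ^ 2 + R ^ 2) * m) (P ^ 2 * R ^ 2 * m ^ 2)).toAffine.Point)
    (hs : ∀ x : Sha (WF ℚ (-(P ^ 2 + R ^ 2) * m) (P ^ 2 * R ^ 2 * m ^ 2)), x + x = 0 → x = 0) :
    Qc m := by
  refine Qc_of_tr h.sqf h.m4 fun x hx p0 hp0 q0 hq0 => ?_
  by_contra hcon
  obtain ⟨d, e, hde, hd4, he4, hd1, he1, hpd, hpe⟩ := div_of_tr h.sqf h.m4 hx hp0 hq0 hcon
  have hn := h.sqf
  have hn0 : m ≠ 0 := hn.ne_zero
  have hnz := h.m0
  have hmz : (-(m : ℤ)) ≠ 0 := neg_ne_zero.2 hnz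
  have hd0 : d ≠ 0 := by omega
  have hnat : d.natAbs * e.natAbs = m := by
    have := congrArg Int.natAbs hde
    rwa [Int.natAbs_mul, Int.natAbs_neg, Int.natAbs_natCast] at this
  have hsq : Squarefree (d.natAbs * e.natAbs) := hnat.symm ▸ hn
  have hds : Squarefree d.natAbs := hsq.of_mul_left
  have hes : Squarefree e.natAbs := hsq.of_mul_right
  have hP0 : P ≠ 0 := by
    rintro rfl
    apply h.ne
    ring
  have hR0 : R ≠ 0 := by
    rintro rfl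
    apply h.ne
    ring
  have f1 : -2 * ((P + R) ^ 2 + (R - P) ^ 2) * (m : ℤ) = 4 * (-(P ^ 2 + R ^ 2) * m) := by ring
  have f2 : ((P + R) ^ 2 - (R - P) ^ 2) ^ 2 * (m : ℤ) ^ 2 = 16 * (P ^ 2 * R ^ 2 * m ^ 2) := by ring
  have hb0 : (P ^ 2 * R ^ 2 * (m : ℤ) ^ 2) ≠ 0 :=
    mul_ne_zero (mul_ne_zero (pow_ne_zero 2 hP0) (pow_ne_zero 2 hR0)) (pow_ne_zero 2 hnz)
  have hu := h.u0
  have hv := h.v0
  have e2 : (-(P ^ 2 + R ^ 2) * (m : ℤ)) ^ 2 - 4 * (P ^ 2 * R ^ 2 * m ^ 2) =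
      ((P + R) * (R - P) * (-m)) ^ 2 := by ring
  have hab : (-(P ^ 2 + R ^ 2) * (m : ℤ)) ^ 2 - 4 * (P ^ 2 * R ^ 2 * m ^ 2) ≠ 0 := by
    rw [e2]
    exact pow_ne_zero 2 (mul_ne_zero (mul_ne_zero hu hv) hmz)
  have hrs : (P + R) ^ 2 ≠ (R - P) ^ 2 := h.ne
  obtain ⟨lq1, lq2⟩ := Pool.Agent.Y971.SG.Lq.t_LQ (-(P ^ 2 + R ^ 2) * m)
    (P ^ 2 * R ^ 2 * m ^ 2) d hb0 hab hd0
  have g1 : 2 * (-(P ^ 2 + R ^ 2) * (m : ℤ)) = ((P + R) ^ 2 + (R - P) ^ 2) * (-m) := by ring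
  have hloc : ∀ (p : ℕ) [Fact p.Prime],
      LocI ℚ_[p] (-(P ^ 2 + R ^ 2) * m) (P ^ 2 * R ^ 2 * m ^ 2) d := by
    intro p hp
    have hpp : p.Prime := hp.out
    have hpi : Prime (p : ℤ) := Nat.prime_iff_prime_int.1 hpp
    by_cases hpn : p ∣ m
    · have hp2 := h.p2 hpn
      by_cases hpb : (p : ℤ) ∣ d
      · obtain ⟨hpc, h1⟩ := hpd p hpp hpb
        obtain ⟨s, hs⟩ := Pool.Agent.Y971.SG.Lq.t_SQ p e hp2 hpc h1
        refine loc_tor (L := ℚ_[p]) hmz hu hd0 g1 e2 (w := d * s) ?_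
        rw [← hde]
        push_cast
        linear_combination (-(d : ℚ_[p]) ^ 2) * hs
      · have hpc : (p : ℤ) ∣ e := by
          have h3 : (p : ℤ) ∣ d * e := by
            rw [hde, dvd_neg]
            exact_mod_cast hpn
          exact (hpi.dvd_or_dvd h3).resolve_left hpb
        obtain ⟨-, h1⟩ := hpe p hpp hpc
        exact lq1 p (Or.inl (Pool.Agent.Y971.SG.Lq.t_SQ p d hp2 hpb h1))
    · have hpb : ¬ (p : ℤ) ∣ d := by
        intro h3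
        have h4 : (p : ℤ) ∣ d * e := h3.mul_right e
        rw [hde, dvd_neg] at h4
        exact hpn (by exact_mod_cast h4)
      by_cases hp2 : p = 2
      · subst hp2
        exact LocI_four f1 f2 (two2 h hd4)
      · refine loc_odd hp2 (M := -m) (r := P + R) (s := R - P) (by
          rw [dvd_neg]
          exact_mod_cast hpn) hu hv hrs ?_ hpb g1 e2 ?_ ?_
        · rintro ⟨h1, h2⟩
          exact hpi.not_isUnit (h.cop.isUnit_of_dvd' h1 h2)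
        · exact h.ng p hpp hp2
        · intro h3
          rw [neg_neg]
          exact h.nb p hpp hp2 h3
  have hmr : (0 : ℝ) < m := by exact_mod_cast Nat.pos_of_ne_zero hn0
  have hur : ((P : ℝ) + R) ≠ 0 := by exact_mod_cast hu
  have hreal : LocI ℝ (-(P ^ 2 + R ^ 2) * m) (P ^ 2 * R ^ 2 * m ^ 2) d := by
    rcases lt_or_gt_of_ne hd0 with h9 | h9
    · have hdr : (d : ℝ) < 0 := by exact_mod_cast h9
      have h4d : (0 : ℝ) ≤ -(((P : ℝ) + R) ^ 2 * m) / d := by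
        apply div_nonneg_of_nonpos
        · have : (0 : ℝ) < ((P : ℝ) + R) ^ 2 * m := by positivity
          linarith
        · exact hdr.le
      refine ⟨-(((P : ℝ) + R) ^ 2 * m), 0, Real.sqrt (-(((P : ℝ) + R) ^ 2 * m) / d), ?_, ?_, ?_⟩
      · have : (0 : ℝ) < ((P : ℝ) + R) ^ 2 * m := by positivity
        exact neg_ne_zero.2 this.ne'
      · push_cast
        ring
      · rw [Real.sq_sqrt h4d]
        have := hdr.ne
        field_simp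
    · exact lq2 h9
  have hmp : (0 : ℚ) < m := by exact_mod_cast Nat.pos_of_ne_zero hn0
  have hm1 : m ≠ 1 := by
    rintro rfl
    have := h.m4
    omega
  have n1 : ¬ IsSquare ((d : ℤ) : ℚ) := nsq_int hds hd1
  have nm : ¬ IsSquare (m : ℚ) := by
    have := nsq_int (d := (m : ℤ)) (by rwa [Int.natAbs_natCast]) (by rwa [Int.natAbs_natCast])
    rwa [Int.cast_natCast] at this
  have nm' : ¬ IsSquare (-(m : ℚ)) := by
    rintro ⟨s, hs⟩
    nlinarith [mul_self_nonneg s]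
  have n2 : ¬ IsSquare (((d : ℤ) : ℚ) * (((-(P ^ 2 + R ^ 2) * m : ℤ) : ℚ) ^ 2 -
      4 * ((P ^ 2 * R ^ 2 * m ^ 2 : ℤ) : ℚ))) := by
    rintro ⟨s, hs⟩
    apply n1
    have e : (((-(P ^ 2 + R ^ 2) * m : ℤ) : ℚ) ^ 2 -
        4 * ((P ^ 2 * R ^ 2 * m ^ 2 : ℤ) : ℚ)) = ((((P + R) * (R - P) * (-m) : ℤ)) : ℚ) ^ 2 := by
      exact_mod_cast congrArg (fun z : ℤ => (z : ℚ)) e2
    have hne : ((((P + R) * (R - P) * (-m) : ℤ)) : ℚ) ≠ 0 := by
      have := mul_ne_zero (mul_ne_zero hu hv) hmz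
      exact_mod_cast this
    rw [e] at hs
    refine ⟨s / ((((P + R) * (R - P) * (-m) : ℤ)) : ℚ), ?_⟩
    field_simp
    linear_combination hs
  have n3 : ¬ LocI ℚ (-(P ^ 2 + R ^ 2) * m) (P ^ 2 * R ^ 2 * m ^ 2) d := by
    intro hl
    have r1 : ((P + R : ℤ) : ℚ) ≠ 0 := by exact_mod_cast hu
    have r2 : ((R - P : ℤ) : ℚ) ≠ 0 := by exact_mod_cast hv
    have r3 : ((P + R : ℤ) : ℚ) ^ 2 ≠ ((R - P : ℤ) : ℚ) ^ 2 := by exact_mod_cast hrs
    have r4 : ((P ^ 2 * R ^ 2 * (m : ℤ) ^ 2 : ℤ) : ℚ) ≠ 0 := by exact_mod_cast hb0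
    rcases torL (M := -(m : ℚ)) (r := ((P + R : ℤ) : ℚ)) (s := ((R - P : ℤ) : ℚ)) nm'
      (by rwa [neg_neg]) r1 r2 r3 (by push_cast; ring) (by push_cast; ring) r4 hf hl with h5 | h5
    · exact n1 h5
    · obtain ⟨s, hs⟩ := h5
      apply nsq_int hes he1
      have hdq : (d : ℚ) ≠ 0 := by exact_mod_cast hd0
      have e' : -(m : ℚ) = d * e := by exact_mod_cast congrArg (fun z : ℤ => (z : ℚ)) hde.symm
      refine ⟨s / d, ?_⟩
      rw [e'] at hs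
      field_simp
      linear_combination hs
  obtain ⟨y, hy0, hy2⟩ := exists_two' hb0 hab hd0 hloc hreal n1 n2 n3
  exact hy0 (hs y hy2)

/-- **the curves `y² = x (x - P² m) (x - R² m)`**, `P + R` odd -/
theorem iffS {P R : ℤ} (h : Dt (P + R) (R - P) m) {W : WeierstrassCurve ℚ}
    (hW : W = ⟨0, ((-(P ^ 2 + R ^ 2) * m : ℤ) : ℚ), 0, ((P ^ 2 * R ^ 2 * m ^ 2 : ℤ) : ℚ), 0⟩) :
    (Finite W.toAffine.Point ∧ ∀ (k : ℕ) (x : Sha W), 2 ^ k • x = 0 → x = 0) ↔ Qc m := by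
  have hW2 : W = WF ℚ (-(P ^ 2 + R ^ 2) * m) (P ^ 2 * R ^ 2 * m ^ 2) := by
    rw [hW]
    unfold WF Pool.Agent.Y668.Wt
    simp
  constructor
  · rintro ⟨hf, hs⟩
    rw [hW2] at hf hs
    refine convS h hf fun x hx => hs 1 x ?_
    rw [pow_one, two_smul, hx]
  · intro hQ
    have hP0 : P ≠ 0 := by
      rintro rfl
      apply h.ne
      ring
    have hR0 : R ≠ 0 := by
      rintro rfl
      apply h.ne
      ring
    have hT : IsT W ((-(P ^ 2 + R ^ 2) * m : ℤ) : ℚ) ((P ^ 2 * R ^ 2 * m ^ 2 : ℤ) : ℚ) := by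
      rw [hW]
      refine ⟨rfl, rfl, rfl, rfl, rfl, ?_, ?_⟩
      · have : (P ^ 2 * R ^ 2 * (m : ℤ) ^ 2) ≠ 0 := mul_ne_zero (mul_ne_zero (pow_ne_zero 2 hP0)
          (pow_ne_zero 2 hR0)) (pow_ne_zero 2 h.m0)
        exact_mod_cast this
      · have e2 : (-(P ^ 2 + R ^ 2) * (m : ℤ)) ^ 2 - 4 * (P ^ 2 * R ^ 2 * m ^ 2) =
            ((P + R) * (R - P) * (-m)) ^ 2 := by ring
        have : (-(P ^ 2 + R ^ 2) * (m : ℤ)) ^ 2 - 4 * (P ^ 2 * R ^ 2 * m ^ 2) ≠ 0 := by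
          rw [e2]
          exact pow_ne_zero 2 (mul_ne_zero (mul_ne_zero h.u0 h.v0) (neg_ne_zero.2 h.m0))
        exact_mod_cast this
    obtain ⟨h1, h2⟩ := shaS h hQ hT
    exact ⟨fin_of_rank hT h1, h2⟩

end

/-! ### The curve `X_0(21)` -/

theorem ns3 {a : ℤ} (h : a % 3 = 2) : ¬ IsSquare (a : ZMod 3) := by
  obtain ⟨k, hk⟩ : ∃ k : ℤ, a = 3 * k + 2 := ⟨a / 3, by omega⟩
  have e : (a : ZMod 3) = 2 := by
    rw [hk]
    push_cast
    have h3 : (3 : ZMod 3) = 0 := by decide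
    rw [h3]
    ring
  rw [e]
  decide

theorem ns7 {a : ℤ} (h : a % 7 = 3 ∨ a % 7 = 5 ∨ a % 7 = 6) : ¬ IsSquare (a : ZMod 7) := by
  have h7 : (7 : ZMod 7) = 0 := by decide
  rcases h with h | h | h
  · obtain ⟨k, hk⟩ : ∃ k : ℤ, a = 7 * k + 3 := ⟨a / 7, by omega⟩
    rw [hk]; push_cast; rw [h7, zero_mul, zero_add]; decide
  · obtain ⟨k, hk⟩ : ∃ k : ℤ, a = 7 * k + 5 := ⟨a / 7, by omega⟩
    rw [hk]; push_cast; rw [h7, zero_mul, zero_add]; decide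
  · obtain ⟨k, hk⟩ : ∃ k : ℤ, a = 7 * k + 6 := ⟨a / 7, by omega⟩
    rw [hk]; push_cast; rw [h7, zero_mul, zero_add]; decide

theorem dt21 {n : ℕ} (hn : Squarefree n) (h84 : n % 84 = 19 ∨ n % 84 = 31 ∨ n % 84 = 55) :
    Dt (3 + 4) (4 - 3) n := by
  refine ⟨hn, by omega, ?_, by norm_num, by norm_num, by norm_num, ?_, ?_, Or.inl ⟨by norm_num,
    by norm_num, Or.inr (by norm_num)⟩⟩
  · exact ⟨0, 1, by norm_num⟩
  · intro l hl hl2 hd
    have h1 : l ∣ 7 := by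
      have : ((3 : ℤ) + 4) * (4 - 3) = 7 := by norm_num
      rw [this] at hd
      exact_mod_cast hd
    rw [(Nat.prime_dvd_prime_iff_eq hl (by norm_num)).1 h1]
    exact ns7 (by omega)
  · intro l hl hl2 hd
    have h1 : l ∣ 2 ^ 4 * 3 := by
      have : ((3 : ℤ) + 4) ^ 2 - (4 - 3) ^ 2 = 2 ^ 4 * 3 := by norm_num
      rw [this] at hd
      exact_mod_cast hd
    rcases hl.dvd_mul.1 h1 with h2 | h2
    · exact absurd ((Nat.prime_dvd_prime_iff_eq hl Nat.prime_two).1 (hl.dvd_of_dvd_pow h2)) hl2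
    · rw [(Nat.prime_dvd_prime_iff_eq hl Nat.prime_three).1 h2]
      exact ns3 (by omega)

/-- **complete descent on the twists by `-n` of `X_0(21)`**, in the model
`y² = x (x - 9 n) (x - 16 n)`, `n ≡ 19, 31, 55 mod 84` squarefree -/
theorem iff21 {n : ℕ} (hn : Squarefree n) (h84 : n % 84 = 19 ∨ n % 84 = 31 ∨ n % 84 = 55)
    {W : WeierstrassCurve ℚ} (hW : W = ⟨0, ((-25 * n : ℤ) : ℚ), 0, ((144 * n ^ 2 : ℤ) : ℚ), 0⟩) :
    (Finite W.toAffine.Point ∧ ∀ (k : ℕ) (x : Sha W), 2 ^ k • x = 0 → x = 0) ↔ Qc n := by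
  refine iffS (P := 3) (R := 4) (dt21 hn h84) ?_
  rw [hW]
  norm_num

end Pool.Agent.Run7.h289.D18
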