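import Mathlib
import Pool.Agent.Run7.h289.D18.Od

/-!
# The conditions on `m` are conditions on residues
-/

set_option autoImplicit false

namespace Pool.Agent.Run7.h289.D18

/-- the conditions on the pair `(u, v)` alone -/
structure Gp (u v : ℤ) : Prop where
  cop : IsCoprime u v
  u0 : u ≠ 0
  v0 : v ≠ 0
  ne : u ^ 2 ≠ v ^ 2
  par : (u % 2 = 1 ∧ v % 2 = 1) ∨ (u % 4 = 2 ∧ v % 2 = 1) ∨ (u % 2 = 1 ∧ v % 4 = 2)

/-- the conditions on the residue class of `m` -/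
structure Pd (u v : ℤ) (m : ℕ) : Prop where
  m4 : m % 4 = 3
  nb : ∀ l : ℕ, l.Prime → l ≠ 2 → (l : ℤ) ∣ u * v → ¬ IsSquare ((m : ℤ) : ZMod l)
  ng : ∀ l : ℕ, l.Prime → l ≠ 2 → (l : ℤ) ∣ u ^ 2 - v ^ 2 → ¬ IsSquare ((-m : ℤ) : ZMod l)
  two : u % 2 = 1 → v % 2 = 1 → (m % 8 = 3 ∨ (u ^ 2 - v ^ 2) % 32 = 16)

theorem dt_iff {u v : ℤ} {m : ℕ} : Dt u v m ↔ Gp u v ∧ Squarefree m ∧ Pd u v m := by
  constructor
  · intro h
    refine ⟨⟨h.cop, h.u0, h.v0, h.ne, ?_⟩, h.sqf, ⟨h.m4, h.nb, h.ng, ?_⟩⟩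
    · rcases h.two with h2 | h2 | h2
      · exact Or.inl ⟨h2.1, h2.2.1⟩
      · exact Or.inr (Or.inl h2)
      · exact Or.inr (Or.inr h2)
    · intro hu hv
      rcases h.two with h2 | h2 | h2
      · exact h2.2.2
      · omega
      · omega
  · rintro ⟨hg, hs, hp⟩
    refine ⟨hs, hp.m4, hg.cop, hg.u0, hg.v0, hg.ne, hp.nb, hp.ng, ?_⟩
    rcases hg.par with h2 | h2 | h2
    · exact Or.inl ⟨h2.1, h2.2, hp.two h2.1 h2.2⟩
    · exact Or.inr (Or.inl h2)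
    · exact Or.inr (Or.inr h2)

theorem cast_mod {l M n : ℕ} (h : l ∣ M) : (((n % M : ℕ) : ℤ) : ZMod l) = ((n : ℤ) : ZMod l) := by
  rw [Int.cast_natCast, Int.cast_natCast, ZMod.natCast_eq_natCast_iff]
  exact (Nat.mod_modEq n M).of_dvd h

theorem dvd_of_dvd {l M : ℕ} {z w : ℤ} (hl : (l : ℤ) ∣ z) (hz : z ∣ w) (hM : w ∣ (M : ℤ)) : l ∣ M :=
  Int.natCast_dvd_natCast.1 ((hl.trans hz).trans hM)

theorem pd_mod {u v : ℤ} {M : ℕ} (h8 : 8 ∣ M) (hM : u * v * (u ^ 2 - v ^ 2) ∣ (M : ℤ)) (n : ℕ) :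
    Pd u v n ↔ Pd u v (n % M) := by
  have e8 : n % M % 8 = n % 8 := Nat.mod_mod_of_dvd n h8
  have e4 : n % M % 4 = n % 4 := Nat.mod_mod_of_dvd n (Dvd.dvd.trans (by norm_num) h8)
  have k1 : ∀ l : ℕ, (l : ℤ) ∣ u * v → (((n % M : ℕ) : ℤ) : ZMod l) = ((n : ℤ) : ZMod l) :=
    fun l hl => cast_mod (dvd_of_dvd hl ⟨_, rfl⟩ hM)
  have k2 : ∀ l : ℕ, (l : ℤ) ∣ u ^ 2 - v ^ 2 →
      ((-((n % M : ℕ) : ℤ) : ℤ) : ZMod l) = ((-(n : ℤ) : ℤ) : ZMod l) := fun l hl => by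
    rw [Int.cast_neg, Int.cast_neg, cast_mod (dvd_of_dvd hl ⟨u * v, mul_comm _ _⟩ hM)]
  constructor
  · intro h
    refine ⟨by rw [e4]; exact h.m4, fun l hl h2 hd => ?_, fun l hl h2 hd => ?_, fun hu hv => ?_⟩
    · rw [k1 l hd]
      exact h.nb l hl h2 hd
    · rw [k2 l hd]
      exact h.ng l hl h2 hd
    · rw [e8]
      exact h.two hu hv
  · intro h
    refine ⟨by rw [← e4]; exact h.m4, fun l hl h2 hd => ?_, fun l hl h2 hd => ?_, fun hu hv => ?_⟩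
    · rw [← k1 l hd]
      exact h.nb l hl h2 hd
    · rw [← k2 l hd]
      exact h.ng l hl h2 hd
    · rw [← e8]
      exact h.two hu hv

/-- the modulus of a finite set of pairs -/
def md (F : Finset (ℤ × ℤ)) : ℕ := 8 * ∏ x ∈ F, (x.1 * x.2 * (x.1 ^ 2 - x.2 ^ 2)).natAbs

theorem md8 (F : Finset (ℤ × ℤ)) : 8 ∣ md F := ⟨_, rfl⟩

theorem md_dvd {F : Finset (ℤ × ℤ)} {x : ℤ × ℤ} (hx : x ∈ F) :
    x.1 * x.2 * (x.1 ^ 2 - x.2 ^ 2) ∣ (md F : ℤ) := by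
  rw [md]
  have h : (x.1 * x.2 * (x.1 ^ 2 - x.2 ^ 2)).natAbs ∣ md F :=
    (Finset.dvd_prod_of_mem (fun x : ℤ × ℤ => (x.1 * x.2 * (x.1 ^ 2 - x.2 ^ 2)).natAbs) hx).trans
      ⟨8, mul_comm _ _⟩
  rw [md] at h
  exact Int.natAbs_dvd.1 (Int.natCast_dvd_natCast.2 h)

theorem md_pos {F : Finset (ℤ × ℤ)} (hF : ∀ x ∈ F, Gp x.1 x.2) : 0 < md F := by
  rw [md]
  refine Nat.mul_pos (by norm_num) (Finset.prod_pos fun x hx => ?_)
  have h := hF x hx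
  rw [Nat.pos_iff_ne_zero, Ne, Int.natAbs_eq_zero]
  exact mul_ne_zero (mul_ne_zero h.u0 h.v0) (sub_ne_zero.2 h.ne)

theorem Pd.cop2 {u v : ℤ} {m : ℕ} (h : Pd u v m) {l : ℕ} (hl : l.Prime)
    (hd : (l : ℤ) ∣ u * v * (u ^ 2 - v ^ 2)) : ¬ l ∣ m := by
  intro hm
  by_cases h2 : l = 2
  · subst h2
    have := h.m4
    omega
  · have h0 : ((m : ℤ) : ZMod l) = 0 := by
      rw [Int.cast_natCast, ZMod.natCast_eq_zero_iff]
      exact hm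
    rcases (Nat.prime_iff_prime_int.1 hl).dvd_mul.1 hd with h1 | h1
    · exact h.nb l hl h2 h1 (by rw [h0]; exact ⟨0, by simp⟩)
    · refine h.ng l hl h2 h1 ?_
      rw [Int.cast_neg, h0, neg_zero]
      exact ⟨0, by simp⟩

theorem cop_md {F : Finset (ℤ × ℤ)} {m : ℕ} (h4 : m % 4 = 3) (hF : ∀ x ∈ F, Pd x.1 x.2 m) :
    m.Coprime (md F) := by
  refine Nat.Coprime.symm (Nat.Coprime.mul_left ?_ ?_)
  · have : Nat.Coprime (2 ^ 3) m := Nat.Coprime.pow_left 3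
      (Nat.coprime_two_left.2 (Nat.odd_iff.2 (by omega)))
    exact this
  · refine Nat.Coprime.prod_left fun x hx => ?_
    refine Nat.Coprime.symm (Nat.coprime_of_dvd' fun l hl hm hd => ?_)
    exact absurd hm ((hF x hx).cop2 hl (Int.natCast_dvd.2 hd))

end Pool.Agent.Run7.h289.D18
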