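import Mathlib
import Pool.Agent.Run7.h289.D18.Al

/-!
# The number of solvable factorizations and of the solutions of the transposed system
-/

set_option autoImplicit false

attribute [-instance] DivisionRing.toRatAlgebra

namespace Pool.Agent.Run7.h289.D18

open Finset
open Run7.h843.Sha Run7.h843.Desc
open Run7.h424.DC
open Pool.Agent.Y703.CQ (nr)

/-- the two factors are squares modulo the primes of the other one -/
def Sq2 (d e : ℤ) : Prop :=
  (∀ p : ℕ, p.Prime → (p : ℤ) ∣ d → IsSquare (e : ZMod p)) ∧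
    ∀ p : ℕ, p.Prime → (p : ℤ) ∣ e → IsSquare (d : ZMod p)

/-- the classes of the first kind: `d e = -m`, `d = 1` modulo `4` -/
def T1 (m : ℕ) : Set ℤ := {d | d % 4 = 1 ∧ ∃ e : ℤ, d * e = -m ∧ Sq2 d e}

/-- the classes of the second kind: `d e = m`, `d` positive -/
def T2 (m : ℕ) : Set ℤ := {d | 0 < d ∧ ∃ e : ℤ, d * e = m ∧ Sq2 d e}

section

variable {m : ℕ}

theorem cop_of (hm : Squarefree m) {d e : ℤ} (h : (d * e).natAbs = m) {p : ℕ} (hp : p.Prime)
    (hd : (p : ℤ) ∣ d) : ¬ (p : ℤ) ∣ e := by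
  intro he
  have h1 : (p : ℤ) * p ∣ d * e := mul_dvd_mul hd he
  have h2 : p * p ∣ m := by
    rw [← h]
    exact Int.natCast_dvd.1 (by exact_mod_cast h1)
  exact hp.not_isUnit (hm p h2)

/-- the indicator of the primes of `d` -/
noncomputable def ix (d : ℤ) (q : ℕ) : ZMod 2 := by
  classical
  exact if (q : ℤ) ∣ d then 1 else 0

theorem ix_one {d : ℤ} {q : ℕ} : ix d q = 1 ↔ (q : ℤ) ∣ d := by
  unfold ix
  split_ifs with h
  · exact ⟨fun _ => h, fun _ => rfl⟩
  · exact ⟨fun h1 => absurd h1 (by decide), fun h1 => absurd h1 h⟩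

theorem ix_zero {d : ℤ} {q : ℕ} : ix d q = 0 ↔ ¬ (q : ℤ) ∣ d := by
  rw [← ix_one]
  rcases zmod2_cases (ix d q) with h | h <;> rw [h] <;> decide

theorem split_pf (hm : Squarefree m) {d e : ℤ} (h : (d * e).natAbs = m) :
    m.primeFactors = d.natAbs.primeFactors ∪ e.natAbs.primeFactors ∧
      Disjoint d.natAbs.primeFactors e.natAbs.primeFactors ∧
      Squarefree d.natAbs ∧ Squarefree e.natAbs := by
  rw [Int.natAbs_mul] at h
  have hsq : Squarefree (d.natAbs * e.natAbs) := h.symm ▸ hm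
  refine ⟨?_, (Nat.squarefree_mul_iff.1 hsq).1.disjoint_primeFactors, hsq.of_mul_left,
    hsq.of_mul_right⟩
  rw [← h]
  exact Nat.primeFactors_mul hsq.of_mul_left.ne_zero hsq.of_mul_right.ne_zero

/-- the sums over the two parts -/
theorem sum_ix (hm : Squarefree m) {d e : ℤ} (h : (d * e).natAbs = m) (f : ℕ → ZMod 2) (p : ℕ) :
    ∑ q ∈ m.primeFactors, f q * (ix d q + ix d p) =
      (∑ q ∈ d.natAbs.primeFactors, f q) * (1 + ix d p) +
        (∑ q ∈ e.natAbs.primeFactors, f q) * ix d p := by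
  obtain ⟨hpf, hdisj, hds, hes⟩ := split_pf hm h
  rw [hpf, sum_union hdisj, sum_mul, sum_mul]
  congr 1
  · refine sum_congr rfl fun q hq => ?_
    rw [ix_one.2 (Int.natCast_dvd.2 (Nat.dvd_of_mem_primeFactors hq))]
  · refine sum_congr rfl fun q hq => ?_
    rw [ix_zero.2, zero_add]
    intro h3
    exact Finset.disjoint_left.1 hdisj (Nat.mem_primeFactors.2
      ⟨Nat.prime_of_mem_primeFactors hq, Int.natCast_dvd.1 h3, hds.ne_zero⟩) hq

/-- the first kind gives solutions of the transposed system -/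
theorem sol_of_T1 (hm : Squarefree m) (hm4 : m % 4 = 3) {d : ℤ} (hd : d ∈ T1 m) :
    ∀ p ∈ m.primeFactors, ∑ q ∈ m.primeFactors, nr q p * (ix d q + ix d p) = 0 := by
  intro p hp
  obtain ⟨hd4, e, hde, hs1, hs2⟩ := hd
  obtain ⟨hpp, hp2, -⟩ := odd_pf (n := m) (by omega) hp
  have : Fact p.Prime := ⟨hpp⟩
  have hpi : Prime (p : ℤ) := Nat.prime_iff_prime_int.1 hpp
  have hN : (d * e).natAbs = m := by rw [hde, Int.natAbs_neg, Int.natAbs_natCast]
  obtain ⟨hpf, hdisj, hds, hes⟩ := split_pf hm hN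
  have he4 : e % 4 = 1 := by
    have h1 : (-(m : ℤ)) % 4 = 1 := by omega
    rw [← hde, Int.mul_emod, hd4] at h1
    omega
  rw [sum_ix hm hN (fun q => nr q p)]
  by_cases hpd : (p : ℤ) ∣ d
  · have hpe := cop_of hm hN hpp hpd
    have h11 : (1 : ZMod 2) + 1 = 0 := by decide
    rw [ix_one.2 hpd, h11, mul_zero, zero_add, mul_one]
    exact cls hes he4 hp2 hpe (hs1 p hpp hpd)
  · have hpe : (p : ℤ) ∣ e := by
      have h3 : (p : ℤ) ∣ d * e := by
        rw [hde, dvd_neg]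
        exact_mod_cast Nat.dvd_of_mem_primeFactors hp
      exact (hpi.dvd_or_dvd h3).resolve_left hpd
    rw [ix_zero.2 hpd, add_zero, mul_one, mul_zero, add_zero]
    exact cls hds hd4 hp2 hpd (hs2 p hpp hpe)

/-- the second kind gives solutions of the system -/
theorem sol_of_T2 (hm : Squarefree m) (hm2 : m % 2 = 1) {d : ℤ} (hd : d ∈ T2 m) :
    ∀ p ∈ m.primeFactors, ∑ q ∈ m.primeFactors, nr p q * (ix d q + ix d p) = 0 := by
  intro p hp
  obtain ⟨hd0, e, hde, hs1, hs2⟩ := hd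
  obtain ⟨hpp, hp2, -⟩ := odd_pf (n := m) hm2 hp
  have : Fact p.Prime := ⟨hpp⟩
  have hpi : Prime (p : ℤ) := Nat.prime_iff_prime_int.1 hpp
  have hN : (d * e).natAbs = m := by rw [hde, Int.natAbs_natCast]
  obtain ⟨hpf, hdisj, hds, hes⟩ := split_pf hm hN
  have he0 : 0 < e := by
    have h1 : (0 : ℤ) < d * e := by
      rw [hde]
      exact_mod_cast Nat.pos_of_ne_zero hm.ne_zero
    exact (mul_pos_iff_of_pos_left hd0).1 h1
  have hdn : ((d.natAbs : ℕ) : ℤ) = d := by omega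
  have hen : ((e.natAbs : ℕ) : ℤ) = e := by omega
  rw [sum_ix hm hN (fun q => nr p q)]
  by_cases hpd : (p : ℤ) ∣ d
  · have hpe := cop_of hm hN hpp hpd
    have h11 : (1 : ZMod 2) + 1 = 0 := by decide
    rw [ix_one.2 hpd, h11, mul_zero, zero_add, mul_one]
    have h1 := ch_zero_iff.2 (hs1 p hpp hpd)
    rw [← hen, ch_sqf hp2 hes (fun h => hpe (Int.natCast_dvd.2 h))] at h1
    exact h1
  · have hpe : (p : ℤ) ∣ e := by
      have h3 : (p : ℤ) ∣ d * e := by
        rw [hde]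
        exact_mod_cast Nat.dvd_of_mem_primeFactors hp
      exact (hpi.dvd_or_dvd h3).resolve_left hpd
    rw [ix_zero.2 hpd, add_zero, mul_one, mul_zero, add_zero]
    have h1 := ch_zero_iff.2 (hs2 p hpp hpe)
    rw [← hdn, ch_sqf hp2 hds (fun h => hpd (Int.natCast_dvd.2 h))] at h1
    exact h1

/-- a vector as a product of primes -/
theorem exists_bc (hm : Squarefree m) (x : ℕ → ZMod 2) : ∃ b c : ℕ, b * c = m ∧
    (∀ p ∈ m.primeFactors, (p ∣ b ↔ x p = 1)) ∧ (∀ p ∈ m.primeFactors, (p ∣ c ↔ x p = 0)) := by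
  classical
  set T := m.primeFactors.filter fun p => x p ≠ 0 with hT
  set T' := m.primeFactors.filter fun p => ¬ x p ≠ 0 with hT'
  have hTp : ∀ p ∈ T, p.Prime := fun p hp => Nat.prime_of_mem_primeFactors (mem_filter.1 hp).1
  have hTp' : ∀ p ∈ T', p.Prime := fun p hp => Nat.prime_of_mem_primeFactors (mem_filter.1 hp).1
  have hbp := Nat.primeFactors_prod hTp
  have hcp := Nat.primeFactors_prod hTp'
  refine ⟨∏ p ∈ T, p, ∏ p ∈ T', p, ?_, fun p hp => ?_, fun p hp => ?_⟩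
  · rw [hT, hT', prod_filter_mul_prod_filter_not]
    exact Nat.prod_primeFactors_of_squarefree hm
  · constructor
    · intro h
      have h1 : p ∈ T := by
        rw [← hbp]
        exact Nat.mem_primeFactors.2 ⟨Nat.prime_of_mem_primeFactors hp, h,
          prod_ne_zero_iff.2 fun q hq => (hTp q hq).ne_zero⟩
      exact (zmod2_cases (x p)).resolve_left (mem_filter.1 h1).2
    · intro h
      refine dvd_prod_of_mem _ (mem_filter.2 ⟨hp, ?_⟩)
      rw [h]
      decide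
  · constructor
    · intro h
      have h1 : p ∈ T' := by
        rw [← hcp]
        exact Nat.mem_primeFactors.2 ⟨Nat.prime_of_mem_primeFactors hp, h,
          prod_ne_zero_iff.2 fun q hq => (hTp' q hq).ne_zero⟩
      exact not_not.1 (mem_filter.1 h1).2
    · intro h
      exact dvd_prod_of_mem _ (mem_filter.2 ⟨hp, not_not.2 h⟩)

theorem ix_eq {x : ℕ → ZMod 2} {d : ℤ} {p : ℕ} (h : (p : ℤ) ∣ d ↔ x p = 1) : ix d p = x p := by
  rcases zmod2_cases (x p) with h1 | h1
  · rw [h1, ix_zero, h, h1]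
    decide
  · rw [h1, ix_one, h, h1]

/-- every solution of the system comes from the second kind -/
theorem T2_of_sol (hm : Squarefree m) (hm2 : m % 2 = 1) {x : ℕ → ZMod 2}
    (hx : ∀ p ∈ m.primeFactors, ∑ q ∈ m.primeFactors, nr p q * (x q + x p) = 0) :
    ∃ d ∈ T2 m, ∀ p ∈ m.primeFactors, ((p : ℤ) ∣ d ↔ x p = 1) := by
  obtain ⟨b, c, hbc, hb, hc⟩ := exists_bc hm x
  have hb' : ∀ p ∈ m.primeFactors, ((p : ℤ) ∣ (b : ℤ) ↔ x p = 1) := fun p hp => by
    rw [← hb p hp, Int.natCast_dvd_natCast]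
  have hN : ((b : ℤ) * c).natAbs = m := by
    have : (b : ℤ) * c = ((b * c : ℕ) : ℤ) := by push_cast; rfl
    rw [this, Int.natAbs_natCast, hbc]
  obtain ⟨hpf, hdisj, hds, hes⟩ := split_pf hm hN
  rw [Int.natAbs_natCast] at hds hes
  have hb0 : b ≠ 0 := hds.ne_zero
  have hc0 : c ≠ 0 := hes.ne_zero
  have hx' : ∀ p ∈ m.primeFactors, ∑ q ∈ m.primeFactors, nr p q * (ix b q + ix b p) = 0 := by
    intro p hp
    rw [← hx p hp]
    refine sum_congr rfl fun q hq => ?_
    rw [ix_eq (hb' q hq), ix_eq (hb' p hp)]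
  refine ⟨b, ⟨by exact_mod_cast Nat.pos_of_ne_zero hb0, c, by exact_mod_cast hbc, ?_, ?_⟩, hb'⟩
  · intro p hpp hpd
    have hp : p ∈ m.primeFactors := Nat.mem_primeFactors.2 ⟨hpp, by
      rw [← hbc]
      exact (Int.natCast_dvd_natCast.1 hpd).mul_right c, hm.ne_zero⟩
    obtain ⟨-, hp2, -⟩ := odd_pf (n := m) hm2 hp
    have : Fact p.Prime := ⟨hpp⟩
    have h1 := hx' p hp
    rw [sum_ix hm hN (fun q => nr p q)] at h1
    have h11 : (1 : ZMod 2) + 1 = 0 := by decide
    rw [ix_one.2 hpd, h11, mul_zero, zero_add, mul_one, Int.natAbs_natCast] at h1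
    have hpe := cop_of hm hN hpp hpd
    rw [← ch_zero_iff, ch_sqf hp2 hes (by exact_mod_cast hpe)]
    exact h1
  · intro p hpp hpd
    have hp : p ∈ m.primeFactors := Nat.mem_primeFactors.2 ⟨hpp, by
      rw [← hbc]
      exact (Int.natCast_dvd_natCast.1 hpd).mul_left b, hm.ne_zero⟩
    obtain ⟨-, hp2, -⟩ := odd_pf (n := m) hm2 hp
    have : Fact p.Prime := ⟨hpp⟩
    have h1 := hx' p hp
    rw [sum_ix hm hN (fun q => nr p q)] at h1
    have hpe : ¬ (p : ℤ) ∣ (b : ℤ) := fun h => cop_of hm hN hpp h hpd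
    rw [ix_zero.2 hpe, add_zero, mul_one, mul_zero, add_zero, Int.natAbs_natCast] at h1
    rw [← ch_zero_iff, ch_sqf hp2 hds (by exact_mod_cast hpe)]
    exact h1

theorem cls_conv {Y : ℤ} (hY : Squarefree Y.natAbs) (h4 : Y % 4 = 1) {p : ℕ} [hp : Fact p.Prime]
    (h2 : p ≠ 2) (hpY : ¬ (p : ℤ) ∣ Y) (hs : ∑ q ∈ Y.natAbs.primeFactors, nr q p = 0) :
    IsSquare (Y : ZMod p) := by
  have hodd : ∀ q ∈ Y.natAbs.primeFactors, q.Prime ∧ q ≠ 2 ∧ q % 2 = 1 :=
    fun q hq => odd_pf (by omega) hq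
  have h1 := sum_rec (T := Y.natAbs.primeFactors) hp.out h2
    (fun q hq => ⟨(hodd q hq).1, (hodd q hq).2.1⟩) (by
      intro h
      exact hpY (Int.natCast_dvd.2 (Nat.dvd_of_mem_primeFactors h)))
  rw [← ch_zero_iff, Run7.h843.R.ch_unit h2 hpY, ← lam_natAbs, Run7.h843.R.lam_m hY]
  have h5 : Run7.h843.R.sg Y = ∑ q ∈ Y.natAbs.primeFactors, Run7.h843.R.e3 q := by
    have h6 := mod4 (T := Y.natAbs.primeFactors) fun q hq => (hodd q hq).2.2
    rw [Nat.prod_primeFactors_of_squarefree hY] at h6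
    rcases lt_or_ge Y 0 with h | h
    · rw [Run7.h843.R.sg_neg h]
      rcases h6 with h6 | h6
      · omega
      · exact h6.2.symm
    · rw [Run7.h843.R.sg_pos (by omega)]
      rcases h6 with h6 | h6
      · exact h6.2.symm
      · omega
  rw [h5, ← h1]
  exact hs

/-- every solution of the transposed system comes from the first kind -/
theorem T1_of_sol (hm : Squarefree m) (hm4 : m % 4 = 3) {x : ℕ → ZMod 2}
    (hx : ∀ p ∈ m.primeFactors, ∑ q ∈ m.primeFactors, nr q p * (x q + x p) = 0) :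
    ∃ d ∈ T1 m, ∀ p ∈ m.primeFactors, ((p : ℤ) ∣ d ↔ x p = 1) := by
  obtain ⟨b, c, hbc, hb, hc⟩ := exists_bc hm x
  have hbc' : (b : ℤ) * c = m := by exact_mod_cast hbc
  obtain ⟨d, e, hde, hd4, he4, hdb⟩ : ∃ d e : ℤ, d * e = -m ∧ d % 4 = 1 ∧ e % 4 = 1 ∧
      (d = b ∨ d = -b) := by
    have h1 : (b % 4) * (c % 4) % 4 = 3 := by rw [← Nat.mul_mod, hbc]; exact hm4
    have h2 : (b % 4 = 1 ∧ c % 4 = 3) ∨ (b % 4 = 3 ∧ c % 4 = 1) := by
      have hb4 : b % 4 = 0 ∨ b % 4 = 1 ∨ b % 4 = 2 ∨ b % 4 = 3 := by omega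
      have hc4 : c % 4 = 0 ∨ c % 4 = 1 ∨ c % 4 = 2 ∨ c % 4 = 3 := by omega
      rcases hb4 with h3 | h3 | h3 | h3 <;> rcases hc4 with h4 | h4 | h4 | h4 <;>
        rw [h3, h4] at h1 <;> omega
    rcases h2 with ⟨h3, h4⟩ | ⟨h3, h4⟩
    · exact ⟨b, -c, by rw [← hbc']; ring, by omega, by omega, Or.inl rfl⟩
    · exact ⟨-b, c, by rw [← hbc']; ring, by omega, by omega, Or.inr rfl⟩
  have hd' : ∀ p ∈ m.primeFactors, ((p : ℤ) ∣ d ↔ x p = 1) := fun p hp => by
    rw [← hb p hp, ← Int.natCast_dvd_natCast]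
    rcases hdb with h | h <;> rw [h]
    rw [dvd_neg]
  have hN : (d * e).natAbs = m := by rw [hde, Int.natAbs_neg, Int.natAbs_natCast]
  obtain ⟨hpf, hdisj, hds, hes⟩ := split_pf hm hN
  have hx' : ∀ p ∈ m.primeFactors, ∑ q ∈ m.primeFactors, nr q p * (ix d q + ix d p) = 0 := by
    intro p hp
    rw [← hx p hp]
    refine sum_congr rfl fun q hq => ?_
    rw [ix_eq (hd' q hq), ix_eq (hd' p hp)]
  have hmem : ∀ p : ℕ, p.Prime → (p : ℤ) ∣ d * e → p ∈ m.primeFactors := by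
    intro p hpp h
    rw [hde, dvd_neg] at h
    exact Nat.mem_primeFactors.2 ⟨hpp, by exact_mod_cast h, hm.ne_zero⟩
  refine ⟨d, ⟨hd4, e, hde, ?_, ?_⟩, hd'⟩
  · intro p hpp hpd
    have hp := hmem p hpp (hpd.mul_right e)
    obtain ⟨-, hp2, -⟩ := odd_pf (n := m) (by omega) hp
    have : Fact p.Prime := ⟨hpp⟩
    have h1 := hx' p hp
    rw [sum_ix hm hN (fun q => nr q p)] at h1
    have h11 : (1 : ZMod 2) + 1 = 0 := by decide
    rw [ix_one.2 hpd, h11, mul_zero, zero_add, mul_one] at h1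
    exact cls_conv hes he4 hp2 (cop_of hm hN hpp hpd) h1
  · intro p hpp hpe
    have hp := hmem p hpp (hpe.mul_left d)
    obtain ⟨-, hp2, -⟩ := odd_pf (n := m) (by omega) hp
    have : Fact p.Prime := ⟨hpp⟩
    have h1 := hx' p hp
    rw [sum_ix hm hN (fun q => nr q p)] at h1
    have hpd : ¬ (p : ℤ) ∣ d := fun h => cop_of hm hN hpp h hpe
    rw [ix_zero.2 hpd, add_zero, mul_one, mul_zero, add_zero] at h1
    exact cls_conv hds hd4 hp2 hpd h1

theorem natAbs_eq_of (hm : Squarefree m) {d e d' e' : ℤ} (h : (d * e).natAbs = m)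
    (h' : (d' * e').natAbs = m) (hp : ∀ p ∈ m.primeFactors, ((p : ℤ) ∣ d ↔ (p : ℤ) ∣ d')) :
    d.natAbs = d'.natAbs := by
  obtain ⟨hpf, -, hds, -⟩ := split_pf hm h
  obtain ⟨hpf', -, hds', -⟩ := split_pf hm h'
  rw [← Nat.prod_primeFactors_of_squarefree hds, ← Nat.prod_primeFactors_of_squarefree hds']
  congr 1
  ext p
  rw [Nat.mem_primeFactors, Nat.mem_primeFactors]
  constructor
  · rintro ⟨hpp, h1, -⟩
    have hpm : p ∈ m.primeFactors := by
      rw [hpf]
      exact mem_union_left _ (Nat.mem_primeFactors.2 ⟨hpp, h1, hds.ne_zero⟩)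
    exact ⟨hpp, Int.natCast_dvd.1 ((hp p hpm).1 (Int.natCast_dvd.2 h1)), hds'.ne_zero⟩
  · rintro ⟨hpp, h1, -⟩
    have hpm : p ∈ m.primeFactors := by
      rw [hpf']
      exact mem_union_left _ (Nat.mem_primeFactors.2 ⟨hpp, h1, hds'.ne_zero⟩)
    exact ⟨hpp, Int.natCast_dvd.1 ((hp p hpm).2 (Int.natCast_dvd.2 h1)), hds.ne_zero⟩

theorem T1_inj (hm : Squarefree m) {d d' : ℤ} (hd : d ∈ T1 m) (hd' : d' ∈ T1 m)
    (hp : ∀ p ∈ m.primeFactors, ((p : ℤ) ∣ d ↔ (p : ℤ) ∣ d')) : d = d' := by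
  obtain ⟨h4, e, hde, -⟩ := hd
  obtain ⟨h4', e', hde', -⟩ := hd'
  have := natAbs_eq_of hm (d := d) (e := e) (d' := d') (e' := e')
    (by rw [hde, Int.natAbs_neg, Int.natAbs_natCast])
    (by rw [hde', Int.natAbs_neg, Int.natAbs_natCast]) hp
  omega

theorem T2_inj (hm : Squarefree m) {d d' : ℤ} (hd : d ∈ T2 m) (hd' : d' ∈ T2 m)
    (hp : ∀ p ∈ m.primeFactors, ((p : ℤ) ∣ d ↔ (p : ℤ) ∣ d')) : d = d' := by
  obtain ⟨h4, e, hde, -⟩ := hd
  obtain ⟨h4', e', hde', -⟩ := hd'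
  have := natAbs_eq_of hm (d := d) (e := e) (d' := d') (e' := e')
    (by rw [hde, Int.natAbs_natCast]) (by rw [hde', Int.natAbs_natCast]) hp
  omega

/-- the extension of a vector by zero -/
noncomputable def ez (x : m.primeFactors → ZMod 2) (q : ℕ) : ZMod 2 :=
  if h : q ∈ m.primeFactors then x ⟨q, h⟩ else 0

theorem ez_mem (x : m.primeFactors → ZMod 2) {q : ℕ} (h : q ∈ m.primeFactors) :
    ez x q = x ⟨q, h⟩ := dif_pos h

/-- **the number of the classes of the second kind** -/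
theorem card_T2 (hm : Squarefree m) (hm2 : m % 2 = 1) :
    Nat.card (T2 m) = Nat.card (LinearMap.ker (MM m.primeFactors nr).mulVecLin) := by
  have hf : ∀ d : T2 m, (fun q : m.primeFactors => ix d.1 q) ∈
      LinearMap.ker (MM m.primeFactors nr).mulVecLin := by
    intro d
    rw [LinearMap.mem_ker, Matrix.mulVecLin_apply]
    funext p
    rw [MM_mulVec, Pi.zero_apply, ← sol_of_T2 hm hm2 d.2 p p.2,
      ← sum_coe_sort m.primeFactors (fun q => nr p q * (ix d.1 q + ix d.1 p))]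
  refine Nat.card_congr (Equiv.ofBijective (fun d : T2 m =>
    (⟨fun q : m.primeFactors => ix d.1 q, hf d⟩ :
      LinearMap.ker (MM m.primeFactors nr).mulVecLin)) ⟨?_, ?_⟩)
  · intro d d' h
    apply Subtype.ext
    refine T2_inj hm d.2 d'.2 fun p hp => ?_
    have h1 := congrFun (congrArg Subtype.val h) ⟨p, hp⟩
    simp only at h1
    rw [← ix_one, ← ix_one, h1]
  · rintro ⟨x, hx⟩
    rw [LinearMap.mem_ker, Matrix.mulVecLin_apply] at hx
    obtain ⟨d, hd, hdx⟩ := T2_of_sol hm hm2 (x := ez x) (by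
      intro p hp
      have h1 := congrFun hx ⟨p, hp⟩
      rw [MM_mulVec, Pi.zero_apply] at h1
      rw [← sum_coe_sort m.primeFactors (fun q => nr p q * (ez x q + ez x p)), ← h1]
      refine sum_congr rfl fun q _ => ?_
      rw [ez_mem x q.2, ez_mem x hp])
    refine ⟨⟨d, hd⟩, Subtype.ext (funext fun p => ?_)⟩
    show ix d p = x p
    rw [ix_eq (hdx p p.2), ez_mem x p.2]

/-- **the number of the classes of the first kind** -/
theorem card_T1 (hm : Squarefree m) (hm4 : m % 4 = 3) :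
    Nat.card (T1 m) = Nat.card (LinearMap.ker (MM m.primeFactors nr).transpose.mulVecLin) := by
  have hrc := rowcol hm hm4
  have hf : ∀ d : T1 m, (fun q : m.primeFactors => ix d.1 q) ∈
      LinearMap.ker (MM m.primeFactors nr).transpose.mulVecLin := by
    intro d
    rw [LinearMap.mem_ker, Matrix.mulVecLin_apply]
    funext p
    rw [MM_tr _ _ hrc, Pi.zero_apply, ← sol_of_T1 hm hm4 d.2 p p.2,
      ← sum_coe_sort m.primeFactors (fun q => nr q p * (ix d.1 q + ix d.1 p))]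
  refine Nat.card_congr (Equiv.ofBijective (fun d : T1 m =>
    (⟨fun q : m.primeFactors => ix d.1 q, hf d⟩ :
      LinearMap.ker (MM m.primeFactors nr).transpose.mulVecLin)) ⟨?_, ?_⟩)
  · intro d d' h
    apply Subtype.ext
    refine T1_inj hm d.2 d'.2 fun p hp => ?_
    have h1 := congrFun (congrArg Subtype.val h) ⟨p, hp⟩
    simp only at h1
    rw [← ix_one, ← ix_one, h1]
  · rintro ⟨x, hx⟩
    rw [LinearMap.mem_ker, Matrix.mulVecLin_apply] at hx
    obtain ⟨d, hd, hdx⟩ := T1_of_sol hm hm4 (x := ez x) (by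
      intro p hp
      have h1 := congrFun hx ⟨p, hp⟩
      rw [MM_tr _ _ hrc, Pi.zero_apply] at h1
      rw [← sum_coe_sort m.primeFactors (fun q => nr q p * (ez x q + ez x p)), ← h1]
      refine sum_congr rfl fun q _ => ?_
      rw [ez_mem x q.2, ez_mem x hp])
    refine ⟨⟨d, hd⟩, Subtype.ext (funext fun p => ?_)⟩
    show ix d p = x p
    rw [ix_eq (hdx p p.2), ez_mem x p.2]

/-- **the two numbers are equal** -/
theorem card_T1_T2 (hm : Squarefree m) (hm4 : m % 4 = 3) : Nat.card (T1 m) = Nat.card (T2 m) := by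
  rw [card_T1 hm hm4, card_T2 hm (by omega)]
  have h2 := LinearMap.finrank_range_add_finrank_ker (MM m.primeFactors nr).mulVecLin
  have h3 := LinearMap.finrank_range_add_finrank_ker (MM m.primeFactors nr).transpose.mulVecLin
  have h4 : Module.finrank (ZMod 2) (LinearMap.range (MM m.primeFactors nr).transpose.mulVecLin) =
      Module.finrank (ZMod 2) (LinearMap.range (MM m.primeFactors nr).mulVecLin) :=
    (MM m.primeFactors nr).rank_transpose
  have h5 : Module.finrank (ZMod 2) (LinearMap.ker (MM m.primeFactors nr).transpose.mulVecLin) =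
      Module.finrank (ZMod 2) (LinearMap.ker (MM m.primeFactors nr).mulVecLin) := by omega
  rw [Module.natCard_eq_pow_finrank (K := ZMod 2)
      (V := LinearMap.ker (MM m.primeFactors nr).transpose.mulVecLin),
    Module.natCard_eq_pow_finrank (K := ZMod 2)
      (V := LinearMap.ker (MM m.primeFactors nr).mulVecLin), h5]

/-- the number is a power of two, at least two -/
theorem card_pow (hm : Squarefree m) (hm4 : m % 4 = 3) : ∃ k : ℕ, Nat.card (T2 m) = 2 ^ (k + 1) := by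
  rw [card_T2 hm (by omega), Module.natCard_eq_pow_finrank (K := ZMod 2), Nat.card_zmod]
  have hne : m.primeFactors.Nonempty := by
    rw [Nat.nonempty_primeFactors]
    have := hm.ne_zero
    omega
  obtain ⟨p0, hp0⟩ := hne
  have h1 : (1 : m.primeFactors → ZMod 2) ∈ LinearMap.ker (MM m.primeFactors nr).mulVecLin := by
    rw [LinearMap.mem_ker, Matrix.mulVecLin_apply]
    funext p
    rw [MM_mulVec]
    exact one_ker m.primeFactors nr p
  have h2 : 0 < Module.finrank (ZMod 2) (LinearMap.ker (MM m.primeFactors nr).mulVecLin) := by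
    refine Module.finrank_pos_iff_exists_ne_zero.2 ⟨⟨1, h1⟩, fun h => ?_⟩
    have h3 := congrFun (congrArg Subtype.val h) ⟨p0, hp0⟩
    exact one_ne_zero (α := ZMod 2) h3
  obtain ⟨k, hk⟩ := Nat.exists_eq_succ_of_ne_zero h2.ne'
  exact ⟨k, by rw [hk]⟩

/-- the number of the solvable factorizations -/
noncomputable def Nf (m : ℕ) : ℕ := Nat.card {s : ℕ × ℕ // s.1 * s.2 = m ∧
  (∀ p ∈ s.2.primeFactors, jacobiSym s.1 p = 1) ∧ ∀ p ∈ s.1.primeFactors, jacobiSym s.2 p = 1}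

theorem card_T2_Nf (hm : Squarefree m) : Nat.card (T2 m) = Nf m := by
  unfold Nf
  have hf : ∀ d : T2 m, d.1.natAbs * (m / d.1.natAbs) = m ∧
      (∀ p ∈ (m / d.1.natAbs).primeFactors, jacobiSym (d.1.natAbs : ℕ) p = 1) ∧
      ∀ p ∈ d.1.natAbs.primeFactors, jacobiSym ((m / d.1.natAbs : ℕ) : ℤ) p = 1 := by
    rintro ⟨d, hd0, e, hde, hs1, hs2⟩
    have hN : (d * e).natAbs = m := by rw [hde, Int.natAbs_natCast]
    have he0 : 0 < e := by
      have h1 : (0 : ℤ) < d * e := by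
        rw [hde]
        exact_mod_cast Nat.pos_of_ne_zero hm.ne_zero
      exact (mul_pos_iff_of_pos_left hd0).1 h1
    have hdn : ((d.natAbs : ℕ) : ℤ) = d := by omega
    have hen : ((e.natAbs : ℕ) : ℤ) = e := by omega
    have hN' : d.natAbs * e.natAbs = m := by rw [← Int.natAbs_mul]; exact hN
    have hdp : 0 < d.natAbs := Int.natAbs_pos.2 hd0.ne'
    have hq : m / d.natAbs = e.natAbs := by
      rw [← hN']
      exact Nat.mul_div_cancel_left _ hdp
    show d.natAbs * (m / d.natAbs) = m ∧ (∀ p ∈ (m / d.natAbs).primeFactors,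
      jacobiSym (d.natAbs : ℕ) p = 1) ∧ ∀ p ∈ d.natAbs.primeFactors,
        jacobiSym ((m / d.natAbs : ℕ) : ℤ) p = 1
    rw [hq]
    refine ⟨hN', fun p hp => ?_, fun p hp => ?_⟩
    · have hpp := Nat.prime_of_mem_primeFactors hp
      have : Fact p.Prime := ⟨hpp⟩
      have hpe : (p : ℤ) ∣ e := Int.natCast_dvd.2 (Nat.dvd_of_mem_primeFactors hp)
      have hpd : ¬ (p : ℤ) ∣ d := fun h => cop_of hm hN hpp h hpe
      rw [jac_iff (fun h => hpd (Int.natCast_dvd.2 h)), hdn]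
      exact hs2 p hpp hpe
    · have hpp := Nat.prime_of_mem_primeFactors hp
      have : Fact p.Prime := ⟨hpp⟩
      have hpd : (p : ℤ) ∣ d := Int.natCast_dvd.2 (Nat.dvd_of_mem_primeFactors hp)
      have hpe : ¬ (p : ℤ) ∣ e := cop_of hm hN hpp hpd
      rw [jac_iff (fun h => hpe (Int.natCast_dvd.2 h)), hen]
      exact hs1 p hpp hpd
  refine Nat.card_congr (Equiv.ofBijective (fun d : T2 m =>
    (⟨(d.1.natAbs, m / d.1.natAbs), hf d⟩ : {s : ℕ × ℕ // s.1 * s.2 = m ∧
      (∀ p ∈ s.2.primeFactors, jacobiSym s.1 p = 1) ∧ ∀ p ∈ s.1.primeFactors,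
        jacobiSym s.2 p = 1})) ⟨?_, ?_⟩)
  · intro d d' h
    have h1 := congrArg (fun s => s.1.1) h
    simp only at h1
    apply Subtype.ext
    have h2 := d.2.1
    have h3 := d'.2.1
    omega
  · rintro ⟨⟨b, c⟩, hbc, h1, h2⟩
    simp only at hbc h1 h2
    have hb0 : b ≠ 0 := by
      rintro rfl
      rw [zero_mul] at hbc
      exact hm.ne_zero hbc.symm
    have hN : ((b : ℤ) * c).natAbs = m := by
      have : (b : ℤ) * c = ((b * c : ℕ) : ℤ) := by push_cast; rfl
      rw [this, Int.natAbs_natCast, hbc]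
    refine ⟨⟨b, by exact_mod_cast Nat.pos_of_ne_zero hb0, c, by exact_mod_cast hbc, ?_, ?_⟩,
      Subtype.ext ?_⟩
    · intro p hpp hpd
      have : Fact p.Prime := ⟨hpp⟩
      have hpe : ¬ (p : ℤ) ∣ (c : ℤ) := cop_of hm hN hpp hpd
      refine (jac_iff (fun h => hpe (Int.natCast_dvd_natCast.2 h))).1 (h2 p ?_)
      exact Nat.mem_primeFactors.2 ⟨hpp, Int.natCast_dvd_natCast.1 hpd, hb0⟩
    · intro p hpp hpe
      have : Fact p.Prime := ⟨hpp⟩
      have hpd : ¬ (p : ℤ) ∣ (b : ℤ) := fun h => cop_of hm hN hpp h hpe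
      have hc0 : c ≠ 0 := by
        rintro rfl
        rw [mul_zero] at hbc
        exact hm.ne_zero hbc.symm
      refine (jac_iff (fun h => hpd (Int.natCast_dvd_natCast.2 h))).1 (h1 p ?_)
      exact Nat.mem_primeFactors.2 ⟨hpp, Int.natCast_dvd_natCast.1 hpe, hc0⟩
    · show (((b : ℤ)).natAbs, m / ((b : ℤ)).natAbs) = (b, c)
      rw [Int.natAbs_natCast, ← hbc, Nat.mul_div_cancel_left _ (Nat.pos_of_ne_zero hb0)]

end

end Pool.Agent.Run7.h289.D18
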