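import Mathlib
import Pool.Agent.Run7.h289.D18.Se1
import Pool.Agent.Run7.h289.D18.Sc

/-!
# The exact Selmer groups of the two isogenies
-/

set_option autoImplicit false
set_option linter.unusedSectionVars false

attribute [-instance] DivisionRing.toRatAlgebra

open NumberField IsDedekindDomain

namespace Pool.Agent.Run7.h289.D18

open Pool.Agent.Y682 (S1 S2 LL1 LL2 Sq quot_eq IsT Zc Zc_card Zc_lower MP)
open Pool.Agent.Y698.SG.Cv (LocI WF)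
open Pool.Agent.TH841.NF.D (Sha)
open Run7.h843.Desc Run7.h843.Sha
open Run7.h843.R (C2_iff good_even)
open Run7.h424.DC
open Pool.Agent.Run7.h289.D16 (w14 mod4_of odd_sq8)

/-- a point of the torsor `N² = d M⁴ + a M² e² + (b/d) e⁴` over the field `L` -/
def Tp (L : Type) [Field L] (a b d : ℤ) : Prop := ∃ N M e : L, (M ≠ 0 ∨ e ≠ 0) ∧
  N ^ 2 = (d : L) * M ^ 4 + (a : L) * M ^ 2 * e ^ 2 + (b : L) / (d : L) * e ^ 4

theorem Tp_iff {L : Type} [Field L] [CharZero L] {a b d : ℤ} (hb : b ≠ 0) (hd : d ≠ 0) :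
    Tp L a b d ↔ C1 L (a : ℚ) (b : ℚ) (d : ℚ) := by
  have hdL : (d : L) ≠ 0 := by exact_mod_cast hd
  have hbL : (b : L) ≠ 0 := by exact_mod_cast hb
  constructor
  · rintro ⟨N, M, e, hMe, h⟩
    by_cases he : e = 0
    · have hM : M ≠ 0 := hMe.resolve_right (by rw [he]; exact not_not.2 rfl)
      rw [he] at h
      have h' : N ^ 2 = (d : L) * M ^ 4 := by rw [h]; ring
      have hN : N ≠ 0 := by
        rintro rfl
        rw [zero_pow two_ne_zero] at h'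
        exact mul_ne_zero hdL (pow_ne_zero 4 hM) h'.symm
      refine ⟨M ^ 2 / N, 1, div_ne_zero (pow_ne_zero 2 hM) hN, ?_, Or.inl rfl⟩
      push_cast
      rw [div_pow, h']
      field_simp
    · by_cases hM : M = 0
      · rw [hM] at h
        have h' : N ^ 2 = (b : L) / d * e ^ 4 := by rw [h]; ring
        have hN : N ≠ 0 := by
          rintro rfl
          rw [zero_pow two_ne_zero] at h'
          exact mul_ne_zero (div_ne_zero hbL hdL) (pow_ne_zero 4 he) h'.symm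
        refine ⟨N / e ^ 2, b, div_ne_zero hN (pow_ne_zero 2 he), ?_, Or.inr (Or.inl ?_)⟩
        · push_cast
          rw [div_pow, h']
          field_simp
        · push_cast
          rfl
      · refine ⟨M / e, d * (M / e) ^ 2, div_ne_zero hM he, ?_, Or.inr (Or.inr ⟨?_,
          d * M * N / e ^ 3, ?_⟩)⟩
        · push_cast
          ring
        · exact mul_ne_zero hdL (pow_ne_zero 2 (div_ne_zero hM he))
        · push_cast
          rw [div_pow, mul_pow, h]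
          field_simp
  · rintro ⟨z, x, hz, hzx, hx⟩
    push_cast at hzx hx
    rcases hx with hx | hx | ⟨hx0, y, hy⟩
    · refine ⟨z, z, 0, Or.inl hz, ?_⟩
      rw [hx] at hzx
      linear_combination (-z ^ 2) * hzx
    · refine ⟨z, 0, 1, Or.inr one_ne_zero, ?_⟩
      rw [← hx, ← hzx]
      field_simp
      ring
    · refine ⟨y / (d * z), z, 1, Or.inl hz, ?_⟩
      rw [div_pow, hy, ← hzx]
      field_simp

/-- points everywhere locally -/
def Els (a b d : ℤ) : Prop := (∀ (p : ℕ) [Fact p.Prime], Tp ℚ_[p] a b d) ∧ Tp ℝ a b d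

theorem C1_of_LocI {L : Type} [Field L] [CharZero L] {a b d : ℤ} (h : LocI L a b d) :
    C1 L ((-2 * a : ℤ) : ℚ) ((a ^ 2 - 4 * b : ℤ) : ℚ) (d : ℚ) := by
  obtain ⟨X, Y, r, hX, hY, hr⟩ := h
  have hr0 : r ≠ 0 := by
    rintro rfl
    apply hX
    rw [hr]; ring
  refine ⟨r, X, hr0, by rw [hr]; push_cast; ring, Or.inr (Or.inr ⟨hX, Y, ?_⟩)⟩
  rw [hY]
  push_cast
  ring

section

variable {u v : ℤ} {m : ℕ}

/-- local points of the first kind -/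
theorem locT2 (h : Dt u v m) {d : ℤ} (hd : d ∈ T2 m) :
    (∀ (p : ℕ) [Fact p.Prime], LocI ℚ_[p] ((u ^ 2 + v ^ 2) * m) (u ^ 2 * v ^ 2 * m ^ 2) d) ∧
      LocI ℝ ((u ^ 2 + v ^ 2) * m) (u ^ 2 * v ^ 2 * m ^ 2) d := by
  obtain ⟨hd0', e, hde, hs1, hs2⟩ := hd
  have hn := h.sqf
  have hn0 : m ≠ 0 := hn.ne_zero
  have hnz := h.m0
  have hN : (d * e).natAbs = m := by rw [hde, Int.natAbs_natCast]
  have hd0 : d ≠ 0 := hd0'.ne'
  have hb0 : (u ^ 2 * v ^ 2 * (m : ℤ) ^ 2) ≠ 0 := mul_ne_zero (mul_ne_zero (pow_ne_zero 2 h.u0)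
    (pow_ne_zero 2 h.v0)) (pow_ne_zero 2 hnz)
  have hab : ((u ^ 2 + v ^ 2) * (m : ℤ)) ^ 2 - 4 * (u ^ 2 * v ^ 2 * m ^ 2) ≠ 0 := by
    rw [Dt.e2 u v m]
    exact pow_ne_zero 2 (mul_ne_zero (mul_ne_zero h.mi h.pl) hnz)
  obtain ⟨lq1, lq2⟩ := Pool.Agent.Y971.SG.Lq.t_LQ ((u ^ 2 + v ^ 2) * m) (u ^ 2 * v ^ 2 * m ^ 2) d
    hb0 hab hd0
  refine ⟨fun p hp => ?_, lq2 hd0'⟩
  have hpp : p.Prime := hp.out
  have hpi : Prime (p : ℤ) := Nat.prime_iff_prime_int.1 hpp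
  by_cases hpn : p ∣ m
  · have hp2 := h.p2 hpn
    by_cases hpb : (p : ℤ) ∣ d
    · have hpc := cop_of hn hN hpp hpb
      obtain ⟨s, hs⟩ := Pool.Agent.Y971.SG.Lq.t_SQ p e hp2 hpc (hs1 p hpp hpb)
      refine loc_tor (L := ℚ_[p]) h.m0 h.mi hd0 (Dt.e1 u v m) (Dt.e2 u v m) (w := d * s) ?_
      rw [← hde]
      push_cast
      linear_combination (-(d : ℚ_[p]) ^ 2) * hs
    · have hpc : (p : ℤ) ∣ e := by
        have h3 : (p : ℤ) ∣ d * e := by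
          rw [hde]
          exact_mod_cast hpn
        exact (hpi.dvd_or_dvd h3).resolve_left hpb
      exact lq1 p (Or.inl (Pool.Agent.Y971.SG.Lq.t_SQ p d hp2 hpb (hs2 p hpp hpc)))
  · have hpb : ¬ (p : ℤ) ∣ d := by
      intro h3
      have h4 : (p : ℤ) ∣ d * e := h3.mul_right e
      rw [hde] at h4
      exact hpn (by exact_mod_cast h4)
    by_cases hp2 : p = 2
    · subst hp2
      refine two1 h ?_
      have : ¬ (2 : ℤ) ∣ d := by exact_mod_cast hpb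
      omega
    · have hq2d : ¬ (p : ℤ) ∣ 2 := by
        intro h3
        have h4 : p ∣ 2 := by exact_mod_cast h3
        exact hp2 ((Nat.prime_dvd_prime_iff_eq hpp Nat.prime_two).1 h4)
      refine loc_odd hp2 (M := m) (r := u - v) (s := u + v) (by exact_mod_cast hpn) h.mi h.pl h.rs
        ?_ hpb (Dt.e1 u v m) (Dt.e2 u v m) ?_ ?_
      · rintro ⟨h1, h2⟩
        have h3 : (p : ℤ) ∣ 2 * u := by
          have := dvd_add h1 h2
          have e : u - v + (u + v) = 2 * u := by ring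
          rwa [e] at this
        have h4 : (p : ℤ) ∣ 2 * v := by
          have := dvd_sub h2 h1
          have e : u + v - (u - v) = 2 * v := by ring
          rwa [e] at this
        exact hpi.not_isUnit (h.cop.isUnit_of_dvd' ((hpi.dvd_or_dvd h3).resolve_left hq2d)
          ((hpi.dvd_or_dvd h4).resolve_left hq2d))
      · intro h3
        refine h.nb p hpp hp2 ?_
        have e : (u - v) ^ 2 - (u + v) ^ 2 = -(2 * (2 * (u * v))) := by ring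
        rw [e, dvd_neg] at h3
        exact (hpi.dvd_or_dvd ((hpi.dvd_or_dvd h3).resolve_left hq2d)).resolve_left hq2d
      · intro h3
        refine h.ng p hpp hp2 ?_
        have e : u ^ 2 - v ^ 2 = (u - v) * (u + v) := by ring
        rw [e]
        exact h3

/-- local points of the second kind -/
theorem locT1 (h : Dt u v m) {d : ℤ} (hd : d ∈ T1 m) :
    (∀ (p : ℕ) [Fact p.Prime], LocI ℚ_[p] (-2 * (u ^ 2 + v ^ 2) * m)
      ((u ^ 2 - v ^ 2) ^ 2 * m ^ 2) d) ∧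
      LocI ℝ (-2 * (u ^ 2 + v ^ 2) * m) ((u ^ 2 - v ^ 2) ^ 2 * m ^ 2) d := by
  obtain ⟨hd4, e, hde, hs1, hs2⟩ := hd
  have hn := h.sqf
  have hn0 : m ≠ 0 := hn.ne_zero
  have hnz := h.m0
  have hmz : (-(m : ℤ)) ≠ 0 := neg_ne_zero.2 hnz
  have hN : (d * e).natAbs = m := by rw [hde, Int.natAbs_neg, Int.natAbs_natCast]
  have hd0 : d ≠ 0 := by omega
  have hb0 : ((u ^ 2 - v ^ 2) ^ 2 * (m : ℤ) ^ 2) ≠ 0 :=
    mul_ne_zero (pow_ne_zero 2 (sub_ne_zero.2 h.ne)) (pow_ne_zero 2 hnz)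
  have h2u : 2 * u ≠ 0 := mul_ne_zero two_ne_zero h.u0
  have h2v : 2 * v ≠ 0 := mul_ne_zero two_ne_zero h.v0
  have hrs : (2 * u) ^ 2 ≠ (2 * v) ^ 2 := by
    intro h0
    apply h.ne
    linarith
  have hab : (-2 * (u ^ 2 + v ^ 2) * (m : ℤ)) ^ 2 - 4 * ((u ^ 2 - v ^ 2) ^ 2 * m ^ 2) ≠ 0 := by
    rw [Dt.e4 u v m]
    exact pow_ne_zero 2 (mul_ne_zero (mul_ne_zero h2u h2v) hmz)
  obtain ⟨lq1, lq2⟩ := Pool.Agent.Y971.SG.Lq.t_LQ (-2 * (u ^ 2 + v ^ 2) * m)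
    ((u ^ 2 - v ^ 2) ^ 2 * m ^ 2) d hb0 hab hd0
  refine ⟨fun p hp => ?_, ?_⟩
  · have hpp : p.Prime := hp.out
    have hpi : Prime (p : ℤ) := Nat.prime_iff_prime_int.1 hpp
    by_cases hpn : p ∣ m
    · have hp2 := h.p2 hpn
      by_cases hpb : (p : ℤ) ∣ d
      · have hpc := cop_of hn hN hpp hpb
        obtain ⟨s, hs⟩ := Pool.Agent.Y971.SG.Lq.t_SQ p e hp2 hpc (hs1 p hpp hpb)
        refine loc_tor (L := ℚ_[p]) hmz h2u hd0 (Dt.e3 u v m) (Dt.e4 u v m) (w := d * s) ?_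
        rw [← hde]
        push_cast
        linear_combination (-(d : ℚ_[p]) ^ 2) * hs
      · have hpc : (p : ℤ) ∣ e := by
          have h3 : (p : ℤ) ∣ d * e := by
            rw [hde, dvd_neg]
            exact_mod_cast hpn
          exact (hpi.dvd_or_dvd h3).resolve_left hpb
        exact lq1 p (Or.inl (Pool.Agent.Y971.SG.Lq.t_SQ p d hp2 hpb (hs2 p hpp hpc)))
    · have hpb : ¬ (p : ℤ) ∣ d := by
        intro h3
        have h4 : (p : ℤ) ∣ d * e := h3.mul_right e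
        rw [hde, dvd_neg] at h4
        exact hpn (by exact_mod_cast h4)
      by_cases hp2 : p = 2
      · subst hp2
        exact two2 h hd4
      · have hq2d : ¬ (p : ℤ) ∣ 2 := by
          intro h3
          have h4 : p ∣ 2 := by exact_mod_cast h3
          exact hp2 ((Nat.prime_dvd_prime_iff_eq hpp Nat.prime_two).1 h4)
        refine loc_odd hp2 (M := -m) (r := 2 * u) (s := 2 * v) (by
          rw [dvd_neg]
          exact_mod_cast hpn) h2u h2v hrs ?_ hpb (Dt.e3 u v m) (Dt.e4 u v m) ?_ ?_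
        · rintro ⟨h1, h2⟩
          exact hpi.not_isUnit (h.cop.isUnit_of_dvd' ((hpi.dvd_or_dvd h1).resolve_left hq2d)
            ((hpi.dvd_or_dvd h2).resolve_left hq2d))
        · intro h3
          refine h.ng p hpp hp2 ?_
          have e : (2 * u) ^ 2 - (2 * v) ^ 2 = 2 * (2 * (u ^ 2 - v ^ 2)) := by ring
          rw [e] at h3
          exact (hpi.dvd_or_dvd ((hpi.dvd_or_dvd h3).resolve_left hq2d)).resolve_left hq2d
        · intro h3
          rw [neg_neg]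
          refine h.nb p hpp hp2 ?_
          have e : (2 * u) * (2 * v) = 2 * (2 * (u * v)) := by ring
          rw [e] at h3
          exact (hpi.dvd_or_dvd ((hpi.dvd_or_dvd h3).resolve_left hq2d)).resolve_left hq2d
  · have hmr : (0 : ℝ) < m := by exact_mod_cast Nat.pos_of_ne_zero hn0
    have hur : (u : ℝ) ≠ 0 := by exact_mod_cast h.u0
    rcases lt_or_gt_of_ne hd0 with h9 | h9
    · have hdr : (d : ℝ) < 0 := by exact_mod_cast h9
      have h4d : (0 : ℝ) ≤ -(4 * u ^ 2 * m) / d := by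
        apply div_nonneg_of_nonpos
        · have : (0 : ℝ) < 4 * (u : ℝ) ^ 2 * m := by positivity
          linarith
        · exact hdr.le
      refine ⟨-(4 * u ^ 2 * m), 0, Real.sqrt (-(4 * u ^ 2 * m) / d), ?_, ?_, ?_⟩
      · have : (0 : ℝ) < 4 * (u : ℝ) ^ 2 * m := by positivity
        exact neg_ne_zero.2 this.ne'
      · push_cast
        ring
      · rw [Real.sq_sqrt h4d]
        have := hdr.ne
        field_simp
    · exact lq2 h9

/-- the local conditions of the first curve, without the real place -/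
theorem mem_T1 (h : Dt u v m) {X : ℤ} (hXs : Squarefree X.natAbs)
    (hall : ∀ (q : ℕ) [Fact q.Prime], C1 ℚ_[q] (((u ^ 2 + v ^ 2) * m : ℤ) : ℚ)
      ((u ^ 2 * v ^ 2 * m ^ 2 : ℤ) : ℚ) (X : ℚ)) : X ∈ T1 m := by
  have hn := h.sqf
  have hX0 : X ≠ 0 := by
    rintro rfl
    exact hXs.ne_zero rfl
  obtain ⟨c, t, hcX⟩ : ∃ (c : ℚ_[2]) (t : ℤ_[2]), (X : ℚ_[2]) = c ^ 2 * (1 + 4 * (t : ℚ_[2])) := by
    obtain ⟨z, x, hz, hzm, hx⟩ := hall 2
    rw [Rat.cast_intCast, Rat.cast_intCast] at hx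
    rw [Rat.cast_intCast] at hzm
    obtain ⟨c, t, hc0, hc⟩ := cls2 h hx
    refine ⟨c / z, t, ?_⟩
    rw [hc] at hzm
    rw [div_pow]
    field_simp
    linear_combination hzm
  have hX2 : X % 2 = 1 := by
    have h1 := vv_dvd hXs Nat.prime_two (vv_of_even (p := 2) hX0 (g := wv 2 c) (by
      rw [hcX, map_mul, w14, mul_one, map_pow]))
    have h2 : ¬ (2 : ℤ) ∣ X := by exact_mod_cast h1
    omega
  have hX4 : X % 4 = 1 := mod4_of hX2 hcX
  have hXn : X.natAbs ∣ m := sf_dvd hXs hn fun q hq hqX => by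
    by_contra hqn
    have : Fact q.Prime := ⟨hq⟩
    have hqX' : (q : ℤ) ∣ X := Int.natCast_dvd.2 hqX
    have hq2 : q ≠ 2 := by
      rintro rfl
      have : (2 : ℤ) ∣ X := by exact_mod_cast hqX'
      omega
    refine vv_dvd hXs hq ?_ hqX'
    refine out_odd hq2 (r := u) (s := v) (M := m) ?_ (by exact_mod_cast hqn)
      (h.nb q hq hq2) hX0 (hall q)
    rintro ⟨h1, h2⟩
    exact (Nat.prime_iff_prime_int.1 hq).not_isUnit (h.cop.isUnit_of_dvd' h1 h2)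
  obtain ⟨c', hc'⟩ := Int.natAbs_dvd_natAbs.1 (by rwa [Int.natAbs_natCast] :
    X.natAbs ∣ (m : ℤ).natAbs)
  have hat : ∀ p ∈ m.primeFactors, (¬ (p : ℤ) ∣ X ∧ (p : ℤ) ∣ c' ∧ IsSquare (X : ZMod p)) ∨
      ((p : ℤ) ∣ X ∧ ¬ (p : ℤ) ∣ -1 * c' ∧ IsSquare ((-1 * c' : ℤ) : ZMod p)) := by
    intro p hp
    have hpp := Nat.prime_of_mem_primeFactors hp
    have hpd := Nat.dvd_of_mem_primeFactors hp
    have : Fact p.Prime := ⟨hpp⟩
    have h1 := h.puv hpp hpd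
    refine at_p hn hp (Or.inr rfl) hc' (inG (r := u) (r' := v) (h.p2 hpd) hn hp (Or.inr rfl)
      (fun h3 => h1 (h3.mul_right v)) (fun h3 => h1 (h3.mul_left u)) ?_)
    have e1 : (-(-1) * (u ^ 2 + v ^ 2) * m : ℤ) = (u ^ 2 + v ^ 2) * m := by ring
    rw [e1]
    exact hall p
  refine ⟨hX4, -c', by rw [hc']; ring, fun p hpp hpX => ?_, fun p hpp hpc => ?_⟩
  · have hp : p ∈ m.primeFactors := Nat.mem_primeFactors.2 ⟨hpp, by
      have : (p : ℤ) ∣ m := by rw [hc']; exact hpX.mul_right c'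
      exact_mod_cast this, hn.ne_zero⟩
    rcases hat p hp with ⟨h1, -, -⟩ | ⟨-, -, h2⟩
    · exact absurd hpX h1
    · rw [neg_one_mul] at h2
      exact h2
  · rw [dvd_neg] at hpc
    have hp : p ∈ m.primeFactors := Nat.mem_primeFactors.2 ⟨hpp, by
      have : (p : ℤ) ∣ m := by rw [hc']; exact hpc.mul_left X
      exact_mod_cast this, hn.ne_zero⟩
    rcases hat p hp with ⟨-, -, h2⟩ | ⟨-, h1, -⟩
    · exact h2
    · exact absurd (hpc.mul_left (-1)) h1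

/-- the local conditions of the isogenous curve -/
theorem mem_T2 (h : Dt u v m) {X : ℤ} (hXs : Squarefree X.natAbs)
    (hall : ∀ (q : ℕ) [Fact q.Prime], C1 ℚ_[q] ((-2 * (u ^ 2 + v ^ 2) * m : ℤ) : ℚ)
      (((u ^ 2 - v ^ 2) ^ 2 * m ^ 2 : ℤ) : ℚ) (X : ℚ))
    (hR : C1 ℝ ((-2 * (u ^ 2 + v ^ 2) * m : ℤ) : ℚ) (((u ^ 2 - v ^ 2) ^ 2 * m ^ 2 : ℤ) : ℚ)
      (X : ℚ)) : X ∈ T2 m := by
  have hn := h.sqf
  have hX0 : 0 < X := by
    have : (0 : ℚ) < X := real_pos h hR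
    exact_mod_cast this
  have hXn : X.natAbs ∣ m := sf_dvd hXs hn fun q hq hqX => by
    by_contra hqn
    have : Fact q.Prime := ⟨hq⟩
    have hqX' : (q : ℤ) ∣ X := Int.natCast_dvd.2 hqX
    refine vv_dvd hXs hq ?_ hqX'
    by_cases hq2 : q = 2
    · subst hq2
      exact even2 h hX0.ne' (hall 2)
    · have hpi : Prime (q : ℤ) := Nat.prime_iff_prime_int.1 hq
      have hq2d : ¬ (q : ℤ) ∣ 2 := by
        intro h3
        have h4 : q ∣ 2 := by exact_mod_cast h3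
        exact hq2 ((Nat.prime_dvd_prime_iff_eq hq Nat.prime_two).1 h4)
      refine out_odd hq2 (r := u - v) (s := u + v) (M := -m) ?_ (by
        rw [dvd_neg]
        exact_mod_cast hqn) (fun h3 => h.ng q hq hq2 (by
          have e : u ^ 2 - v ^ 2 = (u - v) * (u + v) := by ring
          rw [e]
          exact h3)) hX0.ne' ?_
      · rintro ⟨h1, h2⟩
        have h3 : (q : ℤ) ∣ 2 * u := by
          have := dvd_add h1 h2
          have e : u - v + (u + v) = 2 * u := by ring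
          rwa [e] at this
        have h4 : (q : ℤ) ∣ 2 * v := by
          have := dvd_sub h2 h1
          have e : u + v - (u - v) = 2 * v := by ring
          rwa [e] at this
        exact hpi.not_isUnit (h.cop.isUnit_of_dvd' ((hpi.dvd_or_dvd h3).resolve_left hq2d)
          ((hpi.dvd_or_dvd h4).resolve_left hq2d))
      · have e1 : ((u - v) ^ 2 + (u + v) ^ 2) * (-(m : ℤ)) = -2 * (u ^ 2 + v ^ 2) * m := by ring
        have e2 : (u - v) ^ 2 * (u + v) ^ 2 * (-(m : ℤ)) ^ 2 = (u ^ 2 - v ^ 2) ^ 2 * m ^ 2 := by ring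
        rw [e1, e2]
        exact hall q
  obtain ⟨c', hc'⟩ := Int.natAbs_dvd_natAbs.1 (by rwa [Int.natAbs_natCast] :
    X.natAbs ∣ (m : ℤ).natAbs)
  have hat : ∀ p ∈ m.primeFactors, (¬ (p : ℤ) ∣ X ∧ (p : ℤ) ∣ c' ∧ IsSquare (X : ZMod p)) ∨
      ((p : ℤ) ∣ X ∧ ¬ (p : ℤ) ∣ 1 * c' ∧ IsSquare ((1 * c' : ℤ) : ZMod p)) := by
    intro p hp
    have hpp := Nat.prime_of_mem_primeFactors hp
    have hpd := Nat.dvd_of_mem_primeFactors hp
    have : Fact p.Prime := ⟨hpp⟩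
    have h1 := h.pd hpp hpd
    have e0 : u ^ 2 - v ^ 2 = (u - v) * (u + v) := by ring
    rw [e0] at h1
    refine at_p hn hp (Or.inl rfl) hc' (inG (r := u - v) (r' := u + v) (h.p2 hpd) hn hp (Or.inl rfl)
      (fun h3 => h1 (h3.mul_right _)) (fun h3 => h1 (h3.mul_left _)) ?_)
    have e1 : (-1 * ((u - v) ^ 2 + (u + v) ^ 2) * m : ℤ) = -2 * (u ^ 2 + v ^ 2) * m := by ring
    have e2 : (u - v) ^ 2 * (u + v) ^ 2 * (m : ℤ) ^ 2 = (u ^ 2 - v ^ 2) ^ 2 * m ^ 2 := by ring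
    rw [e1, e2]
    exact hall p
  refine ⟨hX0, c', hc'.symm, fun p hpp hpX => ?_, fun p hpp hpc => ?_⟩
  · have hp : p ∈ m.primeFactors := Nat.mem_primeFactors.2 ⟨hpp, by
      have : (p : ℤ) ∣ m := by rw [hc']; exact hpX.mul_right c'
      exact_mod_cast this, hn.ne_zero⟩
    rcases hat p hp with ⟨h1, -, -⟩ | ⟨-, -, h2⟩
    · exact absurd hpX h1
    · rw [one_mul] at h2
      exact h2
  · have hp : p ∈ m.primeFactors := Nat.mem_primeFactors.2 ⟨hpp, by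
      have : (p : ℤ) ∣ m := by rw [hc']; exact hpc.mul_left X
      exact_mod_cast this, hn.ne_zero⟩
    rcases hat p hp with ⟨-, -, h2⟩ | ⟨-, h1, -⟩
    · exact h2
    · exact absurd (hpc.mul_left 1) h1

theorem Dt.b0 (h : Dt u v m) : (u ^ 2 * v ^ 2 * (m : ℤ) ^ 2) ≠ 0 :=
  mul_ne_zero (mul_ne_zero (pow_ne_zero 2 h.u0) (pow_ne_zero 2 h.v0)) (pow_ne_zero 2 h.m0)

theorem Dt.b0' (h : Dt u v m) : ((u ^ 2 - v ^ 2) ^ 2 * (m : ℤ) ^ 2) ≠ 0 :=
  mul_ne_zero (pow_ne_zero 2 (sub_ne_zero.2 h.ne)) (pow_ne_zero 2 h.m0)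

/-- **the Selmer group of the first curve** -/
theorem sel1_iff (h : Dt u v m) {d : ℤ} (hd : Squarefree d) :
    Els ((u ^ 2 + v ^ 2) * m) (u ^ 2 * v ^ 2 * m ^ 2) d ↔ d ∈ T1 m := by
  have hd0 : d ≠ 0 := hd.ne_zero
  constructor
  · rintro ⟨h1, -⟩
    exact mem_T1 h (Int.squarefree_natAbs.2 hd) fun q _ => (Tp_iff h.b0 hd0).1 (h1 q)
  · intro hT
    obtain ⟨h1, h2⟩ := locT1 h hT
    have key : ∀ (L : Type) [Field L] [CharZero L], LocI L (-2 * (u ^ 2 + v ^ 2) * m)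
        ((u ^ 2 - v ^ 2) ^ 2 * m ^ 2) d → Tp L ((u ^ 2 + v ^ 2) * m) (u ^ 2 * v ^ 2 * m ^ 2) d := by
      intro L _ _ hL
      rw [Tp_iff h.b0 hd0]
      have h3 := C1_of_LocI hL
      have g1 : ((-2 * (-2 * (u ^ 2 + v ^ 2) * m) : ℤ) : ℚ) =
          4 * (((u ^ 2 + v ^ 2) * m : ℤ) : ℚ) := by push_cast; ring
      have g2 : (((-2 * (u ^ 2 + v ^ 2) * m) ^ 2 - 4 * ((u ^ 2 - v ^ 2) ^ 2 * m ^ 2) : ℤ) : ℚ) =
          16 * ((u ^ 2 * v ^ 2 * m ^ 2 : ℤ) : ℚ) := by push_cast; ring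
      rw [g1, g2] at h3
      exact C1_four h3
    exact ⟨fun p _ => key _ (h1 p), key _ h2⟩

/-- **the Selmer group of the isogenous curve** -/
theorem sel2_iff (h : Dt u v m) {d : ℤ} (hd : Squarefree d) :
    Els (-2 * (u ^ 2 + v ^ 2) * m) ((u ^ 2 - v ^ 2) ^ 2 * m ^ 2) d ↔ d ∈ T2 m := by
  have hd0 : d ≠ 0 := hd.ne_zero
  constructor
  · rintro ⟨h1, h2⟩
    exact mem_T2 h (Int.squarefree_natAbs.2 hd) (fun q _ => (Tp_iff h.b0' hd0).1 (h1 q))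
      ((Tp_iff h.b0' hd0).1 h2)
  · intro hT
    obtain ⟨h1, h2⟩ := locT2 h hT
    have key : ∀ (L : Type) [Field L] [CharZero L], LocI L ((u ^ 2 + v ^ 2) * m)
        (u ^ 2 * v ^ 2 * m ^ 2) d → Tp L (-2 * (u ^ 2 + v ^ 2) * m)
          ((u ^ 2 - v ^ 2) ^ 2 * m ^ 2) d := by
      intro L _ _ hL
      rw [Tp_iff h.b0' hd0]
      have h3 := C1_of_LocI hL
      have g1 : (-2 * ((u ^ 2 + v ^ 2) * m) : ℤ) = -2 * (u ^ 2 + v ^ 2) * m := by ring
      have g2 : (((u ^ 2 + v ^ 2) * m) ^ 2 - 4 * (u ^ 2 * v ^ 2 * m ^ 2) : ℤ) =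
          (u ^ 2 - v ^ 2) ^ 2 * m ^ 2 := by ring
      rw [g1, g2] at h3
      exact h3
    exact ⟨fun p _ => key _ (h1 p), key _ h2⟩

theorem sqf_T1 (hm : Squarefree m) {d : ℤ} (hd : d ∈ T1 m) : Squarefree d := by
  obtain ⟨-, e, hde, -⟩ := hd
  exact Int.squarefree_natAbs.1
    (split_pf hm (d := d) (e := e) (by rw [hde, Int.natAbs_neg, Int.natAbs_natCast])).2.2.1

theorem sqf_T2 (hm : Squarefree m) {d : ℤ} (hd : d ∈ T2 m) : Squarefree d := by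
  obtain ⟨-, e, hde, -⟩ := hd
  exact Int.squarefree_natAbs.1
    (split_pf hm (d := d) (e := e) (by rw [hde, Int.natAbs_natCast])).2.2.1

/-- **the orders of the two Selmer groups** -/
theorem card_Sel (h : Dt u v m) :
    Nat.card {d : ℤ // Squarefree d ∧ Els ((u ^ 2 + v ^ 2) * m) (u ^ 2 * v ^ 2 * m ^ 2) d} = Nf m ∧
    Nat.card {d : ℤ // Squarefree d ∧
      Els (-2 * (u ^ 2 + v ^ 2) * m) ((u ^ 2 - v ^ 2) ^ 2 * m ^ 2) d} = Nf m := by
  constructor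
  · rw [← card_T2_Nf h.sqf, ← card_T1_T2 h.sqf h.m4]
    refine Nat.card_congr (Equiv.subtypeEquivRight fun d => ?_)
    constructor
    · rintro ⟨h1, h2⟩
      exact (sel1_iff h h1).1 h2
    · intro h1
      have h2 := sqf_T1 h.sqf h1
      exact ⟨h2, (sel1_iff h h2).2 h1⟩
  · rw [← card_T2_Nf h.sqf]
    refine Nat.card_congr (Equiv.subtypeEquivRight fun d => ?_)
    constructor
    · rintro ⟨h1, h2⟩
      exact (sel2_iff h h1).1 h2
    · intro h1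
      have h2 := sqf_T2 h.sqf h1
      exact ⟨h2, (sel2_iff h h2).2 h1⟩

end

/-! ### Rank and Sha -/

section

variable {u v : ℤ} {m : ℕ}

/-- the classes of the elements of a finite set of nonzero integers -/
noncomputable def clS (T : Set ℤ) (hT : ∀ d ∈ T, d ≠ 0) : Set (ℚˣ ⧸ Sq ℚ) :=
  Set.range fun d : T => cl ((d.1 : ℤ) : ℚ) (by exact_mod_cast hT d.1 d.2)

theorem clS_fin {T : Set ℤ} (hT : ∀ d ∈ T, d ≠ 0) [Finite T] : Finite (clS T hT) ∧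
    Nat.card (clS T hT) ≤ Nat.card T := by
  refine ⟨(Set.finite_range _).to_subtype, ?_⟩
  exact Finite.card_range_le _

theorem T1_ne (hm : Squarefree m) {d : ℤ} (hd : d ∈ T1 m) : d ≠ 0 := (sqf_T1 hm hd).ne_zero

theorem T2_ne (hm : Squarefree m) {d : ℤ} (hd : d ∈ T2 m) : d ≠ 0 := (sqf_T2 hm hd).ne_zero

theorem one_T1 : (1 : ℤ) ∈ T1 m := by
  refine ⟨rfl, -m, by ring, fun p hp h => ?_, fun p _ _ => ⟨1, by simp⟩⟩
  exact absurd h (Nat.prime_iff_prime_int.1 hp).not_dvd_one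

theorem one_T2 : (1 : ℤ) ∈ T2 m := by
  refine ⟨one_pos, m, by ring, fun p hp h => ?_, fun p _ _ => ⟨1, by simp⟩⟩
  exact absurd h (Nat.prime_iff_prime_int.1 hp).not_dvd_one

theorem fin_T2 (hm : Squarefree m) (hm4 : m % 4 = 3) : Finite (T2 m) := by
  apply Nat.finite_of_card_ne_zero
  obtain ⟨k, hk⟩ := card_pow hm hm4
  rw [hk]
  exact pow_ne_zero _ two_ne_zero

theorem fin_T1 (hm : Squarefree m) (hm4 : m % 4 = 3) : Finite (T1 m) := by
  apply Nat.finite_of_card_ne_zero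
  obtain ⟨k, hk⟩ := card_pow hm hm4
  rw [card_T1_T2 hm hm4, hk]
  exact pow_ne_zero _ two_ne_zero

theorem cl_one_mem {T : Set ℤ} (hT : ∀ d ∈ T, d ≠ 0) (h1 : (1 : ℤ) ∈ T) :
    (1 : ℚˣ ⧸ Sq ℚ) ∈ clS T hT := by
  refine ⟨⟨1, h1⟩, ?_⟩
  rw [one_cl]
  congr 1

theorem mem_clS {T : Set ℤ} (hT : ∀ d ∈ T, d ≠ 0) {b : ℚˣ} {X : ℤ} (hX : X ∈ T) {d : ℚ}
    (hd : d ≠ 0) (h : (X : ℚ) = b * d ^ 2) : (b : ℚˣ ⧸ Sq ℚ) ∈ clS T hT := by
  refine ⟨⟨X, hX⟩, ?_⟩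
  refine (cl_of (c := 1 / d) _ ?_).symm
  rw [h]
  field_simp

/-- the first class is of the first kind -/
theorem in_T1 (h : Dt u v m) (b : ℚˣ)
    (hL : ∀ (l : ℕ) [Fact l.Prime], C1 ℚ_[l] (((u ^ 2 + v ^ 2) * m : ℤ) : ℚ)
      ((u ^ 2 * v ^ 2 * m ^ 2 : ℤ) : ℚ) (b : ℚ)) :
    (b : ℚˣ ⧸ Sq ℚ) ∈ clS (T1 m) (fun _ => T1_ne h.sqf) := by
  obtain ⟨X, d, hXs, hd, hXb⟩ := exists_sf b.ne_zero
  refine mem_clS _ (mem_T1 h hXs fun q _ => ?_) hd hXb
  rw [hXb]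
  exact C1_mul hd (hL q)

theorem in_T2 (h : Dt u v m) (b : ℚˣ)
    (hL : ∀ (l : ℕ) [Fact l.Prime], C1 ℚ_[l] ((-2 * (u ^ 2 + v ^ 2) * m : ℤ) : ℚ)
      (((u ^ 2 - v ^ 2) ^ 2 * m ^ 2 : ℤ) : ℚ) (b : ℚ))
    (hR : C1 ℝ ((-2 * (u ^ 2 + v ^ 2) * m : ℤ) : ℚ) (((u ^ 2 - v ^ 2) ^ 2 * m ^ 2 : ℤ) : ℚ)
      (b : ℚ)) : (b : ℚˣ ⧸ Sq ℚ) ∈ clS (T2 m) (fun _ => T2_ne h.sqf) := by
  obtain ⟨X, d, hXs, hd, hXb⟩ := exists_sf b.ne_zero
  refine mem_clS _ (mem_T2 h hXs (fun q _ => ?_) ?_) hd hXb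
  · rw [hXb]
    exact C1_mul hd (hL q)
  · rw [hXb]
    exact C1_mul hd hR

/-- **rank and Sha of the first curve** -/
theorem boundE (h : Dt u v m) {W : WeierstrassCurve ℚ}
    (hT : IsT W (((u ^ 2 + v ^ 2) * m : ℤ) : ℚ) ((u ^ 2 * v ^ 2 * m ^ 2 : ℤ) : ℚ)) :
    Finite {x : Sha W // 2 • x = 0} ∧
    4 * 2 ^ (Module.finrank ℤ (MP W)) * Nat.card {x : Sha W // 2 • x = 0} ≤ Nf m * Nf m := by
  obtain ⟨e1, e2, -, -⟩ := eqs u v m
  have f1 := fin_T1 h.sqf h.m4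
  have f2 := fin_T2 h.sqf h.m4
  obtain ⟨hfin, hU2⟩ := clS_fin (T := T1 m) fun _ => T1_ne h.sqf
  obtain ⟨hfin', hV2⟩ := clS_fin (T := T2 m) fun _ => T2_ne h.sqf
  obtain ⟨hf, hc⟩ := Zc_card hT (U := clS (T1 m) fun _ => T1_ne h.sqf)
    (V := clS (T2 m) fun _ => T2_ne h.sqf) (cl_one_mem _ one_T2)
    (fun b hb => in_T1 h b fun l _ => LL1_pad hb l)
    (fun b hb => in_T2 h b (fun l _ => by
        rw [← e1, ← e2]
        exact C2_iff.1 (LL2_pad hb l)) (by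
        rw [← e1, ← e2]
        exact C2_iff.1 (LL2_real hb)))
  obtain ⟨h3, h4⟩ := Zc_lower hT
  refine ⟨h3, (h4.trans hc).trans ?_⟩
  rw [card_T1_T2 h.sqf h.m4] at hU2
  rw [card_T2_Nf h.sqf] at hU2 hV2
  exact Nat.mul_le_mul hU2 hV2

/-- **rank and Sha of the isogenous curve** -/
theorem boundE' (h : Dt u v m) {W : WeierstrassCurve ℚ}
    (hT : IsT W ((-2 * (u ^ 2 + v ^ 2) * m : ℤ) : ℚ) (((u ^ 2 - v ^ 2) ^ 2 * m ^ 2 : ℤ) : ℚ)) :
    Finite {x : Sha W // 2 • x = 0} ∧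
    4 * 2 ^ (Module.finrank ℤ (MP W)) * Nat.card {x : Sha W // 2 • x = 0} ≤ Nf m * Nf m := by
  obtain ⟨-, -, e3, e4⟩ := eqs u v m
  have f1 := fin_T1 h.sqf h.m4
  have f2 := fin_T2 h.sqf h.m4
  obtain ⟨hfin, hU2⟩ := clS_fin (T := T1 m) fun _ => T1_ne h.sqf
  obtain ⟨hfin', hV2⟩ := clS_fin (T := T2 m) fun _ => T2_ne h.sqf
  obtain ⟨hf, hc⟩ := Zc_card hT (U := clS (T2 m) fun _ => T2_ne h.sqf)
    (V := clS (T1 m) fun _ => T1_ne h.sqf) (cl_one_mem _ one_T1)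
    (fun b hb => in_T2 h b (fun l _ => LL1_pad hb l) (LL1_real hb))
    (fun b hb => in_T1 h b fun l _ => by
        have h2 := C2_iff.1 (LL2_pad hb l)
        rw [e3, e4] at h2
        exact C1_four h2)
  obtain ⟨h3, h4⟩ := Zc_lower hT
  refine ⟨h3, (h4.trans hc).trans ?_⟩
  rw [card_T1_T2 h.sqf h.m4] at hU2
  rw [card_T2_Nf h.sqf] at hU2 hV2
  exact Nat.mul_le_mul hV2 hU2

end

end Pool.Agent.Run7.h289.D18
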