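import Mathlib
import Pool.Agent.Run7.h289.D18.Se2
import Pool.Agent.Run7.h289.D18.Pd

/-!
# The twists `y² = x (x + u² D) (x + v² D)` by positive and negative `D`
-/

set_option autoImplicit false
set_option linter.unusedSectionVars false

attribute [-instance] DivisionRing.toRatAlgebra

open NumberField IsDedekindDomain

namespace Pool.Agent.Run7.h289.D18

open Pool.Agent.Y682 (S1 S2 LL1 LL2 Sq quot_eq IsT Zc Zc_card Zc_lower MP)
open Pool.Agent.Y698.SG.Cv (LocI WF)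
open Pool.Agent.TH841.NF.D (Sha)
open Run7.h843.Desc Run7.h843.Sha
open Run7.h843.R (C2_iff good_even)
open Run7.h424.DC
open Pool.Agent.N969.P15 (Qc)

/-! ### Rank and Sha of the curves `y² = x (x - P² m) (x - R² m)`, `P + R` odd -/

theorem boundS {P R : ℤ} {m : ℕ} (h : Dt (P + R) (R - P) m) {W : WeierstrassCurve ℚ}
    (hT : IsT W ((-(P ^ 2 + R ^ 2) * m : ℤ) : ℚ) ((P ^ 2 * R ^ 2 * m ^ 2 : ℤ) : ℚ)) :
    Finite {x : Sha W // 2 • x = 0} ∧
    4 * 2 ^ (Module.finrank ℤ (MP W)) * Nat.card {x : Sha W // 2 • x = 0} ≤ Nf m * Nf m := by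
  have g1 : (4 : ℚ) * ((-(P ^ 2 + R ^ 2) * m : ℤ) : ℚ) =
      ((-2 * ((P + R) ^ 2 + (R - P) ^ 2) * m : ℤ) : ℚ) := by push_cast; ring
  have g2 : (16 : ℚ) * ((P ^ 2 * R ^ 2 * m ^ 2 : ℤ) : ℚ) =
      ((((P + R) ^ 2 - (R - P) ^ 2) ^ 2 * m ^ 2 : ℤ) : ℚ) := by push_cast; ring
  have g3 : (-2 : ℚ) * ((-(P ^ 2 + R ^ 2) * m : ℤ) : ℚ) =
      ((((P + R) ^ 2 + (R - P) ^ 2) * m : ℤ) : ℚ) := by push_cast; ring
  have g4 : ((-(P ^ 2 + R ^ 2) * m : ℤ) : ℚ) ^ 2 - 4 * ((P ^ 2 * R ^ 2 * m ^ 2 : ℤ) : ℚ) =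
      (((P + R) ^ 2 * (R - P) ^ 2 * m ^ 2 : ℤ) : ℚ) := by push_cast; ring
  have f1 := fin_T1 h.sqf h.m4
  have f2 := fin_T2 h.sqf h.m4
  obtain ⟨hfin, hU2⟩ := clS_fin (T := T1 m) fun _ => T1_ne h.sqf
  obtain ⟨hfin', hV2⟩ := clS_fin (T := T2 m) fun _ => T2_ne h.sqf
  obtain ⟨hf, hc⟩ := Zc_card hT (U := clS (T2 m) fun _ => T2_ne h.sqf)
    (V := clS (T1 m) fun _ => T1_ne h.sqf) (cl_one_mem _ one_T1)
    (fun b hb => in_T2 h b (fun l _ => by
        rw [← g1, ← g2]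
        exact C1_four' (LL1_pad hb l)) (by
        rw [← g1, ← g2]
        exact C1_four' (LL1_real hb)))
    (fun b hb => in_T1 h b fun l _ => by
        rw [← g3, ← g4]
        exact C2_iff.1 (LL2_pad hb l))
  obtain ⟨h3, h4⟩ := Zc_lower hT
  refine ⟨h3, (h4.trans hc).trans ?_⟩
  rw [card_T1_T2 h.sqf h.m4] at hU2
  rw [card_T2_Nf h.sqf] at hU2 hV2
  exact Nat.mul_le_mul hV2 hU2

/-! ### Scaling -/

theorem Tp_four {L : Type} [Field L] [CharZero L] {a b d : ℤ} :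
    Tp L (4 * a) (16 * b) d ↔ Tp L a b d := by
  constructor
  · rintro ⟨N, M, e, h1, h2⟩
    refine ⟨N, M, 2 * e, h1.imp_right (mul_ne_zero two_ne_zero), ?_⟩
    rw [h2]
    push_cast
    ring
  · rintro ⟨N, M, e, h1, h2⟩
    refine ⟨N, M, e / 2, h1.imp_right fun h => div_ne_zero h two_ne_zero, ?_⟩
    rw [h2]
    push_cast
    ring

theorem Els_four {a b d : ℤ} : Els (4 * a) (16 * b) d ↔ Els a b d :=
  and_congr (forall_congr' fun _ => forall_congr' fun _ => Tp_four) Tp_four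

/-! ### The data -/

/-- the pairs: `y² = x (x + u²) (x + v²)` is an elliptic curve, `u` and `v` coprime -/
structure Pr (u v : ℤ) : Prop where
  cop : IsCoprime u v
  u0 : u ≠ 0
  v0 : v ≠ 0
  ne : u ^ 2 ≠ v ^ 2

/-- `D` is admissible for `(u, v)` -/
structure Ad (u v D : ℤ) : Prop where
  sqf : Squarefree D
  m4 : D.natAbs % 4 = 3
  nb : ∀ l : ℕ, l.Prime → l ≠ 2 → (l : ℤ) ∣ u * v → ¬ IsSquare (D : ZMod l)
  ng : ∀ l : ℕ, l.Prime → l ≠ 2 → (l : ℤ) ∣ u ^ 2 - v ^ 2 → ¬ IsSquare (-(D : ZMod l))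
  pos : 0 < D → (u * v % 2 = 1 ∧ (D % 8 = 3 ∨ (u ^ 2 - v ^ 2) % 32 = 16)) ∨ u * v % 4 = 2
  neg : D < 0 → (u * v % 2 = 1 ∧ (u ^ 2 - v ^ 2) % 16 = 8) ∨
    (u * v % 2 = 0 ∧ (D.natAbs % 8 = 3 ∨ u * v % 8 = 4))

theorem odd_mul {u v : ℤ} : u * v % 2 = 1 ↔ u % 2 = 1 ∧ v % 2 = 1 := by
  rw [← Int.odd_iff, ← Int.odd_iff, ← Int.odd_iff, Int.odd_mul]

theorem mul4 {u v : ℤ} (h : u * v % 4 = 2) :
    (u % 4 = 2 ∧ v % 2 = 1) ∨ (u % 2 = 1 ∧ v % 4 = 2) := by
  have h1 : (u * v) % 4 = ((u % 4) * (v % 4)) % 4 := Int.mul_emod u v 4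
  have hu : u % 4 = 0 ∨ u % 4 = 1 ∨ u % 4 = 2 ∨ u % 4 = 3 := by omega
  have hv : v % 4 = 0 ∨ v % 4 = 1 ∨ v % 4 = 2 ∨ v % 4 = 3 := by omega
  rw [h1] at h
  rcases hu with hu | hu | hu | hu <;> rcases hv with hv | hv | hv | hv <;>
    rw [hu, hv] at h <;> omega

theorem mul4' {u v : ℤ} (h : (u % 4 = 2 ∧ v % 2 = 1) ∨ (u % 2 = 1 ∧ v % 4 = 2)) :
    u * v % 4 = 2 := by
  have h1 : (u * v) % 4 = ((u % 4) * (v % 4)) % 4 := Int.mul_emod u v 4
  have hu : u % 4 = 0 ∨ u % 4 = 1 ∨ u % 4 = 2 ∨ u % 4 = 3 := by omega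
  have hv : v % 4 = 0 ∨ v % 4 = 1 ∨ v % 4 = 2 ∨ v % 4 = 3 := by omega
  rw [h1]
  rcases hu with hu | hu | hu | hu <;> rcases hv with hv | hv | hv | hv <;>
    rw [hu, hv] <;> omega

theorem castne {z : ℤ} {l : ℕ} : -((z : ℤ) : ZMod l) = ((-z : ℤ) : ZMod l) := by push_cast; rfl

/-- positive twists -/
theorem ad_pos {u v : ℤ} (hg : Pr u v) {m : ℕ} : Ad u v (m : ℤ) ↔ Dt u v m := by
  constructor
  · rintro ⟨h1, h2, h3, h4, h5, -⟩
    have hm : Squarefree m := Int.squarefree_natCast.1 h1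
    have hm0 : 0 < (m : ℤ) := by
      have := hm.ne_zero
      omega
    rw [Int.natAbs_natCast] at h2
    refine ⟨hm, h2, hg.cop, hg.u0, hg.v0, hg.ne, h3, fun l hl hl2 hd => ?_, ?_⟩
    · rw [← castne]
      exact h4 l hl hl2 hd
    · rcases h5 hm0 with ⟨h6, h7⟩ | h6
      · obtain ⟨h8, h9⟩ := odd_mul.1 h6
        exact Or.inl ⟨h8, h9, h7.imp_left fun h => by omega⟩
      · rcases mul4 h6 with h7 | h7
        · exact Or.inr (Or.inl h7)
        · exact Or.inr (Or.inr h7)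
  · intro h
    refine ⟨Int.squarefree_natCast.2 h.sqf, by rw [Int.natAbs_natCast]; exact h.m4, h.nb,
      fun l hl hl2 hd => ?_, fun _ => ?_, fun h0 => ?_⟩
    · rw [castne]
      exact h.ng l hl hl2 hd
    · rcases h.two with ⟨h1, h2, h3⟩ | h1 | h1
      · exact Or.inl ⟨odd_mul.2 ⟨h1, h2⟩, h3.imp_left fun h => by omega⟩
      · exact Or.inr (mul4' (Or.inl h1))
      · exact Or.inr (mul4' (Or.inr h1))
    · omega

/-- negative twists, `u` and `v` odd -/
theorem ad_neg1 {P R : ℤ} (hg : Pr P R) {m : ℕ} (hodd : P * R % 2 = 1) :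
    Ad P R (-(m : ℤ)) ↔ Dt ((P + R) / 2) ((P - R) / 2) m := by
  obtain ⟨hP, hR⟩ := odd_mul.1 hodd
  obtain ⟨s, hs⟩ : ∃ s, P + R = 2 * s := ⟨(P + R) / 2, by omega⟩
  obtain ⟨t, ht⟩ : ∃ t, P - R = 2 * t := ⟨(P - R) / 2, by omega⟩
  have e1 : (P + R) / 2 = s := by omega
  have e2 : (P - R) / 2 = t := by omega
  have eP : P = s + t := by omega
  have eR : R = s - t := by omega
  rw [e1, e2]
  have cop : IsCoprime s t := by
    obtain ⟨a, b, hab⟩ := hg.cop
    refine ⟨a + b, a - b, ?_⟩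
    rw [← hab, eP, eR]
    ring
  have s0 : s ≠ 0 := by
    rintro rfl
    apply hg.ne
    rw [eP, eR]; ring
  have t0 : t ≠ 0 := by
    rintro rfl
    apply hg.ne
    rw [eP, eR]; ring
  have hpr : P * R = s ^ 2 - t ^ 2 := by rw [eP, eR]; ring
  have hne : s ^ 2 ≠ t ^ 2 := by
    intro h
    rw [← sub_eq_zero, ← hpr] at h
    exact mul_ne_zero hg.u0 hg.v0 h
  have hd4 : P ^ 2 - R ^ 2 = 4 * (s * t) := by rw [eP, eR]; ring
  have hst : s * t % 4 = 2 ↔ (P ^ 2 - R ^ 2) % 16 = 8 := by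
    rw [hd4]
    omega
  have hdv : ∀ l : ℕ, l.Prime → l ≠ 2 → ((l : ℤ) ∣ P ^ 2 - R ^ 2 ↔ (l : ℤ) ∣ s * t) := by
    intro l hl hl2
    rw [hd4]
    constructor
    · intro h
      refine IsCoprime.dvd_of_dvd_mul_left ?_ h
      have h2 : IsCoprime (l : ℤ) 2 := by
        have := (Nat.coprime_primes hl Nat.prime_two).2 hl2
        exact_mod_cast Nat.isCoprime_iff_coprime.2 this
      have e : (4 : ℤ) = 2 * 2 := by norm_num
      rw [e]
      exact h2.mul_right h2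
    · intro h
      exact h.mul_left 4
  constructor
  · rintro ⟨h1, h2, h3, h4, -, h5⟩
    rw [Int.natAbs_neg, Int.natAbs_natCast] at h2
    have hm : Squarefree m := by
      have : Squarefree (m : ℤ) := by
        have := Int.squarefree_natAbs.2 h1
        rw [Int.natAbs_neg, Int.natAbs_natCast] at this
        exact Int.squarefree_natCast.2 this
      exact Int.squarefree_natCast.1 this
    have hm0 : -(m : ℤ) < 0 := by
      have := hm.ne_zero
      omega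
    refine ⟨hm, h2, cop, s0, t0, hne, fun l hl hl2 hd => ?_, fun l hl hl2 hd => ?_, ?_⟩
    · have := h4 l hl hl2 ((hdv l hl hl2).2 hd)
      rw [castne, neg_neg] at this
      exact this
    · rw [← hpr] at hd
      exact h3 l hl hl2 hd
    · rcases h5 hm0 with ⟨-, h6⟩ | ⟨h6, -⟩
      · exact Or.inr (mul4 (hst.2 h6))
      · omega
  · intro h
    refine ⟨?_, ?_, fun l hl hl2 hd => ?_, fun l hl hl2 hd => ?_, fun h0 => ?_, fun _ => ?_⟩
    · refine Int.squarefree_natAbs.1 ?_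
      rw [Int.natAbs_neg, Int.natAbs_natCast]
      exact h.sqf
    · rw [Int.natAbs_neg, Int.natAbs_natCast]
      exact h.m4
    · rw [hpr] at hd
      exact h.ng l hl hl2 hd
    · rw [castne, neg_neg]
      exact h.nb l hl hl2 ((hdv l hl hl2).1 hd)
    · omega
    · refine Or.inl ⟨hodd, hst.1 (mul4' ?_)⟩
      rcases h.two with ⟨h1, h2, -⟩ | h1 | h1
      · exfalso
        omega
      · exact Or.inl h1
      · exact Or.inr h1

/-- negative twists, `u v` even -/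
theorem ad_neg2 {P R : ℤ} (hg : Pr P R) {m : ℕ} (hev : P * R % 2 = 0) :
    Ad P R (-(m : ℤ)) ↔ Dt (P + R) (R - P) m := by
  have hpar : (P + R) % 2 = 1 := by
    obtain ⟨a, b, hab⟩ := hg.cop
    have h2 : P % 2 = 0 ∨ R % 2 = 0 := by
      by_contra h
      rw [not_or] at h
      have := odd_mul.2 ⟨(by omega : P % 2 = 1), (by omega : R % 2 = 1)⟩
      omega
    rcases h2 with h2 | h2
    · have : R % 2 = 1 := by
        by_contra h3
        obtain ⟨p, hp⟩ : ∃ p, P = 2 * p := ⟨P / 2, by omega⟩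
        obtain ⟨r, hr⟩ : ∃ r, R = 2 * r := ⟨R / 2, by omega⟩
        rw [hp, hr] at hab
        have : 2 * (a * p + b * r) = 1 := by rw [← hab]; ring
        omega
      omega
    · have : P % 2 = 1 := by
        by_contra h3
        obtain ⟨p, hp⟩ : ∃ p, P = 2 * p := ⟨P / 2, by omega⟩
        obtain ⟨r, hr⟩ : ∃ r, R = 2 * r := ⟨R / 2, by omega⟩
        rw [hp, hr] at hab
        have : 2 * (a * p + b * r) = 1 := by rw [← hab]; ring
        omega
      omega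
  have cop : IsCoprime (P + R) (R - P) := by
    obtain ⟨a, b, hab⟩ := hg.cop
    obtain ⟨w, hw⟩ : ∃ w, P + R = 2 * w + 1 := ⟨(P + R) / 2, by omega⟩
    -- `2 P`, `2 R` and `P + R` odd are combinations
    refine ⟨1 - w * (a + b), w * (a - b), ?_⟩
    have e : (1 - w * (a + b)) * (P + R) + w * (a - b) * (R - P) =
        (P + R) - 2 * w * (a * P + b * R) := by ring
    rw [e, hab, hw]
    ring
  have s0 : P + R ≠ 0 := by
    intro h
    apply hg.ne
    have : P = -R := by omega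
    rw [this]; ring
  have t0 : R - P ≠ 0 := by
    intro h
    apply hg.ne
    have : P = R := by omega
    rw [this]
  have hpr : (P + R) ^ 2 - (R - P) ^ 2 = 4 * (P * R) := by ring
  have hne : (P + R) ^ 2 ≠ (R - P) ^ 2 := by
    intro h
    rw [← sub_eq_zero, hpr] at h
    exact mul_ne_zero (by norm_num) (mul_ne_zero hg.u0 hg.v0) h
  have hd4 : (P + R) * (R - P) = -(P ^ 2 - R ^ 2) := by ring
  have hdv : ∀ l : ℕ, l.Prime → l ≠ 2 → ((l : ℤ) ∣ 4 * (P * R) ↔ (l : ℤ) ∣ P * R) := by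
    intro l hl hl2
    constructor
    · intro h
      refine IsCoprime.dvd_of_dvd_mul_left ?_ h
      have h2 : IsCoprime (l : ℤ) 2 := by
        have := (Nat.coprime_primes hl Nat.prime_two).2 hl2
        exact_mod_cast Nat.isCoprime_iff_coprime.2 this
      have e : (4 : ℤ) = 2 * 2 := by norm_num
      rw [e]
      exact h2.mul_right h2
    · intro h
      exact h.mul_left 4
  constructor
  · rintro ⟨h1, h2, h3, h4, -, h5⟩
    rw [Int.natAbs_neg, Int.natAbs_natCast] at h2 h5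
    have hm : Squarefree m := by
      have : Squarefree (m : ℤ) := by
        have := Int.squarefree_natAbs.2 h1
        rw [Int.natAbs_neg, Int.natAbs_natCast] at this
        exact Int.squarefree_natCast.2 this
      exact Int.squarefree_natCast.1 this
    have hm0 : -(m : ℤ) < 0 := by
      have := hm.ne_zero
      omega
    refine ⟨hm, h2, cop, s0, t0, hne, fun l hl hl2 hd => ?_, fun l hl hl2 hd => ?_, ?_⟩
    · rw [hd4, dvd_neg] at hd
      have := h4 l hl hl2 hd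
      rw [castne, neg_neg] at this
      exact this
    · rw [hpr, hdv l hl hl2] at hd
      exact h3 l hl hl2 hd
    · rcases h5 hm0 with ⟨h6, -⟩ | ⟨-, h6⟩
      · omega
      · refine Or.inl ⟨hpar, by omega, h6.imp_right fun h => ?_⟩
        rw [hpr]
        omega
  · intro h
    refine ⟨?_, ?_, fun l hl hl2 hd => ?_, fun l hl hl2 hd => ?_, fun h0 => ?_, fun _ => ?_⟩
    · refine Int.squarefree_natAbs.1 ?_
      rw [Int.natAbs_neg, Int.natAbs_natCast]
      exact h.sqf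
    · rw [Int.natAbs_neg, Int.natAbs_natCast]
      exact h.m4
    · exact h.ng l hl hl2 (by rw [hpr, hdv l hl hl2]; exact hd)
    · rw [castne, neg_neg]
      exact h.nb l hl hl2 (by rw [hd4, dvd_neg]; exact hd)
    · omega
    · refine Or.inr ⟨hev, ?_⟩
      rw [Int.natAbs_neg, Int.natAbs_natCast]
      rcases h.two with ⟨h1, h2, h3⟩ | h1 | h1
      · refine h3.imp_right fun h => ?_
        rw [hpr] at h
        omega
      · exfalso
        omega
      · exfalso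
        omega

end Pool.Agent.Run7.h289.D18
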