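import Mathlib
import Pool.Agent.Run7.h289.D18.Sg

/-!
# The twists `y² = x (x + u² D) (x + v² D)`: criterion, Selmer groups, rank and Sha
-/

set_option autoImplicit false
set_option linter.unusedSectionVars false

attribute [-instance] DivisionRing.toRatAlgebra

open NumberField IsDedekindDomain

namespace Pool.Agent.Run7.h289.D18

open Pool.Agent.Y682 (IsT MP)
open Pool.Agent.TH841.NF.D (Sha)
open Pool.Agent.N969.P15 (Qc)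

/-- the curve `y² = x (x + u² D) (x + v² D)` -/
def Ec (u v D : ℤ) : WeierstrassCurve ℚ :=
  ⟨0, (((u ^ 2 + v ^ 2) * D : ℤ) : ℚ), 0, ((u ^ 2 * v ^ 2 * D ^ 2 : ℤ) : ℚ), 0⟩

/-- the three cases -/
theorem cases {u v D : ℤ} (hg : Pr u v) (h : Ad u v D) : ∃ m : ℕ, m = D.natAbs ∧
    ((D = m ∧ Dt u v m) ∨ (D = -m ∧ ∃ s t, u = s + t ∧ v = s - t ∧ Dt s t m) ∨
      (D = -m ∧ Dt (u + v) (v - u) m)) := by
  refine ⟨D.natAbs, rfl, ?_⟩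
  rcases Int.natAbs_eq D with h1 | h1
  · left
    refine ⟨h1, (ad_pos hg).1 ?_⟩
    rwa [← h1]
  · right
    by_cases h2 : u * v % 2 = 1
    · left
      refine ⟨h1, (u + v) / 2, (u - v) / 2, ?_, ?_, (ad_neg1 hg h2).1 ?_⟩
      · obtain ⟨h3, h4⟩ := odd_mul.1 h2
        omega
      · obtain ⟨h3, h4⟩ := odd_mul.1 h2
        omega
      · rwa [← h1]
    · right
      refine ⟨h1, (ad_neg2 hg (by omega)).1 ?_⟩
      rwa [← h1]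

/-- **the criterion** -/
theorem crit {u v D : ℤ} (hg : Pr u v) (h : Ad u v D) :
    (Finite (Ec u v D).toAffine.Point ∧ ∀ (k : ℕ) (x : Sha (Ec u v D)), 2 ^ k • x = 0 → x = 0) ↔
      Qc D.natAbs := by
  obtain ⟨m, hm, h1 | h1 | h1⟩ := cases hg h
  · rw [← hm]
    refine iffE h1.2 ?_
    unfold Ec
    rw [h1.1]
  · obtain ⟨h1, s, t, rfl, rfl, h2⟩ := h1
    rw [← hm]
    refine iffE' h2 ?_
    unfold Ec
    rw [h1]
    congr 2 <;> ring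
  · rw [← hm]
    refine iffS h1.2 ?_
    unfold Ec
    rw [h1.1]
    congr 2 <;> ring

/-- the Weierstrass equation -/
theorem isT {u v D : ℤ} (hg : Pr u v) (h : Ad u v D) :
    IsT (Ec u v D) (((u ^ 2 + v ^ 2) * D : ℤ) : ℚ) ((u ^ 2 * v ^ 2 * D ^ 2 : ℤ) : ℚ) := by
  have hD : D ≠ 0 := h.sqf.ne_zero
  refine ⟨rfl, rfl, rfl, rfl, rfl, ?_, ?_⟩
  · have : (u ^ 2 * v ^ 2 * D ^ 2) ≠ 0 := mul_ne_zero (mul_ne_zero (pow_ne_zero 2 hg.u0)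
      (pow_ne_zero 2 hg.v0)) (pow_ne_zero 2 hD)
    exact_mod_cast this
  · have e : ((u ^ 2 + v ^ 2) * D) ^ 2 - 4 * (u ^ 2 * v ^ 2 * D ^ 2) = ((u ^ 2 - v ^ 2) * D) ^ 2 := by
      ring
    have : ((u ^ 2 + v ^ 2) * D) ^ 2 - 4 * (u ^ 2 * v ^ 2 * D ^ 2) ≠ 0 := by
      rw [e]
      exact pow_ne_zero 2 (mul_ne_zero (sub_ne_zero.2 hg.ne) hD)
    exact_mod_cast this

theorem fr_eq (W : WeierstrassCurve ℚ) [inst : DecidableEq ℚ] :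
    Module.finrank ℤ (MP W) = Module.finrank ℤ W.toAffine.Point := by
  have e : inst = Classical.decEq ℚ := Subsingleton.elim _ _
  subst e
  rfl

/-- **rank and Sha** -/
theorem bound {u v D : ℤ} (hg : Pr u v) (h : Ad u v D) :
    Finite {x : Sha (Ec u v D) // 2 • x = 0} ∧
    4 * 2 ^ (Module.finrank ℤ (Ec u v D).toAffine.Point) *
      Nat.card {x : Sha (Ec u v D) // 2 • x = 0} ≤ Nf D.natAbs * Nf D.natAbs := by
  have hT := isT hg h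
  rw [← fr_eq]
  obtain ⟨m, hm, h1 | h1 | h1⟩ := cases hg h
  · rw [← hm]
    refine boundE h1.2 (W := Ec u v D) ?_
    rw [h1.1] at hT ⊢
    exact hT
  · obtain ⟨h1, s, t, rfl, rfl, h2⟩ := h1
    rw [← hm]
    refine boundE' h2 (W := Ec (s + t) (s - t) D) ?_
    have e1 : (-2 * (s ^ 2 + t ^ 2) * (m : ℤ)) = ((s + t) ^ 2 + (s - t) ^ 2) * D := by
      rw [h1]; ring
    have e2 : ((s ^ 2 - t ^ 2) ^ 2 * (m : ℤ) ^ 2) = (s + t) ^ 2 * (s - t) ^ 2 * D ^ 2 := by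
      rw [h1]; ring
    rw [e1, e2]
    exact hT
  · rw [← hm]
    refine boundS h1.2 (W := Ec u v D) ?_
    have e1 : (-(u ^ 2 + v ^ 2) * (m : ℤ)) = (u ^ 2 + v ^ 2) * D := by
      rw [h1.1]; ring
    have e2 : (u ^ 2 * v ^ 2 * (m : ℤ) ^ 2) = u ^ 2 * v ^ 2 * D ^ 2 := by
      rw [h1.1]; ring
    rw [e1, e2]
    exact hT

/-- the Selmer groups of the two isogenies as sets of squarefree integers -/
def Sel (a b : ℤ) : Set ℤ := {d | Squarefree d ∧ Els a b d}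

theorem sel_ext {a b : ℤ} {T : Set ℤ} (hT : ∀ d ∈ T, Squarefree d)
    (h : ∀ d, Squarefree d → (Els a b d ↔ d ∈ T)) : Sel a b = T := by
  ext d
  exact ⟨fun h1 => (h d h1.1).1 h1.2, fun h1 => ⟨hT d h1, (h d (hT d h1)).2 h1⟩⟩

/-- **the Selmer groups** -/
theorem selmer {u v D : ℤ} (hg : Pr u v) (h : Ad u v D) :
    (0 < D → Sel ((u ^ 2 + v ^ 2) * D) (u ^ 2 * v ^ 2 * D ^ 2) = T1 D.natAbs ∧
      Sel (-2 * ((u ^ 2 + v ^ 2) * D)) (((u ^ 2 + v ^ 2) * D) ^ 2 - 4 * (u ^ 2 * v ^ 2 * D ^ 2)) =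
        T2 D.natAbs) ∧
    (D < 0 → Sel ((u ^ 2 + v ^ 2) * D) (u ^ 2 * v ^ 2 * D ^ 2) = T2 D.natAbs ∧
      Sel (-2 * ((u ^ 2 + v ^ 2) * D)) (((u ^ 2 + v ^ 2) * D) ^ 2 - 4 * (u ^ 2 * v ^ 2 * D ^ 2)) =
        T1 D.natAbs) := by
  have hm : Squarefree D.natAbs := Int.squarefree_natAbs.2 h.sqf
  have q1 : ∀ d ∈ T1 D.natAbs, Squarefree d := fun d hd => sqf_T1 hm hd
  have q2 : ∀ d ∈ T2 D.natAbs, Squarefree d := fun d hd => sqf_T2 hm hd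
  have hD : D ≠ 0 := h.sqf.ne_zero
  obtain ⟨m, hm', h1 | h1 | h1⟩ := cases hg h
  · obtain ⟨h1, h2⟩ := h1
    have hDp : 0 < D := by omega
    rw [← hm'] at q1 q2 ⊢
    refine ⟨fun _ => ⟨sel_ext q1 fun d hd => ?_, sel_ext q2 fun d hd => ?_⟩, fun h3 => by omega⟩
    · rw [← sel1_iff h2 hd, h1]
    · rw [← sel2_iff h2 hd, h1]
      have e1 : -2 * ((u ^ 2 + v ^ 2) * (m : ℤ)) = -2 * (u ^ 2 + v ^ 2) * m := by ring
      have e2 : ((u ^ 2 + v ^ 2) * (m : ℤ)) ^ 2 - 4 * (u ^ 2 * v ^ 2 * m ^ 2) =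
          (u ^ 2 - v ^ 2) ^ 2 * m ^ 2 := by ring
      rw [e1, e2]
  · obtain ⟨h1, s, t, rfl, rfl, h2⟩ := h1
    have hDp : D < 0 := by omega
    rw [← hm'] at q1 q2 ⊢
    refine ⟨fun h3 => by omega, fun _ => ⟨sel_ext q2 fun d hd => ?_, sel_ext q1 fun d hd => ?_⟩⟩
    · rw [← sel2_iff h2 hd, h1]
      have e1 : ((s + t) ^ 2 + (s - t) ^ 2) * (-(m : ℤ)) = -2 * (s ^ 2 + t ^ 2) * m := by ring
      have e2 : (s + t) ^ 2 * (s - t) ^ 2 * (-(m : ℤ)) ^ 2 = (s ^ 2 - t ^ 2) ^ 2 * m ^ 2 := by ring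
      rw [e1, e2]
    · rw [← sel1_iff h2 hd, h1]
      have e1 : -2 * (((s + t) ^ 2 + (s - t) ^ 2) * (-(m : ℤ))) =
          4 * ((s ^ 2 + t ^ 2) * m) := by ring
      have e2 : (((s + t) ^ 2 + (s - t) ^ 2) * (-(m : ℤ))) ^ 2 -
          4 * ((s + t) ^ 2 * (s - t) ^ 2 * (-(m : ℤ)) ^ 2) = 16 * (s ^ 2 * t ^ 2 * m ^ 2) := by ring
      rw [e1, e2, Els_four]
  · obtain ⟨h1, h2⟩ := h1
    have hDp : D < 0 := by omega
    rw [← hm'] at q1 q2 ⊢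
    refine ⟨fun h3 => by omega, fun _ => ⟨sel_ext q2 fun d hd => ?_, sel_ext q1 fun d hd => ?_⟩⟩
    · rw [← sel2_iff h2 hd, h1]
      have e1 : -2 * ((u + v) ^ 2 + (v - u) ^ 2) * (m : ℤ) = 4 * ((u ^ 2 + v ^ 2) * -m) := by ring
      have e2 : ((u + v) ^ 2 - (v - u) ^ 2) ^ 2 * (m : ℤ) ^ 2 =
          16 * (u ^ 2 * v ^ 2 * (-m) ^ 2) := by ring
      rw [e1, e2, Els_four]
    · rw [← sel1_iff h2 hd, h1]
      have e1 : -2 * ((u ^ 2 + v ^ 2) * (-(m : ℤ))) = ((u + v) ^ 2 + (v - u) ^ 2) * m := by ring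
      have e2 : ((u ^ 2 + v ^ 2) * (-(m : ℤ))) ^ 2 - 4 * (u ^ 2 * v ^ 2 * (-(m : ℤ)) ^ 2) =
          (u + v) ^ 2 * (v - u) ^ 2 * m ^ 2 := by ring
      rw [e1, e2]

end Pool.Agent.Run7.h289.D18
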