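import Mathlib
import Pool.Agent.Run7.h289.D18.Sh2

/-!
# The classification and the j-invariants
-/

set_option autoImplicit false
set_option linter.unusedSectionVars false

namespace Pool.Agent.Run7.h289.D18

open Run7.h424.DC

/-- **the curves `y² = x (x + α) (x + β)` with `α β` a square** -/
theorem classify {α β : ℚ} (ha : α ≠ 0) (hb : β ≠ 0) (hab : α ≠ β) (hs : IsSquare (α * β)) :
    ∃ (u v D : ℤ) (c : ℚ), Pr u v ∧ Squarefree D ∧ c ≠ 0 ∧ α = c ^ 2 * (u ^ 2 * D) ∧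
      β = c ^ 2 * (v ^ 2 * D) := by
  obtain ⟨r, hr⟩ := hs
  have hr0 : r ≠ 0 := by
    rintro rfl
    rw [mul_zero] at hr
    exact mul_ne_zero ha hb hr
  set s : ℚ := r / β with hs
  have hs0 : s ≠ 0 := div_ne_zero hr0 hb
  have hα : α = s ^ 2 * β := by
    rw [hs, div_pow]
    field_simp
    rw [hr]
    ring
  have hn : (s.num : ℚ) ≠ 0 := by exact_mod_cast Rat.num_ne_zero.2 hs0
  have hd : (s.den : ℚ) ≠ 0 := by exact_mod_cast s.den_ne_zero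
  have hsnd : s = s.num / s.den := (Rat.num_div_den s).symm
  obtain ⟨D, d, hD, hd0, hDe⟩ := exists_sf (b := β / (s.den : ℚ) ^ 2) (div_ne_zero hb (pow_ne_zero 2 hd))
  refine ⟨s.num, s.den, D, 1 / d, ⟨?_, ?_, ?_, ?_⟩, Int.squarefree_natAbs.1 hD,
    div_ne_zero one_ne_zero hd0, ?_, ?_⟩
  · exact Int.isCoprime_iff_gcd_eq_one.2 s.reduced
  · exact Rat.num_ne_zero.2 hs0
  · exact_mod_cast s.den_ne_zero
  · intro h
    apply hab
    have h1 : (s.num : ℚ) ^ 2 = (s.den : ℚ) ^ 2 := by exact_mod_cast h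
    have h2 : s ^ 2 = 1 := by
      rw [hsnd, div_pow, h1, div_self (pow_ne_zero 2 hd)]
    rw [hα, h2, one_mul]
  · rw [hDe, hα]
    conv_lhs => rw [hsnd]
    field_simp
  · rw [hDe]
    field_simp
    push_cast
    ring

theorem cop_j {u v : ℤ} (h : Pr u v) :
    IsCoprime (u ^ 4 - u ^ 2 * v ^ 2 + v ^ 4) (u * v * (u ^ 2 - v ^ 2)) := by
  refine IsCoprime.mul_right (IsCoprime.mul_right ?_ ?_) ?_
  · have h1 : IsCoprime u (v ^ 4) := h.cop.pow_right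
    have h2 := (h1.add_mul_left_right (u ^ 3 - u * v ^ 2)).symm
    have e : v ^ 4 + u * (u ^ 3 - u * v ^ 2) = u ^ 4 - u ^ 2 * v ^ 2 + v ^ 4 := by ring
    rwa [e] at h2
  · have h1 : IsCoprime v (u ^ 4) := h.cop.symm.pow_right
    have h2 := (h1.add_mul_left_right (v ^ 3 - v * u ^ 2)).symm
    have e : u ^ 4 + v * (v ^ 3 - v * u ^ 2) = u ^ 4 - u ^ 2 * v ^ 2 + v ^ 4 := by ring
    rwa [e] at h2
  · -- modulo `u² - v²` it is `u² v²`
    have h0 : IsCoprime (u ^ 2) (v ^ 2) := h.cop.pow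
    have h1 : IsCoprime (u ^ 2) (u ^ 2 - v ^ 2) := by
      have h3 := (h0.neg_right).add_mul_left_right 1
      have e : -v ^ 2 + u ^ 2 * 1 = u ^ 2 - v ^ 2 := by ring
      rwa [e] at h3
    have h2 : IsCoprime (v ^ 2) (u ^ 2 - v ^ 2) := by
      have h3 := (h0.symm).add_mul_left_right (-1)
      have e : u ^ 2 + v ^ 2 * (-1) = u ^ 2 - v ^ 2 := by ring
      rwa [e] at h3
    have h3 := (h1.mul_left h2).add_mul_right_left (u ^ 2 - v ^ 2)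
    have e : u ^ 2 * v ^ 2 + (u ^ 2 - v ^ 2) * (u ^ 2 - v ^ 2) = u ^ 4 - u ^ 2 * v ^ 2 + v ^ 4 := by
      ring
    rwa [e] at h3

/-- **the j-invariant** -/
theorem j_eq {u v D : ℤ} (h : Pr u v) (hD : D ≠ 0) : (Ec u v D).Δ ≠ 0 ∧
    (Ec u v D).c₄ ^ 3 / (Ec u v D).Δ =
      ((256 * (u ^ 4 - u ^ 2 * v ^ 2 + v ^ 4) ^ 3 : ℤ) : ℚ) /
        ((u ^ 4 * v ^ 4 * (u ^ 2 - v ^ 2) ^ 2 : ℤ) : ℚ) := by
  have hu : (u : ℚ) ≠ 0 := by exact_mod_cast h.u0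
  have hv : (v : ℚ) ≠ 0 := by exact_mod_cast h.v0
  have hDq : (D : ℚ) ≠ 0 := by exact_mod_cast hD
  have hne : (u : ℚ) ^ 2 - v ^ 2 ≠ 0 := by
    rw [sub_ne_zero]
    exact_mod_cast h.ne
  have hΔ : (Ec u v D).Δ = 16 * u ^ 4 * v ^ 4 * ((u : ℚ) ^ 2 - v ^ 2) ^ 2 * D ^ 6 := by
    simp only [WeierstrassCurve.Δ, WeierstrassCurve.b₂, WeierstrassCurve.b₄, WeierstrassCurve.b₆,
      WeierstrassCurve.b₈, Ec]
    push_cast
    ring
  have hc : (Ec u v D).c₄ = 16 * ((u : ℚ) ^ 4 - u ^ 2 * v ^ 2 + v ^ 4) * D ^ 2 := by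
    simp only [WeierstrassCurve.c₄, WeierstrassCurve.b₂, WeierstrassCurve.b₄, Ec]
    push_cast
    ring
  constructor
  · rw [hΔ]
    exact mul_ne_zero (mul_ne_zero (mul_ne_zero (mul_ne_zero (by norm_num) (pow_ne_zero 4 hu))
      (pow_ne_zero 4 hv)) (pow_ne_zero 2 hne)) (pow_ne_zero 6 hDq)
  · rw [hΔ, hc]
    push_cast
    rw [div_eq_div_iff]
    · ring
    · exact mul_ne_zero (mul_ne_zero (mul_ne_zero (mul_ne_zero (by norm_num) (pow_ne_zero 4 hu))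
        (pow_ne_zero 4 hv)) (pow_ne_zero 2 hne)) (pow_ne_zero 6 hDq)
    · exact mul_ne_zero (mul_ne_zero (pow_ne_zero 4 hu) (pow_ne_zero 4 hv)) (pow_ne_zero 2 hne)

end Pool.Agent.Run7.h289.D18
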