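import Mathlib
import Pool.Agent.Run7.h843.G3
import Pool.Agent.Run7.h289.D18.Sg

/-!
# Existence of admissible numbers
-/

set_option autoImplicit false
set_option linter.unusedSectionVars false

namespace Pool.Agent.Run7.h289.D18

open Finset
open scoped Classical

/-- a nonresidue times a given unit -/
theorem exists_nr {l : ℕ} (hl : l.Prime) (h2 : l ≠ 2) (w : ℤ) (hw : w = 1 ∨ w = -1) :
    ∃ x : ℕ, ¬ IsSquare ((w * x : ℤ) : ZMod l) := by
  have : Fact l.Prime := ⟨hl⟩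
  obtain ⟨c, hc⟩ := FiniteField.exists_nonsquare (F := ZMod l) (by rwa [ZMod.ringChar_zmod_n])
  refine ⟨((w : ZMod l) * c).val, ?_⟩
  push_cast
  rw [ZMod.natCast_val, ZMod.cast_id]
  have : (w : ZMod l) * (w * c) = c := by
    rcases hw with rfl | rfl <;> (push_cast; ring)
  rwa [this]

theorem cast_of_modEq {x y l : ℕ} (h : x ≡ y [MOD l]) : (x : ZMod l) = (y : ZMod l) :=
  (ZMod.natCast_eq_natCast_iff x y l).2 h

theorem exists_m {A B : ℤ} (hA : A ≠ 0) (hB : B ≠ 0) (hc : IsCoprime A B) {w : ℤ}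
    (hw : w = 1 ∨ w = -1) : ∃ m : ℕ, m % 8 = 3 ∧
    (∀ l : ℕ, l.Prime → l ≠ 2 → (l : ℤ) ∣ A → ¬ IsSquare ((w * m : ℤ) : ZMod l)) ∧
    ∀ l : ℕ, l.Prime → l ≠ 2 → (l : ℤ) ∣ B → ¬ IsSquare ((-w * m : ℤ) : ZMod l) := by
  have hAB : (A * B).natAbs ≠ 0 := Int.natAbs_ne_zero.2 (mul_ne_zero hA hB)
  have hw' : -w = 1 ∨ -w = -1 := by omega
  have hx : ∀ l : ℕ, ∃ x : ℕ, l.Prime → l ≠ 2 → (((l : ℤ) ∣ A → ¬ IsSquare ((w * x : ℤ) : ZMod l)) ∧
      ((l : ℤ) ∣ B → ¬ IsSquare ((-w * x : ℤ) : ZMod l))) := by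
    intro l
    by_cases hl : l.Prime ∧ l ≠ 2
    · by_cases hd : (l : ℤ) ∣ A
      · obtain ⟨x, hx⟩ := exists_nr hl.1 hl.2 w hw
        refine ⟨x, fun _ _ => ⟨fun _ => hx, fun hB' => ?_⟩⟩
        exact absurd (hc.isUnit_of_dvd' hd hB')
          (Nat.prime_iff_prime_int.1 hl.1).not_isUnit
      · obtain ⟨x, hx⟩ := exists_nr hl.1 hl.2 (-w) hw'
        exact ⟨x, fun _ _ => ⟨fun h => absurd h hd, fun _ => hx⟩⟩
    · exact ⟨0, fun h1 h2 => absurd ⟨h1, h2⟩ hl⟩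
  choose x hx using hx
  set S : Finset ℕ := (A * B).natAbs.primeFactors.erase 2 with hS
  have hpr : ∀ i ∈ S, i.Prime ∧ i ≠ 2 := by
    intro i hi
    rw [hS, mem_erase, Nat.mem_primeFactors] at hi
    exact ⟨hi.2.1, hi.1⟩
  obtain ⟨k, hk⟩ := Nat.chineseRemainderOfFinset
    (fun i => if i = 8 then 3 else x i) (fun i => i)
    (insert 8 S) (fun i hi => by
      rcases mem_insert.1 hi with h | h
      · rw [h]; norm_num
      · exact (hpr i h).1.ne_zero) (by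
      have h8 : ∀ p ∈ S, Nat.Coprime 8 p := by
        intro p hp
        obtain ⟨hpp, hp2⟩ := hpr p hp
        have : Nat.Coprime 2 p := (Nat.coprime_primes Nat.prime_two hpp).2 (Ne.symm hp2)
        exact Nat.Coprime.pow_left 3 this
      intro i hi j hj hij
      rw [mem_coe, mem_insert] at hi hj
      rcases hi with hi | hi <;> rcases hj with hj | hj
      · exact absurd (hi.trans hj.symm) hij
      · rw [hi]
        exact h8 j hj
      · rw [hj]
        exact (h8 i hi).symm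
      · exact (Nat.coprime_primes (hpr i hi).1 (hpr j hj).1).2 hij)
  have k8 : k % 8 = 3 := by
    have := hk 8 (mem_insert_self 8 S)
    rw [if_pos rfl] at this
    exact this
  have kl : ∀ l : ℕ, l.Prime → l ≠ 2 → (l : ℤ) ∣ A * B → (k : ZMod l) = (x l : ZMod l) := by
    intro l hl h2 hd
    have hm : l ∈ S := by
      rw [hS, mem_erase, Nat.mem_primeFactors]
      exact ⟨h2, hl, Int.natCast_dvd.1 hd, hAB⟩
    have := hk l (mem_insert_of_mem hm)
    have h8 : l ≠ 8 := by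
      rintro rfl
      revert hl
      norm_num
    rw [if_neg h8] at this
    exact cast_of_modEq this
  refine ⟨k, k8, fun l hl h2 hd => ?_, fun l hl h2 hd => ?_⟩
  · have h1 := (hx l hl h2).1 hd
    have h3 := kl l hl h2 (hd.mul_right B)
    push_cast at h1 ⊢
    rwa [h3]
  · have h1 := (hx l hl h2).2 hd
    have h3 := kl l hl h2 (hd.mul_left A)
    push_cast at h1 ⊢
    rwa [h3]

/-- squarefree numbers in a class -/
theorem ex_low (M : ℕ) (hM : 8 ∣ M) (hM0 : 0 < M) (P : ℕ → Prop) (hP : ∀ n, P n ↔ P (n % M))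
    (b : ℕ) (hb : P b) (hc : b.Coprime M) : ∃ n, Squarefree n ∧ P n := by
  have hlow := Pool.Agent.Run7.h843.G.low_P M hM hM0 P hP b hb hc (100 * M ^ 2) le_rfl
  have hMr : (0 : ℝ) < M := by exact_mod_cast hM0
  have h3 : (0 : ℝ) < 1 / (4 * M) * ((100 * M ^ 2 : ℕ) : ℝ) := by
    push_cast
    positivity
  have hpos := lt_of_lt_of_le h3 hlow
  rw [Nat.cast_pos, card_pos] at hpos
  obtain ⟨n, hn⟩ := hpos
  rw [mem_filter] at hn
  exact ⟨n, hn.2⟩

/-- a squarefree number with these properties -/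
theorem exists_sqf {A B : ℤ} (hA : A ≠ 0) (hB : B ≠ 0) (hc : IsCoprime A B) {w : ℤ}
    (hw : w = 1 ∨ w = -1) : ∃ m : ℕ, Squarefree m ∧ m % 8 = 3 ∧
    (∀ l : ℕ, l.Prime → l ≠ 2 → (l : ℤ) ∣ A → ¬ IsSquare ((w * m : ℤ) : ZMod l)) ∧
    ∀ l : ℕ, l.Prime → l ≠ 2 → (l : ℤ) ∣ B → ¬ IsSquare ((-w * m : ℤ) : ZMod l) := by
  obtain ⟨m0, h8, h1, h2⟩ := exists_m hA hB hc hw
  set P : ℕ → Prop := fun m => m % 8 = 3 ∧
    (∀ l : ℕ, l.Prime → l ≠ 2 → (l : ℤ) ∣ A → ¬ IsSquare ((w * m : ℤ) : ZMod l)) ∧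
    ∀ l : ℕ, l.Prime → l ≠ 2 → (l : ℤ) ∣ B → ¬ IsSquare ((-w * m : ℤ) : ZMod l) with hP
  set M : ℕ := 8 * (A * B).natAbs with hM
  have hAB : (A * B).natAbs ≠ 0 := Int.natAbs_ne_zero.2 (mul_ne_zero hA hB)
  have hM0 : 0 < M := Nat.mul_pos (by norm_num) (Nat.pos_of_ne_zero hAB)
  have hMd : ∀ l : ℕ, (l : ℤ) ∣ A * B → l ∣ M := fun l hl =>
    (Int.natCast_dvd.1 hl).mul_left 8
  have hper : ∀ n, P n ↔ P (n % M) := by
    intro n
    have e8 : n % M % 8 = n % 8 := Nat.mod_mod_of_dvd n ⟨_, rfl⟩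
    have k1 : ∀ l : ℕ, (l : ℤ) ∣ A * B → ((n % M : ℕ) : ZMod l) = (n : ZMod l) := fun l hl =>
      cast_of_modEq ((Nat.mod_modEq n M).of_dvd (hMd l hl))
    rw [hP]
    show (n % 8 = 3 ∧ _ ∧ _) ↔ (n % M % 8 = 3 ∧ _ ∧ _)
    rw [e8]
    refine and_congr_right fun _ => and_congr ?_ ?_
    · refine forall_congr' fun l => forall_congr' fun _ => forall_congr' fun _ =>
        forall_congr' fun hd => ?_
      have := k1 l (hd.mul_right B)
      rw [Int.cast_mul, Int.cast_mul, Int.cast_natCast, Int.cast_natCast, this]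
    · refine forall_congr' fun l => forall_congr' fun _ => forall_congr' fun _ =>
        forall_congr' fun hd => ?_
      have := k1 l (hd.mul_left A)
      rw [Int.cast_mul, Int.cast_mul, Int.cast_natCast, Int.cast_natCast, this]
  have hcop : m0.Coprime M := by
    refine Nat.Coprime.symm (Nat.Coprime.mul_left ?_ ?_)
    · have : Nat.Coprime (2 ^ 3) m0 := Nat.Coprime.pow_left 3
        (Nat.coprime_two_left.2 (Nat.odd_iff.2 (by omega)))
      exact this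
    · refine Nat.Coprime.symm (Nat.coprime_of_dvd' fun l hl hm hd => ?_)
      have h0 : (m0 : ZMod l) = 0 := (ZMod.natCast_eq_zero_iff m0 l).2 hm
      have hl2 : l ≠ 2 := by
        rintro rfl
        omega
      rcases (Nat.prime_iff_prime_int.1 hl).dvd_mul.1 (Int.natCast_dvd.2 hd) with h3 | h3
      · exfalso
        refine h1 l hl hl2 h3 ⟨0, ?_⟩
        push_cast
        rw [h0, mul_zero, mul_zero]
      · exfalso
        refine h2 l hl hl2 h3 ⟨0, ?_⟩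
        push_cast
        rw [h0, mul_zero, mul_zero]
  obtain ⟨n, hn, h3, h4, h5⟩ := ex_low M ⟨_, rfl⟩ hM0 P hper m0 ⟨h8, h1, h2⟩ hcop
  exact ⟨n, hn, h3, h4, h5⟩

end Pool.Agent.Run7.h289.D18
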