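import Mathlib
import Pool.Agent.Run7.h843.G8
import Pool.Agent.Run7.h289.D18.Ex
import Pool.Agent.Run7.h289.D18.Sh2

/-!
# The law of the coranks for finite sets of curves
-/

set_option autoImplicit false
set_option linter.unusedSectionVars false

namespace Pool.Agent.Run7.h289.D18

open Finset Filter Topology
open scoped Classical

/-! ### Counting -/

/-- the number of the `m ≤ X` of the class `C` with the property `Q` -/
noncomputable def nm (C Q : ℕ → Prop) (X : ℕ) : ℕ := Nat.card {m : ℕ // m ≤ X ∧ C m ∧ Q m}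

/-- proportions -/
def Prp (C Q : ℕ → Prop) (θ : ℝ) : Prop :=
  Tendsto (fun X : ℕ => (nm C Q X : ℝ) / (nm C (fun _ => True) X : ℝ)) atTop (𝓝 θ)

theorem nm_eq {C Q : ℕ → Prop} (h0 : ∀ m, C m → m ≠ 0) (X : ℕ) {s : Finset ℕ}
    (hs : ∀ m, m ∈ s ↔ (1 ≤ m ∧ m ≤ X) ∧ C m ∧ Q m) : nm C Q X = s.card := by
  unfold nm
  refine Nat.subtype_card _ fun m => ?_
  rw [hs]
  constructor
  · rintro ⟨⟨-, h2⟩, h3, h4⟩
    exact ⟨h2, h3, h4⟩
  · rintro ⟨h2, hc, h5⟩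
    exact ⟨⟨Nat.one_le_iff_ne_zero.2 (h0 m hc), h2⟩, hc, h5⟩

theorem nm_congr {C Q C' Q' : ℕ → Prop} (hC : ∀ m, C m ↔ C' m)
    (h : ∀ m, C m → (Q m ↔ Q' m)) (X : ℕ) : nm C Q X = nm C' Q' X := by
  unfold nm
  refine Nat.card_congr (Equiv.subtypeEquivRight fun m => and_congr_right fun _ => ?_)
  constructor
  · rintro ⟨h1, h2⟩
    exact ⟨(hC m).1 h1, (h m h1).1 h2⟩
  · rintro ⟨h1, h2⟩
    have h3 := (hC m).2 h1
    exact ⟨h3, (h m h3).2 h2⟩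

/-- proportions depend only on the properties -/
theorem Prp.congr {C Q C' Q' : ℕ → Prop} {θ : ℝ} (hC : ∀ m, C m ↔ C' m)
    (h : ∀ m, C m → (Q m ↔ Q' m)) (hp : Prp C Q θ) : Prp C' Q' θ := by
  unfold Prp at hp ⊢
  refine Tendsto.congr (fun X => ?_) hp
  rw [nm_congr hC h X, nm_congr hC (fun _ _ => Iff.rfl) X]

/-- the law for a union of classes -/
theorem prp_P (M : ℕ) (hM : 8 ∣ M) (hM0 : 0 < M) (P : ℕ → Prop) (hP : ∀ n, P n ↔ P (n % M))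
    (h4 : ∀ n, P n → n % 4 = 3) (b : ℕ) (hb : P b) (hc : b.Coprime M) (k : ℕ) :
    Prp (fun n => Squarefree n ∧ P n) (fun n => Nf n = 2 ^ (k + 1)) (Run7.h843.L.gk k) := by
  have h := Pool.Agent.Run7.h843.G.dens_Nf M hM hM0 P hP h4 b hb hc k
  unfold Prp
  refine Tendsto.congr (fun X => ?_) h
  have h0 : ∀ m, (Squarefree m ∧ P m) → m ≠ 0 := fun m hm => hm.1.ne_zero
  symm
  refine congrArg₂ (fun a b : ℕ => (a : ℝ) / (b : ℝ)) (nm_eq h0 X fun m => ?_)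
    (nm_eq h0 X fun m => ?_)
  · simp only [mem_filter, mem_Icc, and_assoc]
    rfl
  · simp only [mem_filter, mem_Icc, and_true]

/-- positive lower density -/
theorem low_nm (M : ℕ) (hM : 8 ∣ M) (hM0 : 0 < M) (P : ℕ → Prop) (hP : ∀ n, P n ↔ P (n % M))
    (b : ℕ) (hb : P b) (hc : b.Coprime M) : ∃ a : ℝ, 0 < a ∧ ∀ᶠ X : ℕ in atTop,
      a * X ≤ (nm (fun n => Squarefree n ∧ P n) (fun _ => True) X : ℝ) := by
  have hMr : (0 : ℝ) < M := by exact_mod_cast hM0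
  refine ⟨1 / (4 * M), by positivity, ?_⟩
  filter_upwards [eventually_ge_atTop (100 * M ^ 2)] with X hX
  have h := Pool.Agent.Run7.h843.G.low_P M hM hM0 P hP b hb hc X hX
  refine h.trans (Nat.cast_le.2 ?_)
  refine le_of_eq (nm_eq (fun m hm => hm.1.ne_zero) X fun m => ?_).symm
  simp only [mem_filter, mem_Icc, and_true]

/-! ### Curves and signs -/

/-- a curve and a sign -/
structure Tri (t : ℤ × ℤ × ℤ) : Prop where
  pr : Pr t.1 t.2.1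
  sg : t.2.2 = 1 ∨ t.2.2 = -1

/-- the pair of the data -/
noncomputable def tr (t : ℤ × ℤ × ℤ) : ℤ × ℤ :=
  if t.2.2 = 1 then (t.1, t.2.1) else
    if t.1 * t.2.1 % 2 = 1 then ((t.1 + t.2.1) / 2, (t.1 - t.2.1) / 2)
    else (t.1 + t.2.1, t.2.1 - t.1)

theorem ad_tr {t : ℤ × ℤ × ℤ} (ht : Tri t) {m : ℕ} :
    Ad t.1 t.2.1 (t.2.2 * m) ↔ Dt (tr t).1 (tr t).2 m := by
  unfold tr
  rcases ht.sg with h | h
  · rw [if_pos h, h, one_mul]
    exact ad_pos ht.pr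
  · have h1 : ¬ (t.2.2 = 1) := by
      rw [h]
      norm_num
    have e : t.2.2 * (m : ℤ) = -(m : ℤ) := by rw [h, neg_one_mul]
    rw [if_neg h1, e]
    by_cases h2 : t.1 * t.2.1 % 2 = 1
    · rw [if_pos h2]
      exact ad_neg1 ht.pr h2
    · rw [if_neg h2]
      exact ad_neg2 ht.pr (by omega)

/-- `m` is admissible for all the curves -/
def Cm (F : Finset (ℤ × ℤ × ℤ)) (m : ℕ) : Prop := ∀ t ∈ F, Ad t.1 t.2.1 (t.2.2 * m)

section

variable {F : Finset (ℤ × ℤ × ℤ)} {N b : ℕ}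

/-- the residue classes -/
def PF (F : Finset (ℤ × ℤ × ℤ)) (N b n : ℕ) : Prop :=
  n % 4 = 3 ∧ n % N = b ∧ ∀ t ∈ F, Pd (tr t).1 (tr t).2 n

theorem cm_iff (hF : ∀ t ∈ F, Tri t) (hne : F.Nonempty) {m0 : ℕ} (h0 : Cm F m0) (n : ℕ) :
    (Cm F n ∧ n % N = b) ↔ (Squarefree n ∧ PF F N b n) := by
  have hG : ∀ t ∈ F, Gp (tr t).1 (tr t).2 := fun t ht =>
    (dt_iff.1 ((ad_tr (hF t ht)).1 (h0 t ht))).1
  constructor
  · rintro ⟨h1, h2⟩
    have h3 : ∀ t ∈ F, Squarefree n ∧ Pd (tr t).1 (tr t).2 n := fun t ht =>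
      (dt_iff.1 ((ad_tr (hF t ht)).1 (h1 t ht))).2
    obtain ⟨t0, ht0⟩ := hne
    exact ⟨(h3 t0 ht0).1, (h3 t0 ht0).2.m4, h2, fun t ht => (h3 t ht).2⟩
  · rintro ⟨h1, h2, h3, h4⟩
    exact ⟨fun t ht => (ad_tr (hF t ht)).2 (dt_iff.2 ⟨hG t ht, h1, h4 t ht⟩), h3⟩

/-- the modulus -/
noncomputable def mF (F : Finset (ℤ × ℤ × ℤ)) (N : ℕ) : ℕ := md (F.image tr) * N

theorem mF8 : 8 ∣ mF F N := (md8 _).mul_right N

theorem mF_pos (hF : ∀ t ∈ F, Tri t) (hN : 0 < N) {m0 : ℕ} (h0 : Cm F m0) : 0 < mF F N := by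
  refine Nat.mul_pos (md_pos fun x hx => ?_) hN
  obtain ⟨t, ht, rfl⟩ := mem_image.1 hx
  exact (dt_iff.1 ((ad_tr (hF t ht)).1 (h0 t ht))).1

theorem PF_per (n : ℕ) : PF F N b n ↔ PF F N b (n % mF F N) := by
  unfold PF
  have e4 : n % mF F N % 4 = n % 4 := Nat.mod_mod_of_dvd n (Dvd.dvd.trans (by norm_num) mF8)
  have eN : n % mF F N % N = n % N := Nat.mod_mod_of_dvd n ⟨_, mul_comm _ _⟩
  rw [e4, eN]
  refine and_congr_right fun _ => and_congr_right fun _ => forall_congr' fun t =>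
    forall_congr' fun ht => pd_mod mF8 ?_ n
  have h := md_dvd (mem_image_of_mem tr ht)
  refine h.trans (Int.natCast_dvd_natCast.2 ⟨N, rfl⟩)

theorem cop_mF (hbc : b.Coprime N) {m0 : ℕ} (h : PF F N b m0) : m0.Coprime (mF F N) := by
  refine Nat.Coprime.mul_right ?_ ?_
  · refine cop_md h.1 fun x hx => ?_
    obtain ⟨t, ht, rfl⟩ := mem_image.1 hx
    exact h.2.2 t ht
  · rw [← h.2.1] at hbc
    rw [Nat.Coprime, Nat.gcd_comm, Nat.gcd_rec]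
    exact hbc

/-- **the law of the coranks** -/
theorem law (hF : ∀ t ∈ F, Tri t) (hne : F.Nonempty) (hN : 0 < N) (hbc : b.Coprime N)
    (hex : ∃ m, Cm F m ∧ m % N = b) (k : ℕ) :
    Prp (fun m => Cm F m ∧ m % N = b) (fun m => Nf m = 2 ^ (k + 1)) (Run7.h843.L.gk k) := by
  obtain ⟨m0, h0, h1⟩ := hex
  have h2 := (cm_iff hF hne h0 m0).1 ⟨h0, h1⟩
  refine Prp.congr (fun m => (cm_iff hF hne h0 m).symm) (fun _ _ => Iff.rfl) ?_
  exact prp_P (mF F N) mF8 (mF_pos hF hN h0) (PF F N b) PF_per (fun n hn => hn.1) m0 h2.2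
    (cop_mF hbc h2.2) k

theorem low_law (hF : ∀ t ∈ F, Tri t) (hne : F.Nonempty) (hN : 0 < N) (hbc : b.Coprime N)
    (hex : ∃ m, Cm F m ∧ m % N = b) : ∃ a : ℝ, 0 < a ∧ ∀ᶠ X : ℕ in atTop,
      a * X ≤ (nm (fun m => Cm F m ∧ m % N = b) (fun _ => True) X : ℝ) := by
  obtain ⟨m0, h0, h1⟩ := hex
  have h2 := (cm_iff hF hne h0 m0).1 ⟨h0, h1⟩
  obtain ⟨a, ha, h⟩ := low_nm (mF F N) mF8 (mF_pos hF hN h0) (PF F N b) PF_per m0 h2.2
    (cop_mF hbc h2.2)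
  refine ⟨a, ha, h.mono fun X hX => ?_⟩
  rwa [nm_congr (C' := fun n => Squarefree n ∧ PF F N b n) (Q' := fun _ => True)
    (cm_iff hF hne h0) (fun _ _ => Iff.rfl) X]

end

/-! ### Existence -/

theorem pow_odd {u : ℤ} (h : u % 2 = 1) (i : ℕ) : u ^ i % 2 = 1 := by
  rw [← Int.odd_iff] at h ⊢
  exact h.pow

theorem sub_dvd_pow {u v : ℤ} {i n : ℕ} (h : i < n) :
    (u ^ 2 ^ i) ^ 2 - (v ^ 2 ^ i) ^ 2 ∣ u ^ 2 ^ n - v ^ 2 ^ n := by
  obtain ⟨j, rfl⟩ : ∃ j, n = i + 1 + j := ⟨n - (i + 1), by omega⟩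
  have e : ∀ w : ℤ, w ^ 2 ^ (i + 1 + j) = ((w ^ 2 ^ i) ^ 2) ^ 2 ^ j := by
    intro w
    rw [← pow_mul, ← pow_mul]
    congr 1
    rw [pow_add, pow_add, pow_one, mul_assoc]
  rw [e u, e v]
  exact sub_dvd_pow_sub_pow _ _ _

theorem pr_pow {u v : ℤ} (h : Pr u v) (i : ℕ) : Pr (u ^ 2 ^ i) (v ^ 2 ^ i) := by
  refine ⟨h.cop.pow, pow_ne_zero _ h.u0, pow_ne_zero _ h.v0, fun h1 => h.ne ?_⟩
  rw [← pow_mul, ← pow_mul, mul_comm, pow_mul, pow_mul] at h1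
  exact (pow_left_inj₀ (sq_nonneg u) (sq_nonneg v) (pow_ne_zero i two_ne_zero)).1 h1

theorem par_pow {u v : ℤ} (i : ℕ) : u ^ 2 ^ i * v ^ 2 ^ i % 2 = 1 ↔ u * v % 2 = 1 := by
  have h0 : (2 : ℕ) ^ i ≠ 0 := pow_ne_zero i two_ne_zero
  rw [← mul_pow, ← Int.odd_iff, ← Int.odd_iff]
  exact Int.odd_pow' h0

/-- **existence** -/
theorem exists_adm {u v : ℤ} (h : Pr u v) {w : ℤ} (hw : (w = 1 ∧ u * v % 2 = 1) ∨
    (w = -1 ∧ u * v % 2 = 0)) (n : ℕ) :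
    ∃ m : ℕ, m % 8 = 3 ∧ ∀ i ≤ n, Ad (u ^ 2 ^ i) (v ^ 2 ^ i) (w * m) := by
  have hA : u * v ≠ 0 := mul_ne_zero h.u0 h.v0
  have hB : (u ^ 2 ^ n) ^ 2 - (v ^ 2 ^ n) ^ 2 ≠ 0 := sub_ne_zero.2 (pr_pow h n).ne
  have hc : IsCoprime (u * v) ((u ^ 2 ^ n) ^ 2 - (v ^ 2 ^ n) ^ 2) := by
    refine IsCoprime.mul_left ?_ ?_
    · have h1 : IsCoprime u ((v ^ 2 ^ n) ^ 2) := (h.cop.pow_right).pow_right
      have h2 : u ∣ (u ^ 2 ^ n) ^ 2 := dvd_pow (dvd_pow_self u (pow_ne_zero n two_ne_zero))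
        two_ne_zero
      obtain ⟨k, hk⟩ := h2
      rw [hk]
      have h3 := (h1.neg_right).add_mul_left_right k
      have e : -((v ^ 2 ^ n) ^ 2) + u * k = u * k - (v ^ 2 ^ n) ^ 2 := by ring
      rwa [e] at h3
    · have h1 : IsCoprime v ((u ^ 2 ^ n) ^ 2) := (h.cop.symm.pow_right).pow_right
      have h2 : v ∣ (v ^ 2 ^ n) ^ 2 := dvd_pow (dvd_pow_self v (pow_ne_zero n two_ne_zero))
        two_ne_zero
      obtain ⟨k, hk⟩ := h2
      rw [hk]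
      have h3 := h1.add_mul_left_right (-k)
      have e : (u ^ 2 ^ n) ^ 2 + v * -k = (u ^ 2 ^ n) ^ 2 - v * k := by ring
      rwa [e] at h3
  have hw' : w = 1 ∨ w = -1 := hw.imp And.left And.left
  obtain ⟨m, hm, h8, h1, h2⟩ := exists_sqf hA hB hc hw'
  have hnat : (w * (m : ℤ)).natAbs = m := by
    rcases hw' with rfl | rfl
    · rw [one_mul, Int.natAbs_natCast]
    · rw [neg_one_mul, Int.natAbs_neg, Int.natAbs_natCast]
  have hm0 : 0 < (m : ℤ) := by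
    have := hm.ne_zero
    omega
  refine ⟨m, h8, fun i hi => ⟨?_, ?_, fun l hl hl2 hd => ?_, fun l hl hl2 hd => ?_, fun hp => ?_,
    fun hp => ?_⟩⟩
  · refine Int.squarefree_natAbs.1 ?_
    rwa [hnat]
  · rw [hnat]
    omega
  · refine h1 l hl hl2 ?_
    have hli := Nat.prime_iff_prime_int.1 hl
    rw [← mul_pow] at hd
    exact hli.dvd_of_dvd_pow hd
  · have := h2 l hl hl2 (hd.trans ?_)
    · rw [castne]
      rwa [neg_mul] at this
    · have h3 := sub_dvd_pow (u := u) (v := v) (i := i) (n := n + 1) (by omega)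
      have e : ∀ z : ℤ, z ^ 2 ^ (n + 1) = (z ^ 2 ^ n) ^ 2 := by
        intro z
        rw [← pow_mul, pow_succ]
      rwa [e u, e v] at h3
  · rcases hw with ⟨rfl, ho⟩ | ⟨rfl, -⟩
    · refine Or.inl ⟨(par_pow i).2 ho, Or.inl ?_⟩
      omega
    · exfalso
      omega
  · rcases hw with ⟨rfl, -⟩ | ⟨rfl, he⟩
    · exfalso
      omega
    · have h3 : ¬ (u ^ 2 ^ i * v ^ 2 ^ i % 2 = 1) := by
        rw [par_pow]
        omega
      refine Or.inr ⟨by omega, Or.inl ?_⟩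
      rw [hnat]
      exact h8

/-- the curves of the sequence are not isogenous: new primes -/
theorem new_prime {u v : ℤ} (h : Pr u v) {i j : ℕ} (hij : i < j) : ∃ p : ℕ, p.Prime ∧ p ≠ 2 ∧
    (p : ℤ) ∣ (u ^ 2 ^ j) ^ 2 - (v ^ 2 ^ j) ^ 2 ∧
    ¬ (p : ℤ) ∣ (u ^ 2 ^ i) * (v ^ 2 ^ i) * ((u ^ 2 ^ i) ^ 2 - (v ^ 2 ^ i) ^ 2) := by
  obtain ⟨j, rfl⟩ : ∃ k, j = k + 1 := ⟨j - 1, by omega⟩
  set U := u ^ 2 ^ j with hU
  set V := v ^ 2 ^ j with hV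
  have e : ∀ z : ℤ, z ^ 2 ^ (j + 1) = (z ^ 2 ^ j) ^ 2 := by
    intro z
    rw [← pow_mul, pow_succ]
  have hUV := pr_pow h j
  rw [← hU, ← hV] at hUV
  -- the sum of the squares has an odd prime divisor
  have hS : ∃ p : ℕ, p.Prime ∧ p ≠ 2 ∧ (p : ℤ) ∣ U ^ 2 + V ^ 2 := by
    by_contra hcon
    push Not at hcon
    have hpos : 2 < U ^ 2 + V ^ 2 := by
      have h1 : 1 ≤ U ^ 2 := by
        have := sq_pos_of_ne_zero hUV.u0
        omega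
      have h2 : 1 ≤ V ^ 2 := by
        have := sq_pos_of_ne_zero hUV.v0
        omega
      have := hUV.ne
      omega
    have h4 : ¬ (4 : ℤ) ∣ U ^ 2 + V ^ 2 := by
      intro hd
      have hu : U % 4 = 0 ∨ U % 4 = 1 ∨ U % 4 = 2 ∨ U % 4 = 3 := by omega
      have hv : V % 4 = 0 ∨ V % 4 = 1 ∨ V % 4 = 2 ∨ V % 4 = 3 := by omega
      have e1 : (U ^ 2 + V ^ 2) % 4 = ((U % 4) * (U % 4) + (V % 4) * (V % 4)) % 4 := by
        rw [pow_two, pow_two, Int.add_emod, Int.mul_emod U U, Int.mul_emod V V]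
        omega
      have hev : U % 2 = 0 ∧ V % 2 = 0 := by
        rcases hu with hu | hu | hu | hu <;> rcases hv with hv | hv | hv | hv <;>
          rw [hu, hv] at e1 <;> omega
      obtain ⟨a, b, hab⟩ := hUV.cop
      obtain ⟨p, hp⟩ : ∃ p, U = 2 * p := ⟨U / 2, by omega⟩
      obtain ⟨r, hr⟩ : ∃ r, V = 2 * r := ⟨V / 2, by omega⟩
      rw [hp, hr] at hab
      have : 2 * (a * p + b * r) = 1 := by rw [← hab]; ring
      omega
    set T : ℕ := (U ^ 2 + V ^ 2).natAbs with hT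
    have hTc : (T : ℤ) = U ^ 2 + V ^ 2 := by
      rw [hT, Int.natCast_natAbs, abs_of_pos (by omega)]
    have h2 : ∀ p : ℕ, p.Prime → p ∣ T → p = 2 := by
      intro p hp hd
      by_contra hp2
      exact hcon p hp hp2 (by rw [← hTc]; exact_mod_cast hd)
    have h5 := Nat.eq_prime_pow_of_unique_prime_dvd (n := T) (p := 2) (by omega)
      (fun {d} hd hdd => h2 d hd hdd)
    have h6 : T.primeFactorsList.length ≤ 1 := by
      by_contra h7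
      apply h4
      rw [← hTc, h5]
      have : (4 : ℕ) ∣ 2 ^ T.primeFactorsList.length := by
        have := pow_dvd_pow 2 (by omega : 2 ≤ T.primeFactorsList.length)
        exact this
      exact_mod_cast this
    have h8 : T ≤ 2 := by
      rw [h5]
      calc 2 ^ T.primeFactorsList.length ≤ 2 ^ 1 := Nat.pow_le_pow_right (by norm_num) h6
        _ = 2 := by norm_num
    omega
  obtain ⟨p, hp, hp2, hd⟩ := hS
  have hpi := Nat.prime_iff_prime_int.1 hp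
  have hnU : ¬ (p : ℤ) ∣ U ∧ ¬ (p : ℤ) ∣ V := by
    have key : ∀ a b : ℤ, IsCoprime a b → (p : ℤ) ∣ a ^ 2 + b ^ 2 → ¬ (p : ℤ) ∣ a := by
      intro a b hab hs ha
      have h1 : (p : ℤ) ∣ b ^ 2 := by
        have e2 : b ^ 2 = (a ^ 2 + b ^ 2) - a * a := by ring
        rw [e2]
        exact dvd_sub hs (ha.mul_right a)
      exact hpi.not_isUnit (hab.isUnit_of_dvd' ha (hpi.dvd_of_dvd_pow h1))
    refine ⟨key U V hUV.cop hd, key V U hUV.cop.symm ?_⟩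
    rwa [add_comm]
  refine ⟨p, hp, hp2, ?_, fun hd2 => ?_⟩
  · rw [e u, e v, ← hU, ← hV]
    have e3 : (U ^ 2) ^ 2 - (V ^ 2) ^ 2 = (U ^ 2 + V ^ 2) * (U ^ 2 - V ^ 2) := by ring
    rw [e3]
    exact hd.mul_right _
  · have hu0 : ¬ (p : ℤ) ∣ u := fun h1 =>
      hnU.1 (by rw [hU]; exact dvd_pow h1 (pow_ne_zero j two_ne_zero))
    have hv0 : ¬ (p : ℤ) ∣ v := fun h1 =>
      hnU.2 (by rw [hV]; exact dvd_pow h1 (pow_ne_zero j two_ne_zero))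
    rcases hpi.dvd_or_dvd hd2 with h1 | h1
    · rcases hpi.dvd_or_dvd h1 with h3 | h3
      · exact hu0 (hpi.dvd_of_dvd_pow h3)
      · exact hv0 (hpi.dvd_of_dvd_pow h3)
    · have h3 : (p : ℤ) ∣ U ^ 2 - V ^ 2 := by
        refine h1.trans ?_
        have h4 := sub_dvd_pow (u := u) (v := v) (i := i) (n := j + 1) hij
        rwa [e u, e v, ← hU, ← hV] at h4
      have h5 : (p : ℤ) ∣ 2 * U ^ 2 := by
        have e4 : 2 * U ^ 2 = (U ^ 2 + V ^ 2) + (U ^ 2 - V ^ 2) := by ring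
        rw [e4]
        exact dvd_add hd h3
      rcases hpi.dvd_or_dvd h5 with h6 | h6
      · have h7 : p ∣ 2 := by exact_mod_cast h6
        exact hp2 ((Nat.prime_dvd_prime_iff_eq hp Nat.prime_two).1 h7)
      · exact hnU.1 (hpi.dvd_of_dvd_pow h6)

end Pool.Agent.Run7.h289.D18
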