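import Mathlib
import Pool.Agent.Run7.h289.D18.Lw
import Pool.Agent.Run7.h289.D18.Cl

/-!
# The corank
-/

set_option autoImplicit false
set_option linter.unusedSectionVars false

attribute [-instance] DivisionRing.toRatAlgebra

namespace Pool.Agent.Run7.h289.D18

open Pool.Agent.TH841.NF.D (Sha)
open Pool.Agent.N969.P15 (Qc)

/-- two solvable factorizations -/
theorem Nf_two {m : ℕ} (h1 : 1 < m) : Nf m = 2 ↔ Qc m := by
  set S : Set (ℕ × ℕ) := {s | s.1 * s.2 = m ∧ (∀ p ∈ s.2.primeFactors, jacobiSym s.1 p = 1) ∧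
    ∀ p ∈ s.1.primeFactors, jacobiSym s.2 p = 1} with hS
  have hc : Nf m = S.ncard := by
    rw [← Nat.card_coe_set_eq]
    rfl
  have m1 : (1, m) ∈ S := by
    refine ⟨one_mul m, fun p _ => ?_, fun p hp => ?_⟩
    · show jacobiSym ((1 : ℕ) : ℤ) p = 1
      rw [Nat.cast_one, jacobiSym.one_left]
    · simp at hp
  have m2 : (m, 1) ∈ S := by
    refine ⟨mul_one m, fun p hp => ?_, fun p _ => ?_⟩
    · simp at hp
    · show jacobiSym ((1 : ℕ) : ℤ) p = 1
      rw [Nat.cast_one, jacobiSym.one_left]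
  have hne : ((1, m) : ℕ × ℕ) ≠ (m, 1) := by
    intro h
    have := congrArg Prod.fst h
    simp only at this
    omega
  have hsub : ({(1, m), (m, 1)} : Set (ℕ × ℕ)) ⊆ S := by
    intro s hs
    rcases hs with rfl | hs
    · exact m1
    · rw [Set.mem_singleton_iff.1 hs]
      exact m2
  have h2 : ({(1, m), (m, 1)} : Set (ℕ × ℕ)).ncard = 2 := Set.ncard_pair hne
  rw [hc]
  constructor
  · intro h b c hbc hb hc
    have hfin : S.Finite := Set.finite_of_ncard_ne_zero (by omega)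
    have he := Set.eq_of_subset_of_ncard_le hsub (by omega) hfin
    have hm : (b, c) ∈ S := ⟨hbc, hb, hc⟩
    rw [← he] at hm
    rcases hm with h3 | h3
    · exact Or.inl (congrArg Prod.fst h3)
    · exact Or.inr (congrArg Prod.snd (Set.mem_singleton_iff.1 h3))
  · intro h
    have he : S = {(1, m), (m, 1)} := by
      refine Set.Subset.antisymm (fun s hs => ?_) hsub
      obtain ⟨b, c⟩ := s
      obtain ⟨h3, h4, h5⟩ := hs
      simp only at h3 h4 h5
      rcases h b c h3 h4 h5 with rfl | rfl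
      · left
        rw [one_mul] at h3
        rw [h3]
      · right
        rw [mul_one] at h3
        rw [h3]
        rfl
    rw [he, h2]

/-- **the corank** -/
theorem corank {u v D : ℤ} (hg : Pr u v) (h : Ad u v D) : ∃ k : ℕ, Nf D.natAbs = 2 ^ (k + 1) ∧
    Nat.card (Sel ((u ^ 2 + v ^ 2) * D) (u ^ 2 * v ^ 2 * D ^ 2)) = 2 ^ (k + 1) ∧
    Nat.card (Sel (-2 * ((u ^ 2 + v ^ 2) * D))
      (((u ^ 2 + v ^ 2) * D) ^ 2 - 4 * (u ^ 2 * v ^ 2 * D ^ 2))) = 2 ^ (k + 1) ∧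
    Finite {x : Sha (Ec u v D) // 2 • x = 0} ∧
    2 ^ (Module.finrank ℤ (Ec u v D).toAffine.Point) *
      Nat.card {x : Sha (Ec u v D) // 2 • x = 0} ≤ 4 ^ k ∧
    ((Finite (Ec u v D).toAffine.Point ∧ ∀ (k : ℕ) (x : Sha (Ec u v D)), 2 ^ k • x = 0 → x = 0) ↔
      k = 0) := by
  have hm : Squarefree D.natAbs := Int.squarefree_natAbs.2 h.sqf
  obtain ⟨k, hk⟩ := card_pow hm h.m4
  have c1 : Nat.card (T1 D.natAbs) = 2 ^ (k + 1) := by rw [card_T1_T2 hm h.m4, hk]
  have hN : Nf D.natAbs = 2 ^ (k + 1) := by rw [← card_T2_Nf hm, hk]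
  have hD : D ≠ 0 := h.sqf.ne_zero
  obtain ⟨s1, s2⟩ := selmer hg h
  obtain ⟨b1, b2⟩ := bound hg h
  refine ⟨k, hN, ?_, ?_, b1, ?_, ?_⟩
  · rcases lt_or_gt_of_ne hD with h0 | h0
    · rw [(s2 h0).1, hk]
    · rw [(s1 h0).1, c1]
  · rcases lt_or_gt_of_ne hD with h0 | h0
    · rw [(s2 h0).2, c1]
    · rw [(s1 h0).2, hk]
  · rw [hN] at b2
    have e : 2 ^ (k + 1) * 2 ^ (k + 1) = 4 * 4 ^ k := by
      rw [pow_succ, show (4 : ℕ) ^ k = 2 ^ k * 2 ^ k by rw [← mul_pow]; norm_num]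
      ring
    rw [e, mul_assoc] at b2
    exact Nat.le_of_mul_le_mul_left b2 (by norm_num)
  · rw [crit hg h, ← Nf_two (by have := h.m4; omega), hN]
    constructor
    · intro h3
      have : 2 ^ (k + 1) = 2 ^ 1 := h3
      have := Nat.pow_right_injective le_rfl this
      omega
    · rintro rfl
      rfl

end Pool.Agent.Run7.h289.D18
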