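import Mathlib
import Pool.Agent.Run7.h289.D18.Sc

/-!
# The curves `X_0(24)` and `X_0(15)`
-/

set_option autoImplicit false

attribute [-instance] DivisionRing.toRatAlgebra

open NumberField IsDedekindDomain

namespace Pool.Agent.Run7.h289.D18

open Pool.Agent.TH841.NF.D (Sha)
open Pool.Agent.N969.P15 (Qc)

theorem ns5 {a : ℤ} (h : a % 5 = 2 ∨ a % 5 = 3) : ¬ IsSquare (a : ZMod 5) := by
  have h7 : (5 : ZMod 5) = 0 := by decide
  rcases h with h | h
  · obtain ⟨k, hk⟩ : ∃ k : ℤ, a = 5 * k + 2 := ⟨a / 5, by omega⟩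
    rw [hk]; push_cast; rw [h7, zero_mul, zero_add]; decide
  · obtain ⟨k, hk⟩ : ∃ k : ℤ, a = 5 * k + 3 := ⟨a / 5, by omega⟩
    rw [hk]; push_cast; rw [h7, zero_mul, zero_add]; decide

/-- `(u, v) = (3, 1)` -/
theorem dt24 {n : ℕ} (hn : Squarefree n) (h24 : n % 24 = 11) : Dt (1 + 2) (2 - 1) n := by
  refine ⟨hn, by omega, ?_, by norm_num, by norm_num, by norm_num, ?_, ?_, Or.inl ⟨by norm_num,
    by norm_num, Or.inl (by omega)⟩⟩
  · exact ⟨0, 1, by norm_num⟩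
  · intro l hl hl2 hd
    have h1 : l ∣ 3 := by
      have : ((1 : ℤ) + 2) * (2 - 1) = 3 := by norm_num
      rw [this] at hd
      exact_mod_cast hd
    rw [(Nat.prime_dvd_prime_iff_eq hl (by norm_num)).1 h1]
    exact ns3 (by omega)
  · intro l hl hl2 hd
    have h1 : l ∣ 2 ^ 3 := by
      have : ((1 : ℤ) + 2) ^ 2 - (2 - 1) ^ 2 = 2 ^ 3 := by norm_num
      rw [this] at hd
      exact_mod_cast hd
    exact absurd ((Nat.prime_dvd_prime_iff_eq hl Nat.prime_two).1 (hl.dvd_of_dvd_pow h1)) hl2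

/-- **complete descent on the twists by `-n` of `X_0(24)`**, in the model
`y² = x (x - n) (x - 4 n)` (that is `y² = x (x + n) (x - 3 n)`), `n ≡ 11 mod 24` squarefree -/
theorem iff24 {n : ℕ} (hn : Squarefree n) (h24 : n % 24 = 11) {W : WeierstrassCurve ℚ}
    (hW : W = ⟨0, ((-5 * n : ℤ) : ℚ), 0, ((4 * n ^ 2 : ℤ) : ℚ), 0⟩) :
    (Finite W.toAffine.Point ∧ ∀ (k : ℕ) (x : Sha W), 2 ^ k • x = 0 → x = 0) ↔ Qc n := by
  refine iffS (P := 1) (R := 2) (dt24 hn h24) ?_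
  rw [hW]
  norm_num

/-- `(u, v) = (3, 5)` -/
theorem dt15 {n : ℕ} (hn : Squarefree n) (h60 : n % 60 = 23 ∨ n % 60 = 47) : Dt 3 5 n := by
  refine ⟨hn, by omega, ⟨2, -1, by norm_num⟩, by norm_num, by norm_num, by norm_num, ?_, ?_,
    Or.inl ⟨by norm_num, by norm_num, Or.inr (by norm_num)⟩⟩
  · intro l hl hl2 hd
    have h1 : l ∣ 3 * 5 := by exact_mod_cast hd
    rcases hl.dvd_mul.1 h1 with h2 | h2
    · rw [(Nat.prime_dvd_prime_iff_eq hl (by norm_num)).1 h2]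
      exact ns3 (by omega)
    · rw [(Nat.prime_dvd_prime_iff_eq hl (by norm_num)).1 h2]
      exact ns5 (by omega)
  · intro l hl hl2 hd
    have h1 : l ∣ 2 ^ 4 := by
      have : (3 : ℤ) ^ 2 - 5 ^ 2 = -(2 ^ 4) := by norm_num
      rw [this, dvd_neg] at hd
      exact_mod_cast hd
    exact absurd ((Nat.prime_dvd_prime_iff_eq hl Nat.prime_two).1 (hl.dvd_of_dvd_pow h1)) hl2

end Pool.Agent.Run7.h289.D18
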