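import Mathlib
import Pool.Agent.Run7.h238.J.Stm
import Pool.Agent.Run7.h289.D18.Fn

/-!
# The joint law for curves and multipliers
-/

set_option autoImplicit false
set_option linter.unusedSectionVars false

namespace Pool.Agent.Run7.h289.D18

open Finset Filter Topology
open Pool.Agent.Run7.h238.J (tw)

/-! ### The squarefree part of `a n` -/

theorem tw_mul (a n : ℕ) : tw a n * (Nat.gcd a n) ^ 2 = a * n := by
  unfold tw
  refine Nat.div_mul_cancel ?_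
  rw [pow_two]
  exact Nat.mul_dvd_mul (Nat.gcd_dvd_left a n) (Nat.gcd_dvd_right a n)

theorem tw_sqf {a n : ℕ} (ha : Squarefree a) (hn : Squarefree n) : Squarefree (tw a n) := by
  have hg0 : 0 < Nat.gcd a n := Nat.gcd_pos_of_pos_left n (Nat.pos_of_ne_zero ha.ne_zero)
  obtain ⟨b, hb⟩ := Nat.gcd_dvd_left a n
  obtain ⟨c, hc⟩ := Nat.gcd_dvd_right a n
  set g := Nat.gcd a n with hg
  have e : tw a n = b * c := by
    have h := tw_mul a n
    rw [← hg] at h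
    have h2 : a * n = b * c * g ^ 2 := by
      conv_lhs => rw [hb, hc]
      ring
    rw [h2] at h
    exact Nat.eq_of_mul_eq_mul_right (pow_pos hg0 2) h
  have hbc : b.Coprime c := by
    have h3 : Nat.gcd (g * b) (g * c) = g * Nat.gcd b c := Nat.gcd_mul_left g b c
    rw [← hb, ← hc, ← hg] at h3
    have h4 : g * Nat.gcd b c = g * 1 := by rw [← h3, mul_one]
    exact Nat.eq_of_mul_eq_mul_left hg0 h4
  rw [e]
  refine (Nat.squarefree_mul hbc).2 ⟨?_, ?_⟩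
  · rw [hb] at ha
    exact ha.of_mul_right
  · rw [hc] at hn
    exact hn.of_mul_right

/-- squares modulo `l` -/
theorem sq_tw {a n l : ℕ} (hl : l.Prime) (hla : ¬ l ∣ a) (w : ℤ) :
    IsSquare ((w * tw a n : ℤ) : ZMod l) ↔ IsSquare ((w * (a * n : ℕ) : ℤ) : ZMod l) := by
  have : Fact l.Prime := ⟨hl⟩
  set g := Nat.gcd a n with hg
  have hgl : (g : ZMod l) ≠ 0 := by
    rw [Ne, ZMod.natCast_eq_zero_iff]
    exact fun h => hla (h.trans (Nat.gcd_dvd_left a n))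
  have h := tw_mul a n
  rw [← hg] at h
  have h2 : ((w * (a * n : ℕ) : ℤ) : ZMod l) = ((w * tw a n : ℤ) : ZMod l) * (g : ZMod l) ^ 2 := by
    rw [← h]
    push_cast
    ring
  rw [h2]
  constructor
  · rintro ⟨s, hs⟩
    exact ⟨s * g, by rw [hs]; ring⟩
  · rintro ⟨s, hs⟩
    refine ⟨s / g, ?_⟩
    rw [div_mul_div_comm, ← hs]
    field_simp

theorem sq1 {g : ℕ} (h : g % 2 = 1) : g ^ 2 % 8 = 1 := by
  have h1 : g ^ 2 % 8 = (g % 8) ^ 2 % 8 := by rw [Nat.pow_mod]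
  have h2 : g % 8 = 1 ∨ g % 8 = 3 ∨ g % 8 = 5 ∨ g % 8 = 7 := by omega
  rw [h1]
  rcases h2 with h2 | h2 | h2 | h2 <;> rw [h2] <;> norm_num

theorem tw8 {a n : ℕ} (ha : a % 2 = 1) : tw a n % 8 = a * n % 8 := by
  have h := tw_mul a n
  have hg : Nat.gcd a n % 2 = 1 := by
    by_contra h1
    have h2 : 2 ∣ Nat.gcd a n := by omega
    have h3 := h2.trans (Nat.gcd_dvd_left a n)
    omega
  rw [← h, Nat.mul_mod, sq1 hg, mul_one, Nat.mod_mod]

/-- the conditions on the residue class of `tw a n` -/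
theorem pd_tw {s t : ℤ} {a n : ℕ} (ha : a % 2 = 1)
    (hc : ∀ l : ℕ, l.Prime → (l : ℤ) ∣ s * t * (s ^ 2 - t ^ 2) → ¬ l ∣ a) :
    Pd s t (tw a n) ↔ Pd s t (a * n) := by
  have e8 := tw8 (n := n) ha
  have e1 : ∀ l : ℕ, l.Prime → (l : ℤ) ∣ s * t →
      (IsSquare ((tw a n : ℤ) : ZMod l) ↔ IsSquare (((a * n : ℕ) : ℤ) : ZMod l)) := by
    intro l hl hd
    have := sq_tw (n := n) hl (hc l hl (hd.mul_right _)) 1
    rwa [one_mul, one_mul] at this
  have e2 : ∀ l : ℕ, l.Prime → (l : ℤ) ∣ s ^ 2 - t ^ 2 →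
      (IsSquare ((-(tw a n : ℤ) : ℤ) : ZMod l) ↔
        IsSquare ((-((a * n : ℕ) : ℤ) : ℤ) : ZMod l)) := by
    intro l hl hd
    have := sq_tw (n := n) hl (hc l hl (hd.mul_left _)) (-1)
    rwa [neg_one_mul, neg_one_mul] at this
  constructor
  · rintro ⟨h1, h2, h3, h4⟩
    refine ⟨by omega, fun l hl hl2 hd => ?_, fun l hl hl2 hd => ?_, fun hu hv => ?_⟩
    · rw [← e1 l hl hd]
      exact h2 l hl hl2 hd
    · rw [← e2 l hl hd]
      exact h3 l hl hl2 hd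
    · rw [← e8]
      exact h4 hu hv
  · rintro ⟨h1, h2, h3, h4⟩
    refine ⟨by omega, fun l hl hl2 hd => ?_, fun l hl hl2 hd => ?_, fun hu hv => ?_⟩
    · rw [e1 l hl hd]
      exact h2 l hl hl2 hd
    · rw [e2 l hl hd]
      exact h3 l hl hl2 hd
    · rw [e8]
      exact h4 hu hv

/-! ### The data -/

/-- the multiplier `a` is prime to the bad primes of the curve -/
def Gm (a : ℕ) (t : ℤ × ℤ × ℤ) : Prop := ∀ l : ℕ, l.Prime → l ≠ 2 →
  (l : ℤ) ∣ t.1 * t.2.1 * (t.1 ^ 2 - t.2.1 ^ 2) → ¬ l ∣ a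

theorem gm_tr {a : ℕ} {t : ℤ × ℤ × ℤ} (_ht : Tri t) (ha : a % 2 = 1) (h : Gm a t) (l : ℕ)
    (hl : l.Prime)
    (hd : (l : ℤ) ∣ (tr t).1 * (tr t).2 * ((tr t).1 ^ 2 - (tr t).2 ^ 2)) : ¬ l ∣ a := by
  by_cases hl2 : l = 2
  · subst hl2
    omega
  refine h l hl hl2 ?_
  have hli := Nat.prime_iff_prime_int.1 hl
  have h2l : ¬ (l : ℤ) ∣ 2 := by
    intro h2
    have h3 : l ∣ 2 := by exact_mod_cast h2
    exact hl2 ((Nat.prime_dvd_prime_iff_eq hl Nat.prime_two).1 h3)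
  unfold tr at hd
  split_ifs at hd with h1 h2
  · exact hd
  · simp only at hd
    obtain ⟨hP, hR⟩ := odd_mul.1 h2
    obtain ⟨x, hx⟩ : ∃ x, t.1 + t.2.1 = 2 * x := ⟨(t.1 + t.2.1) / 2, by omega⟩
    obtain ⟨y, hy⟩ : ∃ y, t.1 - t.2.1 = 2 * y := ⟨(t.1 - t.2.1) / 2, by omega⟩
    have e1 : (t.1 + t.2.1) / 2 = x := by omega
    have e2 : (t.1 - t.2.1) / 2 = y := by omega
    have eP : t.1 = x + y := by omega
    have eR : t.2.1 = x - y := by omega
    rw [e1, e2] at hd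
    have e3 : t.1 * t.2.1 * (t.1 ^ 2 - t.2.1 ^ 2) = 4 * (x * y * (x ^ 2 - y ^ 2)) := by
      rw [eP, eR]; ring
    rw [e3]
    exact hd.mul_left 4
  · simp only at hd
    have e3 : (t.1 + t.2.1) * (t.2.1 - t.1) * ((t.1 + t.2.1) ^ 2 - (t.2.1 - t.1) ^ 2) =
        2 * (2 * (-(t.1 * t.2.1 * (t.1 ^ 2 - t.2.1 ^ 2)))) := by ring
    rw [e3] at hd
    have h4 := (hli.dvd_or_dvd hd).resolve_left h2l
    have h5 := (hli.dvd_or_dvd h4).resolve_left h2l
    exact dvd_neg.1 h5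

section

variable {M : ℕ} {a : Fin M → ℕ} {F : Fin M → Finset (ℤ × ℤ × ℤ)} {N b : ℕ}

/-- `n` is admissible for all the curves and multipliers -/
def CmJ (a : Fin M → ℕ) (F : Fin M → Finset (ℤ × ℤ × ℤ)) (n : ℕ) : Prop :=
  Squarefree n ∧ ∀ i, Cm (F i) (tw (a i) n)

/-- the residue classes -/
def PJ (a : Fin M → ℕ) (F : Fin M → Finset (ℤ × ℤ × ℤ)) (N b n : ℕ) : Prop :=
  n % 4 = 3 ∧ n % N = b ∧ ∀ i, ∀ t ∈ F i, Pd (tr t).1 (tr t).2 (a i * n)

/-- the hypotheses -/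
structure Hyp (a : Fin M → ℕ) (F : Fin M → Finset (ℤ × ℤ × ℤ)) : Prop where
  inj : Function.Injective a
  sqf : ∀ i, Squarefree (a i)
  one : ∀ i, a i % 4 = 1
  tri : ∀ i, ∀ t ∈ F i, Tri t
  ne : ∀ i, (F i).Nonempty
  gm : ∀ i, ∀ t ∈ F i, Gm (a i) t
  pos : 0 < M

theorem cmJ_iff (h : Hyp a F) {n0 : ℕ} (h0 : CmJ a F n0) (n : ℕ) :
    (CmJ a F n ∧ n % N = b) ↔ (Squarefree n ∧ PJ a F N b n) := by
  have hG : ∀ i, ∀ t ∈ F i, Gp (tr t).1 (tr t).2 := fun i t ht =>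
    (dt_iff.1 ((ad_tr (h.tri i t ht)).1 (h0.2 i t ht))).1
  have hpd : ∀ i, ∀ t ∈ F i, ∀ n : ℕ, (Pd (tr t).1 (tr t).2 (tw (a i) n) ↔
      Pd (tr t).1 (tr t).2 (a i * n)) := fun i t ht n => by
    have h1 := h.one i
    exact pd_tw (by omega) fun l hl hd => gm_tr (h.tri i t ht) (by omega) (h.gm i t ht) l hl hd
  constructor
  · rintro ⟨⟨h1, h2⟩, h3⟩
    have h4 : ∀ i, ∀ t ∈ F i, Pd (tr t).1 (tr t).2 (a i * n) := fun i t ht =>
      (hpd i t ht n).1 (dt_iff.1 ((ad_tr (h.tri i t ht)).1 (h2 i t ht))).2.2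
    refine ⟨h1, ?_, h3, h4⟩
    obtain ⟨t0, ht0⟩ := h.ne ⟨0, h.pos⟩
    have h5 := (h4 _ t0 ht0).m4
    have h6 := h.one ⟨0, h.pos⟩
    rw [Nat.mul_mod, h6, one_mul, Nat.mod_mod] at h5
    exact h5
  · rintro ⟨h1, h2, h3, h4⟩
    exact ⟨⟨h1, fun i t ht => (ad_tr (h.tri i t ht)).2 (dt_iff.2 ⟨hG i t ht,
      tw_sqf (h.sqf i) h1, (hpd i t ht n).2 (h4 i t ht)⟩)⟩, h3⟩

/-- the modulus -/
noncomputable def mJ (F : Fin M → Finset (ℤ × ℤ × ℤ)) (N : ℕ) : ℕ :=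
  8 * (N * ∏ i, md ((F i).image tr))

theorem mJ8 : 8 ∣ mJ F N := ⟨_, rfl⟩

theorem md_mJ (i : Fin M) : md ((F i).image tr) ∣ mJ F N :=
  ((dvd_prod_of_mem (fun i => md ((F i).image tr)) (mem_univ i)).mul_left N).mul_left 8

theorem mJ_pos (h : Hyp a F) (hN : 0 < N) {n0 : ℕ} (h0 : CmJ a F n0) : 0 < mJ F N := by
  refine Nat.mul_pos (by norm_num) (Nat.mul_pos hN (prod_pos fun i _ => md_pos fun x hx => ?_))
  obtain ⟨t, ht, rfl⟩ := mem_image.1 hx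
  exact (dt_iff.1 ((ad_tr (h.tri i t ht)).1 (h0.2 i t ht))).1

theorem PJ_per (n : ℕ) : PJ a F N b n ↔ PJ a F N b (n % mJ F N) := by
  unfold PJ
  have e4 : n % mJ F N % 4 = n % 4 := Nat.mod_mod_of_dvd n (Dvd.dvd.trans (by norm_num) mJ8)
  have eN : n % mJ F N % N = n % N := Nat.mod_mod_of_dvd n (Dvd.intro (8 * ∏ i,
    md ((F i).image tr)) (by unfold mJ; ring))
  rw [e4, eN]
  refine and_congr_right fun _ => and_congr_right fun _ => forall_congr' fun i =>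
    forall_congr' fun t => forall_congr' fun ht => ?_
  have h8 : 8 ∣ md ((F i).image tr) := md8 _
  have hd := md_dvd (mem_image_of_mem tr ht)
  rw [pd_mod h8 hd (a i * n), pd_mod h8 hd (a i * (n % mJ F N))]
  have e : a i * n % md ((F i).image tr) = a i * (n % mJ F N) % md ((F i).image tr) := by
    refine Nat.ModEq.mul_left (a i) ?_
    exact ((Nat.mod_modEq n (mJ F N)).of_dvd (md_mJ i)).symm
  rw [e]

theorem cop_mJ (hbc : b.Coprime N) {n0 : ℕ} (h : PJ a F N b n0) : n0.Coprime (mJ F N) := by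
  refine Nat.Coprime.mul_right ?_ (Nat.Coprime.mul_right ?_ (Nat.Coprime.prod_right fun i _ => ?_))
  · have h1 : Nat.Coprime n0 (2 ^ 3) := Nat.Coprime.pow_right 3
      ((Nat.coprime_two_right).2 (Nat.odd_iff.2 (by have := h.1; omega)))
    exact h1
  · have hbc' := hbc
    rw [← h.2.1] at hbc'
    rw [Nat.Coprime, Nat.gcd_comm, Nat.gcd_rec]
    exact hbc'
  · by_cases he : (F i).Nonempty
    · obtain ⟨t0, ht0⟩ := he
      have h1 := (h.2.2 i t0 ht0).m4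
      have h2 : (a i * n0).Coprime (md ((F i).image tr)) := cop_md h1 fun x hx => by
        obtain ⟨t, ht, rfl⟩ := mem_image.1 hx
        exact h.2.2 i t ht
      exact h2.coprime_mul_left
    · rw [not_nonempty_iff_eq_empty] at he
      have h1 : Nat.Coprime n0 (2 ^ 3) := Nat.Coprime.pow_right 3
        ((Nat.coprime_two_right).2 (Nat.odd_iff.2 (by have := h.1; omega)))
      rw [he, image_empty, md, prod_empty, mul_one]
      exact h1

end

end Pool.Agent.Run7.h289.D18
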