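import Mathlib
import Pool.Agent.Run7.h289.D18.Lw

/-!
# Convergence of the laws in total variation
-/

set_option autoImplicit false

namespace Pool.Agent.Run7.h289.D18

open Finset Filter Topology

/-! ### Products of sums -/

theorem _root_.HasSum.congr_fun' {ι : Type} {f g : ι → ℝ} {a : ℝ} (h : HasSum f a)
    (hfg : ∀ i, g i = f i) : HasSum g a := by
  rw [funext hfg]
  exact h

theorem hasSum_pi {M : ℕ} (f : Fin M → ℕ → ℝ) (c : Fin M → ℝ) (h0 : ∀ i k, 0 ≤ f i k)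
    (h : ∀ i, HasSum (f i) (c i)) : HasSum (fun k : Fin M → ℕ => ∏ i, f i (k i)) (∏ i, c i) := by
  induction M with
  | zero =>
    rw [Fin.prod_univ_zero]
    have h1 := hasSum_unique (fun k : Fin 0 → ℕ => ∏ i, f i (k i))
    rwa [Fin.prod_univ_zero] at h1
  | succ M ih =>
    have h1 := ih (fun i => f i.succ) (fun i => c i.succ) (fun i k => h0 i.succ k)
      (fun i => h i.succ)
    have h2 := HasSum.mul (h 0) h1 (Summable.mul_of_nonneg (h 0).summable h1.summable (h0 0)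
      fun k => prod_nonneg fun i _ => h0 i.succ (k i))
    rw [Fin.prod_univ_succ]
    have h3 := (Equiv.hasSum_iff (Fin.consEquiv fun _ : Fin (M + 1) => ℕ)
      (f := fun k : Fin (M + 1) → ℕ => ∏ i, f i (k i)) (a := c 0 * ∏ i, c (Fin.succ i))).1
    refine h3 (h2.congr_fun' fun x => ?_)
    simp only [Function.comp, Fin.consEquiv_apply, Fin.prod_univ_succ, Fin.cons_zero, Fin.cons_succ]

/-! ### Finite additivity -/

theorem nm_fin (C Q : ℕ → Prop) (X : ℕ) : Finite {m : ℕ // m ≤ X ∧ C m ∧ Q m} :=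
  Set.Finite.to_subtype (s := {m : ℕ | m ≤ X ∧ C m ∧ Q m})
    ((Set.finite_Iic X).subset fun _ hm => hm.1)

theorem nm_mono {C Q Q' : ℕ → Prop} (h : ∀ m, C m → Q m → Q' m) (X : ℕ) :
    nm C Q X ≤ nm C Q' X := by
  have := nm_fin C Q' X
  unfold nm
  exact Nat.card_le_card_of_injective
    (fun m : {m : ℕ // m ≤ X ∧ C m ∧ Q m} => (⟨m.1, m.2.1, m.2.2.1, h _ m.2.2.1 m.2.2.2⟩ :
      {m : ℕ // m ≤ X ∧ C m ∧ Q' m})) fun a b hab => Subtype.ext (by
        have := congrArg Subtype.val hab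
        exact this)

theorem nm_disj {C Q Q' : ℕ → Prop} (h : ∀ m, C m → Q m → ¬ Q' m) (X : ℕ) :
    nm C (fun m => Q m ∨ Q' m) X = nm C Q X + nm C Q' X := by
  have := nm_fin C Q X
  have := nm_fin C Q' X
  unfold nm
  rw [← Nat.card_sum]
  refine Nat.card_congr ⟨fun m => ?_, fun m => ?_, ?_, ?_⟩
  · classical
    exact if hq : Q m.1 then Sum.inl ⟨m.1, m.2.1, m.2.2.1, hq⟩
      else Sum.inr ⟨m.1, m.2.1, m.2.2.1, m.2.2.2.resolve_left hq⟩
  · exact m.elim (fun x => ⟨x.1, x.2.1, x.2.2.1, Or.inl x.2.2.2⟩)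
      (fun x => ⟨x.1, x.2.1, x.2.2.1, Or.inr x.2.2.2⟩)
  · rintro ⟨m, h1, h2, h3⟩
    simp only
    split_ifs <;> rfl
  · rintro (⟨m, h1, h2, h3⟩ | ⟨m, h1, h2, h3⟩)
    · simp only [Sum.elim_inl]
      exact dif_pos h3
    · have h4 : ¬ Q m := fun h5 => h m h2 h5 h3
      simp only [Sum.elim_inr]
      exact dif_neg h4

theorem nm_false (C : ℕ → Prop) (X : ℕ) : nm C (fun _ => False) X = 0 := by
  unfold nm
  have : IsEmpty {m : ℕ // m ≤ X ∧ C m ∧ False} := ⟨fun m => m.2.2.2⟩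
  exact Nat.card_of_isEmpty

theorem nm_sum {ι : Type} {C : ℕ → Prop} {Q : ι → ℕ → Prop}
    (hd : ∀ m, C m → ∀ i j, Q i m → Q j m → i = j) (s : Finset ι) (X : ℕ) :
    nm C (fun m => ∃ i ∈ s, Q i m) X = ∑ i ∈ s, nm C (Q i) X := by
  classical
  induction s using Finset.induction_on with
  | empty =>
    rw [sum_empty, ← nm_false C X]
    exact nm_congr (fun _ => Iff.rfl) (fun m _ => by simp) X
  | insert i s hi ih =>
    rw [sum_insert hi, ← ih, ← nm_disj]
    · refine nm_congr (fun _ => Iff.rfl) (fun m _ => ?_) X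
      rw [exists_mem_insert]
    · rintro m hm h1 ⟨j, hj, h2⟩
      have := hd m hm i j h1 h2
      rw [this] at hi
      exact hi hj

theorem prp_fin {ι : Type} {C : ℕ → Prop} {Q : ι → ℕ → Prop} {p : ι → ℝ}
    (hd : ∀ m, C m → ∀ i j, Q i m → Q j m → i = j) (hp : ∀ i, Prp C (Q i) (p i)) (s : Finset ι) :
    Prp C (fun m => ∃ i ∈ s, Q i m) (∑ i ∈ s, p i) := by
  unfold Prp
  have h := tendsto_finsetSum s fun i _ => hp i
  refine h.congr fun X => ?_
  rw [nm_sum hd s X, ← sum_div]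
  push_cast
  rfl

/-- **convergence in total variation** -/
theorem prp_set {ι : Type} {C : ℕ → Prop} {Q : ι → ℕ → Prop} {p : ι → ℝ}
    (hd : ∀ m, C m → ∀ i j, Q i m → Q j m → i = j) (hp : ∀ i, Prp C (Q i) (p i))
    (hp0 : ∀ i, 0 ≤ p i) (h1 : HasSum p 1) (hC : ∃ m, C m) (A : Set ι) :
    Prp C (fun m => ∃ i ∈ A, Q i m) (∑' i : A, p i) := by
  classical
  have hsA : Summable fun i : A => p i := h1.summable.subtype A
  set t := ∑' i : A, p i with ht
  have htI : HasSum (A.indicator p) t := (hasSum_subtype_iff_indicator).1 hsA.hasSum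
  unfold Prp
  rw [Metric.tendsto_atTop]
  intro ε hε
  obtain ⟨s, hs⟩ : ∃ s : Finset ι, 1 - ε / 2 < ∑ i ∈ s, p i := by
    have h2 := (tendsto_order.1 (show Tendsto (fun s : Finset ι => ∑ i ∈ s, p i) atTop (𝓝 1)
      from h1)).1 (1 - ε / 2) (by linarith)
    exact h2.exists
  have hsplit : ∑ i ∈ s.filter (· ∈ A), p i + ∑ i ∈ s.filter (· ∉ A), p i = ∑ i ∈ s, p i :=
    sum_filter_add_sum_filter_not s (· ∈ A) p
  have hlo : ∑ i ∈ s.filter (· ∈ A), p i ≤ t := by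
    have h2 : ∑ i ∈ s.filter (· ∈ A), p i = ∑ i ∈ s.filter (· ∈ A), A.indicator p i :=
      sum_congr rfl fun i hi => (Set.indicator_of_mem (mem_filter.1 hi).2 p).symm
    rw [h2]
    exact sum_le_hasSum _ (fun i _ => Set.indicator_nonneg (fun i _ => hp0 i) i) htI
  have hhi : t + ∑ i ∈ s.filter (· ∉ A), p i ≤ 1 := by
    have h3 : HasSum ((Aᶜ : Set ι).indicator p) (1 - t) := by
      have h4 := h1.sub htI
      refine h4.congr_fun' fun i => ?_
      by_cases hi : i ∈ A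
      · rw [Set.indicator_of_mem hi,
          Set.indicator_of_notMem (s := (Aᶜ : Set ι)) (fun h => h hi), sub_self]
      · rw [Set.indicator_of_notMem hi, Set.indicator_of_mem (s := (Aᶜ : Set ι)) hi, sub_zero]
    have h2 : ∑ i ∈ s.filter (· ∉ A), p i = ∑ i ∈ s.filter (· ∉ A), (Aᶜ : Set ι).indicator p i :=
      sum_congr rfl fun i hi => (Set.indicator_of_mem (s := (Aᶜ : Set ι)) (mem_filter.1 hi).2 p).symm
    have h5 := sum_le_hasSum (s.filter (· ∉ A))
      (fun i _ => Set.indicator_nonneg (fun i _ => hp0 i) i) h3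
    rw [← h2] at h5
    linarith
  obtain ⟨X1, hX1⟩ := Metric.tendsto_atTop.1 (prp_fin hd hp (s.filter (· ∈ A))) (ε / 2) (by linarith)
  obtain ⟨X2, hX2⟩ := Metric.tendsto_atTop.1 (prp_fin hd hp (s.filter (· ∉ A))) (ε / 2) (by linarith)
  obtain ⟨m0, hm0⟩ := hC
  refine ⟨max (max X1 X2) m0, fun X hX => ?_⟩
  have hx1 := hX1 X ((le_max_left _ _).trans ((le_max_left _ _).trans hX))
  have hx2 := hX2 X ((le_max_right _ _).trans ((le_max_left _ _).trans hX))
  have hx3 : m0 ≤ X := (le_max_right _ _).trans hX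
  rw [Real.dist_eq, abs_lt] at hx1 hx2 ⊢
  have hpos : (0 : ℝ) < nm C (fun _ => True) X := by
    have := nm_fin C (fun _ => True) X
    have h2 : 0 < nm C (fun _ => True) X := by
      have : Nonempty {m : ℕ // m ≤ X ∧ C m ∧ True} := ⟨⟨m0, hx3, hm0, trivial⟩⟩
      exact Nat.card_pos
    exact_mod_cast h2
  set T : ℝ := (nm C (fun _ => True) X : ℝ) with hT
  have hA1 : (nm C (fun m => ∃ i ∈ s.filter (· ∈ A), Q i m) X : ℝ) ≤
      nm C (fun m => ∃ i ∈ A, Q i m) X := by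
    refine Nat.cast_le.2 (nm_mono (fun m _ h => ?_) X)
    obtain ⟨i, hi, hq⟩ := h
    exact ⟨i, (mem_filter.1 hi).2, hq⟩
  have hA2 : (nm C (fun m => ∃ i ∈ A, Q i m) X : ℝ) +
      nm C (fun m => ∃ i ∈ s.filter (· ∉ A), Q i m) X ≤ T := by
    have h2 := nm_disj (C := C) (Q := fun m => ∃ i ∈ A, Q i m)
      (Q' := fun m => ∃ i ∈ s.filter (· ∉ A), Q i m) (fun m hm ⟨i, hi, hq⟩ ⟨j, hj, hq'⟩ => by
        have h3 := hd m hm i j hq hq'
        rw [h3] at hi
        exact (mem_filter.1 hj).2 hi) X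
    have h3 := nm_mono (C := C) (Q := fun m => (∃ i ∈ A, Q i m) ∨
      ∃ i ∈ s.filter (· ∉ A), Q i m) (Q' := fun _ => True) (fun _ _ _ => trivial) X
    rw [h2] at h3
    have h4 : ((nm C (fun m => ∃ i ∈ A, Q i m) X +
      nm C (fun m => ∃ i ∈ s.filter (· ∉ A), Q i m) X : ℕ) : ℝ) ≤ T := Nat.cast_le.2 h3
    rwa [Nat.cast_add] at h4
  have hB1 : (nm C (fun m => ∃ i ∈ s.filter (· ∈ A), Q i m) X : ℝ) / T ≤
      nm C (fun m => ∃ i ∈ A, Q i m) X / T := div_le_div_of_nonneg_right hA1 hpos.le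
  have hB2 : (nm C (fun m => ∃ i ∈ A, Q i m) X : ℝ) / T ≤
      1 - nm C (fun m => ∃ i ∈ s.filter (· ∉ A), Q i m) X / T := by
    rw [le_sub_iff_add_le, ← add_div, div_le_one hpos]
    exact hA2
  constructor <;> linarith [hx1.1, hx1.2, hx2.1, hx2.2]

end Pool.Agent.Run7.h289.D18
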