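import Mathlib
import Pool.Agent.Run7.h289.D18.Jl
import Pool.Agent.Run7.h289.D18.Sf
import Pool.Agent.Run7.h289.J.Cl

/-!
# The joint law for curves and multipliers
-/

set_option autoImplicit false
set_option linter.unusedSectionVars false

namespace Pool.Agent.Run7.h289.D18

open Finset Filter Topology
open Pool.Agent.Run7.h238.J (tw)
open Run7.h843.L (gk gk_mem)

/-- the joint law for a union of classes -/
theorem prp_J {M : ℕ} (r : Fin M → ℕ) (a : Fin M → ℕ) (ha : Function.Injective a)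
    (hsa : ∀ k, Squarefree (a k)) (ha4 : ∀ k, a k % 4 = 1) (m : ℕ) (hm : 8 ∣ m) (hm0 : 0 < m)
    (P : ℕ → Prop) (hP : ∀ n, P n ↔ P (n % m)) (h4 : ∀ n, P n → n % 4 = 3) (b : ℕ) (hb : P b)
    (hc : b.Coprime m) :
    Prp (fun n => Squarefree n ∧ P n) (fun n => ∀ i, Nf (tw (a i) n) = 2 ^ (r i + 1))
      (∏ i, gk (r i)) := by
  classical
  have h := Pool.Agent.Run7.h424.J.dens_JNf r (Pool.Agent.Run7.h289.J.t_JDQ r) a ha hsa ha4 m hm hm0
    P hP h4 b hb hc
  unfold Prp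
  refine Tendsto.congr (fun X => ?_) h
  have h0 : ∀ n, (Squarefree n ∧ P n) → n ≠ 0 := fun n hn => hn.1.ne_zero
  symm
  refine congrArg₂ (fun a b : ℕ => (a : ℝ) / (b : ℝ)) (nm_eq h0 X fun n => ?_)
    (nm_eq h0 X fun n => ?_)
  · simp only [mem_filter, mem_Icc, and_assoc]
    rfl
  · simp only [mem_filter, mem_Icc, and_true]

section

variable {M : ℕ} {a : Fin M → ℕ} {F : Fin M → Finset (ℤ × ℤ × ℤ)} {N b : ℕ}

/-- **the joint law of the coranks** -/
theorem lawJ (h : Hyp a F) (hN : 0 < N) (hbc : b.Coprime N)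
    (hex : ∃ n, CmJ a F n ∧ n % N = b) (r : Fin M → ℕ) :
    Prp (fun n => CmJ a F n ∧ n % N = b) (fun n => ∀ i, Nf (tw (a i) n) = 2 ^ (r i + 1))
      (∏ i, gk (r i)) := by
  obtain ⟨n0, h0, h1⟩ := hex
  have h2 := (cmJ_iff h h0 n0).1 ⟨h0, h1⟩
  refine Prp.congr (fun n => (cmJ_iff h h0 n).symm) (fun _ _ => Iff.rfl) ?_
  exact prp_J r a h.inj h.sqf h.one (mJ F N) mJ8 (mJ_pos h hN h0) (PJ a F N b) PJ_per
    (fun n hn => hn.1) n0 h2.2 (cop_mJ hbc h2.2)

theorem lowJ (h : Hyp a F) (hN : 0 < N) (hbc : b.Coprime N)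
    (hex : ∃ n, CmJ a F n ∧ n % N = b) : ∃ α : ℝ, 0 < α ∧ ∀ᶠ X : ℕ in atTop,
      α * X ≤ (nm (fun n => CmJ a F n ∧ n % N = b) (fun _ => True) X : ℝ) := by
  obtain ⟨n0, h0, h1⟩ := hex
  have h2 := (cmJ_iff h h0 n0).1 ⟨h0, h1⟩
  obtain ⟨α, hα, h3⟩ := low_nm (mJ F N) mJ8 (mJ_pos h hN h0) (PJ a F N b) PJ_per n0 h2.2
    (cop_mJ hbc h2.2)
  refine ⟨α, hα, h3.mono fun X hX => ?_⟩
  rwa [nm_congr (C' := fun n => Squarefree n ∧ PJ a F N b n) (Q' := fun _ => True)
    (cmJ_iff h h0) (fun _ _ => Iff.rfl) X]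

theorem hasSum_prod_gk (M : ℕ) : HasSum (fun r : Fin M → ℕ => ∏ i, gk (r i)) 1 := by
  have h := hasSum_pi (M := M) (fun _ => gk) (fun _ => 1) (fun _ k => (gk_mem k).1)
    fun _ => Run7.h843.L.gk_hasSum
  rwa [prod_const_one] at h

/-- **convergence in total variation** -/
theorem law_set (h : Hyp a F) (hN : 0 < N) (hbc : b.Coprime N)
    (hex : ∃ n, CmJ a F n ∧ n % N = b) (A : Set (Fin M → ℕ)) :
    Prp (fun n => CmJ a F n ∧ n % N = b)
      (fun n => ∃ r ∈ A, ∀ i, Nf (tw (a i) n) = 2 ^ (r i + 1)) (∑' r : A, ∏ i, gk (r.1 i)) :=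
  prp_set (p := fun r : Fin M → ℕ => ∏ i, gk (r i)) (fun n _ r s h1 h2 => funext fun i => by
    have h3 := (h1 i).symm.trans (h2 i)
    have h4 := Nat.pow_right_injective le_rfl h3
    omega) (lawJ h hN hbc hex) (fun r => prod_nonneg fun i _ => (gk_mem (r i)).1)
    (hasSum_prod_gk M) hex A

/-- the proportion of a pattern -/
theorem tsum_pat (S : Finset (Fin M)) :
    ∑' r : {r : Fin M → ℕ | ∀ i, r i = 0 ↔ i ∈ S}, ∏ i, gk (r.1 i) =
      gk 0 ^ S.card * (1 - gk 0) ^ (M - S.card) := by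
  classical
  have h0 : HasSum (fun k : ℕ => if k = 0 then gk 0 else 0) (gk 0) := hasSum_ite_eq 0 (gk 0)
  have h1 := hasSum_pi (M := M) (fun i k => if (k = 0 ↔ i ∈ S) then gk k else 0)
    (fun i => if i ∈ S then gk 0 else 1 - gk 0) (fun i k => by
      split_ifs
      · exact (gk_mem k).1
      · exact le_rfl) fun i => by
      by_cases hi : i ∈ S
      · rw [if_pos hi]
        refine h0.congr_fun' fun k => ?_
        simp only [hi, iff_true]
        split_ifs with hk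
        · rw [hk]
        · rfl
      · rw [if_neg hi]
        refine (Run7.h843.L.gk_hasSum.sub h0).congr_fun' fun k => ?_
        simp only [hi, iff_false]
        by_cases hk : k = 0
        · rw [if_neg (not_not.2 hk), if_pos hk, hk, sub_self]
        · rw [if_pos hk, if_neg hk, sub_zero]
  have h2 : HasSum (({r : Fin M → ℕ | ∀ i, r i = 0 ↔ i ∈ S} : Set (Fin M → ℕ)).indicator
      fun r => ∏ i, gk (r i)) (∏ i, if i ∈ S then gk 0 else 1 - gk 0) := by
    refine h1.congr_fun' fun r => ?_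
    by_cases hr : r ∈ ({r : Fin M → ℕ | ∀ i, r i = 0 ↔ i ∈ S} : Set (Fin M → ℕ))
    · rw [Set.indicator_of_mem hr]
      exact prod_congr rfl fun i _ => (if_pos (hr i)).symm
    · rw [Set.indicator_of_notMem hr]
      obtain ⟨i, hi⟩ := not_forall.1 hr
      exact (prod_eq_zero (mem_univ i) (if_neg hi)).symm
  have h3 := (hasSum_subtype_iff_indicator.2 h2).tsum_eq
  refine h3.trans ?_
  rw [prod_ite, prod_const, prod_const]
  have e1 : (univ.filter fun i : Fin M => i ∈ S) = S := by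
    ext i
    simp
  have e2 : (univ.filter fun i : Fin M => i ∉ S).card = M - S.card := by
    have := card_filter_add_card_filter_not (s := (univ : Finset (Fin M))) (fun i => i ∈ S)
    rw [e1, card_univ, Fintype.card_fin] at this
    omega
  rw [e1, e2]

end

/-! ### The multipliers -/

theorem isq_mul {l : ℕ} (hl : l.Prime) {x y : ZMod l} (hx : IsSquare x) (h0 : x ≠ 0) :
    IsSquare (x * y) ↔ IsSquare y := by
  have : Fact l.Prime := ⟨hl⟩
  constructor
  · rintro ⟨s, hs⟩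
    obtain ⟨t, ht⟩ := hx
    refine ⟨s / t, ?_⟩
    have ht0 : t ≠ 0 := by
      rintro rfl
      exact h0 (by rw [ht, mul_zero])
    rw [div_mul_div_comm, ← hs, ← ht]
    field_simp
  · intro hy
    exact hx.mul hy

/-- multipliers which are squares at the bad primes do not change the condition -/
theorem ad_mul {u v w : ℤ} (hw : w = 1 ∨ w = -1) {a m : ℕ} (ha : Squarefree a)
    (hm : Squarefree m) (h8 : a % 8 = 1)
    (hsq : ∀ l : ℕ, l.Prime → l ≠ 2 → (l : ℤ) ∣ u * v * (u ^ 2 - v ^ 2) →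
      IsSquare (a : ZMod l) ∧ ¬ l ∣ a) : Ad u v (w * tw a m) ↔ Ad u v (w * m) := by
  have e8 : tw a m % 8 = m % 8 := by
    rw [tw8 (by omega), Nat.mul_mod, h8, one_mul, Nat.mod_mod]
  have hs := tw_sqf ha hm
  have hsm : 0 < (m : ℤ) := by
    have := hm.ne_zero
    omega
  have hst : 0 < (tw a m : ℤ) := by
    have := hs.ne_zero
    omega
  have hab : ∀ x : ℕ, (w * (x : ℤ)).natAbs = x := by
    intro x
    rcases hw with rfl | rfl
    · rw [one_mul, Int.natAbs_natCast]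
    · rw [neg_one_mul, Int.natAbs_neg, Int.natAbs_natCast]
  have hsf : Squarefree (w * (tw a m : ℤ)) ↔ Squarefree (w * (m : ℤ)) := by
    rw [← Int.squarefree_natAbs, ← Int.squarefree_natAbs, hab, hab]
    exact ⟨fun _ => hm, fun _ => hs⟩
  have key : ∀ l : ℕ, l.Prime → l ≠ 2 → (l : ℤ) ∣ u * v * (u ^ 2 - v ^ 2) → ∀ z : ℤ,
      (IsSquare ((z * tw a m : ℤ) : ZMod l) ↔ IsSquare ((z * m : ℤ) : ZMod l)) := by
    intro l hl hl2 hd z
    obtain ⟨h1, h2⟩ := hsq l hl hl2 hd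
    rw [sq_tw hl h2 z]
    have e : ((z * (a * m : ℕ) : ℤ) : ZMod l) = (a : ZMod l) * ((z * m : ℤ) : ZMod l) := by
      push_cast
      ring
    rw [e]
    exact isq_mul hl h1 (by rwa [Ne, ZMod.natCast_eq_zero_iff])
  have key2 : ∀ l : ℕ, l.Prime → l ≠ 2 → (l : ℤ) ∣ u * v * (u ^ 2 - v ^ 2) →
      (IsSquare (-((w * tw a m : ℤ) : ZMod l)) ↔ IsSquare (-((w * m : ℤ) : ZMod l))) := by
    intro l hl hl2 hd
    have h := key l hl hl2 hd (-w)
    have e : ∀ x : ℤ, -((w * x : ℤ) : ZMod l) = ((-w * x : ℤ) : ZMod l) := by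
      intro x
      push_cast
      ring
    rw [e, e]
    exact h
  have hp1 : 0 < w * (tw a m : ℤ) ↔ 0 < w * (m : ℤ) := by
    rcases hw with rfl | rfl <;> constructor <;> intro <;> omega
  have hp2 : w * (tw a m : ℤ) < 0 ↔ w * (m : ℤ) < 0 := by
    rcases hw with rfl | rfl <;> constructor <;> intro <;> omega
  have hm8 : 0 < w * (m : ℤ) → (w * (tw a m : ℤ) % 8 = 3 ↔ w * (m : ℤ) % 8 = 3) := by
    intro h
    rcases hw with rfl | rfl <;> omega
  constructor
  · intro h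
    refine ⟨hsf.1 h.sqf, ?_, fun l hl hl2 hd => ?_, fun l hl hl2 hd => ?_, fun hp => ?_,
      fun hn => ?_⟩
    · have := h.m4
      rw [hab] at this ⊢
      omega
    · rw [← key l hl hl2 (hd.mul_right _)]
      exact h.nb l hl hl2 hd
    · rw [← key2 l hl hl2 (hd.mul_left _)]
      exact h.ng l hl hl2 hd
    · rw [← hm8 hp]
      exact h.pos (hp1.2 hp)
    · have := h.neg (hp2.2 hn)
      rw [hab, e8] at this
      rw [hab]
      exact this
  · intro h
    refine ⟨hsf.2 h.sqf, ?_, fun l hl hl2 hd => ?_, fun l hl hl2 hd => ?_, fun hp => ?_,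
      fun hn => ?_⟩
    · have := h.m4
      rw [hab] at this ⊢
      omega
    · rw [key l hl hl2 (hd.mul_right _)]
      exact h.nb l hl hl2 hd
    · rw [key2 l hl hl2 (hd.mul_left _)]
      exact h.ng l hl hl2 hd
    · rw [hm8 (hp1.1 hp)]
      exact h.pos (hp1.1 hp)
    · have := h.neg (hp2.1 hn)
      rw [hab] at this
      rw [hab, e8]
      exact this

end Pool.Agent.Run7.h289.D18
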